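import Pool.Agent.Lib.MT.Defs
import Pool.Agent.Lib.P4a7640.Mertens

/-!
# The density of the integers coprime to a primorial
-/

open Finset
open scoped Classical

namespace Pool.Agent.Lib.MT

namespace Sing

lemma dens_primorial (D : ℕ) :
    dens (primorial D) = ∏ p ∈ Nat.primesLE D, (1 - 1 / (p:ℝ)) := by
  unfold dens
  have h1 := Nat.totient_eq_mul_prod_factors (primorial D)
  have h2 : ((primorial D).totient : ℝ) =
      (primorial D : ℝ) * ∏ p ∈ (primorial D).primeFactors, (1 - ((p:ℝ))⁻¹) := by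
    have h4 := congrArg (fun x : ℚ => (x : ℝ)) h1
    push_cast at h4
    exact h4
  have h3 : (primorial D : ℝ) ≠ 0 := by exact_mod_cast primorial_ne_zero D
  rw [h2, primeFactors_primorial, mul_div_cancel_left₀ _ h3]
  simp only [one_div]

lemma sum_inv_pred_le (D : ℕ) :
    ∑ p ∈ Nat.primesLE D, 1 / ((p:ℝ) * (p - 1)) ≤ 1 := by
  have h1 : ∀ n : ℕ, ∑ k ∈ Finset.Ioc 1 (n+1), 1 / ((k:ℝ) * (k - 1)) = 1 - 1 / ((n:ℝ) + 1) := by
    intro n
    induction n with
    | zero => simp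
    | succ n ih =>
      rw [← Finset.insert_Ioc_right_eq_Ioc_add_one (by omega), Finset.sum_insert (by simp), ih]
      push_cast
      field_simp
      ring
  have h2 : ∑ p ∈ Nat.primesLE D, 1 / ((p:ℝ) * (p - 1)) ≤
      ∑ k ∈ Finset.Ioc 1 (D+1), 1 / ((k:ℝ) * (k - 1)) := by
    apply Finset.sum_le_sum_of_subset_of_nonneg
    · intro p hp
      rw [Nat.mem_primesLE] at hp
      rw [mem_Ioc]
      exact ⟨hp.2.one_lt, by omega⟩
    · intro k hk _
      rw [mem_Ioc] at hk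
      have : (1:ℝ) ≤ k := by exact_mod_cast hk.1.le
      apply div_nonneg (by norm_num)
      apply mul_nonneg (by linarith) (by linarith)
  rw [h1] at h2
  have : 0 ≤ 1 / ((D:ℝ) + 1) := by positivity
  linarith

lemma dens_primorial_ge (D : ℕ) (hD : 3 ≤ D) :
    Real.exp (-7) / Real.log D ≤ dens (primorial D) := by
  rw [dens_primorial]
  have hD3 : (3:ℝ) ≤ D := by exact_mod_cast hD
  have hlogD : 0 < Real.log D := Real.log_pos (by linarith)
  have h1 : ∀ p ∈ Nat.primesLE D, Real.exp (-(1 / (p:ℝ)) - 1 / ((p:ℝ) * (p - 1))) ≤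
      1 - 1 / (p:ℝ) := by
    intro p hp
    have hp2 := Nat.two_le_of_mem_primesLE hp
    have hp2' : (2:ℝ) ≤ p := by exact_mod_cast hp2
    have hp0 : (0:ℝ) < p := by linarith
    have hp1 : (0:ℝ) < (p:ℝ) - 1 := by linarith
    have h2 : -(1 / (p:ℝ)) - 1 / ((p:ℝ) * (p - 1)) = - (1 / ((p:ℝ) - 1)) := by
      field_simp
      ring
    rw [h2, Real.exp_neg]
    have h3 : 1 + 1 / ((p:ℝ) - 1) ≤ Real.exp (1 / ((p:ℝ) - 1)) := by
      have := Real.add_one_le_exp (1 / ((p:ℝ) - 1))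
      linarith
    have h4 : (1 - 1 / (p:ℝ)) = (1 + 1 / ((p:ℝ) - 1))⁻¹ := by
      field_simp
      ring
    rw [h4]
    apply inv_anti₀ (by positivity) h3
  have h2 : ∏ p ∈ Nat.primesLE D, Real.exp (-(1 / (p:ℝ)) - 1 / ((p:ℝ) * (p - 1))) ≤
      ∏ p ∈ Nat.primesLE D, (1 - 1 / (p:ℝ)) :=
    Finset.prod_le_prod (fun _ _ => (Real.exp_pos _).le) h1
  refine le_trans ?_ h2
  rw [← Real.exp_sum, Finset.sum_sub_distrib, Finset.sum_neg_distrib]
  have h3 := P4a7640.sum_inv_primes_le D hD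
  have h4 := sum_inv_pred_le D
  calc Real.exp (-7) / Real.log D = Real.exp (-7 - Real.log (Real.log D)) := by
        rw [Real.exp_sub, Real.exp_log hlogD]
    _ ≤ _ := by
        apply Real.exp_le_exp.2
        linarith

end Sing

end Pool.Agent.Lib.MT
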