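import Pool.Agent.Lib.MT.Defs

/-!
# One dimensional sums coprime to W

Here sum1 (Pr W R) κ (indicator of a set of a ≤ R) is the sum over squarefree a coprime to W of
κ(a) = prod over p | a of κ(p) (subsets T of Pr W R with prod T ≤ R correspond to squarefree a
coprime to W, all prime factors are ≤ a ≤ R).
-/

open Finset
open scoped Classical

namespace Pool.Agent.Lib.MT

namespace OneDim

lemma harm_cast (n : ℕ) : ((harmonic n : ℚ) : ℝ) = ∑ i ∈ Finset.Icc 1 n, (1:ℝ) / i := by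
  rw [harmonic_eq_sum_Icc, Rat.cast_sum]
  refine Finset.sum_congr rfl fun i _ => ?_
  rw [Rat.cast_inv, Rat.cast_natCast, one_div]

/-- harmonic sums over intervals -/
lemma harm_le {v' x : ℝ} (hv' : 0 < v') (hx : v' ≤ x) (M : Finset ℕ)
    (hM : ∀ m ∈ M, v' < (m : ℝ) ∧ (m : ℝ) ≤ x) :
    ∑ m ∈ M, (1:ℝ) / m ≤ 1 + Real.log (x / v') := by
  have hx0 : 0 < x := hv'.trans_le hx
  have hab : ⌊v'⌋₊ ≤ ⌊x⌋₊ := Nat.floor_mono hx
  have h1 : ∑ m ∈ M, (1:ℝ) / m ≤ ∑ m ∈ Finset.Icc 1 ⌊x⌋₊ \ Finset.Icc 1 ⌊v'⌋₊, (1:ℝ) / m := by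
    refine Finset.sum_le_sum_of_subset_of_nonneg ?_ fun i _ _ => by positivity
    intro m hm
    obtain ⟨h2, h3⟩ := hM m hm
    have h4 : 0 < m := by
      have : (0:ℝ) < m := hv'.trans h2
      exact_mod_cast this
    have h5 : m ≤ ⌊x⌋₊ := Nat.le_floor h3
    have h6 : ⌊v'⌋₊ < m := (Nat.floor_lt hv'.le).2 h2
    simp only [Finset.mem_sdiff, Finset.mem_Icc, not_and, not_le]
    exact ⟨⟨h4, h5⟩, fun _ => h6⟩
  have h2 : ∑ m ∈ Finset.Icc 1 ⌊x⌋₊ \ Finset.Icc 1 ⌊v'⌋₊, (1:ℝ) / m =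
      ((harmonic ⌊x⌋₊ : ℚ) : ℝ) - ((harmonic ⌊v'⌋₊ : ℚ) : ℝ) := by
    rw [harm_cast, harm_cast, eq_sub_iff_add_eq]
    exact Finset.sum_sdiff (Finset.Icc_subset_Icc_right hab)
  have h3 := harmonic_le_one_add_log ⌊x⌋₊
  have h4 := log_add_one_le_harmonic ⌊v'⌋₊
  have h5 : Real.log ⌊x⌋₊ ≤ Real.log x ∨ ⌊x⌋₊ = 0 := by
    rcases Nat.eq_zero_or_pos ⌊x⌋₊ with h | h
    · exact Or.inr h
    · left
      exact Real.log_le_log (by exact_mod_cast h) (Nat.floor_le hx0.le)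
  have h6 : Real.log v' ≤ Real.log ((⌊v'⌋₊ + 1 : ℕ) : ℝ) := by
    refine Real.log_le_log hv' ?_
    push_cast
    exact (Nat.lt_floor_add_one v').le
  rw [Real.log_div hx0.ne' hv'.ne']
  rcases h5 with h5 | h5
  · linarith
  · have h7 : ⌊v'⌋₊ = 0 := by omega
    rw [h2, h5, h7] at h1
    have h8 : Real.log v' ≤ Real.log x := Real.log_le_log hv' hx
    simp only [harmonic_zero, Rat.cast_zero, sub_zero] at h1
    linarith

/-- telescoping product -/
lemma tele (M : ℕ) : (1:ℝ) / 2 ≤ ∏ m ∈ Finset.Icc 2 (M + 1), (1 - 1 / ((m:ℝ) ^ 2)) := by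
  have h : ∀ M : ℕ, ∏ m ∈ Finset.Icc 2 (M + 1), (1 - 1 / ((m:ℝ) ^ 2)) =
      ((M:ℝ) + 2) / (2 * ((M:ℝ) + 1)) := by
    intro M
    induction M with
    | zero => norm_num
    | succ M ih =>
      rw [← Finset.insert_Icc_right_eq_Icc_add_one (by omega), Finset.prod_insert (by simp), ih]
      push_cast
      field_simp
      ring
  rw [h, div_le_div_iff₀ (by norm_num) (by positivity)]
  linarith

lemma prod_sq (Q : Finset ℕ) (hQ : ∀ p ∈ Q, p.Prime) :
    (1:ℝ) / 2 ≤ ∏ p ∈ Q, (1 - 1 / ((p:ℝ) ^ 2)) := by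
  set M := Q.sup id with hM
  have hsub : Q ⊆ Finset.Icc 2 (M + 1) := by
    intro p hp
    have h1 := (hQ p hp).two_le
    have h2 : p ≤ M := Finset.le_sup (f := id) hp
    simp only [Finset.mem_Icc]
    omega
  have hpos : ∀ m ∈ Finset.Icc 2 (M + 1), 0 ≤ 1 - 1 / ((m:ℝ) ^ 2) := by
    intro m hm
    have h1 : (2:ℝ) ≤ m := by exact_mod_cast (Finset.mem_Icc.1 hm).1
    have h2 : 1 / ((m:ℝ) ^ 2) ≤ 1 := by
      rw [div_le_one (by positivity)]
      nlinarith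
    linarith
  refine (tele M).trans ?_
  rw [← Finset.prod_sdiff hsub]
  have h1 : ∏ m ∈ Finset.Icc 2 (M + 1) \ Q, (1 - 1 / ((m:ℝ) ^ 2)) ≤ 1 := by
    refine Finset.prod_le_one (fun m hm => hpos m (Finset.mem_sdiff.1 hm).1) fun m _ => ?_
    have : (0:ℝ) ≤ 1 / ((m:ℝ) ^ 2) := by positivity
    linarith
  have h2 : 0 ≤ ∏ p ∈ Q, (1 - 1 / ((p:ℝ) ^ 2)) :=
    Finset.prod_nonneg fun p hp => hpos p (hsub hp)
  nlinarith

lemma dens_eq {W : ℕ} (hW : 1 ≤ W) : dens W = ∏ p ∈ W.primeFactors, (1 - 1 / (p:ℝ)) := by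
  have h := Nat.totient_eq_mul_prod_factors W
  have h2 : ((W.totient : ℚ) : ℝ) = ((W * ∏ p ∈ W.primeFactors, (1 - (p:ℚ)⁻¹) : ℚ) : ℝ) := by
    rw [h]
  push_cast at h2
  have hW0 : (W:ℝ) ≠ 0 := by positivity
  unfold dens
  rw [h2, mul_div_assoc, mul_comm, div_mul_cancel₀ _ hW0]
  simp only [one_div]

lemma dens_nonneg (W : ℕ) : 0 ≤ dens W := by unfold dens; positivity

/-- the main inequality for the upper bound -/
lemma base_upper {W : ℕ} (hW : 1 ≤ W) (P : Finset ℕ) (hP : ∀ p ∈ P, p.Prime ∧ ¬ p ∣ W) {v' v : ℝ}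
    (hv' : 0 < v') (hv : v' ≤ v) :
    ∑ T ∈ P.powerset, (if v' < ((∏ p ∈ T, p : ℕ) : ℝ) ∧ ((∏ p ∈ T, p : ℕ) : ℝ) ≤ v then (1:ℝ) else 0)
      * ∏ p ∈ T, (1 / (p:ℝ)) ≤ 2 * dens W * (1 + Real.log (v / v') + Real.log W) := by
  set D := W.primeFactors with hD
  have hW0 : (0:ℝ) < W := by exact_mod_cast hW
  have hDp : ∀ p ∈ D, p.Prime := fun p hp => Nat.prime_of_mem_primeFactors hp
  have hdisj : ∀ T ⊆ P, ∀ E ⊆ D, Disjoint T E := by
    intro T hT E hE
    rw [Finset.disjoint_left]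
    intro p hp hp'
    exact (hP p (hT hp)).2 (Nat.dvd_of_mem_primeFactors (hE hp'))
  set S := ∑ T ∈ P.powerset, (if v' < ((∏ p ∈ T, p : ℕ) : ℝ) ∧ ((∏ p ∈ T, p : ℕ) : ℝ) ≤ v then (1:ℝ)
    else 0) * ∏ p ∈ T, (1 / (p:ℝ)) with hS
  have hfac : S * ∏ p ∈ D, (1 + 1 / (p:ℝ)) ≤ 1 + Real.log (v * W / v') := by
    rw [Finset.prod_one_add, hS, Finset.sum_mul_sum, ← Finset.sum_product']
    set A := (P.powerset ×ˢ D.powerset).filter (fun x => v' < ((∏ p ∈ x.1, p : ℕ) : ℝ) ∧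
      ((∏ p ∈ x.1, p : ℕ) : ℝ) ≤ v) with hA
    have h1 : ∑ x ∈ P.powerset ×ˢ D.powerset,
        (if v' < ((∏ p ∈ x.1, p : ℕ) : ℝ) ∧ ((∏ p ∈ x.1, p : ℕ) : ℝ) ≤ v then (1:ℝ) else 0) *
          (∏ p ∈ x.1, (1 / (p:ℝ))) * ∏ p ∈ x.2, (1 / (p:ℝ)) =
        ∑ x ∈ A, (1:ℝ) / ((∏ p ∈ x.1, p) * (∏ p ∈ x.2, p) : ℕ) := by
      rw [hA, Finset.sum_filter]
      refine Finset.sum_congr rfl fun x _ => ?_
      split_ifs with h
      · rw [one_mul]
        push_cast
        rw [Finset.prod_div_distrib, Finset.prod_div_distrib]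
        simp only [Finset.prod_const_one]
        rw [div_mul_div_comm, one_mul]
      · simp
    rw [h1]
    have hinj : Set.InjOn (fun x : Finset ℕ × Finset ℕ => (∏ p ∈ x.1, p) * (∏ p ∈ x.2, p)) A := by
      rintro ⟨T, E⟩ hx ⟨T', E'⟩ hx' heq
      simp only [hA, Finset.coe_filter, Finset.mem_product, Finset.mem_powerset,
        Set.mem_ofPred_eq] at hx hx' heq
      have key : ∀ T E : Finset ℕ, T ⊆ P → E ⊆ D →
          ((∏ p ∈ T, p) * (∏ p ∈ E, p)).primeFactors = T ∪ E := by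
        intro T E hT hE
        rw [← Finset.prod_union (hdisj T hT E hE)]
        apply Nat.primeFactors_prod
        intro p hp
        rcases Finset.mem_union.1 hp with h | h
        · exact (hP p (hT h)).1
        · exact hDp p (hE h)
      have h2 : T ∪ E = T' ∪ E' := by
        rw [← key T E hx.1.1 hx.1.2, heq, key T' E' hx'.1.1 hx'.1.2]
      have h3 : ∀ T E T' E' : Finset ℕ, T ⊆ P → E ⊆ D → T' ⊆ P → E' ⊆ D → T ∪ E = T' ∪ E' →
          T ⊆ T' := by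
        intro T E T' E' hT hE hT' hE' h p hp
        have : p ∈ T' ∪ E' := h ▸ Finset.mem_union_left _ hp
        rcases Finset.mem_union.1 this with h4 | h4
        · exact h4
        · exact absurd h4 (Finset.disjoint_left.1 (hdisj T hT E' hE') hp)
      have h4 : T = T' := Finset.Subset.antisymm
        (h3 T E T' E' hx.1.1 hx.1.2 hx'.1.1 hx'.1.2 h2)
        (h3 T' E' T E hx'.1.1 hx'.1.2 hx.1.1 hx.1.2 h2.symm)
      have h5 : ∀ T E T' E' : Finset ℕ, T ⊆ P → E ⊆ D → T' ⊆ P → E' ⊆ D → T ∪ E = T' ∪ E' →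
          E ⊆ E' := by
        intro T E T' E' hT hE hT' hE' h p hp
        have : p ∈ T' ∪ E' := h ▸ Finset.mem_union_right _ hp
        rcases Finset.mem_union.1 this with h4 | h4
        · exact absurd hp (Finset.disjoint_left.1 (hdisj T' hT' E hE) h4)
        · exact h4
      have h6 : E = E' := Finset.Subset.antisymm
        (h5 T E T' E' hx.1.1 hx.1.2 hx'.1.1 hx'.1.2 h2)
        (h5 T' E' T E hx'.1.1 hx'.1.2 hx.1.1 hx.1.2 h2.symm)
      rw [h4, h6]
    rw [← Finset.sum_image (f := fun m : ℕ => (1:ℝ) / m) hinj]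
    have hW1 : (1:ℝ) ≤ W := by exact_mod_cast hW
    have hv0 : 0 < v := hv'.trans_le hv
    apply harm_le hv'
    · nlinarith
    · intro m hm
      obtain ⟨⟨T, E⟩, hx, rfl⟩ := Finset.mem_image.1 hm
      simp only [hA, Finset.mem_filter, Finset.mem_product, Finset.mem_powerset] at hx
      obtain ⟨⟨hT, hE⟩, h3, h4⟩ := hx
      have h5 : ∏ p ∈ E, p ∣ W :=
        (Finset.prod_dvd_prod_of_subset _ _ _ hE).trans (Nat.prod_primeFactors_dvd W)
      have h6 : ∏ p ∈ E, p ≤ W := Nat.le_of_dvd hW h5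
      have h7 : 1 ≤ ∏ p ∈ E, p := Nat.pos_of_dvd_of_pos h5 hW
      have h8 : ((∏ p ∈ E, p : ℕ) : ℝ) ≤ W := by exact_mod_cast h6
      have h9 : (1:ℝ) ≤ ((∏ p ∈ E, p : ℕ) : ℝ) := by exact_mod_cast h7
      constructor
      · calc v' < ((∏ p ∈ T, p : ℕ) : ℝ) := h3
          _ ≤ ((∏ p ∈ T, p : ℕ) : ℝ) * ((∏ p ∈ E, p : ℕ) : ℝ) := by
              have : (0:ℝ) ≤ ((∏ p ∈ T, p : ℕ) : ℝ) := Nat.cast_nonneg _
              nlinarith
          _ = _ := by simp only [Nat.cast_mul]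
      · calc (((∏ p ∈ T, p) * (∏ p ∈ E, p) : ℕ) : ℝ)
            = ((∏ p ∈ T, p : ℕ) : ℝ) * ((∏ p ∈ E, p : ℕ) : ℝ) := by simp only [Nat.cast_mul]
          _ ≤ v * W := by gcongr
  have hprod : (1:ℝ) ≤ 2 * dens W * ∏ p ∈ D, (1 + 1 / (p:ℝ)) := by
    rw [dens_eq hW, mul_assoc, ← Finset.prod_mul_distrib]
    have h1 : ∏ p ∈ D, ((1 - 1 / (p:ℝ)) * (1 + 1 / (p:ℝ))) = ∏ p ∈ D, (1 - 1 / ((p:ℝ) ^ 2)) := by
      refine Finset.prod_congr rfl fun p hp => ?_
      have : (p:ℝ) ≠ 0 := by exact_mod_cast (hDp p hp).ne_zero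
      field_simp
      ring
    rw [← hD, h1]
    have := prod_sq D hDp
    linarith
  have hS0 : 0 ≤ S := by
    rw [hS]
    refine Finset.sum_nonneg fun T _ => mul_nonneg ?_ (Finset.prod_nonneg fun p _ => by positivity)
    split_ifs <;> norm_num
  have hv0 : 0 < v := hv'.trans_le hv
  have hlog : Real.log (v * W / v') = Real.log (v / v') + Real.log W := by
    rw [mul_div_right_comm, Real.log_mul (by positivity) (by positivity)]
  rw [hlog] at hfac
  have hd := dens_nonneg W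
  calc S = S * 1 := (mul_one S).symm
    _ ≤ S * (2 * dens W * ∏ p ∈ D, (1 + 1 / (p:ℝ))) := by gcongr
    _ = 2 * dens W * (S * ∏ p ∈ D, (1 + 1 / (p:ℝ))) := by ring
    _ ≤ 2 * dens W * (1 + Real.log (v / v') + Real.log W) := by
        apply mul_le_mul_of_nonneg_left _ (by positivity)
        linarith

/-- the correction -/
noncomputable def cc (p : ℕ) : ℝ := (2 * (p:ℝ) - 1) / ((p:ℝ) - 1) ^ 2

lemma kap_eq {p : ℕ} (hp : p.Prime) : κ₂ p = (1 + cc p) * (1 / (p:ℝ)) := by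
  have h1 : (p:ℝ) ≠ 0 := by exact_mod_cast hp.ne_zero
  have h2 : (p:ℝ) - 1 ≠ 0 := by
    have : (2:ℝ) ≤ p := by exact_mod_cast hp.two_le
    intro h
    linarith
  unfold κ₂ cc
  field_simp
  ring

lemma cc_nonneg {p : ℕ} (hp : p.Prime) : 0 ≤ cc p := by
  have : (2:ℝ) ≤ p := by exact_mod_cast hp.two_le
  unfold cc
  apply div_nonneg _ (by positivity)
  linarith

lemma ind_upper {W : ℕ} (hW : 1 ≤ W) (P : Finset ℕ) (hP : ∀ p ∈ P, p.Prime ∧ ¬ p ∣ W)
    (Q : Finset ℕ) : Q ⊆ P → ∀ v' v : ℝ, 0 < v' → v' ≤ v →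
    ∑ T ∈ P.powerset, (if v' < ((∏ p ∈ T, p : ℕ) : ℝ) ∧ ((∏ p ∈ T, p : ℕ) : ℝ) ≤ v then (1:ℝ) else 0)
      * ∏ p ∈ T, (if p ∈ Q then κ₂ p else 1 / (p:ℝ)) ≤
      (∏ p ∈ Q, (1 + cc p / p)) * (2 * dens W * (1 + Real.log (v / v') + Real.log W)) := by
  induction Q using Finset.induction_on with
  | empty =>
    intro _ v' v hv' hv
    simpa using base_upper hW P hP hv' hv
  | insert q Q hq ih =>
    intro hQ v' v hv' hv
    have hqP : q ∈ P := hQ (Finset.mem_insert_self q Q)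
    have hQP : Q ⊆ P := (Finset.subset_insert q Q).trans hQ
    have hqp := (hP q hqP).1
    have hq0 : (0:ℝ) < q := by exact_mod_cast hqp.pos
    have hPe : insert q (P.erase q) = P := Finset.insert_erase hqP
    have hne : q ∉ P.erase q := Finset.notMem_erase q P
    set g : Finset ℕ → ℝ := fun T => ∏ p ∈ T, (if p ∈ Q then κ₂ p else 1 / (p:ℝ)) with hg
    have hwnn : ∀ p ∈ P, 0 ≤ (if p ∈ Q then κ₂ p else 1 / (p:ℝ)) := by
      intro p hp
      split_ifs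
      · rw [kap_eq (hP p hp).1]
        have := cc_nonneg (hP p hp).1
        positivity
      · positivity
    have hgnn : ∀ T ⊆ P, 0 ≤ g T := fun T hT => Finset.prod_nonneg fun p hp => hwnn p (hT hp)
    -- weights without q
    have e1 : ∀ T ⊆ P.erase q, ∏ p ∈ T, (if p ∈ insert q Q then κ₂ p else 1 / (p:ℝ)) = g T := by
      intro T hT
      refine Finset.prod_congr rfl fun p hp => ?_
      have : p ≠ q := Finset.ne_of_mem_erase (hT hp)
      simp [Finset.mem_insert, this]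
    have e2 : ∀ T ⊆ P.erase q, ∏ p ∈ insert q T, (if p ∈ insert q Q then κ₂ p else 1 / (p:ℝ)) =
        (1 + cc q) * (1 / (q:ℝ)) * g T := by
      intro T hT
      have h1 : q ∉ T := fun h => hne (hT h)
      rw [Finset.prod_insert h1, e1 T hT]
      simp only [Finset.mem_insert_self, if_true]
      rw [kap_eq hqp]
    have e3 : ∀ T ⊆ P.erase q, g (insert q T) = (1 / (q:ℝ)) * g T := by
      intro T hT
      have h1 : q ∉ T := fun h => hne (hT h)
      simp only [hg]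
      rw [Finset.prod_insert h1]
      simp [hq]
    have ePi : ∀ T ⊆ P.erase q, ((∏ p ∈ insert q T, p : ℕ) : ℝ) = q * ((∏ p ∈ T, p : ℕ) : ℝ) := by
      intro T hT
      have h1 : q ∉ T := fun h => hne (hT h)
      rw [Finset.prod_insert h1, Nat.cast_mul]
    -- bound for the part with q
    have h1 := ih hQP v' v hv' hv
    have h2 := ih hQP (v' / q) (v / q) (by positivity) (by gcongr)
    have hrat : v / q / (v' / q) = v / v' := by field_simp
    rw [hrat] at h2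
    set B := 2 * dens W * (1 + Real.log (v / v') + Real.log W) with hB
    have h3 : ∑ T ∈ (P.erase q).powerset,
        (if v' < ((∏ p ∈ insert q T, p : ℕ) : ℝ) ∧ ((∏ p ∈ insert q T, p : ℕ) : ℝ) ≤ v
          then (1:ℝ) else 0) * g T ≤ (∏ p ∈ Q, (1 + cc p / p)) * B := by
      refine le_trans ?_ h2
      refine le_trans (Finset.sum_le_sum (g := fun T => (if v' / q < ((∏ p ∈ T, p : ℕ) : ℝ) ∧
        ((∏ p ∈ T, p : ℕ) : ℝ) ≤ v / q then (1:ℝ) else 0) * g T) ?_) ?_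
      · intro T hT
        have hT' : T ⊆ P.erase q := Finset.mem_powerset.1 hT
        have hT2 : T ⊆ P := hT'.trans (Finset.erase_subset q P)
        have e4 : (v' < ((∏ p ∈ insert q T, p : ℕ) : ℝ) ∧ ((∏ p ∈ insert q T, p : ℕ) : ℝ) ≤ v) ↔
            (v' / q < ((∏ p ∈ T, p : ℕ) : ℝ) ∧ ((∏ p ∈ T, p : ℕ) : ℝ) ≤ v / q) := by
          rw [ePi T hT', div_lt_iff₀ hq0, le_div_iff₀ hq0, mul_comm (q:ℝ)]
        rw [if_congr e4 rfl rfl]
      · refine Finset.sum_le_sum_of_subset_of_nonneg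
          (Finset.powerset_mono.2 (Finset.erase_subset q P)) fun T hT _ => ?_
        apply mul_nonneg _ (hgnn T (Finset.mem_powerset.1 hT))
        split_ifs <;> norm_num
    have h4 : ∑ T ∈ P.powerset, (if v' < ((∏ p ∈ T, p : ℕ) : ℝ) ∧ ((∏ p ∈ T, p : ℕ) : ℝ) ≤ v
        then (1:ℝ) else 0) * ∏ p ∈ T, (if p ∈ insert q Q then κ₂ p else 1 / (p:ℝ)) =
        ∑ T ∈ P.powerset, (if v' < ((∏ p ∈ T, p : ℕ) : ℝ) ∧ ((∏ p ∈ T, p : ℕ) : ℝ) ≤ v
          then (1:ℝ) else 0) * g T + (cc q / q) * ∑ T ∈ (P.erase q).powerset,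
        (if v' < ((∏ p ∈ insert q T, p : ℕ) : ℝ) ∧ ((∏ p ∈ insert q T, p : ℕ) : ℝ) ≤ v
          then (1:ℝ) else 0) * g T := by
      have h5 := Finset.sum_powerset_insert hne (fun T => (if v' < ((∏ p ∈ T, p : ℕ) : ℝ) ∧
        ((∏ p ∈ T, p : ℕ) : ℝ) ≤ v then (1:ℝ) else 0) * ∏ p ∈ T, (if p ∈ insert q Q then κ₂ p
          else 1 / (p:ℝ)))
      have h6 := Finset.sum_powerset_insert hne (fun T => (if v' < ((∏ p ∈ T, p : ℕ) : ℝ) ∧
        ((∏ p ∈ T, p : ℕ) : ℝ) ≤ v then (1:ℝ) else 0) * g T)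
      rw [hPe] at h5 h6
      rw [h5, h6, Finset.mul_sum, add_assoc]
      have h7 : ∀ (a b c d : ℝ), a = b → c = d → a + c = b + d := by
        intro a b c d h h'
        rw [h, h']
      apply h7
      · refine Finset.sum_congr rfl fun T hT => ?_
        rw [e1 T (Finset.mem_powerset.1 hT)]
      · rw [← Finset.sum_add_distrib]
        refine Finset.sum_congr rfl fun T hT => ?_
        rw [e2 T (Finset.mem_powerset.1 hT), e3 T (Finset.mem_powerset.1 hT)]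
        ring
    rw [h4, Finset.prod_insert hq]
    have h5 : 0 ≤ cc q / q := div_nonneg (cc_nonneg hqp) hq0.le
    calc _ ≤ (∏ p ∈ Q, (1 + cc p / p)) * B + (cc q / q) * ((∏ p ∈ Q, (1 + cc p / p)) * B) :=
          add_le_add h1 (mul_le_mul_of_nonneg_left h3 h5)
      _ = _ := by ring

lemma prod_cc (P : Finset ℕ) (hP : ∀ p ∈ P, p.Prime) : ∏ p ∈ P, (1 + cc p / p) ≤ Real.exp 4 := by
  have h1 : ∏ p ∈ P, (1 + cc p / p) ≤ ∏ p ∈ P, (1 + 2 * (((p - 1 : ℕ) : ℝ) ^ 2)⁻¹) := by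
    refine Finset.prod_le_prod ?_ ?_
    · intro p hp
      have := cc_nonneg (hP p hp)
      positivity
    · intro p hp
      have h2 : (2:ℝ) ≤ p := by exact_mod_cast (hP p hp).two_le
      have h3 : ((p - 1 : ℕ) : ℝ) = (p:ℝ) - 1 := by
        rw [Nat.cast_sub (hP p hp).one_le, Nat.cast_one]
      rw [h3]
      unfold cc
      have h4 : (2 * (p:ℝ) - 1) / ((p:ℝ) - 1) ^ 2 / p = ((2 * (p:ℝ) - 1) / p) * (((p:ℝ) - 1) ^ 2)⁻¹ := by
        field_simp
      have h5 : (2 * (p:ℝ) - 1) / p ≤ 2 := by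
        rw [div_le_iff₀ (by linarith)]
        linarith
      rw [h4]
      gcongr
  refine h1.trans ?_
  refine (Real.prod_one_add_le_exp_sum P (fun i => by positivity)).trans ?_
  apply Real.exp_le_exp.2
  rw [← Finset.mul_sum]
  have h2 : ∑ p ∈ P, (((p - 1 : ℕ) : ℝ) ^ 2)⁻¹ ≤ 2 := by
    have hinj : Set.InjOn (fun p : ℕ => p - 1) P := by
      intro a ha b hb hab
      have h3 := (hP a ha).two_le
      have h4 := (hP b hb).two_le
      simp only at hab
      omega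
    rw [← Finset.sum_image (f := fun m : ℕ => (((m:ℕ) : ℝ) ^ 2)⁻¹) hinj]
    have h3 := sum_Ioo_inv_sq_le (α := ℝ) 0 (P.sup id + 1)
    refine le_trans ?_ (h3.trans (by norm_num))
    refine Finset.sum_le_sum_of_subset_of_nonneg ?_ fun i _ _ => by positivity
    intro m hm
    obtain ⟨p, hp, rfl⟩ := Finset.mem_image.1 hm
    have h4 := (hP p hp).two_le
    have h5 : p ≤ P.sup id := Finset.le_sup (f := id) hp
    simp only [Finset.mem_Ioo]
    omega
  linarith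

/-- numbers with prescribed radical -/
lemma exact_support (S : Finset ℕ) (hS : ∀ p ∈ S, p.Prime) (N : Finset ℕ)
    (hN : ∀ n ∈ N, n ≠ 0 ∧ n.primeFactors = S) :
    ∑ n ∈ N, (1:ℝ) / n ≤ ∏ p ∈ S, κ₁ p := by
  let f : ℕ →* ℝ :=
    { toFun := fun n => (n:ℝ)⁻¹
      map_one' := by simp
      map_mul' := fun a b => by push_cast; rw [mul_inv] }
  have hf : ∀ {p : ℕ}, p.Prime → ‖f p‖ < 1 := by
    intro p hp
    have h2 : (2:ℝ) ≤ p := by exact_mod_cast hp.two_le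
    show ‖((p:ℝ))⁻¹‖ < 1
    rw [norm_inv, Real.norm_natCast]
    exact inv_lt_one_of_one_lt₀ (by linarith)
  have hsum := (EulerProduct.summable_and_hasSum_factoredNumbers_prod_filter_prime_geometric
    (f := f) hf S).2
  have hfil : S.filter Nat.Prime = S := Finset.filter_true_of_mem hS
  rw [hfil] at hsum
  have hpd : ∀ n ∈ N, (∏ p ∈ S, p) ∣ n := by
    intro n hn
    have := Nat.prod_primeFactors_dvd n
    rwa [(hN n hn).2] at this
  have hpos : 0 < ∏ p ∈ S, p := Finset.prod_pos fun p hp => (hS p hp).pos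
  have hmem : ∀ n ∈ N, n / (∏ p ∈ S, p) ∈ Nat.factoredNumbers S := by
    intro n hn
    have h1 : n / (∏ p ∈ S, p) ∣ n := Nat.div_dvd_of_dvd (hpd n hn)
    refine Nat.mem_factoredNumbers_of_dvd (m := n) ?_ h1
    refine ⟨(hN n hn).1, fun p hp => ?_⟩
    rw [← (hN n hn).2]
    exact List.mem_toFinset.2 hp
  have hinj : Set.InjOn (fun n => n / (∏ p ∈ S, p)) N := by
    intro a ha b hb hab
    simp only at hab
    rw [← Nat.div_mul_cancel (hpd a ha), hab, Nat.div_mul_cancel (hpd b hb)]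
  have h1 : ∑ m ∈ N.image (fun n => n / (∏ p ∈ S, p)), f m ≤ ∏ p ∈ S, (1 - f p)⁻¹ := by
    have h2 := (hasSum_subtype_iff_indicator (f := fun m : ℕ => f m)
      (s := Nat.factoredNumbers S)).1 hsum
    have h3 := sum_le_hasSum (N.image (fun n => n / (∏ p ∈ S, p))) (fun i _ => by
      apply Set.indicator_nonneg
      intro x _
      show 0 ≤ ((x:ℝ))⁻¹
      positivity) h2
    refine le_trans (le_of_eq ?_) h3
    refine Finset.sum_congr rfl fun m hm => ?_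
    obtain ⟨n, hn, rfl⟩ := Finset.mem_image.1 hm
    exact (Set.indicator_of_mem (hmem n hn) _).symm
  rw [Finset.sum_image hinj] at h1
  have h2 : ∑ n ∈ N, (1:ℝ) / n = (∏ p ∈ S, (1 / (p:ℝ))) * ∑ n ∈ N, f (n / (∏ p ∈ S, p)) := by
    rw [Finset.mul_sum]
    refine Finset.sum_congr rfl fun n hn => ?_
    have h3 : (n:ℝ) = (∏ p ∈ S, (p:ℝ)) * ((n / (∏ p ∈ S, p) : ℕ) : ℝ) := by
      have := Nat.mul_div_cancel' (hpd n hn)
      rw [← Nat.cast_prod, ← Nat.cast_mul, this]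
    show (1:ℝ) / n = (∏ p ∈ S, (1 / (p:ℝ))) * ((n / (∏ p ∈ S, p) : ℕ) : ℝ)⁻¹
    rw [Finset.prod_div_distrib, Finset.prod_const_one]
    conv_lhs => rw [h3]
    rw [one_div, one_div, mul_inv]
  rw [h2]
  calc (∏ p ∈ S, (1 / (p:ℝ))) * ∑ n ∈ N, f (n / (∏ p ∈ S, p))
      ≤ (∏ p ∈ S, (1 / (p:ℝ))) * ∏ p ∈ S, (1 - f p)⁻¹ := by
        apply mul_le_mul_of_nonneg_left h1
        exact Finset.prod_nonneg fun p _ => by positivity
    _ = ∏ p ∈ S, κ₁ p := by
        rw [← Finset.prod_mul_distrib]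
        refine Finset.prod_congr rfl fun p hp => ?_
        have h4 : (2:ℝ) ≤ p := by exact_mod_cast (hS p hp).two_le
        have h5 : (p:ℝ) - 1 ≠ 0 := by intro h; linarith
        have h6 : (p:ℝ) ≠ 0 := by intro h; linarith
        show 1 / (p:ℝ) * (1 - ((p:ℝ))⁻¹)⁻¹ = 1 / ((p:ℝ) - 1)
        have h7 : 1 - ((p:ℝ))⁻¹ = ((p:ℝ) - 1) / p := by field_simp
        rw [h7, inv_div]
        field_simp

lemma kap1_nonneg {p : ℕ} (hp : p.Prime) : 0 ≤ κ₁ p := by
  have : (2:ℝ) ≤ p := by exact_mod_cast hp.two_le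
  unfold κ₁
  apply div_nonneg zero_le_one
  linarith

/-- removing a set of primes -/
lemma remove (u : ℕ) (D : Finset ℕ) (hD : ∀ p ∈ D, p.Prime) : ∀ P : Finset ℕ,
    (∀ p ∈ P, p.Prime) →
    (∏ p ∈ D, (1 - 1 / (p:ℝ))) * ∑ T ∈ P.powerset, (if (∏ p ∈ T, p) ≤ u then (1:ℝ) else 0) *
      ∏ p ∈ T, κ₁ p ≤ ∑ T ∈ (P \ D).powerset, (if (∏ p ∈ T, p) ≤ u then (1:ℝ) else 0) *
      ∏ p ∈ T, κ₁ p := by
  induction D using Finset.induction_on with
  | empty => intro P _; simp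
  | insert q D hq ih =>
    intro P hP
    have hDp : ∀ p ∈ D, p.Prime := fun p hp => hD p (Finset.mem_insert_of_mem hp)
    have hqp : q.Prime := hD q (Finset.mem_insert_self q D)
    have hq2 : (2:ℝ) ≤ q := by exact_mod_cast hqp.two_le
    have h1 := ih hDp (P.erase q) (fun p hp => hP p (Finset.mem_of_mem_erase hp))
    have h2 : P.erase q \ D = P \ insert q D := by
      ext x
      simp only [Finset.mem_sdiff, Finset.mem_erase, Finset.mem_insert, not_or]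
      tauto
    rw [h2] at h1
    refine le_trans ?_ h1
    rw [Finset.prod_insert hq, mul_comm (1 - 1 / (q:ℝ)), mul_assoc]
    have h0 : 0 ≤ ∏ p ∈ D, (1 - 1 / (p:ℝ)) := by
      refine Finset.prod_nonneg fun p hp => ?_
      have : (2:ℝ) ≤ p := by exact_mod_cast (hDp p hp).two_le
      have h3 : 1 / (p:ℝ) ≤ 1 := by
        rw [div_le_one (by linarith)]
        linarith
      linarith
    apply mul_le_mul_of_nonneg_left _ h0
    have hnn : ∀ T ⊆ P, 0 ≤ ∏ p ∈ T, κ₁ p :=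
      fun T hT => Finset.prod_nonneg fun p hp => kap1_nonneg (hP p (hT hp))
    have hc : 0 ≤ 1 - 1 / (q:ℝ) ∧ 1 - 1 / (q:ℝ) ≤ 1 ∧ (1 - 1 / (q:ℝ)) * (1 + κ₁ q) = 1 := by
      have h3 : 1 / (q:ℝ) ≤ 1 := by
        rw [div_le_one (by linarith)]
        linarith
      have h4 : 0 ≤ 1 / (q:ℝ) := by positivity
      refine ⟨by linarith, by linarith, ?_⟩
      have h5 : (q:ℝ) - 1 ≠ 0 := by intro h; linarith
      unfold κ₁
      field_simp
      ring
    by_cases hqP : q ∈ P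
    · have hne : q ∉ P.erase q := Finset.notMem_erase q P
      have h5 := Finset.sum_powerset_insert hne (fun T => (if (∏ p ∈ T, p) ≤ u then (1:ℝ) else 0) *
        ∏ p ∈ T, κ₁ p)
      rw [Finset.insert_erase hqP] at h5
      rw [h5]
      have h6 : ∑ T ∈ (P.erase q).powerset, (if (∏ p ∈ insert q T, p) ≤ u then (1:ℝ) else 0) *
          ∏ p ∈ insert q T, κ₁ p ≤ κ₁ q * ∑ T ∈ (P.erase q).powerset,
            (if (∏ p ∈ T, p) ≤ u then (1:ℝ) else 0) * ∏ p ∈ T, κ₁ p := by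
        rw [Finset.mul_sum]
        refine Finset.sum_le_sum fun T hT => ?_
        have hT' : T ⊆ P.erase q := Finset.mem_powerset.1 hT
        have h7 : q ∉ T := fun h => hne (hT' h)
        rw [Finset.prod_insert h7, Finset.prod_insert h7]
        have h8 : (if q * ∏ p ∈ T, p ≤ u then (1:ℝ) else 0) ≤ (if ∏ p ∈ T, p ≤ u then (1:ℝ) else 0) := by
          by_cases h9 : q * ∏ p ∈ T, p ≤ u
          · have h10 : ∏ p ∈ T, p ≤ u := le_trans (Nat.le_mul_of_pos_left _ hqp.pos) h9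
            simp [h9, h10]
          · simp only [h9, if_false]
            split_ifs <;> norm_num
        have h9 := kap1_nonneg hqp
        have h10 := hnn T (hT'.trans (Finset.erase_subset q P))
        calc (if q * ∏ p ∈ T, p ≤ u then (1:ℝ) else 0) * (κ₁ q * ∏ p ∈ T, κ₁ p)
            ≤ (if ∏ p ∈ T, p ≤ u then (1:ℝ) else 0) * (κ₁ q * ∏ p ∈ T, κ₁ p) := by gcongr
          _ = _ := by ring
      set X := ∑ T ∈ (P.erase q).powerset, (if (∏ p ∈ T, p) ≤ u then (1:ℝ) else 0) *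
        ∏ p ∈ T, κ₁ p with hX
      calc (1 - 1 / (q:ℝ)) * (X + ∑ T ∈ (P.erase q).powerset,
          (if (∏ p ∈ insert q T, p) ≤ u then (1:ℝ) else 0) * ∏ p ∈ insert q T, κ₁ p)
          ≤ (1 - 1 / (q:ℝ)) * (X + κ₁ q * X) := by
            apply mul_le_mul_of_nonneg_left _ hc.1
            linarith
        _ = ((1 - 1 / (q:ℝ)) * (1 + κ₁ q)) * X := by ring
        _ = X := by rw [hc.2.2, one_mul]
    · rw [Finset.erase_eq_of_notMem hqP]
      have h3 : 0 ≤ ∑ T ∈ P.powerset, (if (∏ p ∈ T, p) ≤ u then (1:ℝ) else 0) * ∏ p ∈ T, κ₁ p := by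
        refine Finset.sum_nonneg fun T hT => mul_nonneg ?_ (hnn T (Finset.mem_powerset.1 hT))
        split_ifs <;> norm_num
      nlinarith [hc.2.1]

end OneDim

open OneDim

theorem sum1_lower (W R u : ℕ) (hW : 1 ≤ W) (hu : 1 ≤ u) (huR : u ≤ R) :
    dens W * Real.log u ≤ sum1 (Pr W R) κ₁ (fun a => if a ≤ u then 1 else 0) := by
  set P := (Finset.Icc 1 R).filter Nat.Prime with hP
  have hPp : ∀ p ∈ P, p.Prime := fun p hp => (Finset.mem_filter.1 hp).2
  have hPr : Pr W R = P \ W.primeFactors := by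
    ext p
    simp only [Pr, hP, Finset.mem_filter, Finset.mem_sdiff, Finset.mem_Icc, Nat.mem_primeFactors]
    constructor
    · rintro ⟨h1, h2, h3⟩
      exact ⟨⟨h1, h2⟩, fun h => h3 h.2.1⟩
    · rintro ⟨⟨h1, h2⟩, h3⟩
      exact ⟨h1, h2, fun h => h3 ⟨h2, h, by omega⟩⟩
  have h1 := remove u W.primeFactors (fun p hp => Nat.prime_of_mem_primeFactors hp) P hPp
  rw [← hPr, ← dens_eq hW] at h1
  refine le_trans ?_ h1
  apply mul_le_mul_of_nonneg_left _ (dens_nonneg W)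
  have h2 : Real.log u ≤ ∑ n ∈ Finset.Icc 1 u, (1:ℝ) / n := by
    rw [← harm_cast]
    refine le_trans ?_ (log_add_one_le_harmonic u)
    apply Real.log_le_log (by exact_mod_cast hu)
    push_cast
    linarith
  refine h2.trans ?_
  have hmaps : ∀ n ∈ Finset.Icc 1 u, n.primeFactors ∈ P.powerset := by
    intro n hn
    rw [Finset.mem_powerset]
    intro p hp
    have h3 := Nat.prime_of_mem_primeFactors hp
    have h4 := Nat.le_of_mem_primeFactors hp
    have h5 := Finset.mem_Icc.1 hn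
    simp only [hP, Finset.mem_filter, Finset.mem_Icc]
    exact ⟨⟨h3.one_le, by omega⟩, h3⟩
  rw [← Finset.sum_fiberwise_of_maps_to hmaps]
  refine Finset.sum_le_sum fun S hS => ?_
  have hSp : ∀ p ∈ S, p.Prime := fun p hp => hPp p (Finset.mem_powerset.1 hS hp)
  have hnn : 0 ≤ ∏ p ∈ S, κ₁ p := Finset.prod_nonneg fun p hp => kap1_nonneg (hSp p hp)
  by_cases h3 : ∏ p ∈ S, p ≤ u
  · simp only [h3, if_true, one_mul]
    refine exact_support S hSp _ ?_
    intro n hn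
    have h4 := Finset.mem_filter.1 hn
    have h5 := Finset.mem_Icc.1 h4.1
    exact ⟨by omega, h4.2⟩
  · simp only [h3, if_false, zero_mul]
    apply le_of_eq
    apply Finset.sum_eq_zero
    intro n hn
    exfalso
    have h4 := Finset.mem_filter.1 hn
    have h5 := Finset.mem_Icc.1 h4.1
    apply h3
    rw [← h4.2]
    exact (Nat.le_of_dvd (by omega) (Nat.prod_primeFactors_dvd n)).trans h5.2

theorem sum1_upper : ∃ C : ℝ, 1 ≤ C ∧ ∀ (W R : ℕ) (u' u : ℝ), 1 ≤ W → 0 < u' → u' ≤ u → 1 ≤ u →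
    u ≤ R → sum1 (Pr W R) κ₂ (fun a => if u' < a ∧ a ≤ u then 1 else 0) ≤
      C * dens W * (Real.log (u / u') + 1 + Real.log W) := by
  refine ⟨2 * Real.exp 4, ?_, ?_⟩
  · have : (1:ℝ) ≤ Real.exp 4 := Real.one_le_exp (by norm_num)
    linarith
  · intro W R u' u hW hu' hu _ _
    have hP : ∀ p ∈ Pr W R, p.Prime ∧ ¬ p ∣ W := fun p hp => (Finset.mem_filter.1 hp).2
    have h1 := ind_upper hW (Pr W R) hP (Pr W R) (Finset.Subset.refl _) u' u hu' hu
    have h2 := prod_cc (Pr W R) (fun p hp => (hP p hp).1)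
    have h3 : sum1 (Pr W R) κ₂ (fun a => if u' < a ∧ a ≤ u then 1 else 0) =
        ∑ T ∈ (Pr W R).powerset, (if u' < ((∏ p ∈ T, p : ℕ) : ℝ) ∧ ((∏ p ∈ T, p : ℕ) : ℝ) ≤ u
          then (1:ℝ) else 0) * ∏ p ∈ T, (if p ∈ Pr W R then κ₂ p else 1 / (p:ℝ)) := by
      unfold sum1
      refine Finset.sum_congr rfl fun T hT => ?_
      have : ∏ p ∈ T, κ₂ p = ∏ p ∈ T, (if p ∈ Pr W R then κ₂ p else 1 / (p:ℝ)) := by
        refine Finset.prod_congr rfl fun p hp => ?_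
        rw [if_pos (Finset.mem_powerset.1 hT hp)]
      rw [this]
    rw [h3]
    refine h1.trans ?_
    have hu0 : 0 < u := hu'.trans_le hu
    have h4 : 0 ≤ Real.log (u / u') := Real.log_nonneg (by rw [le_div_iff₀ hu']; linarith)
    have h5 : 0 ≤ Real.log W := Real.log_nonneg (by exact_mod_cast hW)
    have h6 := dens_nonneg W
    have h7 : 0 ≤ 2 * dens W * (1 + Real.log (u / u') + Real.log W) := by positivity
    calc (∏ p ∈ Pr W R, (1 + cc p / p)) * (2 * dens W * (1 + Real.log (u / u') + Real.log W))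
        ≤ Real.exp 4 * (2 * dens W * (1 + Real.log (u / u') + Real.log W)) := by gcongr
      _ = _ := by ring

end Pool.Agent.Lib.MT
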