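import Pool.Agent.Lib.MT.Defs

/-!
# The error terms of the second sum

PROOF SKETCH. The number of pairs (r, s) with mpair r s = m is at most c^(omega m), c = (k+1)²,
and m is squarefree, coprime to W, m ≤ R² (mpair ≤ dtot r * dtot s). So the sum is at most
L² sum_{m ≤ R²} c^(omega m) Err(W m), where L bounds |lam|. By Cauchy-Schwarz and the trivial bound
Err q ≤ N (log N)²/q: ≤ L² (sum_m c^(2 omega m) N (log N)²/(W m))^(1/2) (sum_{q ≤ Q} Err q)^(1/2),
and for squarefree m, C^(omega m) = number of C-tuples with product m, so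
sum_{m ≤ M} c^(2 omega m)/m ≤ (1 + log M)^(c²). Take A' = 2A + 8k·k + c² + 10 or so. (Group the
pairs by the value of mpair, or bound the sum over pairs directly.)
-/

open Finset
open scoped Classical

namespace Pool.Agent.Lib.MT

/-- the product of a set of primes of `P` -/
noncomputable def pr {P : Finset ℕ} (S : Finset P) : ℕ := ∏ p ∈ S, (p : ℕ)

/-- the sets of primes with product at most `M` -/
noncomputable def TT (P : Finset ℕ) (M : ℕ) : Finset (Finset P) :=
  Finset.univ.filter fun S => pr S ≤ M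

/-- the support of a pair -/
noncomputable def supp {P : Finset ℕ} {k : ℕ} (x : Asg P k × Asg P k) : Finset P :=
  Finset.univ.filter fun p => ¬ (x.1 p = none ∧ x.2 p = none)

theorem mpair_eq {P : Finset ℕ} {k : ℕ} (r s : Asg P k) : mpair r s = pr (supp (r, s)) := by
  unfold mpair pr supp
  rw [Finset.prod_filter]
  refine Finset.prod_congr rfl fun p _ => ?_
  by_cases h : r p = none ∧ s p = none
  · simp [h]
  · rw [if_neg h, if_pos h]

theorem pr_pos {P : Finset ℕ} (hP : ∀ p ∈ P, p.Prime) (S : Finset P) : 0 < pr S :=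
  Finset.prod_pos fun p _ => (hP p p.2).pos

theorem pr_injective {P : Finset ℕ} (hP : ∀ p ∈ P, p.Prime) :
    Function.Injective (pr : Finset P → ℕ) := by
  have h : ∀ S : Finset P, (pr S).primeFactors = Finset.image (Subtype.val : P → ℕ) S := by
    intro S
    have h1 : pr S = ∏ p ∈ Finset.image (Subtype.val : P → ℕ) S, p := by
      rw [Finset.prod_image fun _ _ _ _ h => Subtype.ext h]; rfl
    rw [h1, Nat.primeFactors_prod]
    intro p hp
    obtain ⟨q, -, rfl⟩ := Finset.mem_image.1 hp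
    exact hP _ q.2
  intro S T hST
  have h2 := congrArg Nat.primeFactors hST
  rw [h, h] at h2
  exact Finset.image_injective Subtype.val_injective h2

theorem pr_mono {P : Finset ℕ} (hP : ∀ p ∈ P, p.Prime) {S T : Finset P} (h : S ⊆ T) :
    pr S ≤ pr T :=
  Finset.prod_le_prod_of_subset_of_one_le' h fun p _ _ => (hP p p.2).one_le

theorem pr_supp_le {P : Finset ℕ} {k : ℕ} (hP : ∀ p ∈ P, p.Prime) (r s : Asg P k) :
    pr (supp (r, s)) ≤ dtot r * dtot s := by
  rw [← mpair_eq]
  unfold mpair dtot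
  rw [← Finset.prod_mul_distrib]
  refine Finset.prod_le_prod' fun p _ => ?_
  have hp : 1 ≤ (p : ℕ) := (hP p p.2).one_le
  by_cases h1 : r p = none
  · by_cases h2 : s p = none
    · simp [h1, h2]
    · simp [h1, h2]
  · by_cases h2 : s p = none
    · simp [h1, h2]
    · simp only [h1, h2, false_and, if_false]
      nlinarith

/-- the number of pairs with a given support -/
theorem card_supp_le {P : Finset ℕ} {k : ℕ} (S : Finset P) :
    (Finset.univ.filter fun x : Asg P k × Asg P k => supp x = S).card ≤ ((k + 1) ^ 2) ^ S.card := by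
  have h1 : Fintype.card (S → Option (Fin k) × Option (Fin k)) = ((k + 1) ^ 2) ^ S.card := by
    rw [Fintype.card_fun, Fintype.card_prod, Fintype.card_option, Fintype.card_fin,
      Fintype.card_coe, sq]
  rw [← h1, ← Finset.card_univ]
  refine Finset.card_le_card_of_injOn (fun x (p : S) => (x.1 p.1, x.2 p.1))
    (fun _ _ => Finset.mem_univ _) ?_
  intro x hx y hy hxy
  simp only [Finset.coe_filter, Finset.mem_univ, true_and, Set.mem_ofPred_eq] at hx hy
  have h2 : ∀ p : P, x.1 p = y.1 p ∧ x.2 p = y.2 p := by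
    intro p
    by_cases hp : p ∈ S
    · have h3 := congrFun hxy ⟨p, hp⟩
      simp only [Prod.mk.injEq] at h3
      exact h3
    · have hx' : p ∉ supp x := by rw [hx]; exact hp
      have hy' : p ∉ supp y := by rw [hy]; exact hp
      simp only [supp, Finset.mem_filter, Finset.mem_univ, true_and, not_not] at hx' hy'
      exact ⟨hx'.1.trans hy'.1.symm, hx'.2.trans hy'.2.symm⟩
  exact Prod.ext (funext fun p => (h2 p).1) (funext fun p => (h2 p).2)

/-- sums of divisor type -/
theorem sum_pow_le {P : Finset ℕ} (hP : ∀ p ∈ P, p.Prime) (M C : ℕ) :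
    ∑ S ∈ TT P M, (C : ℝ) ^ S.card / (pr S : ℝ) ≤ (∑ S ∈ TT P M, 1 / (pr S : ℝ)) ^ C := by
  have hpos : ∀ S : Finset P, (0:ℝ) < pr S := fun S => by exact_mod_cast pr_pos hP S
  induction C with
  | zero =>
    rw [pow_zero]
    have h1 : ∀ S ∈ TT P M, ((0 : ℕ) : ℝ) ^ S.card / (pr S : ℝ) = if S = ∅ then 1 else 0 := by
      intro S _
      by_cases h : S = ∅
      · subst h; simp [pr]
      · have : S.card ≠ 0 := by rwa [Ne, Finset.card_eq_zero]
        rw [if_neg h]; simp [this]
    rw [Finset.sum_congr rfl h1, Finset.sum_ite_eq']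
    split_ifs <;> norm_num
  | succ C ih =>
    have h1 : ∀ S ∈ TT P M, (((C + 1 : ℕ) : ℝ)) ^ S.card / (pr S : ℝ) =
        ∑ U ∈ S.powerset, ((C : ℝ) ^ U.card / (pr U : ℝ)) * (1 / (pr (S \ U) : ℝ)) := by
      intro S _
      push_cast
      rw [← Finset.sum_pow_mul_eq_add_pow (C : ℝ) 1 S, Finset.sum_div]
      refine Finset.sum_congr rfl fun U hU => ?_
      have h2 : pr U * pr (S \ U) = pr S := by
        unfold pr
        rw [mul_comm]
        exact Finset.prod_sdiff (Finset.mem_powerset.1 hU)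
      have h3 : (pr S : ℝ) = (pr U : ℝ) * (pr (S \ U) : ℝ) := by exact_mod_cast h2.symm
      rw [h3, one_pow, mul_one, div_mul_div_comm, mul_one]
    rw [Finset.sum_congr rfl h1, pow_succ]
    calc ∑ S ∈ TT P M, ∑ U ∈ S.powerset, ((C : ℝ) ^ U.card / (pr U : ℝ)) * (1 / (pr (S \ U) : ℝ))
        ≤ (∑ U ∈ TT P M, (C : ℝ) ^ U.card / (pr U : ℝ)) * (∑ V ∈ TT P M, 1 / (pr V : ℝ)) := by
          rw [Finset.sum_mul_sum, ← Finset.sum_product', Finset.sum_sigma']
          have hinj : Set.InjOn (fun x : (_ : Finset P) × Finset P => (x.2, x.1 \ x.2))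
              ((TT P M).sigma fun S => S.powerset) := by
            rintro ⟨S, U⟩ hS ⟨S', U'⟩ hS' he
            simp only [Finset.coe_sigma, Set.mem_sigma_iff, Finset.mem_coe,
              Finset.mem_powerset] at hS hS'
            simp only [Prod.mk.injEq] at he
            obtain ⟨rfl, h2⟩ := he
            have h3 : S = S' := by
              rw [← Finset.sdiff_union_of_subset hS.2, h2, Finset.sdiff_union_of_subset hS'.2]
            subst h3
            rfl
          rw [← Finset.sum_image (f := fun x : Finset P × Finset P =>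
            ((C : ℝ) ^ x.1.card / (pr x.1 : ℝ)) * (1 / (pr x.2 : ℝ))) hinj]
          refine Finset.sum_le_sum_of_subset_of_nonneg ?_ fun x _ _ => ?_
          · intro x hx
            obtain ⟨⟨S, U⟩, hSU, rfl⟩ := Finset.mem_image.1 hx
            simp only [Finset.mem_sigma, Finset.mem_powerset] at hSU
            simp only [Finset.mem_product, TT, Finset.mem_filter, Finset.mem_univ, true_and] at hSU ⊢
            exact ⟨(pr_mono hP hSU.2).trans hSU.1, (pr_mono hP Finset.sdiff_subset).trans hSU.1⟩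
          · have := hpos x.1
            have := hpos x.2
            positivity
      _ ≤ _ := mul_le_mul_of_nonneg_right ih (Finset.sum_nonneg fun S _ => by
            have := hpos S
            positivity)

theorem sum_TT_le {P : Finset ℕ} (hP : ∀ p ∈ P, p.Prime) (M : ℕ) (f : ℕ → ℝ)
    (hf : ∀ n ∈ Finset.Icc 1 M, 0 ≤ f n) :
    ∑ S ∈ TT P M, f (pr S) ≤ ∑ n ∈ Finset.Icc 1 M, f n := by
  rw [← Finset.sum_image (f := f) (fun _ _ _ _ h => pr_injective hP h)]
  refine Finset.sum_le_sum_of_subset_of_nonneg ?_ fun n hn _ => hf n hn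
  intro n hn
  obtain ⟨S, hS, rfl⟩ := Finset.mem_image.1 hn
  simp only [TT, Finset.mem_filter, Finset.mem_univ, true_and] at hS
  exact Finset.mem_Icc.2 ⟨pr_pos hP S, hS⟩

theorem sum_inv_TT {P : Finset ℕ} (hP : ∀ p ∈ P, p.Prime) {M : ℕ} (hM : 1 ≤ M) :
    ∑ S ∈ TT P M, 1 / (pr S : ℝ) ≤ 1 + Real.log M := by
  refine (sum_TT_le hP M (fun n => 1 / (n : ℝ)) fun _ _ => by positivity).trans ?_
  have h := harmonic_le_one_add_log M
  rw [harmonic_eq_sum_Icc] at h
  push_cast at h
  simpa only [one_div] using h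

theorem bv_sum (k A : ℕ) : ∃ A' : ℕ, ∃ N₀ : ℝ, ∀ N : ℝ, N₀ ≤ N → ∀ (W R Q : ℕ) (Err : ℕ → ℝ),
    1 ≤ W → 1 ≤ R → W * R ^ 2 ≤ Q → (Q:ℝ) ≤ N → (∀ q, 0 ≤ Err q) →
    (∑ q ∈ Finset.Icc 1 Q, Err q ≤ N / (Real.log N) ^ A') →
    (∀ q ∈ Finset.Icc 1 Q, Err q ≤ N * (Real.log N) ^ 2 / q) →
    ∀ P : Finset ℕ, (∀ p ∈ P, p.Prime ∧ ¬ p ∣ W) → ∀ lam : Asg P k → ℝ,
    (∀ s, |lam s| ≤ (Real.log N) ^ (2*k)) → (∀ s, R < dtot s → lam s = 0) →
    ∑ r, ∑ s, |lam r| * |lam s| * Err (W * mpair r s) ≤ N / (Real.log N) ^ A := by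
  refine ⟨8 * k + 2 + 2 * ((k+1)^2)^2 + 2 * A, Real.exp 2, ?_⟩
  intro N hN W R Q Err hW hR hWQ hQN hE hsum hpt P hP lam hlam hlam0
  have hPp : ∀ p ∈ P, p.Prime := fun p hp => (hP p hp).1
  have hN0 : 0 < N := (Real.exp_pos 2).trans_le hN
  set L := Real.log N with hL
  have hL2 : 2 ≤ L := (Real.le_log_iff_exp_le hN0).2 hN
  have hL0 : 0 < L := by linarith
  set M := R ^ 2 with hM
  have hM1 : 1 ≤ M := Nat.one_le_pow _ _ hR
  have hMQ : M ≤ Q := le_trans (Nat.le_mul_of_pos_left M hW) hWQ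
  set c : ℕ := (k + 1) ^ 2 with hc
  set X := ∑ S ∈ TT P M, (c : ℝ) ^ S.card * Err (W * pr S) with hX
  -- step 1: group the pairs
  have h1 : ∑ r, ∑ s, |lam r| * |lam s| * Err (W * mpair r s) ≤ L ^ (4 * k) * X := by
    have h2 : ∀ x : Asg P k × Asg P k, |lam x.1| * |lam x.2| * Err (W * mpair x.1 x.2) ≤
        if supp x ∈ TT P M then L ^ (4 * k) * Err (W * pr (supp x)) else 0 := by
      rintro ⟨r, s⟩
      simp only
      rw [mpair_eq]
      by_cases hr : R < dtot r
      · rw [hlam0 r hr]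
        simp only [abs_zero, zero_mul]
        split_ifs
        · have := hE (W * pr (supp (r, s)))
          positivity
        · exact le_rfl
      by_cases hs : R < dtot s
      · rw [hlam0 s hs]
        simp only [abs_zero, zero_mul, mul_zero]
        split_ifs
        · have := hE (W * pr (supp (r, s)))
          positivity
        · exact le_rfl
      push Not at hr hs
      have h3 : supp (r, s) ∈ TT P M := by
        simp only [TT, Finset.mem_filter, Finset.mem_univ, true_and]
        refine (pr_supp_le hPp r s).trans ?_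
        rw [hM, sq]
        exact Nat.mul_le_mul hr hs
      rw [if_pos h3]
      have h4 : |lam r| * |lam s| ≤ L ^ (4 * k) := by
        calc |lam r| * |lam s| ≤ L ^ (2 * k) * L ^ (2 * k) := by
              gcongr
              · exact hlam r
              · exact hlam s
          _ = L ^ (4 * k) := by rw [← pow_add]; congr 1; ring
      exact mul_le_mul_of_nonneg_right h4 (hE _)
    rw [← Finset.sum_product']
    refine (Finset.sum_le_sum fun x _ => h2 x).trans ?_
    rw [Finset.univ_product_univ, ← Finset.sum_filter,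
      ← Finset.sum_fiberwise_of_maps_to (g := fun x : Asg P k × Asg P k => supp x) (t := TT P M)
      (fun x hx => (Finset.mem_filter.1 hx).2), hX, Finset.mul_sum]
    refine Finset.sum_le_sum fun S hS => ?_
    have h5 : ∀ x ∈ ((Finset.univ.filter fun x : Asg P k × Asg P k => supp x ∈ TT P M).filter
        fun x => supp x = S), L ^ (4 * k) * Err (W * pr (supp x)) = L ^ (4 * k) * Err (W * pr S) := by
      intro x hx
      rw [(Finset.mem_filter.1 hx).2]
    rw [Finset.sum_congr rfl h5, Finset.sum_const, nsmul_eq_mul]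
    have h6 : ((((Finset.univ.filter fun x : Asg P k × Asg P k => supp x ∈ TT P M).filter
        fun x => supp x = S).card : ℕ) : ℝ) ≤ (c : ℝ) ^ S.card := by
      have h7 := card_supp_le (k := k) S
      have h8 : ((Finset.univ.filter fun x : Asg P k × Asg P k => supp x ∈ TT P M).filter
        fun x => supp x = S).card ≤ c ^ S.card := by
        refine le_trans (Finset.card_le_card ?_) h7
        intro x hx
        simp only [Finset.mem_filter, Finset.mem_univ, true_and] at hx ⊢
        exact hx.2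
      exact_mod_cast h8
    have h9 : 0 ≤ L ^ (4 * k) * Err (W * pr S) := mul_nonneg (by positivity) (hE _)
    calc _ ≤ (c : ℝ) ^ S.card * (L ^ (4 * k) * Err (W * pr S)) := mul_le_mul_of_nonneg_right h6 h9
      _ = _ := by ring
  -- step 2: Cauchy-Schwarz
  have h2 : X ^ 2 ≤ (∑ S ∈ TT P M, ((c : ℝ) ^ 2) ^ S.card * Err (W * pr S)) *
      ∑ S ∈ TT P M, Err (W * pr S) := by
    rw [hX]
    refine Finset.sum_sq_le_sum_mul_sum_of_sq_le_mul _ (fun S _ => ?_) (fun S _ => hE _) fun S _ => (Eq.le ?_)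
    · have := hE (W * pr S)
      positivity
    · ring
  have hmem : ∀ S ∈ TT P M, W * pr S ∈ Finset.Icc 1 Q := by
    intro S hS
    simp only [TT, Finset.mem_filter, Finset.mem_univ, true_and] at hS
    exact Finset.mem_Icc.2 ⟨Nat.mul_pos hW (pr_pos hPp S), (Nat.mul_le_mul_left W hS).trans hWQ⟩
  have h3 : ∑ S ∈ TT P M, Err (W * pr S) ≤ N / L ^ (8 * k + 2 + 2 * ((k+1)^2)^2 + 2 * A) := by
    refine le_trans ?_ hsum
    rw [← Finset.sum_image (f := Err) (s := TT P M) (g := fun S => W * pr S)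
      (fun S _ T _ h => pr_injective hPp (Nat.eq_of_mul_eq_mul_left hW h))]
    refine Finset.sum_le_sum_of_subset_of_nonneg ?_ fun n _ _ => hE n
    intro n hn
    obtain ⟨S, hS, rfl⟩ := Finset.mem_image.1 hn
    exact hmem S hS
  have h4 : ∑ S ∈ TT P M, ((c : ℝ) ^ 2) ^ S.card * Err (W * pr S) ≤
      N * L ^ 2 * (2 * L) ^ (c ^ 2) := by
    have h5 : ∀ S ∈ TT P M, ((c : ℝ) ^ 2) ^ S.card * Err (W * pr S) ≤
        N * L ^ 2 * ((((c ^ 2 : ℕ) : ℝ)) ^ S.card / (pr S : ℝ)) := by
      intro S hS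
      have h6 := hpt _ (hmem S hS)
      have hp0 : (0:ℝ) < pr S := by exact_mod_cast pr_pos hPp S
      have hW1 : (1:ℝ) ≤ W := by exact_mod_cast hW
      have h7 : N * L ^ 2 / ((W * pr S : ℕ) : ℝ) ≤ N * L ^ 2 / (pr S : ℝ) := by
        push_cast
        gcongr
        nlinarith
      calc ((c : ℝ) ^ 2) ^ S.card * Err (W * pr S) ≤ ((c : ℝ) ^ 2) ^ S.card * (N * L ^ 2 / (pr S : ℝ)) :=
            mul_le_mul_of_nonneg_left (h6.trans h7) (by positivity)
        _ = _ := by push_cast; ring
    refine (Finset.sum_le_sum h5).trans ?_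
    rw [← Finset.mul_sum]
    have h6 := sum_pow_le hPp M (c ^ 2)
    have h7 := sum_inv_TT hPp hM1
    have h8 : Real.log M ≤ L := by
      refine Real.log_le_log (by exact_mod_cast hM1) ?_
      exact (by exact_mod_cast hMQ : (M:ℝ) ≤ Q).trans hQN
    have h9 : (0:ℝ) ≤ ∑ S ∈ TT P M, 1 / (pr S : ℝ) := Finset.sum_nonneg fun _ _ => by positivity
    have h10 : (∑ S ∈ TT P M, 1 / (pr S : ℝ)) ^ (c ^ 2) ≤ (2 * L) ^ (c ^ 2) := by
      apply pow_le_pow_left₀ h9
      linarith
    have h11 : 0 ≤ N * L ^ 2 := by positivity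
    exact mul_le_mul_of_nonneg_left (h6.trans h10) h11
  -- final
  have hX0 : 0 ≤ X := Finset.sum_nonneg fun S _ => mul_nonneg (by positivity) (hE _)
  have h5 : X ^ 2 ≤ (N * L ^ 2 * (2 * L) ^ (c ^ 2)) *
      (N / L ^ (8 * k + 2 + 2 * ((k+1)^2)^2 + 2 * A)) := by
    refine h2.trans (mul_le_mul h4 h3 (Finset.sum_nonneg fun _ _ => hE _) (by positivity))
  have h6 : (L ^ (4 * k) * X) ^ 2 ≤ (N / L ^ A) ^ 2 := by
    have h7 : (2 * L) ^ (c ^ 2) ≤ L ^ (2 * ((k+1)^2)^2) := by
      rw [pow_mul L 2, ← hc]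
      apply pow_le_pow_left₀ (by positivity)
      nlinarith
    calc (L ^ (4 * k) * X) ^ 2 = L ^ (8 * k) * X ^ 2 := by rw [mul_pow, ← pow_mul]; ring_nf
      _ ≤ L ^ (8 * k) * ((N * L ^ 2 * L ^ (2 * ((k+1)^2)^2)) *
          (N / L ^ (8 * k + 2 + 2 * ((k+1)^2)^2 + 2 * A))) := by
          refine mul_le_mul_of_nonneg_left (h5.trans ?_) (by positivity)
          gcongr
      _ = (N / L ^ A) ^ 2 := by
          have e1 : L ^ (2 * A) = (L ^ A) ^ 2 := by rw [← pow_mul, mul_comm]
          rw [pow_add, pow_add, pow_add, div_pow, e1]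
          generalize hY : L ^ (2 * ((k+1)^2)^2) = Y
          have hY0 : 0 < Y := by rw [← hY]; positivity
          field_simp
  exact h1.trans (abs_le_of_sq_le_sq' h6 (by positivity)).2

end Pool.Agent.Lib.MT
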