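import Pool.Agent.Lib.MT.Defs

/-!
# Counting integers hit by two assignments

For `r`, `s`: if for some `p` the states `r p = some i`, `s p = some j` with `i ≠ j`, no `n` is hit
by both (`p` would divide `h i - h j`) and the product of `Kq` is 0. Otherwise the `n` with
`n ≡ v [MOD W]`, `hits h n r`, `hits h n s` form one residue class modulo `W * m` (Chinese remainder
theorem, the moduli are coprime), so there are `N/(W m) + O(1)` of them in `(N, 2N]`, error at most
1, and the product of `Kq` is `1/m`. Expand `wn` and sum. For the second statement: if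
`p₀ ∣ n + h i₀` then `hits h n s` forces `s p₀ ∈ {none, some i₀}`, so
`wn h lam n = wn h (lamp p₀ i₀ lam) n`.
-/

open Finset
open scoped Classical

namespace Pool.Agent.Lib.MT

variable {P : Finset ℕ} {k : ℕ}

namespace Hits

lemma count_class (N M c : ℕ) (hM : 0 < M) :
    |(((Finset.Ioc N (2*N)).filter (fun n => n ≡ c [MOD M])).card : ℝ) - (N:ℝ)/M| ≤ 1 := by
  have h := Nat.Ioc_filter_modEq_card N (2*N) hM c
  set K := ((Finset.Ioc N (2*N)).filter (fun n => n ≡ c [MOD M])).card with hK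
  have hMq : (0:ℚ) < M := by exact_mod_cast hM
  set x : ℚ := (((2*N : ℕ):ℚ) - c) / (M:ℚ) with hx
  set y : ℚ := (((N : ℕ):ℚ) - c) / (M:ℚ) with hy
  have hxy : x - y = (N:ℚ)/M := by
    rw [hx, hy, ← sub_div]
    congr 1
    push_cast
    ring
  have h1 := Int.floor_le x
  have h2 := Int.lt_floor_add_one x
  have h3 := Int.floor_le y
  have h4 := Int.lt_floor_add_one y
  have h5 : (K:ℤ) = max (⌊x⌋ - ⌊y⌋) 0 := h
  have h6 : (K:ℚ) = max ((⌊x⌋:ℚ) - ⌊y⌋) 0 := by
    have : ((K:ℤ):ℚ) = ((max (⌊x⌋ - ⌊y⌋) 0 : ℤ):ℚ) := by rw [h5]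
    push_cast at this
    exact this
  have hN : (0:ℚ) ≤ (N:ℚ)/M := by positivity
  have h7 : |(K:ℚ) - (N:ℚ)/M| ≤ 1 := by
    rw [h6, abs_le]
    constructor
    · have := le_max_left ((⌊x⌋:ℚ) - ⌊y⌋) 0
      linarith
    · have : max ((⌊x⌋:ℚ) - ⌊y⌋) 0 ≤ (N:ℚ)/M + 1 := max_le (by linarith) (by linarith)
      linarith
  have h8 : ((|(K:ℚ) - (N:ℚ)/M| : ℚ) : ℝ) ≤ ((1:ℚ):ℝ) := by exact_mod_cast h7
  push_cast at h8
  exact h8

lemma exists_class (W v : ℕ) (a : ℕ → ℕ) (T : Finset ℕ) (hT : ∀ p ∈ T, p.Prime)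
    (hTW : ∀ p ∈ T, ¬ p ∣ W) :
    ∃ c, ∀ n, (n ≡ v [MOD W] ∧ ∀ p ∈ T, n ≡ a p [MOD p]) ↔ n ≡ c [MOD W * ∏ p ∈ T, p] := by
  induction T using Finset.induction_on with
  | empty => exact ⟨v, fun n => by simp⟩
  | insert q T hq ih =>
    obtain ⟨c, hc⟩ := ih (fun p hp => hT p (mem_insert_of_mem hp))
      (fun p hp => hTW p (mem_insert_of_mem hp))
    have hqp := hT q (mem_insert_self _ _)
    have hco : Nat.Coprime (W * ∏ p ∈ T, p) q := by
      rw [Nat.coprime_comm]
      apply Nat.Coprime.mul_right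
      · exact (hqp.coprime_iff_not_dvd).mpr (hTW q (mem_insert_self _ _))
      · apply Nat.Coprime.prod_right
        intro p hp
        rw [Nat.coprime_primes hqp (hT p (mem_insert_of_mem hp))]
        rintro rfl
        exact hq hp
    obtain ⟨d, hd1, hd2⟩ := Nat.chineseRemainder hco c (a q)
    refine ⟨d, fun n => ?_⟩
    have e1 : W * ∏ p ∈ insert q T, p = (W * ∏ p ∈ T, p) * q := by
      rw [Finset.prod_insert hq]; ring
    rw [e1, ← Nat.modEq_and_modEq_iff_modEq_mul hco]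
    constructor
    · rintro ⟨h1, h2⟩
      refine ⟨?_, ?_⟩
      · exact ((hc n).mp ⟨h1, fun p hp => h2 p (mem_insert_of_mem hp)⟩).trans hd1.symm
      · exact (h2 q (mem_insert_self _ _)).trans hd2.symm
    · rintro ⟨h1, h2⟩
      have h3 := (hc n).mpr (h1.trans hd1)
      refine ⟨h3.1, fun p hp => ?_⟩
      rcases mem_insert.mp hp with rfl | hp
      · exact h2.trans hd2
      · exact h3.2 p hp

/-- Counting integers in one class modulo `W` and modulo each prime of `T`. -/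
lemma count_prod (N W v : ℕ) (hW : 1 ≤ W) (a : ℕ → ℕ) (T : Finset ℕ) (hT : ∀ p ∈ T, p.Prime)
    (hTW : ∀ p ∈ T, ¬ p ∣ W) :
    |(((Finset.Ioc N (2*N)).filter (fun n => n ≡ v [MOD W] ∧ ∀ p ∈ T, n ≡ a p [MOD p])).card : ℝ)
      - (N:ℝ) / (W * ∏ p ∈ T, (p:ℝ))| ≤ 1 := by
  obtain ⟨c, hc⟩ := exists_class W v a T hT hTW
  have hM : 0 < W * ∏ p ∈ T, p :=
    Nat.mul_pos hW (Finset.prod_pos fun p hp => (hT p hp).pos)
  have h1 := count_class N (W * ∏ p ∈ T, p) c hM
  have h2 : (Finset.Ioc N (2*N)).filter (fun n => n ≡ v [MOD W] ∧ ∀ p ∈ T, n ≡ a p [MOD p]) =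
      (Finset.Ioc N (2*N)).filter (fun n => n ≡ c [MOD W * ∏ p ∈ T, p]) := by
    apply Finset.filter_congr
    intro n _
    exact hc n
  rw [h2]
  push_cast at h1
  exact h1

lemma dvd_iff (p n x : ℕ) (hp : 0 < p) : p ∣ n + x ↔ n ≡ (p - 1) * x [MOD p] := by
  have h1 : (p - 1) * x + x = p * x := by
    obtain ⟨m, rfl⟩ := Nat.exists_eq_add_of_lt hp
    simp only [zero_add, Nat.add_sub_cancel]
    ring
  constructor
  · intro h
    have h2 : n + x ≡ (p - 1) * x + x [MOD p] := by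
      rw [h1]
      exact ((Nat.modEq_zero_iff_dvd).mpr h).trans
        ((Nat.modEq_zero_iff_dvd).mpr (dvd_mul_right p x)).symm
    exact Nat.ModEq.add_right_cancel' x h2
  · intro h
    have h2 := h.add_right x
    rw [h1] at h2
    exact (Nat.modEq_zero_iff_dvd).mp (h2.trans ((Nat.modEq_zero_iff_dvd).mpr (dvd_mul_right p x)))

/-- The primes used by a pair of assignments. -/
noncomputable def supp2 (r s : Asg P k) : Finset ℕ :=
  (Finset.univ.filter (fun p : P => ¬ (r p = none ∧ s p = none))).image (fun p : P => (p : ℕ))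

lemma mem_supp2 (r s : Asg P k) (p : ℕ) :
    p ∈ supp2 r s ↔ ∃ hp : p ∈ P, ¬ (r ⟨p, hp⟩ = none ∧ s ⟨p, hp⟩ = none) := by
  unfold supp2
  simp only [mem_image, mem_filter, mem_univ, true_and]
  constructor
  · rintro ⟨q, h1, rfl⟩
    exact ⟨q.2, h1⟩
  · rintro ⟨hp, h1⟩
    exact ⟨⟨p, hp⟩, h1, rfl⟩

/-- The residue prescribed at `p`. -/
noncomputable def res (h : Fin k → ℕ) (r s : Asg P k) (p : ℕ) : ℕ :=
  if hp : p ∈ P then
    (match r ⟨p, hp⟩, s ⟨p, hp⟩ with
    | some i, _ => (p - 1) * h i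
    | none, some j => (p - 1) * h j
    | none, none => 0)
  else 0

/-- Two assignments are compatible if no prime is in two different states. -/
def compat (r s : Asg P k) : Prop := ∀ p : P, ∀ i j : Fin k, r p = some i → s p = some j → i = j

lemma hits_pair_iff (hP : ∀ p ∈ P, p.Prime) (h : Fin k → ℕ) (r s : Asg P k) (hc : compat r s)
    (n : ℕ) : (hits h n r ∧ hits h n s) ↔ ∀ p ∈ supp2 r s, n ≡ res h r s p [MOD p] := by
  constructor
  · rintro ⟨h1, h2⟩ p hp
    obtain ⟨hpP, hne⟩ := (mem_supp2 r s p).mp hp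
    have hpos : 0 < p := (hP p hpP).pos
    unfold res
    rw [dif_pos hpP]
    rcases hr : r ⟨p, hpP⟩ with _ | i
    · rcases hs : s ⟨p, hpP⟩ with _ | j
      · exact absurd ⟨hr, hs⟩ hne
      · exact (dvd_iff p n (h j) hpos).mp (h2 ⟨p, hpP⟩ j hs)
    · exact (dvd_iff p n (h i) hpos).mp (h1 ⟨p, hpP⟩ i hr)
  · intro hh
    constructor
    · intro p i hr
      have hpos : 0 < (p:ℕ) := (hP p p.2).pos
      have hp : (p:ℕ) ∈ supp2 r s := (mem_supp2 r s p).mpr ⟨p.2, fun hcon => by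
        have h3 : r p = none := hcon.1
        rw [hr] at h3; simp at h3⟩
      have h4 := hh p hp
      unfold res at h4
      rw [dif_pos p.2] at h4
      have hr' : r ⟨(p:ℕ), p.2⟩ = some i := hr
      rw [hr'] at h4
      exact (dvd_iff p n (h i) hpos).mpr h4
    · intro p j hs
      have hpos : 0 < (p:ℕ) := (hP p p.2).pos
      have hp : (p:ℕ) ∈ supp2 r s := (mem_supp2 r s p).mpr ⟨p.2, fun hcon => by
        have h3 : s p = none := hcon.2
        rw [hs] at h3; simp at h3⟩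
      have h4 := hh p hp
      unfold res at h4
      rw [dif_pos p.2] at h4
      have hs' : s ⟨(p:ℕ), p.2⟩ = some j := hs
      rcases hr : r ⟨(p:ℕ), p.2⟩ with _ | i
      · rw [hr, hs'] at h4
        exact (dvd_iff p n (h j) hpos).mpr h4
      · rw [hr] at h4
        have hij : i = j := hc p i j hr hs
        rw [← hij]
        exact (dvd_iff p n (h i) hpos).mpr h4

lemma not_hits_of_not_compat (h : Fin k → ℕ)
    (hh : ∀ p ∈ P, ∀ i j, i ≠ j → ¬ h i ≡ h j [MOD p]) (r s : Asg P k) (hc : ¬ compat r s)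
    (n : ℕ) : ¬ (hits h n r ∧ hits h n s) := by
  unfold compat at hc
  push Not at hc
  obtain ⟨p, i, j, hr, hs, hij⟩ := hc
  rintro ⟨h1, h2⟩
  have h3 := h1 p i hr
  have h4 := h2 p j hs
  apply hh p p.2 i j hij
  have h5 : n + h i ≡ n + h j [MOD p] :=
    ((Nat.modEq_zero_iff_dvd).mpr h3).trans ((Nat.modEq_zero_iff_dvd).mpr h4).symm
  exact Nat.ModEq.add_left_cancel' n h5

lemma prod_Kq_of_compat (r s : Asg P k) (hc : compat r s) :
    ∏ p : P, Kq (((p:ℕ):ℝ)) (r p) (s p) = 1 / ∏ p ∈ supp2 r s, (p:ℝ) := by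
  have h1 : ∏ p ∈ supp2 r s, (p:ℝ) =
      ∏ p : P, if r p = none ∧ s p = none then (1:ℝ) else ((p:ℕ):ℝ) := by
    unfold supp2
    rw [Finset.prod_image (by intro a _ b _ hab; exact Subtype.ext hab), Finset.prod_filter]
    refine Finset.prod_congr rfl fun p _ => ?_
    by_cases hcase : r p = none ∧ s p = none
    · simp [hcase]
    · simp only [hcase, not_false_eq_true, if_true, if_false]
  rw [h1, one_div, ← Finset.prod_inv_distrib]
  refine Finset.prod_congr rfl fun p _ => ?_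
  unfold Kq
  by_cases hcase : r p = none ∧ s p = none
  · simp [hcase]
  · rw [if_neg hcase, if_neg hcase]
    have h2 : r p = none ∨ s p = none ∨ r p = s p := by
      rcases hr : r p with _ | i
      · exact Or.inl rfl
      · rcases hs : s p with _ | j
        · exact Or.inr (Or.inl rfl)
        · rw [hc p i j hr hs]; exact Or.inr (Or.inr rfl)
    rw [if_pos h2, one_div]

lemma prod_Kq_of_not_compat (r s : Asg P k) (hc : ¬ compat r s) :
    ∏ p : P, Kq (((p:ℕ):ℝ)) (r p) (s p) = 0 := by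
  unfold compat at hc
  push Not at hc
  obtain ⟨p, i, j, hr, hs, hij⟩ := hc
  apply Finset.prod_eq_zero (Finset.mem_univ p)
  rw [hr, hs]
  unfold Kq
  simp [hij]

/-- Counting for a pair, with an additional condition at primes outside the pair. -/
lemma count_pair (hP : ∀ p ∈ P, p.Prime) (N W v : ℕ) (hW : 1 ≤ W) (hPW : ∀ p ∈ P, ¬ p ∣ W)
    (h : Fin k → ℕ) (hh : ∀ p ∈ P, ∀ i j, i ≠ j → ¬ h i ≡ h j [MOD p]) (r s : Asg P k) :
    |(((Finset.Ioc N (2*N)).filter (fun n => n ≡ v [MOD W] ∧ hits h n r ∧ hits h n s)).card : ℝ)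
      - (N:ℝ) / W * ∏ p : P, Kq (((p:ℕ):ℝ)) (r p) (s p)| ≤ 1 := by
  by_cases hc : compat r s
  · rw [prod_Kq_of_compat r s hc]
    have h1 := count_prod N W v hW (res h r s) (supp2 r s)
      (fun p hp => hP p ((mem_supp2 r s p).mp hp).1) (fun p hp => hPW p ((mem_supp2 r s p).mp hp).1)
    have h2 : (Finset.Ioc N (2*N)).filter (fun n => n ≡ v [MOD W] ∧ hits h n r ∧ hits h n s) =
        (Finset.Ioc N (2*N)).filter
          (fun n => n ≡ v [MOD W] ∧ ∀ p ∈ supp2 r s, n ≡ res h r s p [MOD p]) := by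
      apply Finset.filter_congr
      intro n _
      rw [hits_pair_iff hP h r s hc n]
    rw [h2]
    have h3 : (N:ℝ) / W * (1 / ∏ p ∈ supp2 r s, (p:ℝ)) = (N:ℝ) / (W * ∏ p ∈ supp2 r s, (p:ℝ)) := by
      rw [div_mul_div_comm, mul_one]
    rw [h3]
    exact h1
  · rw [prod_Kq_of_not_compat r s hc]
    have h2 : (Finset.Ioc N (2*N)).filter (fun n => n ≡ v [MOD W] ∧ hits h n r ∧ hits h n s) =
        ∅ := by
      apply Finset.filter_eq_empty_iff.mpr
      intro n _ hcon
      exact not_hits_of_not_compat h hh r s hc n hcon.2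
    rw [h2]
    simp

/-- The same with one more prime. -/
lemma count_pair_dvd (hP : ∀ p ∈ P, p.Prime) (N W v : ℕ) (hW : 1 ≤ W) (hPW : ∀ p ∈ P, ¬ p ∣ W)
    (h : Fin k → ℕ) (hh : ∀ p ∈ P, ∀ i j, i ≠ j → ¬ h i ≡ h j [MOD p]) (r s : Asg P k)
    (p₀ : P) (i₀ : Fin k) (hr0 : r p₀ = none) (hs0 : s p₀ = none) :
    |(((Finset.Ioc N (2*N)).filter (fun n => (n ≡ v [MOD W] ∧ (p₀:ℕ) ∣ n + h i₀) ∧
        hits h n r ∧ hits h n s)).card : ℝ)
      - (N:ℝ) / (W * (p₀:ℕ)) * ∏ p : P, Kq (((p:ℕ):ℝ)) (r p) (s p)| ≤ 1 := by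
  by_cases hc : compat r s
  · rw [prod_Kq_of_compat r s hc]
    have hp0 : (p₀:ℕ) ∉ supp2 r s := by
      intro hcon
      obtain ⟨hp, hne⟩ := (mem_supp2 r s p₀).mp hcon
      exact hne ⟨hr0, hs0⟩
    have hpos : 0 < (p₀:ℕ) := (hP p₀ p₀.2).pos
    have h1 := count_prod N W v hW
      (fun p => if p = (p₀:ℕ) then ((p₀:ℕ) - 1) * h i₀ else res h r s p)
      (insert (p₀:ℕ) (supp2 r s))
      (fun p hp => by
        rcases mem_insert.mp hp with rfl | hp
        · exact hP p₀ p₀.2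
        · exact hP p ((mem_supp2 r s p).mp hp).1)
      (fun p hp => by
        rcases mem_insert.mp hp with rfl | hp
        · exact hPW p₀ p₀.2
        · exact hPW p ((mem_supp2 r s p).mp hp).1)
    have h2 : (Finset.Ioc N (2*N)).filter (fun n => (n ≡ v [MOD W] ∧ (p₀:ℕ) ∣ n + h i₀) ∧
        hits h n r ∧ hits h n s) =
        (Finset.Ioc N (2*N)).filter
          (fun n => n ≡ v [MOD W] ∧ ∀ p ∈ insert (p₀:ℕ) (supp2 r s),
            n ≡ (if p = (p₀:ℕ) then ((p₀:ℕ) - 1) * h i₀ else res h r s p) [MOD p]) := by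
      apply Finset.filter_congr
      intro n _
      rw [hits_pair_iff hP h r s hc n, dvd_iff _ _ _ hpos]
      constructor
      · rintro ⟨⟨h3, h4⟩, h5⟩
        refine ⟨h3, fun p hp => ?_⟩
        rcases mem_insert.mp hp with rfl | hp
        · rw [if_pos rfl]; exact h4
        · have : p ≠ (p₀:ℕ) := by rintro rfl; exact hp0 hp
          rw [if_neg this]; exact h5 p hp
      · rintro ⟨h3, h4⟩
        refine ⟨⟨h3, ?_⟩, fun p hp => ?_⟩
        · have := h4 p₀ (mem_insert_self _ _)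
          rwa [if_pos rfl] at this
        · have h5 := h4 p (mem_insert_of_mem hp)
          have : p ≠ (p₀:ℕ) := by rintro rfl; exact hp0 hp
          rwa [if_neg this] at h5
    rw [h2]
    have h3 : (N:ℝ) / (W * (p₀:ℕ)) * (1 / ∏ p ∈ supp2 r s, (p:ℝ)) =
        (N:ℝ) / (W * ∏ p ∈ insert (p₀:ℕ) (supp2 r s), (p:ℝ)) := by
      rw [Finset.prod_insert hp0, div_mul_div_comm, mul_one, mul_assoc]
    rw [h3]
    exact h1
  · rw [prod_Kq_of_not_compat r s hc]
    have h2 : (Finset.Ioc N (2*N)).filter (fun n => (n ≡ v [MOD W] ∧ (p₀:ℕ) ∣ n + h i₀) ∧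
        hits h n r ∧ hits h n s) = ∅ := by
      apply Finset.filter_eq_empty_iff.mpr
      intro n _ hcon
      exact not_hits_of_not_compat h hh r s hc n hcon.2
    rw [h2]
    simp

/-- Expansion of the square. -/
lemma sum_wn_expand (h : Fin k → ℕ) (lam : Asg P k → ℝ) (S : Finset ℕ) :
    ∑ n ∈ S, wn h lam n =
      ∑ r, ∑ s, lam r * lam s * ((S.filter (fun n => hits h n r ∧ hits h n s)).card : ℝ) := by
  have h1 : ∀ n, wn h lam n =
      ∑ r, ∑ s, lam r * lam s * (if hits h n r ∧ hits h n s then (1:ℝ) else 0) := by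
    intro n
    unfold wn
    rw [sq, Finset.sum_mul_sum]
    refine Finset.sum_congr rfl fun r _ => Finset.sum_congr rfl fun s _ => ?_
    by_cases hr : hits h n r <;> by_cases hs : hits h n s <;> simp [hr, hs]
  simp only [h1]
  rw [Finset.sum_comm]
  refine Finset.sum_congr rfl fun r _ => ?_
  rw [Finset.sum_comm]
  refine Finset.sum_congr rfl fun s _ => ?_
  rw [← Finset.mul_sum, Finset.sum_boole]

lemma sum_bound (lam : Asg P k → ℝ) (A B : Asg P k → Asg P k → ℝ)
    (hAB : ∀ r s, lam r ≠ 0 → lam s ≠ 0 → |A r s - B r s| ≤ 1) :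
    |∑ r, ∑ s, lam r * lam s * A r s - ∑ r, ∑ s, lam r * lam s * B r s| ≤ (∑ s, |lam s|) ^ 2 := by
  rw [← Finset.sum_sub_distrib]
  refine (Finset.abs_sum_le_sum_abs _ _).trans ?_
  rw [sq, Finset.sum_mul_sum]
  refine Finset.sum_le_sum fun r _ => ?_
  rw [← Finset.sum_sub_distrib]
  refine (Finset.abs_sum_le_sum_abs _ _).trans ?_
  refine Finset.sum_le_sum fun s _ => ?_
  rw [← mul_sub, abs_mul, abs_mul]
  by_cases hr : lam r = 0
  · simp [hr]
  by_cases hs : lam s = 0
  · simp [hs]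
  have := hAB r s hr hs
  calc |lam r| * |lam s| * |A r s - B r s| ≤ |lam r| * |lam s| * 1 :=
        mul_le_mul_of_nonneg_left this (mul_nonneg (abs_nonneg _) (abs_nonneg _))
    _ = |lam r| * |lam s| := mul_one _

end Hits

open Hits

theorem sum_wn (hP : ∀ p ∈ P, p.Prime) (N W v : ℕ) (hW : 1 ≤ W) (hPW : ∀ p ∈ P, ¬ p ∣ W)
    (h : Fin k → ℕ) (hh : ∀ p ∈ P, ∀ i j, i ≠ j → ¬ h i ≡ h j [MOD p]) (lam : Asg P k → ℝ) :
    |∑ n ∈ (Finset.Ioc N (2*N)).filter (fun n => n ≡ v [MOD W]), wn h lam n -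
      (N:ℝ) / W * formK (fun p => (p:ℝ)) lam| ≤ (∑ s, |lam s|) ^ 2 := by
  rw [sum_wn_expand]
  have h1 : (N:ℝ) / W * formK (fun p => (p:ℝ)) lam = ∑ r, ∑ s, lam r * lam s *
      ((N:ℝ) / W * ∏ p : P, Kq (((p:ℕ):ℝ)) (r p) (s p)) := by
    unfold formK
    rw [Finset.mul_sum]
    refine Finset.sum_congr rfl fun r _ => ?_
    rw [Finset.mul_sum]
    refine Finset.sum_congr rfl fun s _ => ?_
    ring
  rw [h1]
  apply sum_bound
  intro r s _ _
  rw [Finset.filter_filter]
  exact count_pair hP N W v hW hPW h hh r s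

/-- Moving the state `some i₀` at `p₀` to `none`. -/
lemma sum_move (p₀ : P) (i₀ : Fin k) (G : Asg P k → ℝ) :
    ∑ s : Asg P k, (if s p₀ = some i₀ then G s else 0) =
      ∑ s : Asg P k, (if s p₀ = none then G (Function.update s p₀ (some i₀)) else 0) := by
  have e1 : ∑ s : Asg P k, (if s p₀ = some i₀ then G s else 0) =
      ∑ s ∈ Finset.univ.filter (fun s : Asg P k => s p₀ = some i₀), G s :=
    (Finset.sum_filter _ _).symm
  have e2 : ∑ s : Asg P k, (if s p₀ = none then G (Function.update s p₀ (some i₀)) else 0) =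
      ∑ s ∈ Finset.univ.filter (fun s : Asg P k => s p₀ = none),
        G (Function.update s p₀ (some i₀)) := (Finset.sum_filter _ _).symm
  rw [e1, e2]
  refine Finset.sum_bij' (fun s _ => Function.update s p₀ none)
    (fun s _ => Function.update s p₀ (some i₀)) ?_ ?_ ?_ ?_ ?_
  · intro s _
    simp
  · intro s _
    simp
  · intro s hs
    simp only [mem_filter, mem_univ, true_and] at hs
    simp only [Function.update_idem]
    rw [← hs, Function.update_eq_self]
  · intro s hs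
    simp only [mem_filter, mem_univ, true_and] at hs
    simp only [Function.update_idem]
    rw [← hs, Function.update_eq_self]
  · intro s hs
    simp only [mem_filter, mem_univ, true_and] at hs
    simp only [Function.update_idem]
    rw [← hs, Function.update_eq_self]

/-- The weights after merging the states `none` and `some i₀` at `p₀`. -/
lemma wn_lamp (h : Fin k → ℕ) (hh : ∀ p ∈ P, ∀ i j, i ≠ j → ¬ h i ≡ h j [MOD p])
    (lam : Asg P k → ℝ) (p₀ : P) (i₀ : Fin k) (n : ℕ) (hn : (p₀:ℕ) ∣ n + h i₀) :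
    wn h lam n = wn h (lamp p₀ i₀ lam) n := by
  unfold wn
  congr 1
  -- split the left sum according to the state at `p₀`
  have h1 : ∀ s : Asg P k, (if hits h n s then lam s else 0) =
      (if s p₀ = none then (if hits h n s then lam s else 0) else 0) +
      (if s p₀ = some i₀ then (if hits h n s then lam s else 0) else 0) := by
    intro s
    rcases hs : s p₀ with _ | i
    · simp
    · by_cases hi : i = i₀
      · subst hi; simp
      · have hno : ¬ hits h n s := by
          intro hcon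
          have h2 := hcon p₀ i hs
          apply hh p₀ p₀.2 i i₀ hi
          have h5 : n + h i ≡ n + h i₀ [MOD p₀] :=
            ((Nat.modEq_zero_iff_dvd).mpr h2).trans ((Nat.modEq_zero_iff_dvd).mpr hn).symm
          exact Nat.ModEq.add_left_cancel' n h5
        simp [hno]
  rw [Finset.sum_congr rfl fun s _ => h1 s, Finset.sum_add_distrib]
  rw [sum_move p₀ i₀ (fun s => if hits h n s then lam s else 0), ← Finset.sum_add_distrib]
  refine Finset.sum_congr rfl fun s _ => ?_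
  unfold lamp
  by_cases hs : s p₀ = none
  · have e2 : hits h n (Function.update s p₀ (some i₀)) ↔ hits h n s := by
      constructor
      · intro hc p i hpi
        by_cases hp : p = p₀
        · subst hp; rw [hs] at hpi; simp at hpi
        · apply hc p i
          rw [Function.update_of_ne hp]
          exact hpi
      · intro hc p i hpi
        by_cases hp : p = p₀
        · subst hp
          rw [Function.update_self] at hpi
          have : i₀ = i := by simpa using hpi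
          rw [← this]; exact hn
        · rw [Function.update_of_ne hp] at hpi
          exact hc p i hpi
    simp only [hs, if_true, e2]
    by_cases hc : hits h n s <;> simp [hc]
  · simp [hs]

lemma sum_abs_lamp (lam : Asg P k → ℝ) (p₀ : P) (i₀ : Fin k) :
    ∑ s, |lamp p₀ i₀ lam s| ≤ ∑ s, |lam s| := by
  have h1 : ∀ s : Asg P k, |lamp p₀ i₀ lam s| ≤
      (if s p₀ = none then |lam s| else 0) +
      (if s p₀ = none then |lam (Function.update s p₀ (some i₀))| else 0) := by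
    intro s
    unfold lamp
    by_cases hs : s p₀ = none
    · simp only [hs, if_true]
      exact abs_add_le _ _
    · simp [hs]
  refine (Finset.sum_le_sum fun s _ => h1 s).trans ?_
  rw [Finset.sum_add_distrib]
  rw [← sum_move p₀ i₀ (fun s => |lam s|), ← Finset.sum_add_distrib]
  refine Finset.sum_le_sum fun s _ => ?_
  by_cases hs : s p₀ = none
  · simp [hs]
  · by_cases hs' : s p₀ = some i₀
    · simp [hs']
    · simp [hs, hs']

theorem sum_wn_dvd (hP : ∀ p ∈ P, p.Prime) (N W v : ℕ) (hW : 1 ≤ W) (hPW : ∀ p ∈ P, ¬ p ∣ W)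
    (h : Fin k → ℕ) (hh : ∀ p ∈ P, ∀ i j, i ≠ j → ¬ h i ≡ h j [MOD p]) (lam : Asg P k → ℝ)
    (p₀ : P) (i₀ : Fin k) :
    |∑ n ∈ (Finset.Ioc N (2*N)).filter (fun n => n ≡ v [MOD W] ∧ (p₀:ℕ) ∣ n + h i₀),
      wn h lam n - (N:ℝ) / (W * (p₀:ℕ)) * formK (fun p => (p:ℝ)) (lamp p₀ i₀ lam)| ≤
      (∑ s, |lam s|) ^ 2 := by
  have h0 : ∑ n ∈ (Finset.Ioc N (2*N)).filter (fun n => n ≡ v [MOD W] ∧ (p₀:ℕ) ∣ n + h i₀),
      wn h lam n = ∑ n ∈ (Finset.Ioc N (2*N)).filter
        (fun n => n ≡ v [MOD W] ∧ (p₀:ℕ) ∣ n + h i₀), wn h (lamp p₀ i₀ lam) n := by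
    refine Finset.sum_congr rfl fun n hn => ?_
    rw [Finset.mem_filter] at hn
    exact wn_lamp h hh lam p₀ i₀ n hn.2.2
  rw [h0, sum_wn_expand]
  have h1 : (N:ℝ) / (W * (p₀:ℕ)) * formK (fun p => (p:ℝ)) (lamp p₀ i₀ lam) =
      ∑ r, ∑ s, lamp p₀ i₀ lam r * lamp p₀ i₀ lam s *
      ((N:ℝ) / (W * (p₀:ℕ)) * ∏ p : P, Kq (((p:ℕ):ℝ)) (r p) (s p)) := by
    unfold formK
    rw [Finset.mul_sum]
    refine Finset.sum_congr rfl fun r _ => ?_
    rw [Finset.mul_sum]
    refine Finset.sum_congr rfl fun s _ => ?_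
    ring
  rw [h1]
  refine (sum_bound (lamp p₀ i₀ lam) _ _ ?_).trans ?_
  · intro r s hr hs
    rw [Finset.filter_filter]
    have hr0 : r p₀ = none := by
      by_contra hcon
      exact hr (by simp [lamp, hcon])
    have hs0 : s p₀ = none := by
      by_contra hcon
      exact hs (by simp [lamp, hcon])
    exact count_pair_dvd hP N W v hW hPW h hh r s p₀ i₀ hr0 hs0
  · have := sum_abs_lamp lam p₀ i₀
    have h2 : 0 ≤ ∑ s, |lamp p₀ i₀ lam s| := Finset.sum_nonneg fun _ _ => abs_nonneg _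
    exact pow_le_pow_left₀ h2 this 2

end Pool.Agent.Lib.MT
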