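import Pool.Agent.Lib.MT.Defs

/-!
# Sums over assignments and products of one dimensional sums

`r ↦ part r` is an injection from `Asg P k` into the tuples of subsets of `P`, whose image
is the set of tuples of pairwise disjoint subsets. The tuples which are not pairwise disjoint
contain some `p ∈ T_i ∩ T_j`, `i ≠ j`, and for fixed `p, i, j` their total is small.
-/

open Finset
open scoped Classical

namespace Pool.Agent.Lib.MT

variable {P : Finset ℕ} {k : ℕ}

theorem part_eq_image (r : Asg P k) (i : Fin k) : part r i =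
    (Finset.univ.filter (fun p : P => r p = some i)).image (Subtype.val : P → ℕ) := by
  unfold part
  ext q
  simp only [Finset.mem_image, Finset.bind_def, Finset.pure_def, Finset.mem_sup,
    Finset.mem_singleton, Finset.mem_filter]
  constructor
  · rintro ⟨a, ⟨p, hp, rfl⟩, rfl⟩
    exact ⟨p, hp, rfl⟩
  · rintro ⟨p, hp, rfl⟩
    exact ⟨p, ⟨p, hp, rfl⟩, rfl⟩

theorem mem_part_iff {r : Asg P k} {i : Fin k} {q : ℕ} :
    q ∈ part r i ↔ ∃ h : q ∈ P, r ⟨q, h⟩ = some i := by
  rw [part_eq_image]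
  simp only [Finset.mem_image, Finset.mem_filter, Finset.mem_univ, true_and]
  constructor
  · rintro ⟨p, hp, rfl⟩
    exact ⟨p.2, hp⟩
  · rintro ⟨h, hr⟩
    exact ⟨⟨q, h⟩, hr, rfl⟩

theorem part_subset (r : Asg P k) (i : Fin k) : part r i ⊆ P := by
  intro q hq
  obtain ⟨h, _⟩ := mem_part_iff.1 hq
  exact h

theorem part_injective : Function.Injective (part : Asg P k → Fin k → Finset ℕ) := by
  intro r s h
  funext p
  have key : ∀ i, r p = some i ↔ s p = some i := by
    intro i
    have h1 : (p : ℕ) ∈ part r i ↔ (p : ℕ) ∈ part s i := by rw [h]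
    rw [mem_part_iff, mem_part_iff] at h1
    constructor
    · intro hr
      obtain ⟨_, h2⟩ := h1.1 ⟨p.2, hr⟩
      exact h2
    · intro hr
      obtain ⟨_, h2⟩ := h1.2 ⟨p.2, hr⟩
      exact h2
  cases hr : r p with
  | none =>
    cases hs : s p with
    | none => rfl
    | some j => rw [(key j).2 hs] at hr; exact absurd hr (by simp)
  | some i => exact ((key i).1 hr).symm

theorem part_mem_piFinset (r : Asg P k) :
    part r ∈ Fintype.piFinset (fun _ : Fin k => P.powerset) := by
  rw [Fintype.mem_piFinset]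
  intro i
  rw [Finset.mem_powerset]
  exact part_subset r i

theorem sum_asg_eq (F : (Fin k → Finset ℕ) → ℝ) :
    ∑ r : Asg P k, F (part r) =
      ∑ T ∈ (Finset.univ : Finset (Asg P k)).image part, F T := by
  rw [Finset.sum_image (fun x _ y _ h => part_injective h)]

theorem image_part_subset :
    (Finset.univ : Finset (Asg P k)).image part ⊆
      Fintype.piFinset (fun _ : Fin k => P.powerset) := by
  intro T hT
  obtain ⟨r, _, rfl⟩ := Finset.mem_image.1 hT
  exact part_mem_piFinset r

theorem sum_asg_le (F : (Fin k → Finset ℕ) → ℝ)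
    (hF : ∀ T : Fin k → Finset ℕ, (∀ i, T i ⊆ P) → 0 ≤ F T) :
    ∑ r : Asg P k, F (part r) ≤ ∑ T ∈ Fintype.piFinset (fun _ : Fin k => P.powerset), F T := by
  rw [sum_asg_eq]
  refine Finset.sum_le_sum_of_subset_of_nonneg image_part_subset ?_
  intro T hT _
  refine hF T fun i => ?_
  rw [Fintype.mem_piFinset] at hT
  exact Finset.mem_powerset.1 (hT i)

/-- A tuple of subsets outside the image of `part` is not pairwise disjoint. -/
theorem exists_of_not_mem_image {T : Fin k → Finset ℕ}
    (hT : T ∈ Fintype.piFinset (fun _ : Fin k => P.powerset))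
    (hn : T ∉ (Finset.univ : Finset (Asg P k)).image part) :
    ∃ p ∈ P, ∃ i j : Fin k, i ≠ j ∧ p ∈ T i ∧ p ∈ T j := by
  by_contra hcon
  push Not at hcon
  apply hn
  rw [Finset.mem_image]
  refine ⟨fun p => if h : ∃ i, (p : ℕ) ∈ T i then some h.choose else none, Finset.mem_univ _, ?_⟩
  funext i
  ext q
  rw [mem_part_iff]
  rw [Fintype.mem_piFinset] at hT
  constructor
  · rintro ⟨h, hq⟩
    by_cases hex : ∃ i, q ∈ T i
    · rw [dif_pos hex] at hq
      have h1 := hex.choose_spec
      rw [Option.some.inj hq] at h1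
      exact h1
    · rw [dif_neg hex] at hq
      exact absurd hq (by simp)
  · intro hq
    have hqP : q ∈ P := Finset.mem_powerset.1 (hT i) hq
    refine ⟨hqP, ?_⟩
    have hex : ∃ i, q ∈ T i := ⟨i, hq⟩
    rw [dif_pos hex]
    have h1 := hex.choose_spec
    by_contra hne
    have hne' : hex.choose ≠ i := fun h => hne (by rw [h])
    exact hcon q hqP _ _ hne' h1 hq

theorem le_sum_asg (H : Fin k → Finset ℕ → ℝ) (κ : ℕ → ℝ) (hκ : ∀ p ∈ P, 0 ≤ κ p)
    (hH0 : ∀ i, ∀ T ⊆ P, 0 ≤ H i T)
    (hH : ∀ i, ∀ T ⊆ P, ∀ p ∈ P, p ∉ T → H i (insert p T) ≤ κ p * H i T) :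
    (1 - (k:ℝ) ^ 2 * ∑ p ∈ P, (κ p) ^ 2) * ∏ i, ∑ T ∈ P.powerset, H i T ≤
      ∑ r : Asg P k, ∏ i, H i (part r i) := by
  set S : Fin k → ℝ := fun i => ∑ T ∈ P.powerset, H i T with hS
  have hS0 : ∀ i, 0 ≤ S i := fun i =>
    Finset.sum_nonneg fun T hT => hH0 i T (Finset.mem_powerset.1 hT)
  -- the part of the one dimensional sum with `p ∈ T`
  have hone : ∀ i, ∀ p ∈ P, ∑ T ∈ P.powerset with p ∈ T, H i T ≤ κ p * S i := by
    intro i p hp
    have h1 : ∑ T ∈ P.powerset with p ∈ T, H i T ≤
        ∑ T ∈ P.powerset with p ∉ T, κ p * H i T := by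
      have h2 : ∑ T ∈ P.powerset with p ∈ T, H i T =
          ∑ T ∈ P.powerset with p ∉ T, H i (insert p T) := by
        refine Finset.sum_nbij' (fun T => T.erase p) (fun T => insert p T) ?_ ?_ ?_ ?_ ?_
        · intro T hT
          simp only [Finset.mem_filter, Finset.mem_powerset] at hT ⊢
          exact ⟨(Finset.erase_subset _ _).trans hT.1, Finset.notMem_erase _ _⟩
        · intro T hT
          simp only [Finset.mem_filter, Finset.mem_powerset] at hT ⊢
          exact ⟨Finset.insert_subset hp hT.1, Finset.mem_insert_self _ _⟩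
        · intro T hT
          simp only [Finset.mem_filter, Finset.mem_powerset] at hT
          exact Finset.insert_erase hT.2
        · intro T hT
          simp only [Finset.mem_filter, Finset.mem_powerset] at hT
          exact Finset.erase_insert hT.2
        · intro T hT
          simp only [Finset.mem_filter, Finset.mem_powerset] at hT
          simp only [Finset.insert_erase hT.2]
      rw [h2]
      refine Finset.sum_le_sum fun T hT => ?_
      simp only [Finset.mem_filter, Finset.mem_powerset] at hT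
      exact hH i T hT.1 p hp hT.2
    refine h1.trans ?_
    rw [← Finset.mul_sum]
    refine mul_le_mul_of_nonneg_left ?_ (hκ p hp)
    refine Finset.sum_le_sum_of_subset_of_nonneg (Finset.filter_subset _ _) ?_
    intro T hT _
    exact hH0 i T (Finset.mem_powerset.1 hT)
  -- for fixed `p, i, j`
  have htwo : ∀ p ∈ P, ∀ i j : Fin k, i ≠ j →
      ∑ T ∈ Fintype.piFinset (fun _ : Fin k => P.powerset) with p ∈ T i ∧ p ∈ T j,
        ∏ l, H l (T l) ≤ (κ p) ^ 2 * ∏ l, S l := by
    intro p hp i j hij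
    have h1 : (Fintype.piFinset (fun _ : Fin k => P.powerset)).filter
        (fun T => p ∈ T i ∧ p ∈ T j) =
        Fintype.piFinset (fun l : Fin k =>
          P.powerset.filter (fun T => (l = i ∨ l = j) → p ∈ T)) := by
      ext T
      simp only [Finset.mem_filter, Fintype.mem_piFinset, Finset.mem_powerset]
      constructor
      · rintro ⟨h, hi, hj⟩ l
        refine ⟨h l, ?_⟩
        rintro (rfl | rfl)
        · exact hi
        · exact hj
      · intro h
        exact ⟨fun l => (h l).1, (h i).2 (Or.inl rfl), (h j).2 (Or.inr rfl)⟩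
    rw [h1, ← Finset.prod_univ_sum]
    have h2 : ∀ l : Fin k, ∑ T ∈ P.powerset with ((l = i ∨ l = j) → p ∈ T), H l T ≤
        (if l = i ∨ l = j then κ p else 1) * S l := by
      intro l
      by_cases hl : l = i ∨ l = j
      · simp only [hl, true_imp_iff, if_true]
        exact hone l p hp
      · simp only [hl, false_imp_iff, if_false, one_mul, Finset.filter_true]
        exact le_refl _
    refine (Finset.prod_le_prod (fun l _ => ?_) (fun l _ => h2 l)).trans ?_
    · refine Finset.sum_nonneg fun T hT => ?_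
      exact hH0 l T (Finset.mem_powerset.1 (Finset.mem_filter.1 hT).1)
    · rw [Finset.prod_mul_distrib]
      refine mul_le_mul_of_nonneg_right ?_ (Finset.prod_nonneg fun l _ => hS0 l)
      rw [Finset.prod_ite, Finset.prod_const_one, mul_one, Finset.prod_const]
      have h3 : (Finset.univ.filter (fun l : Fin k => l = i ∨ l = j)) = {i, j} := by
        ext l; simp
      rw [h3, Finset.card_pair hij]
  -- conclusion
  have hprod : ∏ i, S i = ∑ T ∈ Fintype.piFinset (fun _ : Fin k => P.powerset),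
      ∏ l, H l (T l) := by
    rw [hS, Finset.prod_univ_sum]
  have hsplit : ∑ T ∈ Fintype.piFinset (fun _ : Fin k => P.powerset), ∏ l, H l (T l) =
      ∑ T ∈ Fintype.piFinset (fun _ : Fin k => P.powerset) \
        (Finset.univ : Finset (Asg P k)).image part, ∏ l, H l (T l) +
      ∑ r : Asg P k, ∏ i, H i (part r i) := by
    rw [sum_asg_eq (fun T => ∏ l, H l (T l)), Finset.sum_sdiff image_part_subset]
  have hnn : ∀ T ∈ Fintype.piFinset (fun _ : Fin k => P.powerset), 0 ≤ ∏ l, H l (T l) := by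
    intro T hT
    rw [Fintype.mem_piFinset] at hT
    exact Finset.prod_nonneg fun l _ => hH0 l _ (Finset.mem_powerset.1 (hT l))
  have hbad : ∑ T ∈ Fintype.piFinset (fun _ : Fin k => P.powerset) \
        (Finset.univ : Finset (Asg P k)).image part, ∏ l, H l (T l) ≤
      ∑ x ∈ P ×ˢ (Finset.univ : Finset (Fin k × Fin k)).filter (fun y => y.1 ≠ y.2),
        ∑ T ∈ Fintype.piFinset (fun _ : Fin k => P.powerset) with
          x.1 ∈ T x.2.1 ∧ x.1 ∈ T x.2.2, ∏ l, H l (T l) := by
    simp only [Finset.sum_filter]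
    rw [Finset.sum_comm]
    refine (Finset.sum_le_sum (fun T hT => ?_)).trans
      (Finset.sum_le_sum_of_subset_of_nonneg Finset.sdiff_subset (fun T hT _ => ?_))
    · rw [Finset.mem_sdiff] at hT
      obtain ⟨p, hp, i, j, hij, hi, hj⟩ := exists_of_not_mem_image hT.1 hT.2
      have h1 := Finset.single_le_sum (s := P ×ˢ (Finset.univ : Finset (Fin k × Fin k)).filter
        (fun y => y.1 ≠ y.2)) (f := fun x : ℕ × (Fin k × Fin k) =>
          if x.1 ∈ T x.2.1 ∧ x.1 ∈ T x.2.2 then ∏ l, H l (T l) else 0)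
        (fun x _ => by
          split_ifs
          · exact hnn T hT.1
          · exact le_refl _) (a := (p, (i, j))) (by simp [hp, hij])
      rw [if_pos ⟨hi, hj⟩] at h1
      exact h1
    · refine Finset.sum_nonneg fun x _ => ?_
      split_ifs
      · exact hnn T hT
      · exact le_refl _
  have hbad2 : ∑ x ∈ P ×ˢ (Finset.univ : Finset (Fin k × Fin k)).filter (fun y => y.1 ≠ y.2),
        ∑ T ∈ Fintype.piFinset (fun _ : Fin k => P.powerset) with
          x.1 ∈ T x.2.1 ∧ x.1 ∈ T x.2.2, ∏ l, H l (T l) ≤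
      (k:ℝ) ^ 2 * (∑ p ∈ P, (κ p) ^ 2) * ∏ l, S l := by
    rw [Finset.sum_product]
    have h1 : ∀ p ∈ P, ∑ y ∈ (Finset.univ : Finset (Fin k × Fin k)).filter (fun y => y.1 ≠ y.2),
        ∑ T ∈ Fintype.piFinset (fun _ : Fin k => P.powerset) with
          p ∈ T y.1 ∧ p ∈ T y.2, ∏ l, H l (T l) ≤ (k:ℝ) ^ 2 * ((κ p) ^ 2 * ∏ l, S l) := by
      intro p hp
      refine (Finset.sum_le_card_nsmul _ _ ((κ p) ^ 2 * ∏ l, S l) (fun y hy => ?_)).trans ?_
      · exact htwo p hp y.1 y.2 (Finset.mem_filter.1 hy).2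
      · rw [nsmul_eq_mul]
        refine mul_le_mul_of_nonneg_right ?_
          (mul_nonneg (sq_nonneg _) (Finset.prod_nonneg fun l _ => hS0 l))
        have h2 : ((Finset.univ : Finset (Fin k × Fin k)).filter
            (fun y => y.1 ≠ y.2)).card ≤ k ^ 2 := by
          refine (Finset.card_filter_le _ _).trans (le_of_eq ?_)
          rw [Finset.card_univ, Fintype.card_prod, Fintype.card_fin, sq]
        exact_mod_cast h2
    refine (Finset.sum_le_sum h1).trans (le_of_eq ?_)
    rw [← Finset.mul_sum, ← Finset.sum_mul, mul_assoc]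
  have h3 := hbad.trans hbad2
  rw [← hprod] at hsplit
  have h4 : (1 - (k:ℝ) ^ 2 * ∑ p ∈ P, (κ p) ^ 2) * ∏ i, S i =
    ∏ i, S i - (k:ℝ) ^ 2 * (∑ p ∈ P, (κ p) ^ 2) * ∏ l, S l := by ring
  rw [h4]
  linarith

theorem prod_part {M : Type*} [CommMonoid M] (f : ℕ → M) (r : Asg P k) (i : Fin k) :
    ∏ p ∈ part r i, f p = ∏ p : P, if r p = some i then f p else 1 := by
  rw [part_eq_image, Finset.prod_image (fun x _ y _ h => Subtype.ext h), Finset.prod_filter]

theorem prod_states {M : Type*} [CommMonoid M] (f : ℕ → M) (r : Asg P k) :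
    ∏ p : P, (if r p = none then 1 else f p) = ∏ i, ∏ p ∈ part r i, f p := by
  simp only [prod_part]
  rw [Finset.prod_comm]
  refine Finset.prod_congr rfl fun p _ => ?_
  cases hr : r p with
  | none => simp
  | some j => simp [Finset.prod_ite_eq]

theorem wt_eq (κ : ℕ → ℝ) (r : Asg P k) : wt κ r = ∏ i, ∏ p ∈ part r i, κ p := by
  unfold wt
  exact prod_states κ r

theorem dtot_eq (r : Asg P k) : dtot r = ∏ i, dd r i := by
  unfold dtot dd
  exact prod_states (fun p => p) r

theorem prod_sum1 (κ : ℕ → ℝ) (G : Fin k → ℕ → ℝ) :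
    ∑ T ∈ Fintype.piFinset (fun _ : Fin k => P.powerset),
      ∏ i, (G i (∏ p ∈ T i, p) * ∏ p ∈ T i, κ p) = ∏ i, sum1 P κ (G i) := by
  unfold sum1
  rw [Finset.prod_univ_sum]

/-- The usual upper bound. -/
theorem sum_asg_prod_le (κ : ℕ → ℝ) (hκ : ∀ p ∈ P, 0 ≤ κ p) (G : Fin k → ℕ → ℝ)
    (hG : ∀ i a, 0 ≤ G i a) :
    ∑ r : Asg P k, (∏ i, G i (dd r i)) * wt κ r ≤ ∏ i, sum1 P κ (G i) := by
  rw [← prod_sum1]
  have h := sum_asg_le (P := P) (k := k)
    (fun T => ∏ i, (G i (∏ p ∈ T i, p) * ∏ p ∈ T i, κ p)) (fun T hT =>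
      Finset.prod_nonneg fun i _ => mul_nonneg (hG _ _)
        (Finset.prod_nonneg fun p hp => hκ p (hT i hp)))
  refine le_trans (le_of_eq ?_) h
  refine Finset.sum_congr rfl fun r _ => ?_
  rw [wt_eq, ← Finset.prod_mul_distrib]
  rfl

end Pool.Agent.Lib.MT
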