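import Pool.Agent.Lib.MT.Defs

/-!
# The change of variables between lam, y and z

PROOF SKETCH. Exchange the sums and use that a sum over assignments s of a product over primes of
A p (r p) (s p) * B p (s p) (t p) is the product over primes of the sum over the state c of
A p (r p) c * B p c (t p) (Finset.prod_univ_sum, Fintype.piFinset_univ). Then check the finitely
many cases for one prime p >= 2:
sum_c Zq p a c * Lq p c b = (if a = b then (if a = none then 1 else -(p/(p-1))) else 0);
sum_{c ≠ some m} Zq (p-1) a c * Lq p c b = Mq m p a b;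
for zOf_lamp at the prime p₀ (a = none): b = none gives 1, b = some i₀ gives -1, other b give
1/(p₀-1); for r p₀ ≠ none the sum is 0 since lamp is supported on s p₀ = none. The sum over t then
reduces to t = r or t = update r p₀ (some j).
-/

open Finset
open scoped Classical

namespace Pool.Agent.Lib.MT

variable {P : Finset ℕ} {k : ℕ}

namespace TransfAux

theorem sum_prod_states (F : P → Option (Fin k) → ℝ) :
    ∑ s : Asg P k, ∏ p, F p (s p) = ∏ p, ∑ c, F p c := by
  rw [Finset.prod_univ_sum, Fintype.piFinset_univ]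

theorem local1 {p : ℝ} (hp : 2 ≤ p) (a b : Option (Fin k)) :
    ∑ c, Zq p a c * Lq p c b = (if a = b then (if a = none then 1 else -(p/(p-1))) else 0) := by
  have h1 : p - 1 ≠ 0 := by linarith
  have h2 : p ≠ 0 := by linarith
  rw [Fintype.sum_option]
  rcases a with _ | i
  · rcases b with _ | j
    · simp [Zq, Lq]
    · have e : ∀ i : Fin k, Zq p none (some i) * Lq p (some i) (some j)
          = if i = j then (1 / p) * (-(p/(p-1))) else 0 := by
        intro i
        by_cases h : i = j
        · simp [Zq, Lq, h]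
        · simp [Zq, Lq, h]
      simp only [e, Finset.sum_ite_eq', Finset.mem_univ, if_true]
      simp only [Zq, Lq, if_true, reduceCtorEq, if_false]
      field_simp
      ring
  · have e : ∀ i' : Fin k, Zq p (some i) (some i') * Lq p (some i') b
          = if i' = i then Lq p (some i) b else 0 := by
        intro i'
        by_cases h : i' = i
        · simp [Zq, h]
        · have h' : ¬ i = i' := fun h'' => h h''.symm
          simp [Zq, h, h']
    simp only [e, Finset.sum_ite_eq', Finset.mem_univ, if_true]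
    rcases b with _ | j
    · simp [Zq, Lq]
    · by_cases h : i = j
      · simp [Zq, Lq, h]
      · simp [Zq, Lq, h]

theorem local2 {p : ℝ} (hp : 2 ≤ p) (m : Fin k) (a b : Option (Fin k)) :
    ∑ c, (if c = some m then 0 else Zq (p - 1) a c * Lq p c b) = Mq m p a b := by
  have h1 : p - 1 ≠ 0 := by linarith
  have h2 : p ≠ 0 := by linarith
  rw [Fintype.sum_option]
  rcases a with _ | i
  · rcases b with _ | j
    · simp [Zq, Lq, Mq]
    · have e : ∀ i : Fin k,
          (if (some i : Option (Fin k)) = some m then 0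
            else Zq (p - 1) none (some i) * Lq p (some i) (some j))
          = if i = j then (if j = m then 0 else (1 / (p - 1)) * (-(p/(p-1)))) else 0 := by
        intro i
        by_cases h : i = j
        · subst h
          by_cases h' : i = m
          · simp [h']
          · simp [Zq, Lq, h']
        · by_cases h' : i = m
          · subst h'
            simp [h]
          · simp [Lq, h, h']
      simp only [e, Finset.sum_ite_eq', Finset.mem_univ, if_true]
      by_cases hjm : j = m
      · subst hjm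
        simp [Zq, Lq, Mq]
      · simp only [Zq, Lq, Mq, if_true, reduceCtorEq, if_false, hjm, Option.some.injEq]
        field_simp
        ring
  · have e : ∀ i' : Fin k,
          (if (some i' : Option (Fin k)) = some m then 0
            else Zq (p - 1) (some i) (some i') * Lq p (some i') b)
          = if i' = i then (if i = m then 0 else Lq p (some i) b) else 0 := by
        intro i'
        by_cases h : i' = i
        · subst h
          by_cases h' : i' = m
          · simp [h']
          · simp [Zq, h']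
        · have h'' : ¬ i = i' := fun h'' => h h''.symm
          by_cases h' : i' = m
          · subst h'
            simp [h]
          · simp [Zq, h, h', h'']
    simp only [e, Finset.sum_ite_eq', Finset.mem_univ, if_true]
    by_cases him : i = m
    · subst him
      simp [Zq, Mq]
    · rcases b with _ | j
      · simp [Zq, Lq, Mq, him]
      · by_cases h : i = j
        · subst h
          simp [Zq, Lq, Mq, him]
        · simp [Zq, Lq, Mq, him, h]

end TransfAux

open TransfAux

theorem zOf_lamOf (hP : ∀ p ∈ P, 2 ≤ p) (y : Asg P k → ℝ) (r : Asg P k) :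
    zOf (fun p => (p:ℝ)) (lamOf y) r = y r * wt (fun p => - ((p:ℝ) / ((p:ℝ) - 1))) r := by
  have hP' : ∀ p : P, (2:ℝ) ≤ ((p:ℕ):ℝ) := fun p => by exact_mod_cast hP p p.2
  unfold zOf lamOf
  have e1 : ∀ s : Asg P k, (∑ t, y t * ∏ p : P, Lq ((p:ℕ) : ℝ) (s p) (t p)) *
      ∏ p : P, Zq ((p:ℕ):ℝ) (r p) (s p)
      = ∑ t : Asg P k, y t * ∏ p : P, (Zq ((p:ℕ):ℝ) (r p) (s p) * Lq ((p:ℕ) : ℝ) (s p) (t p)) := by
    intro s
    rw [Finset.sum_mul]
    refine Finset.sum_congr rfl fun t _ => ?_
    rw [Finset.prod_mul_distrib]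
    ring
  rw [Finset.sum_congr rfl fun s _ => e1 s, Finset.sum_comm]
  have e2 : ∀ t : Asg P k, ∑ s : Asg P k, y t *
      ∏ p : P, (Zq ((p:ℕ):ℝ) (r p) (s p) * Lq ((p:ℕ) : ℝ) (s p) (t p))
      = y t * ∏ p : P, (if r p = t p then (if r p = none then 1 else
          -(((p:ℕ):ℝ)/(((p:ℕ):ℝ)-1))) else 0) := by
    intro t
    rw [← Finset.mul_sum, sum_prod_states (fun p c => Zq ((p:ℕ):ℝ) (r p) c * Lq ((p:ℕ) : ℝ) c (t p))]
    congr 1
    exact Finset.prod_congr rfl fun p _ => local1 (hP' p) _ _
  rw [Finset.sum_congr rfl fun t _ => e2 t]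
  rw [Finset.sum_eq_single r]
  · congr 1
    unfold wt
    refine Finset.prod_congr rfl fun p _ => ?_
    rw [if_pos rfl]
  · intro t _ htr
    have : ∃ p, r p ≠ t p := by
      by_contra hcon
      push Not at hcon
      exact htr (funext fun p => (hcon p).symm)
    obtain ⟨p, hp⟩ := this
    rw [Finset.prod_eq_zero (Finset.mem_univ p), mul_zero]
    rw [if_neg hp]
  · intro h
    exact absurd (Finset.mem_univ r) h

theorem zOf_lamm (hP : ∀ p ∈ P, 2 ≤ p) (m : Fin k) (y : Asg P k → ℝ) (r : Asg P k) :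
    zOf (fun p => (p:ℝ) - 1) (lamm m (lamOf y)) r =
      ∑ t, y t * ∏ p : P, Mq m (p:ℝ) (r p) (t p) := by
  have hP' : ∀ p : P, (2:ℝ) ≤ ((p:ℕ):ℝ) := fun p => by exact_mod_cast hP p p.2
  unfold zOf lamm lamOf
  have e1 : ∀ s : Asg P k, (if ∃ p, s p = some m then 0 else
      (∑ t, y t * ∏ p : P, Lq ((p:ℕ) : ℝ) (s p) (t p))) *
      ∏ p : P, Zq (((p:ℕ):ℝ) - 1) (r p) (s p)
      = ∑ t : Asg P k, y t * ∏ p : P, (if s p = some m then 0 else
        Zq (((p:ℕ):ℝ) - 1) (r p) (s p) * Lq ((p:ℕ) : ℝ) (s p) (t p)) := by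
    intro s
    by_cases h : ∃ p, s p = some m
    · rw [if_pos h, zero_mul]
      symm
      refine Finset.sum_eq_zero fun t _ => ?_
      obtain ⟨p, hp⟩ := h
      rw [Finset.prod_eq_zero (Finset.mem_univ p), mul_zero]
      rw [if_pos hp]
    · rw [if_neg h, Finset.sum_mul]
      push Not at h
      refine Finset.sum_congr rfl fun t _ => ?_
      have : ∏ p : P, (if s p = some m then 0 else
        Zq (((p:ℕ):ℝ) - 1) (r p) (s p) * Lq ((p:ℕ) : ℝ) (s p) (t p))
        = ∏ p : P, (Zq (((p:ℕ):ℝ) - 1) (r p) (s p) * Lq ((p:ℕ) : ℝ) (s p) (t p)) := by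
        refine Finset.prod_congr rfl fun p _ => ?_
        rw [if_neg (h p)]
      rw [this, Finset.prod_mul_distrib]
      ring
  rw [Finset.sum_congr rfl fun s _ => e1 s, Finset.sum_comm]
  refine Finset.sum_congr rfl fun t _ => ?_
  rw [← Finset.mul_sum, sum_prod_states (fun p c => if c = some m then 0 else
    Zq (((p:ℕ):ℝ) - 1) (r p) c * Lq ((p:ℕ) : ℝ) c (t p))]
  congr 1
  exact Finset.prod_congr rfl fun p _ => local2 (hP' p) m _ _

namespace TransfAux

/-- The local factor at `p₀`. -/
noncomputable def E0 (i₀ : Fin k) (p : ℝ) (b : Option (Fin k)) : ℝ :=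
  Lq p none b + Lq p (some i₀) b

theorem E0_none (i₀ : Fin k) (p : ℝ) : E0 i₀ p none = 1 := by simp [E0, Lq]

theorem E0_self (i₀ : Fin k) {p : ℝ} (hp : 2 ≤ p) : E0 i₀ p (some i₀) = -1 := by
  have h1 : p - 1 ≠ 0 := by linarith
  simp [E0, Lq]
  field_simp
  ring

theorem E0_ne (i₀ j : Fin k) (p : ℝ) (h : j ≠ i₀) : E0 i₀ p (some j) = 1 / (p - 1) := by
  have h' : ¬ i₀ = j := fun h' => h h'.symm
  simp [E0, Lq, h']

end TransfAux

open TransfAux

theorem zOf_lamp (hP : ∀ p ∈ P, 2 ≤ p) (p₀ : P) (i₀ : Fin k) (y : Asg P k → ℝ) (r : Asg P k) :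
    zOf (fun p => (p:ℝ)) (lamp p₀ i₀ (lamOf y)) r =
      if r p₀ = none then
        (y r - y (Function.update r p₀ (some i₀)) + (1 / (((p₀ : ℕ) : ℝ) - 1)) *
          ∑ j ∈ Finset.univ.erase i₀, y (Function.update r p₀ (some j))) *
          wt (fun p => - ((p:ℝ) / ((p:ℝ) - 1))) r
      else 0 := by
  have hP' : ∀ p : P, (2:ℝ) ≤ ((p:ℕ):ℝ) := fun p => by exact_mod_cast hP p p.2
  unfold zOf lamp lamOf
  have e1 : ∀ s : Asg P k, (if s p₀ = none then
      (∑ t, y t * ∏ p : P, Lq ((p:ℕ) : ℝ) (s p) (t p)) +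
      (∑ t, y t * ∏ p : P, Lq ((p:ℕ) : ℝ) (Function.update s p₀ (some i₀) p) (t p)) else 0) *
      ∏ p : P, Zq ((p:ℕ):ℝ) (r p) (s p)
      = ∑ t : Asg P k, y t * ∏ p : P, (if p = p₀ then
          (if s p = none then Zq ((p:ℕ):ℝ) (r p) none * E0 i₀ ((p:ℕ):ℝ) (t p) else 0) else
          Zq ((p:ℕ):ℝ) (r p) (s p) * Lq ((p:ℕ) : ℝ) (s p) (t p)) := by
    intro s
    by_cases h : s p₀ = none
    · rw [if_pos h, ← Finset.sum_add_distrib, Finset.sum_mul]
      refine Finset.sum_congr rfl fun t _ => ?_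
      rw [← Finset.mul_prod_erase univ (fun p : P => Lq ((p:ℕ) : ℝ) (s p) (t p)) (mem_univ p₀),
        ← Finset.mul_prod_erase univ (fun p : P => Lq ((p:ℕ) : ℝ)
          (Function.update s p₀ (some i₀) p) (t p)) (mem_univ p₀),
        ← Finset.mul_prod_erase univ (fun p : P => Zq ((p:ℕ):ℝ) (r p) (s p)) (mem_univ p₀),
        ← Finset.mul_prod_erase univ (fun p : P => (if p = p₀ then
          (if s p = none then Zq ((p:ℕ):ℝ) (r p) none * E0 i₀ ((p:ℕ):ℝ) (t p) else 0) else
          Zq ((p:ℕ):ℝ) (r p) (s p) * Lq ((p:ℕ) : ℝ) (s p) (t p))) (mem_univ p₀)]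
      have e2 : ∏ p ∈ univ.erase p₀, Lq ((p:ℕ) : ℝ) (Function.update s p₀ (some i₀) p) (t p)
          = ∏ p ∈ univ.erase p₀, Lq ((p:ℕ) : ℝ) (s p) (t p) := by
        refine Finset.prod_congr rfl fun p hp => ?_
        rw [Function.update_of_ne (Finset.ne_of_mem_erase hp)]
      have e3 : ∏ p ∈ univ.erase p₀, (if p = p₀ then
          (if s p = none then Zq ((p:ℕ):ℝ) (r p) none * E0 i₀ ((p:ℕ):ℝ) (t p) else 0) else
          Zq ((p:ℕ):ℝ) (r p) (s p) * Lq ((p:ℕ) : ℝ) (s p) (t p))
          = (∏ p ∈ univ.erase p₀, Zq ((p:ℕ):ℝ) (r p) (s p)) *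
            ∏ p ∈ univ.erase p₀, Lq ((p:ℕ) : ℝ) (s p) (t p) := by
        rw [← Finset.prod_mul_distrib]
        refine Finset.prod_congr rfl fun p hp => ?_
        rw [if_neg (Finset.ne_of_mem_erase hp)]
      rw [e2, e3, if_pos rfl, if_pos h, Function.update_self, h]
      unfold E0
      ring
    · rw [if_neg h, zero_mul]
      symm
      refine Finset.sum_eq_zero fun t _ => ?_
      rw [Finset.prod_eq_zero (Finset.mem_univ p₀), mul_zero]
      rw [if_pos rfl, if_neg h]
  rw [Finset.sum_congr rfl fun s _ => e1 s, Finset.sum_comm]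
  set D : P → ℝ := fun p => if r p = none then 1 else -(((p:ℕ):ℝ)/(((p:ℕ):ℝ)-1)) with hD
  have e4 : ∀ t : Asg P k, ∑ s : Asg P k, y t * ∏ p : P, (if p = p₀ then
          (if s p = none then Zq ((p:ℕ):ℝ) (r p) none * E0 i₀ ((p:ℕ):ℝ) (t p) else 0) else
          Zq ((p:ℕ):ℝ) (r p) (s p) * Lq ((p:ℕ) : ℝ) (s p) (t p))
      = y t * (Zq ((p₀:ℕ):ℝ) (r p₀) none * E0 i₀ ((p₀:ℕ):ℝ) (t p₀) *
          ∏ p ∈ univ.erase p₀, (if r p = t p then D p else 0)) := by
    intro t
    rw [← Finset.mul_sum, sum_prod_states (fun p c => if p = p₀ then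
          (if c = none then Zq ((p:ℕ):ℝ) (r p) none * E0 i₀ ((p:ℕ):ℝ) (t p) else 0) else
          Zq ((p:ℕ):ℝ) (r p) c * Lq ((p:ℕ) : ℝ) c (t p))]
    congr 1
    rw [← Finset.mul_prod_erase univ _ (mem_univ p₀)]
    congr 1
    · simp only [if_true]
      rw [Finset.sum_ite_eq', if_pos (Finset.mem_univ _)]
    · refine Finset.prod_congr rfl fun p hp => ?_
      simp only [if_neg (Finset.ne_of_mem_erase hp)]
      exact local1 (hP' p) _ _
  rw [Finset.sum_congr rfl fun t _ => e4 t]
  by_cases hr : r p₀ = none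
  · rw [if_pos hr, hr]
    have hZ : Zq ((p₀:ℕ):ℝ) (none : Option (Fin k)) none = 1 := by simp [Zq]
    rw [hZ]
    -- the sum is supported on updates of `r` at `p₀`
    have hinj : Function.Injective (fun b : Option (Fin k) => Function.update r p₀ b) := by
      intro b b' hbb
      have := congrFun hbb p₀
      simpa using this
    have hsupp : ∑ t : Asg P k, y t * (1 * E0 i₀ ((p₀:ℕ):ℝ) (t p₀) *
          ∏ p ∈ univ.erase p₀, (if r p = t p then D p else 0))
        = ∑ t ∈ univ.image (fun b : Option (Fin k) => Function.update r p₀ b),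
          y t * (1 * E0 i₀ ((p₀:ℕ):ℝ) (t p₀) *
          ∏ p ∈ univ.erase p₀, (if r p = t p then D p else 0)) := by
      symm
      refine Finset.sum_subset (Finset.subset_univ _) fun t _ ht => ?_
      have : ∃ p ∈ univ.erase p₀, r p ≠ t p := by
        by_contra hcon
        push Not at hcon
        apply ht
        rw [Finset.mem_image]
        refine ⟨t p₀, Finset.mem_univ _, ?_⟩
        funext p
        by_cases hp : p = p₀
        · subst hp; simp
        · rw [Function.update_of_ne hp]
          exact hcon p (Finset.mem_erase.2 ⟨hp, Finset.mem_univ _⟩)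
      obtain ⟨p, hp, hne⟩ := this
      rw [Finset.prod_eq_zero hp, mul_zero, mul_zero]
      rw [if_neg hne]
    rw [hsupp, Finset.sum_image (fun b _ b' _ h => hinj h)]
    have e5 : ∀ b : Option (Fin k), y (Function.update r p₀ b) *
        (1 * E0 i₀ ((p₀:ℕ):ℝ) (Function.update r p₀ b p₀) *
          ∏ p ∈ univ.erase p₀, (if r p = Function.update r p₀ b p then D p else 0))
        = (y (Function.update r p₀ b) * E0 i₀ ((p₀:ℕ):ℝ) b) * ∏ p ∈ univ.erase p₀, D p := by
      intro b
      have : ∏ p ∈ univ.erase p₀, (if r p = Function.update r p₀ b p then D p else 0)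
          = ∏ p ∈ univ.erase p₀, D p := by
        refine Finset.prod_congr rfl fun p hp => ?_
        rw [Function.update_of_ne (Finset.ne_of_mem_erase hp), if_pos rfl]
      rw [this, Function.update_self]
      ring
    rw [Finset.sum_congr rfl fun b _ => e5 b, ← Finset.sum_mul]
    have e6 : wt (fun p => - ((p:ℝ) / ((p:ℝ) - 1))) r = ∏ p ∈ univ.erase p₀, D p := by
      unfold wt
      rw [← Finset.mul_prod_erase univ _ (mem_univ p₀), if_pos hr, one_mul]
    rw [e6]
    congr 1
    rw [Fintype.sum_option, E0_none]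
    have e7 : Function.update r p₀ none = r := by
      rw [← hr]; exact Function.update_eq_self p₀ r
    rw [e7, mul_one, ← Finset.add_sum_erase univ _ (Finset.mem_univ i₀), E0_self i₀ (hP' p₀)]
    have e8 : ∑ j ∈ univ.erase i₀, y (Function.update r p₀ (some j)) * E0 i₀ ((p₀:ℕ):ℝ) (some j)
        = (1 / (((p₀ : ℕ) : ℝ) - 1)) * ∑ j ∈ univ.erase i₀, y (Function.update r p₀ (some j)) := by
      rw [Finset.mul_sum]
      refine Finset.sum_congr rfl fun j hj => ?_
      rw [E0_ne i₀ j _ (Finset.ne_of_mem_erase hj)]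
      ring
    rw [e8]
    ring
  · rw [if_neg hr]
    refine Finset.sum_eq_zero fun t _ => ?_
    have hZ : Zq ((p₀:ℕ):ℝ) (r p₀) none = 0 := by
      simp only [Zq, if_neg hr]
    rw [hZ]
    ring

end Pool.Agent.Lib.MT
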