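import Pool.Agent.Lib.MT.Form
import Pool.Agent.Lib.MT.Transf
import Pool.Agent.Lib.MT.Disjoint
import Pool.Agent.Lib.MT.OneDim

/-!
# The form seen by integers with p₀ dividing n + h i₀

PROOF SKETCH. formK_le and zOf_lamp: sum over r with r p₀ = none of (u + v)² wt κ₂ r, where
u = y r - y (update r p₀ (some i₀)) and v = κ₁ p₀ * sum_{j ≠ i₀} y (update r p₀ (some j)).
(u+v)² ≤ 2u² + 2v². |v| ≤ k κ₁(p₀) prod_i g(dd r i) (g antitone), so the v part is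
≤ 2 (k κ₁ p₀)² B''^k, B'' = sum1 P κ₂ g². For u: with a = dd r i₀, D = prod_{j≠i₀} dd r j,
u = prod_{j≠i₀} g(dd r j) * (gh a - gh(a p₀)), gh a = g a 1[a D ≤ R], a difference in [0,1], so its
square is ≤ gh a - gh (a p₀) = sum_j w_j (1[a ≤ M_j] - 1[a p₀ ≤ M_j]),
M_j = min(ρ^(2^j), R/D), and 1[a ≤ M] - 1[a p₀ ≤ M] = 1[M/p₀ < a ≤ M] (real M). sum_asg_le and then
for fixed (T_j)_{j≠i₀} the sum over T_{i₀} of κ₂(a) 1[M/p₀ < a ≤ M] is
≤ C dens W (log p₀ + 1 + log W) (sum1_upper, u = M ≤ R, u' = M/p₀; M < 1 gives 0). Sum of w_j is 1.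
Here P = Pr W R, g = gst ρ J, and the hypothesis hRJ says ρ^(2^J) ≤ R.
-/

open Finset
open scoped Classical

namespace Pool.Agent.Lib.MT

namespace RoughFormAux

section update

variable {P : Finset ℕ} {k : ℕ}

theorem mem_part (r : Asg P k) (i : Fin k) (q : ℕ) :
    q ∈ part r i ↔ ∃ hq : q ∈ P, r ⟨q, hq⟩ = some i := by
  unfold part
  rw [mem_image]
  simp only [Finset.bind_def, Finset.pure_def, Finset.mem_sup, mem_filter, mem_univ, true_and]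
  constructor
  · rintro ⟨a, ⟨b, hb, hab⟩, rfl⟩
    rw [mem_singleton] at hab
    subst hab
    exact ⟨b.2, hb⟩
  · rintro ⟨hq, h⟩
    exact ⟨q, ⟨⟨q, hq⟩, h, mem_singleton.2 rfl⟩, rfl⟩

theorem part_subset_update (r : Asg P k) (p₀ : P) (h : r p₀ = none) (b : Option (Fin k))
    (i : Fin k) : part r i ⊆ part (Function.update r p₀ b) i := by
  intro q hq
  rw [mem_part] at hq ⊢
  obtain ⟨hqP, hq⟩ := hq
  refine ⟨hqP, ?_⟩
  rw [Function.update_of_ne]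
  · exact hq
  · rintro rfl
    rw [h] at hq
    exact absurd hq (by simp)

theorem notMem_part (r : Asg P k) (p₀ : P) (h : r p₀ = none) (i : Fin k) :
    (p₀ : ℕ) ∉ part r i := by
  rw [mem_part]
  rintro ⟨_, hq⟩
  rw [Subtype.coe_eta, h] at hq
  exact absurd hq (by simp)

theorem part_update_self (r : Asg P k) (p₀ : P) (h : r p₀ = none) (i : Fin k) :
    part (Function.update r p₀ (some i)) i = insert (p₀ : ℕ) (part r i) := by
  ext q
  rw [mem_insert, mem_part, mem_part]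
  constructor
  · rintro ⟨hqP, hq⟩
    by_cases hqp : (⟨q, hqP⟩ : P) = p₀
    · left; rw [← hqp]
    · right
      refine ⟨hqP, ?_⟩
      rwa [Function.update_of_ne hqp] at hq
  · rintro (rfl | ⟨hqP, hq⟩)
    · exact ⟨p₀.2, by simp⟩
    · refine ⟨hqP, ?_⟩
      rw [Function.update_of_ne]
      · exact hq
      · rintro rfl
        rw [h] at hq
        exact absurd hq (by simp)

theorem part_update_ne (r : Asg P k) (p₀ : P) (h : r p₀ = none) (i j : Fin k) (hij : j ≠ i) :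
    part (Function.update r p₀ (some i)) j = part r j := by
  ext q
  rw [mem_part, mem_part]
  constructor
  · rintro ⟨hqP, hq⟩
    by_cases hqp : (⟨q, hqP⟩ : P) = p₀
    · rw [hqp, Function.update_self] at hq
      exact absurd (Option.some.inj hq).symm hij
    · refine ⟨hqP, ?_⟩
      rwa [Function.update_of_ne hqp] at hq
  · rintro ⟨hqP, hq⟩
    refine ⟨hqP, ?_⟩
    rw [Function.update_of_ne]
    · exact hq
    · rintro rfl
      rw [h] at hq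
      exact absurd hq (by simp)

theorem dd_update_self (r : Asg P k) (p₀ : P) (h : r p₀ = none) (i : Fin k) :
    dd (Function.update r p₀ (some i)) i = p₀ * dd r i := by
  unfold dd
  rw [part_update_self r p₀ h, Finset.prod_insert (notMem_part r p₀ h i)]

theorem dd_update_ne (r : Asg P k) (p₀ : P) (h : r p₀ = none) (i j : Fin k) (hij : j ≠ i) :
    dd (Function.update r p₀ (some i)) j = dd r j := by
  unfold dd
  rw [part_update_ne r p₀ h i j hij]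

theorem dd_pos (hP : ∀ p ∈ P, 1 ≤ p) (r : Asg P k) (i : Fin k) : 1 ≤ dd r i :=
  Nat.one_le_iff_ne_zero.2 (Finset.prod_ne_zero_iff.2 fun p hp =>
    Nat.one_le_iff_ne_zero.1 (hP p ((mem_part r i p).1 hp).1))

theorem dd_le_update (hP : ∀ p ∈ P, 1 ≤ p) (r : Asg P k) (p₀ : P) (h : r p₀ = none)
    (b : Option (Fin k)) (i : Fin k) : dd r i ≤ dd (Function.update r p₀ b) i := by
  unfold dd
  refine Finset.prod_le_prod_of_subset_of_one_le' (part_subset_update r p₀ h b i) ?_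
  intro q hq _
  exact hP q ((mem_part _ i q).1 hq).1

end update

/-- Indicator of the `a` with `a ≤ ρ ^ 2 ^ l`, `a D ≤ R`, but not so for `p₀ a`. -/
noncomputable def II (ρ R p₀ D l a : ℕ) : ℝ :=
  if (a ≤ ρ ^ (2 ^ l) ∧ a * D ≤ R) ∧ ¬ (p₀ * a ≤ ρ ^ (2 ^ l) ∧ p₀ * a * D ≤ R) then 1 else 0

theorem II_nonneg (ρ R p₀ D l a : ℕ) : 0 ≤ II ρ R p₀ D l a := by
  unfold II; split_ifs <;> norm_num

theorem II_le_one (ρ R p₀ D l a : ℕ) : II ρ R p₀ D l a ≤ 1 := by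
  unfold II; split_ifs <;> norm_num

theorem gh_sub (ρ R p₀ D J a : ℕ) (hp : 1 ≤ p₀) :
    (if a * D ≤ R then gst ρ J a else 0) - (if p₀ * a * D ≤ R then gst ρ J (p₀ * a) else 0)
      = ∑ l ∈ Finset.range (J+1), wst J l * II ρ R p₀ D l a := by
  have e1 : ∀ b : ℕ, (if b * D ≤ R then gst ρ J b else 0)
      = ∑ l ∈ Finset.range (J+1), wst J l * (if b ≤ ρ ^ (2 ^ l) ∧ b * D ≤ R then 1 else 0) := by
    intro b
    by_cases h : b * D ≤ R
    · rw [if_pos h]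
      unfold gst
      refine Finset.sum_congr rfl fun l _ => ?_
      simp [h]
    · rw [if_neg h]
      symm
      refine Finset.sum_eq_zero fun l _ => ?_
      simp [h]
  rw [e1, e1 (p₀ * a), ← Finset.sum_sub_distrib]
  refine Finset.sum_congr rfl fun l _ => ?_
  rw [← mul_sub]
  congr 1
  unfold II
  by_cases h1 : p₀ * a ≤ ρ ^ (2 ^ l) ∧ p₀ * a * D ≤ R
  · have h2 : a ≤ ρ ^ (2 ^ l) ∧ a * D ≤ R := by
      have h3 : a ≤ p₀ * a := Nat.le_mul_of_pos_left a hp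
      exact ⟨h3.trans h1.1, (Nat.mul_le_mul_right D h3).trans h1.2⟩
    rw [if_pos h2, if_pos h1, if_neg]
    · norm_num
    · exact fun h => h.2 h1
  · rw [if_neg h1]
    by_cases h2 : a ≤ ρ ^ (2 ^ l) ∧ a * D ≤ R
    · rw [if_pos h2, if_pos ⟨h2, h1⟩]; norm_num
    · rw [if_neg h2, if_neg]
      · norm_num
      · exact fun h => h2 h.1

theorem sum_II_sq_le (ρ R p₀ D J a : ℕ) :
    (∑ l ∈ Finset.range (J+1), wst J l * II ρ R p₀ D l a) ^ 2
      ≤ ∑ l ∈ Finset.range (J+1), wst J l * II ρ R p₀ D l a := by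
  set s := ∑ l ∈ Finset.range (J+1), wst J l * II ρ R p₀ D l a with hs
  have h0 : 0 ≤ s := Finset.sum_nonneg fun l _ => mul_nonneg (wst_nonneg _ _) (II_nonneg _ _ _ _ _ _)
  have h1 : s ≤ 1 := by
    rw [← sum_wst J]
    refine Finset.sum_le_sum fun l _ => ?_
    calc wst J l * II ρ R p₀ D l a ≤ wst J l * 1 :=
          mul_le_mul_of_nonneg_left (II_le_one _ _ _ _ _ _) (wst_nonneg _ _)
      _ = wst J l := mul_one _
  nlinarith

theorem II_eq (ρ R p₀ D l a : ℕ) (hp : 1 ≤ p₀) (hD : 1 ≤ D) :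
    II ρ R p₀ D l a = if min ((ρ:ℝ) ^ (2 ^ l)) ((R:ℝ) / D) / p₀ < a ∧
      (a:ℝ) ≤ min ((ρ:ℝ) ^ (2 ^ l)) ((R:ℝ) / D) then 1 else 0 := by
  have hD0 : (0:ℝ) < D := by exact_mod_cast hD
  have hp0 : (0:ℝ) < p₀ := by exact_mod_cast hp
  have key : ∀ b : ℕ, (b ≤ ρ ^ (2 ^ l) ∧ b * D ≤ R) ↔
      (b:ℝ) ≤ min ((ρ:ℝ) ^ (2 ^ l)) ((R:ℝ) / D) := by
    intro b
    rw [le_min_iff, le_div_iff₀ hD0]
    norm_cast
  unfold II
  refine if_congr ?_ rfl rfl
  rw [key a, key (p₀ * a), not_le, div_lt_iff₀ hp0]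
  push_cast
  rw [and_comm, mul_comm (p₀:ℝ)]

theorem prod_one_le {α : Type} {s : Finset α} {f : α → ℕ} (h : ∀ i ∈ s, 1 ≤ f i) :
    1 ≤ ∏ i ∈ s, f i :=
  Nat.one_le_iff_ne_zero.2 (Finset.prod_ne_zero_iff.2 fun i hi =>
    Nat.one_le_iff_ne_zero.1 (h i hi))

theorem pr_one_le {W R p : ℕ} (hp : p ∈ Pr W R) : 1 ≤ p := by
  unfold Pr at hp
  exact (Finset.mem_Icc.1 (Finset.mem_filter.1 hp).1).1

theorem pr_two_le {W R p : ℕ} (hp : p ∈ Pr W R) : 2 ≤ p := by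
  unfold Pr at hp
  exact (Finset.mem_filter.1 hp).2.1.two_le

theorem kappa2_nonneg (p : ℕ) : 0 ≤ κ₂ p := by
  unfold κ₂; positivity

theorem dens_nonneg (W : ℕ) : 0 ≤ dens W := by
  unfold dens; positivity

theorem sum_II_le : ∃ C : ℝ, 1 ≤ C ∧ ∀ (W R ρ J D : ℕ) (p₀ : ℕ), 1 ≤ W → 1 ≤ ρ → 1 ≤ D → 1 ≤ p₀ →
    ρ ^ (2 ^ J) ≤ R →
    ∑ A ∈ (Pr W R).powerset, (∑ l ∈ Finset.range (J+1), wst J l * II ρ R p₀ D l (∏ p ∈ A, p)) *
      ∏ p ∈ A, κ₂ p ≤ C * dens W * (Real.log p₀ + 1 + Real.log W) := by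
  obtain ⟨C, hC1, hC⟩ := sum1_upper
  refine ⟨C, hC1, fun W R ρ J D p₀ hW hρ hD hp hR => ?_⟩
  have hp0 : (0:ℝ) < p₀ := by exact_mod_cast hp
  have hp1 : (1:ℝ) ≤ p₀ := by exact_mod_cast hp
  have hlogW : 0 ≤ Real.log W := Real.log_natCast_nonneg W
  have hlogp : 0 ≤ Real.log p₀ := Real.log_natCast_nonneg p₀
  have hbound0 : 0 ≤ C * dens W * (Real.log p₀ + 1 + Real.log W) := by
    have := dens_nonneg W
    positivity
  have hl : ∀ l ∈ Finset.range (J+1), ∑ A ∈ (Pr W R).powerset,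
      II ρ R p₀ D l (∏ p ∈ A, p) * ∏ p ∈ A, κ₂ p ≤ C * dens W * (Real.log p₀ + 1 + Real.log W) := by
    intro l hl
    rw [Finset.mem_range] at hl
    set M := min ((ρ:ℝ) ^ (2 ^ l)) ((R:ℝ) / D) with hM
    have hMR : M ≤ R := by
      refine (min_le_left _ _).trans ?_
      have h1 : ρ ^ (2 ^ l) ≤ ρ ^ (2 ^ J) :=
        Nat.pow_le_pow_right hρ (Nat.pow_le_pow_right (by norm_num) (by omega))
      exact_mod_cast h1.trans hR
    by_cases hM1 : 1 ≤ M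
    · have h := hC W R (M / p₀) M hW (by positivity) (div_le_self (by linarith) hp1) hM1 hMR
      have e : M / (M / p₀) = p₀ := by
        have : M ≠ 0 := by linarith
        field_simp
      rw [e] at h
      refine le_trans (le_of_eq ?_) h
      unfold sum1
      refine Finset.sum_congr rfl fun A _ => ?_
      rw [II_eq ρ R p₀ D l _ hp hD, ← hM]
    · refine le_trans (le_of_eq ?_) hbound0
      refine Finset.sum_eq_zero fun A hA => ?_
      rw [II_eq ρ R p₀ D l _ hp hD, ← hM, if_neg, zero_mul]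
      rintro ⟨_, h2⟩
      have h3 : 1 ≤ ∏ p ∈ A, p := prod_one_le fun p hp' =>
        pr_one_le (Finset.mem_powerset.1 hA hp')
      have h4 : (1:ℝ) ≤ ((∏ p ∈ A, p : ℕ) : ℝ) := by exact_mod_cast h3
      linarith
  calc ∑ A ∈ (Pr W R).powerset, (∑ l ∈ Finset.range (J+1), wst J l * II ρ R p₀ D l (∏ p ∈ A, p)) *
      ∏ p ∈ A, κ₂ p
      = ∑ l ∈ Finset.range (J+1), wst J l * ∑ A ∈ (Pr W R).powerset,
          II ρ R p₀ D l (∏ p ∈ A, p) * ∏ p ∈ A, κ₂ p := by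
        simp_rw [Finset.sum_mul, Finset.mul_sum]
        rw [Finset.sum_comm]
        refine Finset.sum_congr rfl fun l _ => Finset.sum_congr rfl fun A _ => ?_
        ring
    _ ≤ ∑ l ∈ Finset.range (J+1), wst J l * (C * dens W * (Real.log p₀ + 1 + Real.log W)) :=
        Finset.sum_le_sum fun l hl' => mul_le_mul_of_nonneg_left (hl l hl') (wst_nonneg _ _)
    _ = C * dens W * (Real.log p₀ + 1 + Real.log W) := by
        rw [← Finset.sum_mul, sum_wst, one_mul]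

theorem sum_pi_insertNth {α : Type} (n : ℕ) (S : Finset α) (i₀ : Fin (n + 1))
    (F : (Fin (n + 1) → α) → ℝ) :
    ∑ T ∈ Fintype.piFinset (fun _ : Fin (n + 1) => S), F T
      = ∑ T' ∈ Fintype.piFinset (fun _ : Fin n => S), ∑ a ∈ S,
          F (i₀.insertNth (α := fun _ => α) a T') := by
  rw [Finset.sum_comm, ← Finset.sum_product']
  refine Finset.sum_nbij' (fun T => (T i₀, fun j => T (i₀.succAbove j)))
    (fun q => i₀.insertNth (α := fun _ => α) q.1 q.2) ?_ ?_ ?_ ?_ ?_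
  · intro T hT
    rw [Fintype.mem_piFinset] at hT
    rw [Finset.mem_product, Fintype.mem_piFinset]
    exact ⟨hT i₀, fun j => hT _⟩
  · rintro ⟨a, T'⟩ hq
    rw [Finset.mem_product, Fintype.mem_piFinset] at hq
    rw [Fintype.mem_piFinset]
    intro i
    rcases Fin.eq_self_or_eq_succAbove i₀ i with h | ⟨j, h⟩
    · subst h
      rw [Fin.insertNth_apply_same]
      exact hq.1
    · subst h
      rw [Fin.insertNth_apply_succAbove]
      exact hq.2 j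
  · intro T _
    exact Fin.insertNth_self_removeNth i₀ T
  · rintro ⟨a, T'⟩ _
    simp
  · intro T _
    congr 1
    exact (Fin.insertNth_self_removeNth i₀ T).symm

/-- The function on tuples of sets bounding the first part. -/
noncomputable def Fu (ρ R J p₀ n : ℕ) (i₀ : Fin (n + 1)) (T : Fin (n + 1) → Finset ℕ) : ℝ :=
  (∏ j : Fin n, ((gst ρ J (∏ p ∈ T (i₀.succAbove j), p)) ^ 2 *
      ∏ p ∈ T (i₀.succAbove j), κ₂ p)) *
    ((∑ l ∈ Finset.range (J+1), wst J l *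
      II ρ R p₀ (∏ j : Fin n, ∏ p ∈ T (i₀.succAbove j), p) l (∏ p ∈ T i₀, p)) *
      ∏ p ∈ T i₀, κ₂ p)

theorem Fu_nonneg (ρ R J p₀ n : ℕ) (i₀ : Fin (n + 1)) (T : Fin (n + 1) → Finset ℕ) :
    0 ≤ Fu ρ R J p₀ n i₀ T := by
  unfold Fu
  refine mul_nonneg (Finset.prod_nonneg fun j _ => mul_nonneg (sq_nonneg _)
    (Finset.prod_nonneg fun p _ => kappa2_nonneg p)) (mul_nonneg ?_
    (Finset.prod_nonneg fun p _ => kappa2_nonneg p))
  exact Finset.sum_nonneg fun l _ => mul_nonneg (wst_nonneg _ _) (II_nonneg _ _ _ _ _ _)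

theorem sum_Fu_le : ∃ C : ℝ, 1 ≤ C ∧ ∀ (n W R ρ J : ℕ) (p₀ : ℕ) (i₀ : Fin (n + 1)),
    1 ≤ W → 1 ≤ ρ → 1 ≤ p₀ → ρ ^ (2 ^ J) ≤ R →
    ∑ r : Asg (Pr W R) (n + 1), Fu ρ R J p₀ n i₀ (part r) ≤
      C * dens W * (Real.log p₀ + 1 + Real.log W) *
        (sum1 (Pr W R) κ₂ (fun a => (gst ρ J a) ^ 2)) ^ n := by
  obtain ⟨C, hC1, hC⟩ := sum_II_le
  refine ⟨C, hC1, fun n W R ρ J p₀ i₀ hW hρ hp hR => ?_⟩
  refine (sum_asg_le (P := Pr W R) (Fu ρ R J p₀ n i₀)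
    (fun T _ => Fu_nonneg ρ R J p₀ n i₀ T)).trans ?_
  rw [sum_pi_insertNth n _ i₀]
  have hstep : ∀ T' ∈ Fintype.piFinset (fun _ : Fin n => (Pr W R).powerset),
      ∑ A ∈ (Pr W R).powerset, Fu ρ R J p₀ n i₀ (i₀.insertNth (α := fun _ => Finset ℕ) A T')
      ≤ (∏ j : Fin n, ((gst ρ J (∏ p ∈ T' j, p)) ^ 2 * ∏ p ∈ T' j, κ₂ p)) *
        (C * dens W * (Real.log p₀ + 1 + Real.log W)) := by
    intro T' hT'
    rw [Fintype.mem_piFinset] at hT'
    have hD : 1 ≤ ∏ j : Fin n, ∏ p ∈ T' j, p := prod_one_le fun j _ =>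
      prod_one_le fun p hp' => pr_one_le (Finset.mem_powerset.1 (hT' j) hp')
    have h := hC W R ρ J (∏ j : Fin n, ∏ p ∈ T' j, p) p₀ hW hρ hD hp hR
    have e : ∀ A, Fu ρ R J p₀ n i₀ (i₀.insertNth (α := fun _ => Finset ℕ) A T')
        = (∏ j : Fin n, ((gst ρ J (∏ p ∈ T' j, p)) ^ 2 * ∏ p ∈ T' j, κ₂ p)) *
          ((∑ l ∈ Finset.range (J+1), wst J l *
            II ρ R p₀ (∏ j : Fin n, ∏ p ∈ T' j, p) l (∏ p ∈ A, p)) * ∏ p ∈ A, κ₂ p) := by
      intro A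
      unfold Fu
      simp only [Fin.insertNth_apply_succAbove, Fin.insertNth_apply_same]
    simp_rw [e]
    rw [← Finset.mul_sum]
    refine mul_le_mul_of_nonneg_left h (Finset.prod_nonneg fun j _ => mul_nonneg (sq_nonneg _)
      (Finset.prod_nonneg fun p _ => kappa2_nonneg p))
  refine (Finset.sum_le_sum hstep).trans ?_
  rw [← Finset.sum_mul, prod_sum1 (P := Pr W R) κ₂ (fun _ : Fin n => fun a => (gst ρ J a) ^ 2)]
  rw [Finset.prod_const, Finset.card_univ, Fintype.card_fin, mul_comm]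

theorem u_sq_le {n W R ρ J : ℕ} (p₀ : Pr W R) (i₀ : Fin (n + 1)) (r : Asg (Pr W R) (n + 1))
    (h : r p₀ = none) :
    (yOf (gst ρ J) R r - yOf (gst ρ J) R (Function.update r p₀ (some i₀))) ^ 2 * wt κ₂ r
      ≤ Fu ρ R J p₀ n i₀ (part r) := by
  have hp0 : 1 ≤ (p₀ : ℕ) := pr_one_le p₀.2
  set D := ∏ j : Fin n, dd r (i₀.succAbove j) with hD
  set G := ∏ j : Fin n, gst ρ J (dd r (i₀.succAbove j)) with hG
  have e1 : yOf (gst ρ J) R r = G * (if dd r i₀ * D ≤ R then gst ρ J (dd r i₀) else 0) := by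
    unfold yOf
    rw [dtot_eq, Fin.prod_univ_succAbove _ i₀, ← hD, Fin.prod_univ_succAbove _ i₀, ← hG]
    split_ifs
    · ring
    · ring
  have e2 : yOf (gst ρ J) R (Function.update r p₀ (some i₀))
      = G * (if p₀ * dd r i₀ * D ≤ R then gst ρ J (p₀ * dd r i₀) else 0) := by
    unfold yOf
    rw [dtot_eq, Fin.prod_univ_succAbove _ i₀, Fin.prod_univ_succAbove _ i₀,
      dd_update_self r p₀ h]
    have e3 : ∏ j : Fin n, dd (Function.update r p₀ (some i₀)) (i₀.succAbove j) = D := by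
      refine Finset.prod_congr rfl fun j _ => ?_
      exact dd_update_ne r p₀ h i₀ _ (Fin.succAbove_ne i₀ j)
    have e4 : ∏ j : Fin n, gst ρ J (dd (Function.update r p₀ (some i₀)) (i₀.succAbove j)) = G := by
      refine Finset.prod_congr rfl fun j _ => ?_
      rw [dd_update_ne r p₀ h i₀ _ (Fin.succAbove_ne i₀ j)]
    rw [e3, e4]
    split_ifs
    · ring
    · ring
  rw [e1, e2, ← mul_sub, gh_sub ρ R p₀ D J (dd r i₀) hp0, mul_pow, wt_eq,
    Fin.prod_univ_succAbove _ i₀]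
  have hs := sum_II_sq_le ρ R p₀ D J (dd r i₀)
  have hκ : 0 ≤ ∏ p ∈ part r i₀, κ₂ p := Finset.prod_nonneg fun p _ => kappa2_nonneg p
  have hκ' : 0 ≤ ∏ j : Fin n, ∏ p ∈ part r (i₀.succAbove j), κ₂ p :=
    Finset.prod_nonneg fun j _ => Finset.prod_nonneg fun p _ => kappa2_nonneg p
  have hFu : Fu ρ R J p₀ n i₀ (part r) = (G ^ 2 * ∏ j : Fin n, ∏ p ∈ part r (i₀.succAbove j), κ₂ p) *
      ((∑ l ∈ Finset.range (J+1), wst J l * II ρ R p₀ D l (dd r i₀)) *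
        ∏ p ∈ part r i₀, κ₂ p) := by
    unfold Fu
    rw [Finset.prod_mul_distrib, Finset.prod_pow]
    rfl
  rw [hFu]
  calc G ^ 2 * (∑ l ∈ Finset.range (J+1), wst J l * II ρ R p₀ D l (dd r i₀)) ^ 2 *
      ((∏ p ∈ part r i₀, κ₂ p) * ∏ j : Fin n, ∏ p ∈ part r (i₀.succAbove j), κ₂ p)
      = (G ^ 2 * ∏ j : Fin n, ∏ p ∈ part r (i₀.succAbove j), κ₂ p) *
        ((∑ l ∈ Finset.range (J+1), wst J l * II ρ R p₀ D l (dd r i₀)) ^ 2 *
          ∏ p ∈ part r i₀, κ₂ p) := by ring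
    _ ≤ _ := mul_le_mul_of_nonneg_left (mul_le_mul_of_nonneg_right hs hκ)
        (mul_nonneg (sq_nonneg _) hκ')

theorem yOf_nonneg {W R ρ J k : ℕ} (r : Asg (Pr W R) k) : 0 ≤ yOf (gst ρ J) R r := by
  unfold yOf
  split_ifs
  · exact Finset.prod_nonneg fun i _ => gst_nonneg _ _ _
  · exact le_refl _

theorem yOf_update_le {W R ρ J k : ℕ} (p₀ : Pr W R) (r : Asg (Pr W R) k) (h : r p₀ = none)
    (b : Option (Fin k)) :
    yOf (gst ρ J) R (Function.update r p₀ b) ≤ ∏ i, gst ρ J (dd r i) := by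
  unfold yOf
  split_ifs
  · refine Finset.prod_le_prod (fun i _ => gst_nonneg _ _ _) fun i _ => ?_
    exact gst_antitone ρ J (dd_le_update (fun p hp => pr_one_le hp) r p₀ h b i)
  · exact Finset.prod_nonneg fun i _ => gst_nonneg _ _ _

theorem kappa1_nonneg {p : ℕ} (hp : 1 ≤ p) : 0 ≤ κ₁ p := by
  unfold κ₁
  have : (1:ℝ) ≤ p := by exact_mod_cast hp
  exact div_nonneg zero_le_one (by linarith)

theorem v_sq_le {W R ρ J k : ℕ} (p₀ : Pr W R) (i₀ : Fin k) (r : Asg (Pr W R) k)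
    (h : r p₀ = none) :
    (κ₁ p₀ * ∑ j ∈ Finset.univ.erase i₀, yOf (gst ρ J) R (Function.update r p₀ (some j))) ^ 2
      ≤ (k * κ₁ p₀) ^ 2 * ∏ i, (gst ρ J (dd r i)) ^ 2 := by
  have hκ := kappa1_nonneg (pr_one_le p₀.2)
  have h0 : 0 ≤ ∑ j ∈ Finset.univ.erase i₀, yOf (gst ρ J) R (Function.update r p₀ (some j)) :=
    Finset.sum_nonneg fun j _ => yOf_nonneg _
  have hG : 0 ≤ ∏ i, gst ρ J (dd r i) := Finset.prod_nonneg fun i _ => gst_nonneg _ _ _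
  have h1 : ∑ j ∈ Finset.univ.erase i₀, yOf (gst ρ J) R (Function.update r p₀ (some j))
      ≤ k * ∏ i, gst ρ J (dd r i) := by
    calc ∑ j ∈ Finset.univ.erase i₀, yOf (gst ρ J) R (Function.update r p₀ (some j))
        ≤ ∑ j : Fin k, yOf (gst ρ J) R (Function.update r p₀ (some j)) :=
          Finset.sum_le_sum_of_subset_of_nonneg (Finset.erase_subset _ _)
            fun j _ _ => yOf_nonneg _
      _ ≤ ∑ j : Fin k, ∏ i, gst ρ J (dd r i) :=
          Finset.sum_le_sum fun j _ => yOf_update_le p₀ r h _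
      _ = k * ∏ i, gst ρ J (dd r i) := by
          rw [Finset.sum_const, Finset.card_univ, Fintype.card_fin, nsmul_eq_mul]
  rw [Finset.prod_pow, ← mul_pow]
  refine pow_le_pow_left₀ (mul_nonneg hκ h0) ?_ 2
  calc κ₁ p₀ * ∑ j ∈ Finset.univ.erase i₀, yOf (gst ρ J) R (Function.update r p₀ (some j))
      ≤ κ₁ p₀ * (k * ∏ i, gst ρ J (dd r i)) := mul_le_mul_of_nonneg_left h1 hκ
    _ = _ := by ring

theorem wt_sq_mul {W R k : ℕ} (r : Asg (Pr W R) k) :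
    (wt (fun p => - ((p:ℝ) / ((p:ℝ) - 1))) r) ^ 2 * wt (fun p => 1 / (p:ℝ)) r = wt κ₂ r := by
  unfold wt
  rw [← Finset.prod_pow, ← Finset.prod_mul_distrib]
  refine Finset.prod_congr rfl fun p _ => ?_
  by_cases h : r p = none
  · simp [h]
  · simp only [h, if_false]
    have h2 : (2:ℝ) ≤ ((p:ℕ):ℝ) := by exact_mod_cast pr_two_le p.2
    have h3 : ((p:ℕ):ℝ) ≠ 0 := by linarith
    have h4 : ((p:ℕ):ℝ) - 1 ≠ 0 := by linarith
    unfold κ₂
    field_simp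

theorem wt_kappa2_nonneg {P : Finset ℕ} {k : ℕ} (r : Asg P k) : 0 ≤ wt κ₂ r := by
  unfold wt
  refine Finset.prod_nonneg fun p _ => ?_
  split_ifs
  · norm_num
  · exact kappa2_nonneg _

end RoughFormAux

open RoughFormAux

theorem rough_form : ∃ C : ℝ, 1 ≤ C ∧ ∀ (k W R ρ J : ℕ), 1 ≤ k → 1 ≤ W → 1 ≤ ρ →
    ρ ^ (2 ^ J) ≤ R → (∀ p ∈ Pr W R, k ≤ p) → ∀ (p₀ : Pr W R) (i₀ : Fin k),
    formK (fun p => (p:ℝ)) (lamp p₀ i₀ (lamOf (yOf (gst ρ J) R : Asg (Pr W R) k → ℝ))) ≤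
      C * dens W * (Real.log (p₀:ℕ) + 1 + Real.log W) *
          (sum1 (Pr W R) κ₂ (fun a => (gst ρ J a) ^ 2)) ^ (k-1)
        + 2 * (k * κ₁ p₀) ^ 2 * (sum1 (Pr W R) κ₂ (fun a => (gst ρ J a) ^ 2)) ^ k := by
  obtain ⟨C, hC1, hC⟩ := sum_Fu_le
  refine ⟨2 * C, by linarith, fun k W R ρ J hk hW hρ hR hP p₀ i₀ => ?_⟩
  obtain ⟨n, rfl⟩ : ∃ n, k = n + 1 := ⟨k - 1, by omega⟩
  have hform := formK_le (P := Pr W R) (k := n + 1) (fun p => (p:ℝ)) (fun p hp =>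
    ⟨by exact_mod_cast hP p hp, by exact_mod_cast pr_one_le hp⟩)
    (lamp p₀ i₀ (lamOf (yOf (gst ρ J) R : Asg (Pr W R) (n + 1) → ℝ)))
  refine hform.trans ?_
  have hterm : ∀ r : Asg (Pr W R) (n + 1),
      (zOf (fun p => (p:ℝ)) (lamp p₀ i₀ (lamOf (yOf (gst ρ J) R))) r) ^ 2 *
        wt (fun p => 1 / (p:ℝ)) r
      ≤ 2 * Fu ρ R J p₀ n i₀ (part r) +
        2 * (((n + 1 : ℕ) : ℝ) * κ₁ p₀) ^ 2 * ((∏ i, (gst ρ J (dd r i)) ^ 2) * wt κ₂ r) := by
    intro r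
    rw [zOf_lamp (fun p hp => pr_two_le hp) p₀ i₀]
    have hw := wt_kappa2_nonneg r
    have hFu := Fu_nonneg ρ R J p₀ n i₀ (part r)
    by_cases h : r p₀ = none
    · rw [if_pos h, mul_pow, mul_assoc, wt_sq_mul]
      have h1 := u_sq_le (ρ := ρ) (J := J) p₀ i₀ r h
      have h2 := v_sq_le (ρ := ρ) (J := J) p₀ i₀ r h
      set u := yOf (gst ρ J) R r - yOf (gst ρ J) R (Function.update r p₀ (some i₀)) with hu
      have hk1 : (1 / (((p₀ : ℕ) : ℝ) - 1)) = κ₁ p₀ := rfl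
      rw [hk1]
      set v := κ₁ p₀ * ∑ j ∈ Finset.univ.erase i₀, yOf (gst ρ J) R (Function.update r p₀ (some j))
        with hv
      have h3 : (u + v) ^ 2 ≤ 2 * u ^ 2 + 2 * v ^ 2 := by nlinarith [sq_nonneg (u - v)]
      calc (u + v) ^ 2 * wt κ₂ r ≤ (2 * u ^ 2 + 2 * v ^ 2) * wt κ₂ r :=
            mul_le_mul_of_nonneg_right h3 hw
        _ = 2 * (u ^ 2 * wt κ₂ r) + 2 * (v ^ 2 * wt κ₂ r) := by ring
        _ ≤ 2 * Fu ρ R J p₀ n i₀ (part r) +
            2 * (((((n + 1 : ℕ) : ℝ) * κ₁ p₀) ^ 2 * ∏ i, (gst ρ J (dd r i)) ^ 2) * wt κ₂ r) := by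
            have h4 := mul_le_mul_of_nonneg_right h2 hw
            linarith
        _ = _ := by ring
    · rw [if_neg h]
      have hpr : 0 ≤ ∏ i, (gst ρ J (dd r i)) ^ 2 := Finset.prod_nonneg fun i _ => sq_nonneg _
      have : 0 ≤ 2 * Fu ρ R J p₀ n i₀ (part r) +
        2 * (((n + 1 : ℕ) : ℝ) * κ₁ p₀) ^ 2 * ((∏ i, (gst ρ J (dd r i)) ^ 2) * wt κ₂ r) := by
        positivity
      simpa using this
  refine (Finset.sum_le_sum fun r _ => hterm r).trans ?_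
  rw [Finset.sum_add_distrib, ← Finset.mul_sum, ← Finset.mul_sum]
  have h1 := hC n W R ρ J p₀ i₀ hW hρ (pr_one_le p₀.2) hR
  have h2 := sum_asg_prod_le (P := Pr W R) (k := n + 1) κ₂ (fun p _ => kappa2_nonneg p)
    (fun _ a => (gst ρ J a) ^ 2) (fun _ _ => sq_nonneg _)
  rw [Finset.prod_const, Finset.card_univ, Fintype.card_fin] at h2
  have h3 : 0 ≤ 2 * (((n + 1 : ℕ) : ℝ) * κ₁ p₀) ^ 2 := by positivity
  have h4 := mul_le_mul_of_nonneg_left h2 h3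
  simp only [Nat.add_sub_cancel]
  calc _ ≤ 2 * (C * dens W * (Real.log p₀ + 1 + Real.log W) *
        (sum1 (Pr W R) κ₂ (fun a => (gst ρ J a) ^ 2)) ^ n) +
        2 * (((n + 1 : ℕ) : ℝ) * κ₁ p₀) ^ 2 *
          (sum1 (Pr W R) κ₂ (fun a => (gst ρ J a) ^ 2)) ^ (n + 1) := by
        linarith
    _ = _ := by ring

end Pool.Agent.Lib.MT
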