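import Pool.Agent.Lib.MT.Disjoint

/-!
# Size of the sieve weights

PROOF SKETCH. |lamOf y s| ≤ prod_{p ∈ s} (p/(p-1)) * sum over t ⊇ s, dtot t ≤ R of prod_{p ∈ t \ s}
κ₁ p. p/(p-1) = 1 + κ₁ p, so prod_{p ∈ s_i} (1+κ₁) = sum over b ⊆ s_i of κ₁(b). For each i the pairs
(b_i, u_i) with b_i ⊆ s_i, u_i = t_i \ s_i disjoint from s_i give distinct sets b_i ∪ u_i of product
≤ d_i u_i ≤ R. So |lamOf y s| ≤ prod_i sum_{T, prod T ≤ R} κ₁(T). If dtot s > R all y t = 0 for
t ⊇ s. The number of s with dtot s ≤ R is at most sum over s of R/dtot s ≤ R prod_i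
(sum_{a ≤ R} 1/a) ≤ R (1 + log R)^k.
-/

open Finset
open scoped Classical

namespace Pool.Agent.Lib.MT

variable {P : Finset ℕ} {k : ℕ}

/-- Indicator used in the expansion of the local kernel. -/
noncomputable def lmE (a b c : Option (Fin k)) : ℝ :=
  if (a = none ∧ b = c) ∨ (a ≠ none ∧ b = a ∧ (c = none ∨ c = a)) then 1 else 0

lemma lm_kappa_nonneg {p : ℕ} (hp : p.Prime) : 0 ≤ κ₁ p := by
  unfold κ₁
  have : (1 : ℝ) ≤ p := by exact_mod_cast hp.one_lt.le
  apply div_nonneg zero_le_one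
  linarith

lemma lmE_nonneg (a b c : Option (Fin k)) : 0 ≤ lmE a b c := by
  unfold lmE; split_ifs <;> norm_num

lemma lm_abs_Lq {p : ℕ} (hp : p.Prime) (a b : Option (Fin k)) :
    |Lq (p : ℝ) a b| = ∑ c : Option (Fin k), lmE a b c * (if c = none then 1 else κ₁ p) := by
  have h1 : (1 : ℝ) < p := by exact_mod_cast hp.one_lt
  have h2 : (0 : ℝ) < (p : ℝ) - 1 := by linarith
  have hk : 0 ≤ κ₁ p := lm_kappa_nonneg hp
  by_cases ha : a = none
  · subst ha
    have : ∀ c : Option (Fin k), lmE none b c = if c = b then 1 else 0 := by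
      intro c
      unfold lmE
      simp [eq_comm]
    simp only [this, ite_mul, one_mul, zero_mul, Finset.sum_ite_eq', Finset.mem_univ, if_true]
    unfold Lq
    by_cases hb : b = none
    · simp [hb]
    · simp only [hb, if_false, if_true]
      exact abs_of_nonneg hk
  · by_cases hb : b = a
    · subst hb
      have : ∀ c : Option (Fin k), lmE b b c * (if c = none then 1 else κ₁ p) =
          (if c = none then 1 else 0) + (if c = b then κ₁ p else 0) := by
        intro c
        unfold lmE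
        by_cases hc : c = none
        · subst hc
          simp [ha, Ne.symm ha]
        · by_cases hc2 : c = b
          · simp [hc2, ha]
          · simp [hc, hc2, ha]
      simp only [this, Finset.sum_add_distrib, Finset.sum_ite_eq', Finset.mem_univ, if_true]
      unfold Lq
      simp only [ha, if_false, if_true]
      rw [abs_neg, abs_of_nonneg (by positivity)]
      unfold κ₁
      field_simp
      ring
    · have : ∀ c : Option (Fin k), lmE a b c = 0 := by
        intro c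
        unfold lmE
        simp [ha, hb]
      simp only [this, zero_mul, Finset.sum_const_zero]
      unfold Lq
      by_cases hb0 : b = none
      · simp [hb0, ha]
      · simp [hb0, ha, Ne.symm hb]

lemma lm_prod_Lq (hP : ∀ p ∈ P, p.Prime) (s t : Asg P k) :
    ∏ p : P, |Lq ((p : ℕ) : ℝ) (s p) (t p)| =
      ∑ r : Asg P k, (∏ p : P, lmE (s p) (t p) (r p)) * wt κ₁ r := by
  have h1 : ∀ p : P, |Lq ((p : ℕ) : ℝ) (s p) (t p)| =
      ∑ c : Option (Fin k), lmE (s p) (t p) c * (if c = none then 1 else κ₁ p) :=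
    fun p => lm_abs_Lq (hP p p.2) _ _
  simp only [h1]
  rw [Finset.prod_univ_sum, Fintype.piFinset_univ]
  refine Finset.sum_congr rfl fun r _ => ?_
  rw [Finset.prod_mul_distrib]
  rfl

lemma lm_part_eq (r : Asg P k) (i : Fin k) : part r i =
    ((Finset.univ : Finset P).filter (fun p : P => r p = some i)).image Subtype.val := by
  unfold part
  ext q
  simp only [Finset.mem_image, Finset.bind_def, Finset.pure_def, Finset.mem_sup,
    Finset.mem_singleton, Finset.mem_filter]
  constructor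
  · rintro ⟨a, ⟨p, hp, rfl⟩, rfl⟩
    exact ⟨p, hp, rfl⟩
  · rintro ⟨p, hp, rfl⟩
    exact ⟨p, ⟨p, hp, rfl⟩, rfl⟩

lemma lm_dd_eq (r : Asg P k) (i : Fin k) :
    dd r i = ∏ p : P, if r p = some i then (p : ℕ) else 1 := by
  unfold dd
  rw [lm_part_eq, Finset.prod_image (fun a _ b _ h => Subtype.ext h), Finset.prod_filter]

lemma lm_dd_le {hP : ∀ p ∈ P, p.Prime} {r t : Asg P k} (i : Fin k)
    (h : ∀ p, r p ≠ none → t p ≠ none) : dd r i ≤ dtot t := by
  rw [lm_dd_eq]
  unfold dtot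
  refine Finset.prod_le_prod (fun p _ => Nat.zero_le _) fun p _ => ?_
  have hp := (hP p p.2).one_lt.le
  by_cases h1 : r p = some i
  · have : t p ≠ none := h p (by rw [h1]; simp)
    simp [h1, this]
  · rw [if_neg h1]
    split_ifs
    · exact le_rfl
    · exact hp

lemma lm_dtot_le {hP : ∀ p ∈ P, p.Prime} {s t : Asg P k}
    (h : ∀ p, s p ≠ none → t p ≠ none) : dtot s ≤ dtot t := by
  unfold dtot
  refine Finset.prod_le_prod (fun p _ => Nat.zero_le _) fun p _ => ?_
  have hp := (hP p p.2).one_lt.le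
  by_cases h1 : s p = none
  · rw [if_pos h1]
    split_ifs
    · exact le_rfl
    · exact hp
  · rw [if_neg h1, if_neg (h p h1)]

lemma lm_abs_yOf {g : ℕ → ℝ} (hg : ∀ a, 0 ≤ g a) (hg1 : ∀ a, g a ≤ 1) (R : ℕ) (t : Asg P k) :
    |yOf g R t| ≤ if dtot t ≤ R then 1 else 0 := by
  unfold yOf
  split_ifs
  · rw [abs_of_nonneg (Finset.prod_nonneg fun i _ => hg _)]
    exact Finset.prod_le_one (fun i _ => hg _) fun i _ => hg1 _
  · simp

lemma lm_inner (hP : ∀ p ∈ P, p.Prime) {g : ℕ → ℝ} (hg : ∀ a, 0 ≤ g a) (hg1 : ∀ a, g a ≤ 1)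
    (R : ℕ) (s r : Asg P k) :
    ∑ t : Asg P k, |yOf g R t| * ∏ p : P, lmE (s p) (t p) (r p) ≤
      ∏ i, (if dd r i ≤ R then 1 else 0 : ℝ) := by
  set t₀ : Asg P k := fun p => if s p = none then r p else s p with ht₀
  have hR0 : (0 : ℝ) ≤ ∏ i, (if dd r i ≤ R then 1 else 0 : ℝ) :=
    Finset.prod_nonneg fun i _ => by split_ifs <;> norm_num
  rw [Finset.sum_eq_single t₀]
  · by_cases hE : ∃ p : P, lmE (s p) (t₀ p) (r p) = 0
    · obtain ⟨p, hp⟩ := hE
      rw [Finset.prod_eq_zero (Finset.mem_univ p) hp, mul_zero]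
      exact hR0
    · push Not at hE
      have hc : ∀ p, r p ≠ none → t₀ p ≠ none := by
        intro p hr
        by_cases hs : s p = none
        · simp only [ht₀, hs, if_true]
          exact hr
        · simp only [ht₀, hs, if_false]
          exact hs
      have hE1 : ∏ p : P, lmE (s p) (t₀ p) (r p) ≤ 1 :=
        Finset.prod_le_one (fun p _ => lmE_nonneg _ _ _) fun p _ => by
          unfold lmE; split_ifs <;> norm_num
      by_cases hd : dtot t₀ ≤ R
      · have h1 : (∏ i, (if dd r i ≤ R then 1 else 0 : ℝ)) = 1 := by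
          refine Finset.prod_eq_one fun i _ => ?_
          rw [if_pos]
          exact (lm_dd_le (hP := hP) i hc).trans hd
        rw [h1]
        have h2 := lm_abs_yOf hg hg1 R t₀
        rw [if_pos hd] at h2
        calc |yOf g R t₀| * ∏ p : P, lmE (s p) (t₀ p) (r p) ≤ 1 * 1 :=
              mul_le_mul h2 hE1 (Finset.prod_nonneg fun p _ => lmE_nonneg _ _ _) zero_le_one
          _ = 1 := one_mul 1
      · have h2 := lm_abs_yOf hg hg1 R t₀
        rw [if_neg hd] at h2
        have h3 : |yOf g R t₀| = 0 := le_antisymm h2 (abs_nonneg _)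
        rw [h3, zero_mul]
        exact hR0
  · intro t _ ht
    have : ∃ p : P, t p ≠ t₀ p := by
      by_contra hcon
      push Not at hcon
      exact ht (funext hcon)
    obtain ⟨p, hp⟩ := this
    have h0 : lmE (s p) (t p) (r p) = 0 := by
      unfold lmE
      rw [if_neg]
      rintro (⟨h1, h2⟩ | ⟨h1, h2, _⟩)
      · apply hp
        simp only [ht₀, h1, if_true]
        exact h2
      · apply hp
        simp only [ht₀, h1, if_false]
        exact h2
    rw [Finset.prod_eq_zero (Finset.mem_univ p) h0, mul_zero]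
  · intro h
    exact absurd (Finset.mem_univ _) h

theorem lam_max (hP : ∀ p ∈ P, p.Prime) (g : ℕ → ℝ) (hg : ∀ a, 0 ≤ g a) (hg1 : ∀ a, g a ≤ 1)
    (R : ℕ) (s : Asg P k) :
    |lamOf (yOf g R) s| ≤ (sum1 P κ₁ (fun a => if a ≤ R then 1 else 0)) ^ k := by
  have hw : ∀ r : Asg P k, 0 ≤ wt κ₁ r := fun r => by
    unfold wt
    refine Finset.prod_nonneg fun p _ => ?_
    split_ifs
    · exact zero_le_one
    · exact lm_kappa_nonneg (hP p p.2)
  have h1 : |lamOf (yOf g R) s| ≤
      ∑ t : Asg P k, |yOf g R t| * ∏ p : P, |Lq ((p : ℕ) : ℝ) (s p) (t p)| := by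
    unfold lamOf
    refine (Finset.abs_sum_le_sum_abs _ _).trans ?_
    refine Finset.sum_le_sum fun t _ => ?_
    rw [abs_mul, Finset.abs_prod]
  have h2 : ∑ t : Asg P k, |yOf g R t| * ∏ p : P, |Lq ((p : ℕ) : ℝ) (s p) (t p)| =
      ∑ r : Asg P k, (∑ t : Asg P k, |yOf g R t| * ∏ p : P, lmE (s p) (t p) (r p)) *
        wt κ₁ r := by
    simp only [lm_prod_Lq hP, Finset.mul_sum, Finset.sum_mul]
    rw [Finset.sum_comm]
    refine Finset.sum_congr rfl fun r _ => Finset.sum_congr rfl fun t _ => ?_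
    ring
  have h3 := sum_asg_prod_le (P := P) (k := k) κ₁ (fun p hp => lm_kappa_nonneg (hP p hp))
    (fun _ a => if a ≤ R then 1 else 0) (fun i a => by split_ifs <;> norm_num)
  calc |lamOf (yOf g R) s| ≤ _ := h1
    _ = _ := h2
    _ ≤ ∑ r : Asg P k, (∏ i, (if dd r i ≤ R then 1 else 0 : ℝ)) * wt κ₁ r := by
        refine Finset.sum_le_sum fun r _ => ?_
        exact mul_le_mul_of_nonneg_right (lm_inner hP hg hg1 R s r) (hw r)
    _ ≤ _ := h3
    _ = _ := by rw [Finset.prod_const, Finset.card_univ, Fintype.card_fin]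

theorem lam_eq_zero (hP : ∀ p ∈ P, p.Prime) (g : ℕ → ℝ) (R : ℕ) (s : Asg P k)
    (hs : R < dtot s) : lamOf (yOf g R) s = 0 := by
  unfold lamOf
  refine Finset.sum_eq_zero fun t _ => ?_
  by_cases h : ∀ p, s p ≠ none → t p ≠ none
  · have h1 : dtot s ≤ dtot t := lm_dtot_le (hP := hP) h
    have h2 : ¬ dtot t ≤ R := by omega
    unfold yOf
    rw [if_neg h2, zero_mul]
  · push Not at h
    obtain ⟨p, hp1, hp2⟩ := h
    have h0 : Lq ((p : ℕ) : ℝ) (s p) (t p) = 0 := by
      unfold Lq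
      simp [hp1, hp2]
    rw [Finset.prod_eq_zero (Finset.mem_univ p) h0, mul_zero]

lemma lm_harm (hP : ∀ p ∈ P, p.Prime) (R : ℕ) :
    sum1 P (fun p => 1 / (p : ℝ)) (fun a => if a ≤ R then 1 else 0) ≤ 1 + Real.log R := by
  unfold sum1
  have h1 : ∀ T ∈ P.powerset, (if ∏ p ∈ T, p ≤ R then (1 : ℝ) else 0) * ∏ p ∈ T, 1 / (p : ℝ) =
      if ∏ p ∈ T, p ≤ R then (((∏ p ∈ T, p : ℕ) : ℝ))⁻¹ else 0 := by
    intro T _
    rw [ite_mul, one_mul, zero_mul]
    congr 1
    push_cast
    rw [← Finset.prod_inv_distrib]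
    simp
  rw [Finset.sum_congr rfl h1, ← Finset.sum_filter]
  have hinj : Set.InjOn (fun T : Finset ℕ => ∏ p ∈ T, p)
      ((P.powerset.filter (fun T => ∏ p ∈ T, p ≤ R) : Finset (Finset ℕ)) : Set (Finset ℕ)) := by
    intro T hT T' hT' h
    have hT1 : T ⊆ P := Finset.mem_powerset.mp (Finset.mem_filter.mp (Finset.mem_coe.mp hT)).1
    have hT2 : T' ⊆ P := Finset.mem_powerset.mp (Finset.mem_filter.mp (Finset.mem_coe.mp hT')).1
    rw [← Nat.primeFactors_prod (fun p hp => hP p (hT1 hp)),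
      ← Nat.primeFactors_prod (fun p hp => hP p (hT2 hp))]
    exact congrArg Nat.primeFactors h
  have h2 : ∑ T ∈ P.powerset.filter (fun T => ∏ p ∈ T, p ≤ R), (((∏ p ∈ T, p : ℕ) : ℝ))⁻¹ =
      ∑ a ∈ (P.powerset.filter (fun T => ∏ p ∈ T, p ≤ R)).image (fun T => ∏ p ∈ T, p),
        ((a : ℝ))⁻¹ := by
    rw [Finset.sum_image hinj]
  rw [h2]
  refine le_trans ?_ (harmonic_le_one_add_log R)
  rw [harmonic_eq_sum_Icc]
  push_cast
  refine Finset.sum_le_sum_of_subset_of_nonneg ?_ fun a _ _ => by positivity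
  intro a ha
  rw [Finset.mem_image] at ha
  obtain ⟨T, hT, rfl⟩ := ha
  rw [Finset.mem_filter] at hT
  rw [Finset.mem_Icc]
  refine ⟨?_, hT.2⟩
  exact Finset.prod_pos fun p hp => (hP p (Finset.mem_powerset.mp hT.1 hp)).pos

theorem card_asg_le (hP : ∀ p ∈ P, p.Prime) (R : ℕ) (hR : 1 ≤ R) :
    ((Finset.univ.filter (fun s : Asg P k => dtot s ≤ R)).card : ℝ) ≤
      R * (1 + Real.log R) ^ k := by
  have hwt : ∀ s : Asg P k, wt (fun p => 1 / (p : ℝ)) s = 1 / (dtot s : ℝ) := by
    intro s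
    unfold wt dtot
    push_cast
    rw [one_div, ← Finset.prod_inv_distrib]
    refine Finset.prod_congr rfl fun p _ => ?_
    split_ifs <;> simp
  have hpos : ∀ s : Asg P k, (0 : ℝ) < dtot s := by
    intro s
    unfold dtot
    exact_mod_cast Finset.prod_pos fun p _ => by
      split_ifs
      · exact one_pos
      · exact (hP p p.2).pos
  have h3 := sum_asg_prod_le (P := P) (k := k) (fun p => 1 / (p : ℝ))
    (fun p hp => by positivity)
    (fun _ a => if a ≤ R then 1 else 0) (fun i a => by split_ifs <;> norm_num)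
  rw [Finset.prod_const, Finset.card_univ, Fintype.card_fin] at h3
  have h4 : sum1 P (fun p => 1 / (p : ℝ)) (fun a => if a ≤ R then 1 else 0) ^ k ≤
      (1 + Real.log R) ^ k := by
    refine pow_le_pow_left₀ ?_ (lm_harm hP R) k
    unfold sum1
    refine Finset.sum_nonneg fun T _ => mul_nonneg (by dsimp only; split_ifs <;> norm_num) ?_
    exact Finset.prod_nonneg fun p _ => by positivity
  have h5 : ((Finset.univ.filter (fun s : Asg P k => dtot s ≤ R)).card : ℝ) ≤
      R * ∑ r : Asg P k, (∏ i, (if dd r i ≤ R then 1 else 0 : ℝ)) *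
        wt (fun p => 1 / (p : ℝ)) r := by
    rw [Finset.card_eq_sum_ones, Finset.sum_filter, Finset.mul_sum]
    push_cast
    refine Finset.sum_le_sum fun s _ => ?_
    by_cases hs : dtot s ≤ R
    · have h1 : (∏ i, (if dd s i ≤ R then 1 else 0 : ℝ)) = 1 := by
        refine Finset.prod_eq_one fun i _ => ?_
        rw [if_pos]
        exact (lm_dd_le (hP := hP) i (fun p h => h)).trans hs
      rw [if_pos hs, h1, one_mul, hwt]
      rw [mul_one_div, le_div_iff₀ (hpos s), one_mul]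
      exact_mod_cast hs
    · rw [if_neg hs]
      refine mul_nonneg (Nat.cast_nonneg R) (mul_nonneg ?_ ?_)
      · exact Finset.prod_nonneg fun i _ => by split_ifs <;> norm_num
      · rw [hwt]
        exact (div_pos one_pos (hpos s)).le
  exact h5.trans (mul_le_mul_of_nonneg_left (h3.trans h4) (Nat.cast_nonneg R))

theorem sum_abs_lam_le (hP : ∀ p ∈ P, p.Prime) (g : ℕ → ℝ) (hg : ∀ a, 0 ≤ g a)
    (hg1 : ∀ a, g a ≤ 1) (R : ℕ) (hR : 1 ≤ R) :
    ∑ s : Asg P k, |lamOf (yOf g R) s| ≤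
      R * (1 + Real.log R) ^ k * (sum1 P κ₁ (fun a => if a ≤ R then 1 else 0)) ^ k := by
  have hs0 : 0 ≤ (sum1 P κ₁ (fun a => if a ≤ R then 1 else 0)) ^ k := by
    refine pow_nonneg ?_ k
    unfold sum1
    refine Finset.sum_nonneg fun T hT => mul_nonneg (by dsimp only; split_ifs <;> norm_num) ?_
    exact Finset.prod_nonneg fun p hp =>
      lm_kappa_nonneg (hP p (Finset.mem_powerset.mp hT hp))
  have h1 : ∑ s : Asg P k, |lamOf (yOf g R) s| =
      ∑ s ∈ Finset.univ.filter (fun s : Asg P k => dtot s ≤ R), |lamOf (yOf g R) s| := by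
    symm
    refine Finset.sum_filter_of_ne fun s _ hne => ?_
    by_contra hc
    apply hne
    rw [lam_eq_zero hP g R s (by omega), abs_zero]
  rw [h1]
  calc ∑ s ∈ Finset.univ.filter (fun s : Asg P k => dtot s ≤ R), |lamOf (yOf g R) s|
      ≤ ∑ s ∈ Finset.univ.filter (fun s : Asg P k => dtot s ≤ R),
          (sum1 P κ₁ (fun a => if a ≤ R then 1 else 0)) ^ k :=
        Finset.sum_le_sum fun s _ => lam_max hP g hg hg1 R s
    _ = ((Finset.univ.filter (fun s : Asg P k => dtot s ≤ R)).card : ℝ) *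
          (sum1 P κ₁ (fun a => if a ≤ R then 1 else 0)) ^ k := by
        rw [Finset.sum_const, nsmul_eq_mul]
    _ ≤ _ := mul_le_mul_of_nonneg_right (card_asg_le hP R hR) hs0

end Pool.Agent.Lib.MT
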