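import Pool.Agent.Lib.MT.Form
import Pool.Agent.Lib.MT.Transf
import Pool.Agent.Lib.MT.Disjoint

/-!
# Upper bound for the first sum
-/

open Finset
open scoped Classical

namespace Pool.Agent.Lib.MT

variable {P : Finset ℕ} {k : ℕ}

lemma wt_mul_wt (a b : ℕ → ℝ) (r : Asg P k) : wt a r * wt b r = wt (fun p => a p * b p) r := by
  unfold wt
  rw [← prod_mul_distrib]
  refine prod_congr rfl fun p _ => ?_
  split_ifs <;> simp

lemma wt_nonneg' {a : ℕ → ℝ} (ha : ∀ p ∈ P, 0 ≤ a p) (r : Asg P k) : 0 ≤ wt a r := by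
  unfold wt
  refine prod_nonneg fun p _ => ?_
  split_ifs
  · exact zero_le_one
  · exact ha p p.2

lemma wt_congr {a b : ℕ → ℝ} (hab : ∀ p ∈ P, a p = b p) (r : Asg P k) : wt a r = wt b r := by
  unfold wt
  refine prod_congr rfl fun p _ => ?_
  rw [hab p p.2]

lemma kappa2_nonneg (p : ℕ) : 0 ≤ κ₂ p := by
  unfold κ₂
  positivity

theorem sOne_upper (hP : ∀ p ∈ P, 2 ≤ p ∧ k ≤ p) (g : ℕ → ℝ) (hg : ∀ a, 0 ≤ g a) (R : ℕ) :
    formK (fun p => (p:ℝ)) (lamOf (yOf g R : Asg P k → ℝ)) ≤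
      (sum1 P κ₂ (fun a => (g a) ^ 2)) ^ k := by
  have h1 := formK_le (P := P) (k := k) (fun p => (p:ℝ)) (fun p hp => by
    have := hP p hp
    refine ⟨by exact_mod_cast this.2, ?_⟩
    have : 0 < p := by omega
    exact_mod_cast this) (lamOf (yOf g R))
  refine h1.trans ?_
  have h2 := sum_asg_prod_le (P := P) (k := k) κ₂ (fun p _ => kappa2_nonneg p)
    (fun _ a => (g a) ^ 2) (fun _ a => sq_nonneg _)
  rw [prod_const, card_univ, Fintype.card_fin] at h2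
  refine le_trans (sum_le_sum fun r _ => ?_) h2
  rw [zOf_lamOf (fun p hp => (hP p hp).1)]
  have h3 : (wt (fun p => - ((p:ℝ) / ((p:ℝ) - 1))) r) ^ 2 * wt (fun p => 1 / (p:ℝ)) r
      = wt κ₂ r := by
    rw [sq, wt_mul_wt, wt_mul_wt]
    refine wt_congr (fun p hp => ?_) r
    have h4 : (2 : ℝ) ≤ p := by exact_mod_cast (hP p hp).1
    have h5 : (p : ℝ) - 1 ≠ 0 := by linarith
    have h6 : (p : ℝ) ≠ 0 := by linarith
    unfold κ₂
    field_simp
  rw [mul_pow, mul_assoc, h3]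
  refine mul_le_mul_of_nonneg_right ?_ (wt_nonneg' (fun p _ => kappa2_nonneg p) r)
  unfold yOf
  rw [prod_pow]
  split_ifs
  · rfl
  · rw [zero_pow two_ne_zero]
    exact sq_nonneg _

end Pool.Agent.Lib.MT
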