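import Pool.Agent.Lib.MT.Defs

/-!
# Perturbation of one dimensional sums
-/

open Finset
open scoped Classical

namespace Pool.Agent.Lib.MT

theorem sum1_mem_le (P : Finset ℕ) (hP : ∀ p ∈ P, 1 ≤ p) (κ : ℕ → ℝ) (hκ : ∀ p ∈ P, 0 ≤ κ p)
    (G : ℕ → ℝ) (hG : Antitone G) (hG0 : ∀ a, 0 ≤ G a) (p : ℕ) (hp : p ∈ P) :
    ∑ T ∈ P.powerset.filter (fun T => p ∈ T), G (∏ p ∈ T, p) * ∏ p ∈ T, κ p ≤
      κ p * sum1 P κ G := by
  have hg0 : ∀ U ∈ P.powerset, 0 ≤ G (∏ q ∈ U, q) * ∏ q ∈ U, κ q := by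
    intro U hU
    rw [mem_powerset] at hU
    exact mul_nonneg (hG0 _) (prod_nonneg fun q hq => hκ q (hU hq))
  have h1 : ∀ T ∈ P.powerset.filter (fun T => p ∈ T), G (∏ q ∈ T, q) * ∏ q ∈ T, κ q
      ≤ κ p * (G (∏ q ∈ T.erase p, q) * ∏ q ∈ T.erase p, κ q) := by
    intro T hT
    rw [mem_filter, mem_powerset] at hT
    obtain ⟨hTP, hpT⟩ := hT
    rw [← mul_prod_erase T κ hpT, ← mul_assoc, mul_comm _ (κ p), mul_assoc]
    refine mul_le_mul_of_nonneg_left ?_ (hκ p hp)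
    refine mul_le_mul_of_nonneg_right ?_
      (prod_nonneg fun q hq => hκ q (hTP (mem_of_mem_erase hq)))
    apply hG
    rw [← mul_prod_erase T (fun q => q) hpT]
    exact Nat.le_mul_of_pos_left _ (hP p hp)
  refine (sum_le_sum h1).trans ?_
  rw [← mul_sum]
  refine mul_le_mul_of_nonneg_left ?_ (hκ p hp)
  have hinj : Set.InjOn (fun T : Finset ℕ => T.erase p)
      (P.powerset.filter (fun T => p ∈ T) : Finset (Finset ℕ)) := by
    intro T hT T' hT' h
    rw [mem_coe, mem_filter] at hT hT'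
    dsimp only at h
    rw [← insert_erase hT.2, ← insert_erase hT'.2, h]
  have h2 := sum_image (s := P.powerset.filter (fun T => p ∈ T))
    (g := fun T : Finset ℕ => T.erase p)
    (f := fun U => G (∏ q ∈ U, q) * ∏ q ∈ U, κ q) hinj
  rw [← h2]
  unfold sum1
  refine sum_le_sum_of_subset_of_nonneg ?_ fun U hU _ => hg0 U hU
  intro U hU
  rw [mem_image] at hU
  obtain ⟨T, hT, rfl⟩ := hU
  rw [mem_filter, mem_powerset] at hT
  rw [mem_powerset]
  exact (erase_subset _ _).trans hT.1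

/-- Splitting off one element. -/
lemma sum1_insert {P : Finset ℕ} {p : ℕ} (hp : p ∉ P) (κ : ℕ → ℝ) (G : ℕ → ℝ) :
    sum1 (insert p P) κ G = sum1 P κ G + κ p * sum1 P κ (fun a => G (p * a)) := by
  unfold sum1
  rw [sum_powerset_insert hp, mul_sum]
  congr 1
  refine sum_congr rfl fun T hT => ?_
  rw [mem_powerset] at hT
  have hpT : p ∉ T := fun h => hp (hT h)
  rw [prod_insert hpT, prod_insert hpT]
  ring

lemma sum1_nonneg' {P : Finset ℕ} {κ : ℕ → ℝ} (hκ : ∀ p ∈ P, 0 ≤ κ p) {G : ℕ → ℝ}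
    (hG0 : ∀ a, 0 ≤ G a) : 0 ≤ sum1 P κ G := by
  unfold sum1
  refine sum_nonneg fun T hT => ?_
  rw [mem_powerset] at hT
  exact mul_nonneg (hG0 _) (prod_nonneg fun q hq => hκ q (hT hq))

lemma sum1_shift_le {P : Finset ℕ} {κ : ℕ → ℝ} (hκ : ∀ p ∈ P, 0 ≤ κ p) {G : ℕ → ℝ}
    (hG : Antitone G) {p : ℕ} (hp : 1 ≤ p) :
    sum1 P κ (fun a => G (p * a)) ≤ sum1 P κ G := by
  unfold sum1
  refine sum_le_sum fun T hT => ?_
  rw [mem_powerset] at hT
  refine mul_le_mul_of_nonneg_right ?_ (prod_nonneg fun q hq => hκ q (hT hq))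
  exact hG (Nat.le_mul_of_pos_left _ hp)

lemma antitone_shift {G : ℕ → ℝ} (hG : Antitone G) (p : ℕ) : Antitone (fun a => G (p * a)) :=
  fun _ _ hab => hG (Nat.mul_le_mul_left p hab)

lemma kappa1_nonneg {p : ℕ} (hp : 2 ≤ p) : 0 ≤ κ₁ p := by
  unfold κ₁
  have : (2 : ℝ) ≤ p := by exact_mod_cast hp
  apply div_nonneg <;> linarith

lemma kappa2_eq {p : ℕ} (hp : 2 ≤ p) : κ₂ p = κ₁ p * (1 + κ₁ p) := by
  unfold κ₂ κ₁
  have : (2 : ℝ) ≤ p := by exact_mod_cast hp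
  have h1 : (p : ℝ) - 1 ≠ 0 := by linarith
  field_simp
  ring

theorem sum1_kappa2_le (P : Finset ℕ) (hP : ∀ p ∈ P, 2 ≤ p) (G : ℕ → ℝ) (hG : Antitone G)
    (hG0 : ∀ a, 0 ≤ G a) :
    sum1 P κ₂ G ≤ Real.exp (∑ p ∈ P, (κ₁ p) ^ 2) * sum1 P κ₁ G := by
  induction P using Finset.induction_on generalizing G with
  | empty => simp [sum1]
  | insert p P hp ih =>
    have hP' : ∀ q ∈ P, 2 ≤ q := fun q hq => hP q (mem_insert_of_mem hq)
    have hp2 : 2 ≤ p := hP p (mem_insert_self _ _)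
    have hκ : ∀ q ∈ P, 0 ≤ κ₁ q := fun q hq => kappa1_nonneg (hP' q hq)
    have hκp := kappa1_nonneg hp2
    rw [sum1_insert hp, sum1_insert hp, sum_insert hp, Real.exp_add]
    have i1 := ih hP' G hG hG0
    have i2 := ih hP' (fun a => G (p * a)) (antitone_shift hG p) (fun a => hG0 _)
    have h3 := sum1_shift_le hκ hG (p := p) (by omega)
    have h4 : 0 ≤ sum1 P κ₁ (fun a => G (p * a)) := sum1_nonneg' hκ (fun a => hG0 _)
    have hE : 0 ≤ Real.exp (∑ q ∈ P, (κ₁ q) ^ 2) := (Real.exp_pos _).le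
    have hexp : 1 + (κ₁ p) ^ 2 ≤ Real.exp ((κ₁ p) ^ 2) := by
      have := Real.add_one_le_exp ((κ₁ p) ^ 2); linarith
    rw [kappa2_eq hp2]
    set E := Real.exp (∑ q ∈ P, (κ₁ q) ^ 2)
    set A := sum1 P κ₁ G
    set B := sum1 P κ₁ (fun a => G (p * a))
    set c := κ₁ p
    have hA : 0 ≤ A := h4.trans h3
    calc sum1 P κ₂ G + c * (1 + c) * sum1 P κ₂ (fun a => G (p * a))
        ≤ E * A + c * (1 + c) * (E * B) := by
          have := mul_le_mul_of_nonneg_left i2 (mul_nonneg hκp (by linarith : 0 ≤ 1 + c))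
          linarith
      _ = E * (A + c * B + c ^ 2 * B) := by ring
      _ ≤ E * ((1 + c ^ 2) * (A + c * B)) := by
          refine mul_le_mul_of_nonneg_left ?_ hE
          have h5 : c ^ 2 * B ≤ c ^ 2 * (A + c * B) :=
            mul_le_mul_of_nonneg_left (by nlinarith [mul_nonneg hκp h4]) (sq_nonneg c)
          linarith
      _ = E * (1 + c ^ 2) * (A + c * B) := by ring
      _ ≤ E * Real.exp (c ^ 2) * (A + c * B) := by
          refine mul_le_mul_of_nonneg_right ?_ (add_nonneg hA (mul_nonneg hκp h4))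
          exact mul_le_mul_of_nonneg_left hexp hE
      _ = Real.exp (c ^ 2) * E * (A + c * B) := by ring

theorem le_sum1_kappa3 (P : Finset ℕ) (k : ℕ) (hP : ∀ p ∈ P, 2 ≤ p ∧ k + 1 ≤ p) (G : ℕ → ℝ)
    (hG : Antitone G) (hG0 : ∀ a, 0 ≤ G a) :
    (1 - k * ∑ p ∈ P, (κ₁ p) ^ 2) * sum1 P κ₁ G ≤
      sum1 P (fun p => κ₁ p * (1 - k * κ₁ p)) G := by
  induction P using Finset.induction_on generalizing G with
  | empty => simp [sum1]
  | insert p P hp ih =>
    have hP' : ∀ q ∈ P, 2 ≤ q ∧ k + 1 ≤ q := fun q hq => hP q (mem_insert_of_mem hq)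
    have hp2 : 2 ≤ p ∧ k + 1 ≤ p := hP p (mem_insert_self _ _)
    have hκ : ∀ q ∈ P, 0 ≤ κ₁ q := fun q hq => kappa1_nonneg (hP' q hq).1
    have hκp := kappa1_nonneg hp2.1
    rw [sum1_insert hp, sum1_insert hp, sum_insert hp]
    have i1 := ih hP' G hG hG0
    have i2 := ih hP' (fun a => G (p * a)) (antitone_shift hG p) (fun a => hG0 _)
    have h3 := sum1_shift_le hκ hG (p := p) (by omega)
    have h4 : 0 ≤ sum1 P κ₁ (fun a => G (p * a)) := sum1_nonneg' hκ (fun a => hG0 _)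
    have hk1 : (k : ℝ) * κ₁ p ≤ 1 := by
      unfold κ₁
      have h5 : (2 : ℝ) ≤ p := by exact_mod_cast hp2.1
      have h6 : (k : ℝ) + 1 ≤ p := by exact_mod_cast hp2.2
      rw [mul_one_div, div_le_one (by linarith)]
      linarith
    have hsum : 0 ≤ ∑ q ∈ P, (κ₁ q) ^ 2 := sum_nonneg fun q _ => sq_nonneg _
    have hk0 : (0 : ℝ) ≤ k := Nat.cast_nonneg k
    have h7 : κ₁ p * (1 - k * κ₁ p) * ((1 - k * ∑ q ∈ P, (κ₁ q) ^ 2) *
        sum1 P κ₁ (fun a => G (p * a))) ≤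
        κ₁ p * (1 - k * κ₁ p) * sum1 P (fun p => κ₁ p * (1 - k * κ₁ p)) (fun a => G (p * a)) :=
      mul_le_mul_of_nonneg_left i2 (mul_nonneg hκp (by linarith))
    generalize hS : ∑ q ∈ P, (κ₁ q) ^ 2 = S at *
    generalize hA : sum1 P κ₁ G = A at *
    generalize hB : sum1 P κ₁ (fun a => G (p * a)) = B at *
    generalize hA3 : sum1 P (fun p => κ₁ p * (1 - k * κ₁ p)) G = A3 at *
    generalize hB3 : sum1 P (fun p => κ₁ p * (1 - k * κ₁ p)) (fun a => G (p * a)) = B3 at *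
    generalize hc : κ₁ p = c at *
    have h9 : (1 - k * S) * B ≤ A + c * B := by
      have e1 : 0 ≤ k * S * B := mul_nonneg (mul_nonneg hk0 hsum) h4
      have e2 : 0 ≤ c * B := mul_nonneg hκp h4
      nlinarith
    have h8 : k * c ^ 2 * ((1 - k * S) * B) ≤ k * c ^ 2 * (A + c * B) :=
      mul_le_mul_of_nonneg_left h9 (mul_nonneg hk0 (sq_nonneg c))
    have e3 : (1 - ↑k * (c ^ 2 + S)) * (A + c * B)
        = (1 - k * S) * A + c * (1 - k * c) * ((1 - k * S) * B)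
          + (k * c ^ 2 * ((1 - k * S) * B) - k * c ^ 2 * (A + c * B)) := by ring
    rw [e3]
    linarith

theorem sum_kappa1_sq_le (P : Finset ℕ) (D : ℕ) (hD : 1 ≤ D) (hP : ∀ p ∈ P, D < p) :
    ∑ p ∈ P, (κ₁ p) ^ 2 ≤ 2 / D := by
  have hD' : (1 : ℝ) ≤ D := by exact_mod_cast hD
  have key : ∀ n : ℕ, ∑ p ∈ Finset.Ioc D (D + 1 + n), (κ₁ p) ^ 2 ≤ 2 / D - 1 / (D + n) := by
    intro n
    induction n with
    | zero =>
      have : Finset.Ioc D (D + 1 + 0) = {D + 1} := by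
        ext x; simp only [mem_Ioc, mem_singleton]; omega
      rw [this, sum_singleton]
      unfold κ₁
      push_cast
      rw [add_sub_cancel_right, add_zero]
      have h1 : (1 / (D : ℝ)) ^ 2 ≤ 1 / D := by
        rw [div_pow, one_pow]
        exact one_div_le_one_div_of_le (by linarith) (by nlinarith)
      have h2 : (2 : ℝ) / D - 1 / D = 1 / D := by ring
      rw [h2]
      exact h1
    | succ n ih =>
      have : Finset.Ioc D (D + 1 + (n + 1)) = insert (D + 1 + (n + 1)) (Finset.Ioc D (D + 1 + n)) := by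
        ext x; simp only [mem_Ioc, mem_insert]; omega
      rw [this, sum_insert (by simp)]
      have hn : (0 : ℝ) ≤ n := Nat.cast_nonneg n
      have h1 : (κ₁ (D + 1 + (n + 1))) ^ 2 ≤ 1 / ((D:ℝ) + n) - 1 / (D + (n + 1 : ℕ)) := by
        unfold κ₁
        push_cast
        have e1 : ((D:ℝ) + 1 + (n + 1) - 1) = D + n + 1 := by ring
        rw [e1, div_sub_div _ _ (by linarith) (by linarith), div_pow, one_pow,
          div_le_div_iff₀ (by nlinarith) (by nlinarith)]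
        nlinarith
      linarith
  have hsub : P ⊆ Finset.Ioc D (D + 1 + P.sup id) := by
    intro p hp
    rw [mem_Ioc]
    have : p ≤ P.sup id := le_sup (f := id) hp
    exact ⟨hP p hp, by omega⟩
  refine (sum_le_sum_of_subset_of_nonneg hsub fun _ _ _ => sq_nonneg _).trans ?_
  refine (key _).trans ?_
  have : (0 : ℝ) ≤ 1 / ((D:ℝ) + (P.sup id : ℕ)) := by positivity
  linarith

end Pool.Agent.Lib.MT
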