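import Pool.Agent.Lib.MT.Disjoint
import Pool.Agent.Lib.MT.OneDim
import Pool.Agent.Lib.MT.Perturb

/-!
# The Selberg upper bound for rough integers in a progression: auxiliary lemmas

With `R = ⌊N ^ δ'⌋`, `δ' = min δ (1/100)`, `y = yOf (gst R 0) R` and `lam = lamOf y`, every integer
counted satisfies `wn h lam n = (lam none)²`, and `lam none` is bounded from below by
`1/2 (dens W log u) ^ j`, `u = ⌊N ^ (2a)⌋`, `a = δ' / (4 (j+1))`.
-/

open Finset
open scoped Classical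

namespace Pool.Agent.Lib.MT

namespace UpperAux

lemma ev_log (A : ℝ) (m : ℕ) (ε : ℝ) (hε : 0 < ε) :
    ∀ᶠ N : ℕ in Filter.atTop, A * (1 + Real.log N) ^ m ≤ (N:ℝ) ^ ε := by
  have h := isLittleO_log_rpow_rpow_atTop (m:ℝ) hε
  have hc : (0:ℝ) < 1 / (|A| * 2 ^ m + 1) := by positivity
  have h1 := h.def hc
  have h2 : ∀ᶠ x : ℝ in Filter.atTop, Real.exp 1 ≤ x := Filter.eventually_ge_atTop _
  have h3 : ∀ᶠ x : ℝ in Filter.atTop, A * (1 + Real.log x) ^ m ≤ x ^ ε := by
    filter_upwards [h1, h2] with x hx1 hx2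
    have hx0 : 0 < x := lt_of_lt_of_le (Real.exp_pos 1) hx2
    have hl : 1 ≤ Real.log x := by rw [Real.le_log_iff_exp_le hx0]; exact hx2
    have hxe : 0 ≤ x ^ ε := by positivity
    have hlm : 0 ≤ Real.log x ^ m := by positivity
    rw [Real.norm_eq_abs, Real.norm_eq_abs, Real.rpow_natCast, abs_of_nonneg hlm,
      abs_of_nonneg hxe] at hx1
    calc A * (1 + Real.log x) ^ m ≤ |A| * (2 * Real.log x) ^ m := by
          refine mul_le_mul (le_abs_self A) ?_ (by positivity) (abs_nonneg A)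
          exact pow_le_pow_left₀ (by positivity) (by linarith) m
      _ = (|A| * 2 ^ m) * (Real.log x) ^ m := by rw [mul_pow]; ring
      _ ≤ (|A| * 2 ^ m + 1) * (1 / (|A| * 2 ^ m + 1) * x ^ ε) := by
          refine mul_le_mul (by linarith) hx1 hlm (by positivity)
      _ = x ^ ε := by
          have : (|A| * 2 ^ m + 1) ≠ 0 := by positivity
          field_simp
  exact tendsto_natCast_atTop_atTop.eventually h3

lemma half_of_sq {t s R : ℝ} (h2 : 2 ≤ s) (hs : t = s * s) (hR : t - 1 < R) :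
    s ≤ R ∧ t ≤ 2 * R := by
  have h1 : 2 * s ≤ s * s := mul_le_mul_of_nonneg_right h2 (by linarith)
  constructor <;> linarith

lemma gst_zero (R a : ℕ) : gst R 0 a = if a ≤ R then 1 else 0 := by
  unfold gst wst
  rw [Finset.sum_range_one]
  norm_num

lemma Pr_prime {W R p : ℕ} (hp : p ∈ Pr W R) : p.Prime := by
  simp only [Pr, Finset.mem_filter] at hp
  exact hp.2.1

lemma Pr_not_dvd {W R p : ℕ} (hp : p ∈ Pr W R) : ¬ p ∣ W := by
  simp only [Pr, Finset.mem_filter] at hp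
  exact hp.2.2

lemma Pr_le {W R p : ℕ} (hp : p ∈ Pr W R) : p ≤ R := by
  simp only [Pr, Finset.mem_filter, Finset.mem_Icc] at hp
  exact hp.1.2

lemma kappa1_nonneg_up {p : ℕ} (hp : p.Prime) : 0 ≤ κ₁ p := by
  have : (2:ℝ) ≤ p := by exact_mod_cast hp.two_le
  unfold κ₁
  apply div_nonneg zero_le_one
  linarith

/-- The main lower bound: the weight at an integer all of whose shifts are rough. -/
lemma lam_none_ge (j W R u D : ℕ) (hW : 1 ≤ W) (hu : 1 ≤ u) (huR : u ≤ R) (huj : u ^ j ≤ R)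
    (hD : 4 * j ^ 2 + 1 ≤ D) (hPD : ∀ p ∈ Pr W R, D < p) :
    (1/2 : ℝ) * (dens W * Real.log u) ^ j ≤
      lamOf (yOf (gst R 0) R : Asg (Pr W R) j → ℝ) (fun _ => none) := by
  set P := Pr W R with hP
  have hPp : ∀ p ∈ P, p.Prime := fun p hp => Pr_prime hp
  have h1 := le_sum_asg (P := P) (k := j)
    (fun _ T => (if (∏ p ∈ T, p) ≤ u then (1:ℝ) else 0) * ∏ p ∈ T, κ₁ p) κ₁
    (fun p hp => kappa1_nonneg_up (hPp p hp))
    (by
      intro i T hT
      refine mul_nonneg (by split_ifs <;> norm_num) ?_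
      exact Finset.prod_nonneg fun p hp => kappa1_nonneg_up (hPp p (hT hp)))
    (by
      intro i T hT p hp hpT
      rw [Finset.prod_insert hpT, Finset.prod_insert hpT]
      have hnn : 0 ≤ ∏ p ∈ T, κ₁ p :=
        Finset.prod_nonneg fun p hp => kappa1_nonneg_up (hPp p (hT hp))
      have hk := kappa1_nonneg_up (hPp p hp)
      have hle : (if p * ∏ p ∈ T, p ≤ u then (1:ℝ) else 0) ≤
          (if (∏ p ∈ T, p) ≤ u then (1:ℝ) else 0) := by
        by_cases hc : p * ∏ p ∈ T, p ≤ u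
        · have : (∏ p ∈ T, p) ≤ u :=
            le_trans (Nat.le_mul_of_pos_left _ (hPp p hp).pos) hc
          simp [hc, this]
        · simp only [hc, if_false]
          split_ifs <;> norm_num
      calc (if p * ∏ p ∈ T, p ≤ u then (1:ℝ) else 0) * (κ₁ p * ∏ p ∈ T, κ₁ p)
          ≤ (if (∏ p ∈ T, p) ≤ u then (1:ℝ) else 0) * (κ₁ p * ∏ p ∈ T, κ₁ p) :=
            mul_le_mul_of_nonneg_right hle (mul_nonneg hk hnn)
        _ = κ₁ p * ((if (∏ p ∈ T, p) ≤ u then (1:ℝ) else 0) * ∏ p ∈ T, κ₁ p) := by ring)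
  have hσ := sum_kappa1_sq_le P D (by omega) hPD
  have hs0 : ∀ i : Fin j, (∑ T ∈ P.powerset,
      (if (∏ p ∈ T, p) ≤ u then (1:ℝ) else 0) * ∏ p ∈ T, κ₁ p) =
      sum1 P κ₁ (fun a => if a ≤ u then 1 else 0) := fun i => rfl
  have hlow := sum1_lower W R u hW hu huR
  have hd : 0 ≤ dens W := by unfold dens; positivity
  have hlu : 0 ≤ Real.log u := Real.log_nonneg (by exact_mod_cast hu)
  have hDpos : (0:ℝ) < D := by
    have : 0 < D := by omega
    exact_mod_cast this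
  have hhalf : (1/2 : ℝ) ≤ 1 - (j:ℝ) ^ 2 * ∑ p ∈ P, (κ₁ p) ^ 2 := by
    have h2 : (j:ℝ) ^ 2 * ∑ p ∈ P, (κ₁ p) ^ 2 ≤ (j:ℝ) ^ 2 * (2 / D) :=
      mul_le_mul_of_nonneg_left hσ (by positivity)
    have h3 : (4 * (j:ℝ) ^ 2 + 1) ≤ D := by exact_mod_cast hD
    have h4 : (j:ℝ) ^ 2 * (2 / D) ≤ 1 / 2 := by
      rw [mul_div_assoc', div_le_div_iff₀ hDpos (by norm_num)]
      linarith only [h3]
    linarith only [h2, h4]
  have hA : (1/2 : ℝ) * (dens W * Real.log u) ^ j ≤
      (1 - (j:ℝ) ^ 2 * ∑ p ∈ P, (κ₁ p) ^ 2) * ∏ _i : Fin j, ∑ T ∈ P.powerset,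
        (if (∏ p ∈ T, p) ≤ u then (1:ℝ) else 0) * ∏ p ∈ T, κ₁ p := by
    refine mul_le_mul hhalf ?_ (by positivity) (by linarith only [hhalf])
    rw [Finset.prod_const, Finset.card_univ, Fintype.card_fin]
    exact pow_le_pow_left₀ (by positivity) hlow j
  refine le_trans hA (le_trans h1 ?_)
  unfold lamOf
  refine Finset.sum_le_sum fun t _ => ?_
  have hwt : ∏ p : P, Lq ((p:ℕ) : ℝ) ((fun _ => none : Asg P j) p) (t p) = wt κ₁ t := by
    unfold wt
    refine Finset.prod_congr rfl fun p _ => ?_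
    unfold Lq κ₁
    simp
  rw [hwt, Finset.prod_mul_distrib, wt_eq]
  have hnn : 0 ≤ ∏ i, ∏ p ∈ part t i, κ₁ p :=
    Finset.prod_nonneg fun i _ => Finset.prod_nonneg fun p hp =>
      kappa1_nonneg_up (hPp p (part_subset t i hp))
  refine mul_le_mul_of_nonneg_right ?_ hnn
  by_cases hall : ∀ i, dd t i ≤ u
  · have hdt : dtot t ≤ R := by
      rw [dtot_eq]
      refine le_trans (Finset.prod_le_pow_card _ _ u fun i _ => hall i) ?_
      rw [Finset.card_univ, Fintype.card_fin]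
      exact huj
    have h5 : ∀ i, gst R 0 (dd t i) = 1 := by
      intro i
      rw [gst_zero, if_pos (le_trans (hall i) huR)]
    unfold yOf
    rw [if_pos hdt]
    simp only [h5, Finset.prod_const_one]
    refine Finset.prod_le_one (fun i _ => by split_ifs <;> norm_num) fun i _ => ?_
    split_ifs <;> norm_num
  · push Not at hall
    obtain ⟨i, hi⟩ := hall
    have h0 : ∏ i, (if (∏ p ∈ part t i, p) ≤ u then (1:ℝ) else 0) = 0 := by
      refine Finset.prod_eq_zero (Finset.mem_univ i) ?_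
      rw [if_neg]
      unfold dd at hi
      omega
    rw [h0]
    unfold yOf
    split_ifs
    · exact Finset.prod_nonneg fun i _ => gst_nonneg _ _ _
    · exact le_rfl

end UpperAux

end Pool.Agent.Lib.MT
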