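import Pool.Agent.Lib.MT.Defs

/-!
# Auxiliary lemmas for the weighted inequality
-/

open Finset
open scoped Classical

namespace Pool.Agent.Lib.MT

namespace Wtd

/-- Powers of logarithms are eventually small. -/
lemma log_pow_small (j : ℕ) (C ε : ℝ) (hε : 0 < ε) :
    ∀ᶠ N : ℕ in Filter.atTop, C * (Real.log N) ^ j ≤ (N:ℝ) ^ ε := by
  have h1 := (isLittleO_log_rpow_rpow_atTop (s := ε) (j:ℝ) hε).def
    (show (0:ℝ) < 1 / (|C| + 1) by positivity)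
  have h2 := tendsto_natCast_atTop_atTop (R := ℝ) |>.eventually h1
  filter_upwards [h2, Filter.eventually_ge_atTop 1] with N hN hN1
  have hl : 0 ≤ Real.log N := Real.log_natCast_nonneg N
  rw [Real.rpow_natCast, Real.norm_of_nonneg (by positivity),
    Real.norm_of_nonneg (by positivity), one_div, inv_mul_eq_div,
    le_div_iff₀ (by positivity)] at hN
  have h3 : C ≤ |C| + 1 := by linarith [le_abs_self C]
  calc C * (Real.log N) ^ j ≤ (|C| + 1) * (Real.log N) ^ j :=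
        mul_le_mul_of_nonneg_right h3 (by positivity)
    _ ≤ (N:ℝ) ^ ε := by linarith

lemma rpow_large (M ε : ℝ) (hε : 0 < ε) :
    ∀ᶠ N : ℕ in Filter.atTop, M ≤ (N:ℝ) ^ ε := by
  have := log_pow_small 0 M ε hε
  simpa using this

lemma log_large (M : ℝ) : ∀ᶠ N : ℕ in Filter.atTop, M ≤ Real.log N :=
  (Real.tendsto_log_atTop.comp tendsto_natCast_atTop_atTop).eventually_ge_atTop M

lemma dens_ge {W : ℕ} (hW : 1 ≤ W) : 1 / (W:ℝ) ≤ dens W := by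
  unfold dens
  apply div_le_div_of_nonneg_right _ (Nat.cast_nonneg _)
  exact_mod_cast Nat.totient_pos.2 hW

lemma dens_le {W : ℕ} (hW : 1 ≤ W) : dens W ≤ 1 := by
  unfold dens
  rw [div_le_one (by exact_mod_cast hW)]
  exact_mod_cast Nat.totient_le W

lemma mem_Pr {W R p : ℕ} (hp : p ∈ Pr W R) : p.Prime ∧ ¬ p ∣ W := by
  unfold Pr at hp
  exact (mem_filter.1 hp).2

lemma sum1_nonneg {P : Finset ℕ} {κ : ℕ → ℝ} {G : ℕ → ℝ} (hκ : ∀ p ∈ P, 0 ≤ κ p)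
    (hG : ∀ a, 0 ≤ G a) : 0 ≤ sum1 P κ G :=
  Finset.sum_nonneg fun T hT => mul_nonneg (hG _)
    (Finset.prod_nonneg fun p hp => hκ p (mem_powerset.1 hT hp))

lemma κ₂_nonneg (p : ℕ) : 0 ≤ κ₂ p := by unfold κ₂; positivity

/-- The algebraic core: lower bound of the prime part. -/
lemma prime_part {NW F ℓ A B Cp J k T L3 r E : ℝ} {n : ℕ} (hF : 0 < F)
    (hℓ : 0 < ℓ) (hNW : 0 < NW) (hCp : 0 < Cp) (hJ : 0 ≤ J) (hk : 0 < k) (hL3 : 0 < L3)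
    (hA : (J / 2 + 1) * F * ℓ ≤ A) (hB1 : 0 ≤ B) (hB2 : B ≤ Cp * F * ℓ)
    (hkey : 16 * (r + 1) * Cp * L3 ≤ k * (J / 2 + 1) ^ 2 * ℓ)
    (hT : k * ((1/4 : ℝ) * (NW / F) * A ^ 2 * B ^ n - E) ≤ L3 * T)
    (hE : k * E ≤ L3 * (NW * B ^ (n+1))) :
    4 * (r + 1) * (NW * B ^ (n+1)) - NW * B ^ (n+1) ≤ T := by
  have hM : 0 ≤ NW * B ^ (n+1) := by positivity
  have h1 : ((J / 2 + 1) * F * ℓ) ^ 2 ≤ A ^ 2 := pow_le_pow_left₀ (by positivity) hA 2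
  have h2 : NW * (J / 2 + 1) ^ 2 * F * ℓ ^ 2 * B ^ n ≤ (NW / F) * A ^ 2 * B ^ n := by
    apply mul_le_mul_of_nonneg_right _ (by positivity)
    calc NW * (J / 2 + 1) ^ 2 * F * ℓ ^ 2 = (NW / F) * ((J / 2 + 1) * F * ℓ) ^ 2 := by
          field_simp
      _ ≤ (NW / F) * A ^ 2 := mul_le_mul_of_nonneg_left h1 (by positivity)
  have h3 : NW * (J / 2 + 1) ^ 2 * ℓ * B ^ (n+1) ≤
      Cp * (NW * (J / 2 + 1) ^ 2 * F * ℓ ^ 2 * B ^ n) := by
    calc NW * (J / 2 + 1) ^ 2 * ℓ * B ^ (n+1) = (NW * (J / 2 + 1) ^ 2 * ℓ * B ^ n) * B := by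
          rw [pow_succ]; ring
      _ ≤ (NW * (J / 2 + 1) ^ 2 * ℓ * B ^ n) * (Cp * F * ℓ) :=
          mul_le_mul_of_nonneg_left hB2 (by positivity)
      _ = _ := by ring
  have h4 : 16 * (r + 1) * Cp * L3 * (NW * B ^ (n+1)) ≤
      k * (J / 2 + 1) ^ 2 * ℓ * (NW * B ^ (n+1)) := mul_le_mul_of_nonneg_right hkey hM
  have h5 : k * (J / 2 + 1) ^ 2 * ℓ * (NW * B ^ (n+1)) ≤
      Cp * (k * ((NW / F) * A ^ 2 * B ^ n)) := by
    calc k * (J / 2 + 1) ^ 2 * ℓ * (NW * B ^ (n+1))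
        = k * (NW * (J / 2 + 1) ^ 2 * ℓ * B ^ (n+1)) := by ring
      _ ≤ k * (Cp * (NW * (J / 2 + 1) ^ 2 * F * ℓ ^ 2 * B ^ n)) :=
          mul_le_mul_of_nonneg_left h3 hk.le
      _ ≤ k * (Cp * ((NW / F) * A ^ 2 * B ^ n)) :=
          mul_le_mul_of_nonneg_left (mul_le_mul_of_nonneg_left h2 hCp.le) hk.le
      _ = _ := by ring
  have h6 : 16 * (r + 1) * L3 * (NW * B ^ (n+1)) ≤ k * ((NW / F) * A ^ 2 * B ^ n) := by
    have : Cp * (16 * (r + 1) * L3 * (NW * B ^ (n+1))) ≤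
        Cp * (k * ((NW / F) * A ^ 2 * B ^ n)) := by
      calc Cp * (16 * (r + 1) * L3 * (NW * B ^ (n+1)))
          = 16 * (r + 1) * Cp * L3 * (NW * B ^ (n+1)) := by ring
        _ ≤ _ := h4.trans h5
    exact le_of_mul_le_mul_left this hCp
  have h7 : L3 * (4 * (r + 1) * (NW * B ^ (n+1)) - NW * B ^ (n+1)) ≤ L3 * T := by
    have e1 : k * ((1/4 : ℝ) * (NW / F) * A ^ 2 * B ^ n - E) =
        (1/4) * (k * ((NW / F) * A ^ 2 * B ^ n)) - k * E := by ring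
    rw [e1] at hT
    have e2 : L3 * (4 * (r + 1) * (NW * B ^ (n+1)) - NW * B ^ (n+1)) =
        (1/4) * (16 * (r + 1) * L3 * (NW * B ^ (n+1))) - L3 * (NW * B ^ (n+1)) := by ring
    rw [e2]
    linarith
  exact le_of_mul_le_mul_left h7 hL3

end Wtd

end Pool.Agent.Lib.MT
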