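import Pool.Agent.Lib.MT.Defs

/-!
# Bounded weights on rough integers

PROOF SKETCH. Let n be such that every prime p ∈ P dividing some n + h i is > N^δ. If hits h n s then
s p = some i implies p ∣ n + h i; each p ∈ P divides at most one n + h i (hh), so s p is none or that
i: at most 2^M assignments are hit, where M is the number of p ∈ P dividing the product of the
n + h i. n + h i ≤ 3N < N^2 (N ≥ 4) has at most 2/δ prime factors > N^δ. So M ≤ 2k/δ and
wn ≤ (2^(2k/δ) L)².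
-/

open Finset
open scoped Classical

namespace Pool.Agent.Lib.MT

variable {P : Finset ℕ} {k : ℕ}

/-- The primes of `P` not in state `none`. -/
noncomputable def suppW (s : Asg P k) : Finset ℕ :=
  ((Finset.univ : Finset P).filter (fun p : P => s p ≠ none)).image Subtype.val

lemma mem_supp (s : Asg P k) (p : P) : (p:ℕ) ∈ suppW s ↔ s p ≠ none := by
  unfold suppW
  constructor
  · intro h
    obtain ⟨q, hq, hqp⟩ := Finset.mem_image.mp h
    have : q = p := Subtype.ext hqp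
    rw [← this]
    exact (Finset.mem_filter.mp hq).2
  · intro hu
    exact Finset.mem_image.mpr ⟨p, Finset.mem_filter.mpr ⟨Finset.mem_univ _, hu⟩, rfl⟩

lemma card_hits_le (h : Fin k → ℕ)
    (hh : ∀ p ∈ P, ∀ i j, i ≠ j → ¬ h i ≡ h j [MOD p]) (n : ℕ) :
    (Finset.univ.filter (fun s : Asg P k => hits h n s)).card ≤
      2 ^ ((Finset.univ : Finset (Fin k)).biUnion
        (fun i => P.filter (fun p => p ∣ n + h i))).card := by
  rw [← Finset.card_powerset]
  refine Finset.card_le_card_of_injOn (fun s : Asg P k => suppW s) ?_ ?_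
  · intro s hs
    have hs' : hits h n s := (Finset.mem_filter.mp hs).2
    refine Finset.mem_coe.mpr (Finset.mem_powerset.mpr ?_)
    intro q hq
    have hqP : q ∈ P := by
      obtain ⟨p, _, hp⟩ := Finset.mem_image.mp hq
      rw [← hp]; exact p.2
    have hq2 := (mem_supp s ⟨q, hqP⟩).mp hq
    obtain ⟨i, hi⟩ := Option.ne_none_iff_exists'.mp hq2
    exact Finset.mem_biUnion.mpr ⟨i, Finset.mem_univ _,
      Finset.mem_filter.mpr ⟨hqP, hs' ⟨q, hqP⟩ i hi⟩⟩
  · intro s hs t ht hst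
    have hs' : hits h n s := (Finset.mem_filter.mp hs).2
    have ht' : hits h n t := (Finset.mem_filter.mp ht).2
    have key : ∀ p : P, s p ≠ none ↔ t p ≠ none := by
      intro p
      rw [← mem_supp s, ← mem_supp t]
      simp only at hst
      rw [hst]
    funext p
    rcases hsp : s p with _ | i
    · rcases htp : t p with _ | j
      · rfl
      · exact absurd hsp ((key p).mpr (by simp [htp]))
    · rcases htp : t p with _ | j
      · exact absurd htp ((key p).mp (by simp [hsp]))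
      · have h1 := hs' p i hsp
        have h2 := ht' p j htp
        by_contra hne
        have hij : i ≠ j := fun hij => hne (by rw [hij])
        apply hh p p.2 i j hij
        have h3 : n + h i ≡ n + h j [MOD p] :=
          ((Nat.modEq_zero_iff_dvd).mpr h1).trans ((Nat.modEq_zero_iff_dvd).mpr h2).symm
        exact Nat.ModEq.add_left_cancel' n h3

lemma card_rough_le (hP : ∀ p ∈ P, p.Prime) (N : ℕ) (hN : 4 ≤ N) (δ : ℝ) (hδ : 0 < δ) (m : ℕ)
    (hm : 1 ≤ m) (hm2 : m ≤ 3 * N) (hr : ∀ p ∈ P, p ∣ m → (N:ℝ) ^ δ < p) :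
    ((P.filter (fun p => p ∣ m)).card : ℝ) ≤ 2 / δ := by
  set M := P.filter (fun p => p ∣ m) with hM
  have hdvd : ∏ p ∈ M, p ∣ m := by
    refine Finset.prod_primes_dvd m ?_ ?_
    · intro p hp
      exact (hP p (Finset.mem_filter.mp hp).1).prime
    · intro p hp
      exact (Finset.mem_filter.mp hp).2
  have hle : ∏ p ∈ M, p ≤ m := Nat.le_of_dvd hm hdvd
  have hN0 : (0:ℝ) < N := by
    have : (4:ℝ) ≤ N := by exact_mod_cast hN
    linarith
  have hN1 : (1:ℝ) < N := by
    have : (4:ℝ) ≤ N := by exact_mod_cast hN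
    linarith
  have h1 : ((N:ℝ) ^ δ) ^ M.card ≤ ∏ p ∈ M, (p:ℝ) := by
    rw [← Finset.prod_const]
    refine Finset.prod_le_prod (fun p _ => by positivity) ?_
    intro p hp
    exact (hr p (Finset.mem_filter.mp hp).1 (Finset.mem_filter.mp hp).2).le
  have h2 : (∏ p ∈ M, (p:ℝ)) ≤ (N:ℝ) ^ (2:ℝ) := by
    have h3 : (∏ p ∈ M, (p:ℝ)) = ((∏ p ∈ M, p : ℕ) : ℝ) := by push_cast; rfl
    rw [h3, Real.rpow_two]
    have h4 : m ≤ N ^ 2 := by nlinarith
    exact_mod_cast hle.trans h4
  have h5 : (N:ℝ) ^ (δ * M.card) ≤ (N:ℝ) ^ (2:ℝ) := by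
    rw [Real.rpow_mul hN0.le, Real.rpow_natCast]
    exact h1.trans h2
  have h6 : δ * M.card ≤ 2 := (Real.rpow_le_rpow_left_iff hN1).mp h5
  rw [le_div_iff₀ hδ]
  linarith

theorem wn_le (hP : ∀ p ∈ P, p.Prime) (N : ℕ) (hN : 4 ≤ N) (δ : ℝ) (hδ : 0 < δ)
    (h : Fin k → ℕ) (hh : ∀ p ∈ P, ∀ i j, i ≠ j → ¬ h i ≡ h j [MOD p]) (hN' : ∀ i, h i ≤ N)
    (lam : Asg P k → ℝ) (L : ℝ) (hL : ∀ s, |lam s| ≤ L) (n : ℕ) (hn : 1 ≤ n) (hn2 : n ≤ 2 * N)
    (hr : ∀ p ∈ P, ∀ i, p ∣ n + h i → (N:ℝ) ^ δ < p) :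
    wn h lam n ≤ ((2:ℝ) ^ (2 * k / δ + k) * L) ^ 2 := by
  have hL0 : 0 ≤ L := (abs_nonneg _).trans (hL (fun _ => none))
  unfold wn
  rw [← sq_abs]
  refine pow_le_pow_left₀ (abs_nonneg _) ?_ 2
  rw [← Finset.sum_filter]
  refine (Finset.abs_sum_le_sum_abs _ _).trans ?_
  refine (Finset.sum_le_card_nsmul _ _ L (fun s _ => hL s)).trans ?_
  rw [nsmul_eq_mul]
  refine mul_le_mul_of_nonneg_right ?_ hL0
  have h1 := card_hits_le (P := P) h hh n
  set M := (Finset.univ : Finset (Fin k)).biUnion (fun i => P.filter (fun p => p ∣ n + h i))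
    with hM
  have h2 : (M.card : ℝ) ≤ 2 * k / δ := by
    have h3 : M.card ≤ ∑ i : Fin k, (P.filter (fun p => p ∣ n + h i)).card :=
      Finset.card_biUnion_le
    have h4 : (M.card : ℝ) ≤ ∑ i : Fin k, ((P.filter (fun p => p ∣ n + h i)).card : ℝ) := by
      exact_mod_cast h3
    refine h4.trans ?_
    have h5 : ∀ i : Fin k, ((P.filter (fun p => p ∣ n + h i)).card : ℝ) ≤ 2 / δ := by
      intro i
      refine card_rough_le hP N hN δ hδ (n + h i) (by omega) ?_ (fun p hp hpd => hr p hp i hpd)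
      have := hN' i
      omega
    refine (Finset.sum_le_card_nsmul _ _ (2/δ) (fun i _ => h5 i)).trans ?_
    rw [nsmul_eq_mul, Finset.card_univ, Fintype.card_fin]
    apply le_of_eq
    ring
  calc ((Finset.univ.filter (fun s : Asg P k => hits h n s)).card : ℝ)
      ≤ (2:ℝ) ^ M.card := by exact_mod_cast h1
    _ = (2:ℝ) ^ (M.card : ℝ) := by rw [Real.rpow_natCast]
    _ ≤ (2:ℝ) ^ (2 * k / δ + k : ℝ) := by
        refine Real.rpow_le_rpow_of_exponent_le (by norm_num) ?_
        have : (0:ℝ) ≤ k := Nat.cast_nonneg k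
        linarith

end Pool.Agent.Lib.MT
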