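import Mathlib

/-!
# Chebyshev type sums over primes

PROOF SKETCH. The first sum is at most `log X + log 4` (Legendre's formula for the factorial and
Chebyshev's bound for theta). The second one follows by summing over `exp (2 ^ j) < p ≤ exp (2 ^ (j+1))`.
-/

namespace Pool.Agent.Lib.MT

lemma filter_prime_eq (X : ℕ) : (Finset.Icc 1 X).filter Nat.Prime = Nat.primesLE X := by
  ext p
  simp only [Finset.mem_filter, Finset.mem_Icc, Nat.mem_primesLE]
  constructor
  · rintro ⟨⟨_, h2⟩, h3⟩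
    exact ⟨h2, h3⟩
  · rintro ⟨h2, h3⟩
    exact ⟨⟨h3.one_lt.le, h2⟩, h3⟩

/-- `∑_{p ≤ n} log p / p ≤ log n + log 4`. -/
lemma sum_log_div_le_log (n : ℕ) (hn : 1 ≤ n) :
    ∑ p ∈ Nat.primesLE n, Real.log p / p ≤ Real.log n + Real.log 4 := by
  have hn0 : (0 : ℝ) < n := by exact_mod_cast hn
  have h1 : ∑ k ∈ Finset.Ioc 0 n, ∑ p ∈ k.primeFactors, Real.log p ≤ n * Real.log n := by
    calc ∑ k ∈ Finset.Ioc 0 n, ∑ p ∈ k.primeFactors, Real.log p
        ≤ ∑ k ∈ Finset.Ioc 0 n, Real.log n := by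
          refine Finset.sum_le_sum fun k hk => ?_
          simp only [Finset.mem_Ioc] at hk
          have h0 : ∑ p ∈ k.primeFactors, Real.log p = Real.log ((∏ p ∈ k.primeFactors, p : ℕ) : ℝ) := by
            push_cast
            rw [Real.log_prod]
            intro p hp
            have := (Nat.prime_of_mem_primeFactors hp).pos
            positivity
          rw [h0]
          have hle : ∏ p ∈ k.primeFactors, p ≤ n :=
            (Nat.le_of_dvd hk.1 (Nat.prod_primeFactors_dvd k)).trans hk.2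
          apply Real.log_le_log
          · exact_mod_cast Finset.prod_pos fun p hp => (Nat.prime_of_mem_primeFactors hp).pos
          · exact_mod_cast hle
      _ = n * Real.log n := by simp
  have h2 : ∑ k ∈ Finset.Ioc 0 n, ∑ p ∈ k.primeFactors, Real.log p =
      ∑ p ∈ Nat.primesLE n, Real.log p * ((n / p : ℕ) : ℝ) := by
    have : ∀ k ∈ Finset.Ioc 0 n, ∑ p ∈ k.primeFactors, Real.log p =
        ∑ p ∈ Nat.primesLE n, if p ∣ k then Real.log p else 0 := by
      intro k hk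
      simp only [Finset.mem_Ioc] at hk
      rw [← Finset.sum_filter]
      refine Finset.sum_congr ?_ fun _ _ => rfl
      ext p
      simp only [Nat.mem_primeFactors, Finset.mem_filter, Nat.mem_primesLE]
      constructor
      · rintro ⟨h1, h2, h3⟩
        exact ⟨⟨(Nat.le_of_dvd hk.1 h2).trans hk.2, h1⟩, h2⟩
      · rintro ⟨⟨h1, h2⟩, h3⟩
        exact ⟨h2, h3, by omega⟩
    rw [Finset.sum_congr rfl this, Finset.sum_comm]
    refine Finset.sum_congr rfl fun p hp => ?_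
    rw [← Finset.sum_filter, Finset.sum_const, Nat.Ioc_filter_dvd_card_eq_div, nsmul_eq_mul, mul_comm]
  have h3 : ∑ p ∈ Nat.primesLE n, Real.log p * ((n : ℝ) / p - 1) ≤
      ∑ p ∈ Nat.primesLE n, Real.log p * ((n / p : ℕ) : ℝ) := by
    refine Finset.sum_le_sum fun p hp => ?_
    have hp1 := Nat.two_le_of_mem_primesLE hp
    have hp2 : (1 : ℝ) ≤ p := by exact_mod_cast (by omega : 1 ≤ p)
    apply mul_le_mul_of_nonneg_left _ (Real.log_nonneg hp2)
    have := Nat.lt_floor_add_one ((n : ℝ) / p)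
    rw [Nat.floor_div_natCast, Nat.floor_natCast] at this
    linarith
  have h4 : ∑ p ∈ Nat.primesLE n, Real.log p * ((n : ℝ) / p - 1) =
      n * (∑ p ∈ Nat.primesLE n, Real.log p / p) - Chebyshev.theta n := by
    rw [Chebyshev.theta_eq_sum_primesLE_log, Finset.mul_sum, ← Finset.sum_sub_distrib]
    refine Finset.sum_congr rfl fun p hp => ?_
    ring
  have h5 := Chebyshev.theta_le_log4_mul_x (x := n) hn0.le
  have h6 : n * (∑ p ∈ Nat.primesLE n, Real.log p / p) ≤ n * (Real.log n + Real.log 4) := by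
    rw [h2] at h1
    linarith
  exact le_of_mul_le_mul_left h6 hn0

theorem sum_log_div_le : ∃ C : ℝ, 0 < C ∧ ∀ X : ℕ, 2 ≤ X →
    ∑ p ∈ (Finset.Icc 1 X).filter Nat.Prime, Real.log p / p ≤ C * Real.log X := by
  refine ⟨3, by norm_num, fun X hX => ?_⟩
  rw [filter_prime_eq]
  have h1 := sum_log_div_le_log X (by omega)
  have h2 : Real.log 4 ≤ 2 * Real.log X := by
    have h3 : Real.log 4 = 2 * Real.log 2 := by
      rw [show (4:ℝ) = 2 ^ 2 by norm_num, Real.log_pow]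
      norm_num
    have h4 : Real.log 2 ≤ Real.log X := Real.log_le_log (by norm_num) (by exact_mod_cast hX)
    linarith
  linarith

/-- `∑_{p ≤ exp (2 ^ j)} 1 / p ≤ 4 (j+1)`. -/
lemma sum_inv_dyadic (j : ℕ) :
    ∑ p ∈ Nat.primesLE ⌊Real.exp (2 ^ j)⌋₊, 1 / (p:ℝ) ≤ 4 * ((j:ℝ) + 1) := by
  have hlog2 : (0.69 : ℝ) < Real.log 2 := by
    have := Real.log_two_gt_d9
    linarith
  have hlog2' : Real.log 2 < 0.7 := by
    have := Real.log_two_lt_d9
    linarith
  have hlog4 : Real.log 4 = 2 * Real.log 2 := by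
    rw [show (4:ℝ) = 2 ^ 2 by norm_num, Real.log_pow]
    norm_num
  have hfl : ∀ j : ℕ, 1 ≤ ⌊Real.exp (2 ^ j)⌋₊ := fun j => by
    rw [Nat.one_le_floor_iff]
    exact Real.one_le_exp (by positivity)
  have hlogfl : ∀ j : ℕ, Real.log ⌊Real.exp (2 ^ j)⌋₊ ≤ 2 ^ j := fun j => by
    have h0 : (0:ℝ) < ⌊Real.exp (2 ^ j)⌋₊ := by exact_mod_cast (hfl j)
    rw [Real.log_le_iff_le_exp h0]
    exact Nat.floor_le (Real.exp_pos _).le
  have hS : ∀ j : ℕ, ∑ p ∈ Nat.primesLE ⌊Real.exp (2 ^ j)⌋₊, Real.log p / p ≤ 2 ^ j + 1.4 := by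
    intro j
    have h1 := sum_log_div_le_log _ (hfl j)
    have h2 := hlogfl j
    linarith
  induction j with
  | zero =>
    have h1 := hS 0
    have h2 : ∑ p ∈ Nat.primesLE ⌊Real.exp (2 ^ 0)⌋₊, 0.69 * (1 / (p:ℝ)) ≤
        ∑ p ∈ Nat.primesLE ⌊Real.exp (2 ^ 0)⌋₊, Real.log p / p := by
      refine Finset.sum_le_sum fun p hp => ?_
      have hp1 := Nat.two_le_of_mem_primesLE hp
      have hp2 : (2 : ℝ) ≤ p := by exact_mod_cast hp1
      have h3 : Real.log 2 ≤ Real.log p := Real.log_le_log (by norm_num) hp2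
      rw [mul_one_div]
      gcongr
      linarith
    rw [← Finset.mul_sum] at h2
    norm_num at h1 h2 ⊢
    linarith
  | succ j ih =>
    have hsub : Nat.primesLE ⌊Real.exp (2 ^ j)⌋₊ ⊆ Nat.primesLE ⌊Real.exp (2 ^ (j+1))⌋₊ := by
      intro p hp
      rw [Nat.mem_primesLE] at hp ⊢
      refine ⟨hp.1.trans ?_, hp.2⟩
      apply Nat.floor_le_floor
      apply Real.exp_le_exp.2
      exact pow_le_pow_right₀ (by norm_num) (by omega)
    rw [← Finset.sum_sdiff hsub]
    have h1 : ∑ p ∈ Nat.primesLE ⌊Real.exp (2 ^ (j+1))⌋₊ \ Nat.primesLE ⌊Real.exp (2 ^ j)⌋₊,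
        (2:ℝ) ^ j * (1 / (p:ℝ)) ≤ ∑ p ∈ Nat.primesLE ⌊Real.exp (2 ^ (j+1))⌋₊, Real.log p / p := by
      refine le_trans (Finset.sum_le_sum (g := fun p : ℕ => Real.log p / p) fun p hp => ?_)
        (Finset.sum_le_sum_of_subset_of_nonneg Finset.sdiff_subset fun p _ _ => by positivity)
      rw [Finset.mem_sdiff, Nat.mem_primesLE, Nat.mem_primesLE] at hp
      obtain ⟨⟨hp1, hp2⟩, hp3⟩ := hp
      have hp4 : ⌊Real.exp (2 ^ j)⌋₊ < p := by
        by_contra hcon
        exact hp3 ⟨by omega, hp2⟩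
      have hp5 : Real.exp (2 ^ j) < p := (Nat.floor_lt' hp2.ne_zero).1 hp4
      have hp0 : (0:ℝ) < p := by exact_mod_cast hp2.pos
      have hp6 : (2:ℝ) ^ j ≤ Real.log p := by
        rw [Real.le_log_iff_exp_le hp0]
        exact hp5.le
      rw [mul_one_div]
      gcongr
    rw [← Finset.mul_sum] at h1
    have h2 := hS (j+1)
    have hj : (1:ℝ) ≤ 2 ^ j := one_le_pow₀ (by norm_num)
    have h3 : (2:ℝ) ^ j * ∑ p ∈ Nat.primesLE ⌊Real.exp (2 ^ (j+1))⌋₊ \
        Nat.primesLE ⌊Real.exp (2 ^ j)⌋₊, 1 / (p:ℝ) ≤ 2 ^ j * 4 := by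
      refine h1.trans (h2.trans ?_)
      rw [pow_succ]
      linarith
    have h4 := le_of_mul_le_mul_left h3 (by linarith)
    push_cast
    linarith

theorem sum_inv_le : ∃ C : ℝ, 0 < C ∧ ∀ X : ℕ, 3 ≤ X →
    ∑ p ∈ (Finset.Icc 1 X).filter Nat.Prime, 1 / (p:ℝ) ≤
      C * (1 + Real.log (Real.log X)) := by
  refine ⟨8, by norm_num, fun X hX => ?_⟩
  rw [filter_prime_eq]
  have hX0 : (0:ℝ) < X := by
    have : 0 < X := by omega
    exact_mod_cast this
  have hX3 : (3:ℝ) ≤ X := by exact_mod_cast hX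
  have hlog1 : 1 ≤ Real.log X := by
    rw [Real.le_log_iff_exp_le hX0]
    linarith [Real.exp_one_lt_d9]
  have hll : 0 ≤ Real.log (Real.log X) := Real.log_nonneg hlog1
  have hlog2 : (0.69 : ℝ) < Real.log 2 := by
    have := Real.log_two_gt_d9
    linarith
  set j : ℕ := ⌈Real.log (Real.log X) / Real.log 2⌉₊ with hj
  have hj1 : Real.log (Real.log X) / Real.log 2 ≤ j := Nat.le_ceil _
  have hj2 : (j:ℝ) < Real.log (Real.log X) / Real.log 2 + 1 :=
    Nat.ceil_lt_add_one (div_nonneg hll (by linarith))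
  have h1 : Real.log X ≤ 2 ^ j := by
    rw [div_le_iff₀ (by linarith)] at hj1
    have h2 : Real.log (Real.log X) ≤ Real.log (2 ^ j) := by
      rw [Real.log_pow]
      exact hj1
    exact (Real.log_le_log_iff (by linarith) (by positivity)).1 h2
  have hsub : Nat.primesLE X ⊆ Nat.primesLE ⌊Real.exp (2 ^ j)⌋₊ := by
    intro p hp
    rw [Nat.mem_primesLE] at hp ⊢
    refine ⟨hp.1.trans ?_, hp.2⟩
    apply Nat.le_floor
    rw [← Real.log_le_iff_le_exp hX0]
    exact h1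
  have h2 : ∑ p ∈ Nat.primesLE X, 1 / (p:ℝ) ≤
      ∑ p ∈ Nat.primesLE ⌊Real.exp (2 ^ j)⌋₊, 1 / (p:ℝ) :=
    Finset.sum_le_sum_of_subset_of_nonneg hsub fun _ _ _ => by positivity
  have h3 := sum_inv_dyadic j
  have h4 : Real.log (Real.log X) / Real.log 2 ≤ 2 * Real.log (Real.log X) := by
    rw [div_le_iff₀ (by linarith)]
    nlinarith
  linarith

end Pool.Agent.Lib.MT
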