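import Pool.Agent.Lib.MT.RoughForm

/-!
# Auxiliary lemmas for the non-rough integers
-/

open Finset
open scoped Classical

namespace Pool.Agent.Lib.MT

namespace NonRoughAux

open RoughFormAux

/-- Powers of the logarithm against powers. -/
theorem log_pow_le_rpow (A c : ℝ) (hA : 0 ≤ A) (hc : 0 < c) (n : ℕ) :
    ∀ᶠ N : ℕ in Filter.atTop, A * (Real.log N) ^ n ≤ (N:ℝ) ^ c := by
  have h := isLittleO_log_rpow_rpow_atTop (n : ℝ) hc
  have h1 : (0:ℝ) < 1 / (A + 1) := by positivity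
  have h2 := (h.bound h1)
  have h3 := tendsto_natCast_atTop_atTop (R := ℝ) |>.eventually h2
  filter_upwards [h3, Filter.eventually_ge_atTop 1] with N hN hN1
  have hlog : 0 ≤ Real.log N := Real.log_natCast_nonneg N
  rw [Real.rpow_natCast, Real.norm_of_nonneg (pow_nonneg hlog n),
    Real.norm_of_nonneg (Real.rpow_nonneg (Nat.cast_nonneg N) c)] at hN
  have h4 : 0 ≤ (N:ℝ) ^ c := Real.rpow_nonneg (Nat.cast_nonneg N) c
  calc A * (Real.log N) ^ n ≤ (A + 1) * (Real.log N) ^ n := by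
        have := pow_nonneg hlog n
        nlinarith
    _ ≤ (A + 1) * (1 / (A + 1) * (N:ℝ) ^ c) := by
        apply mul_le_mul_of_nonneg_left hN (by linarith)
    _ = (N:ℝ) ^ c := by
        have : A + 1 ≠ 0 := by linarith
        field_simp

/-- The elements of `P` up to `X`. -/
noncomputable def QQ (P : Finset ℕ) (X : ℝ) : Finset P :=
  Finset.filter (fun p : P => ((p:ℕ):ℝ) ≤ X) Finset.univ

/-- The union bound. -/
theorem union_bound {P : Finset ℕ} {k : ℕ} (N W v : ℕ) (X : ℝ) (h : Fin k → ℕ)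
    (lam : Asg P k → ℝ) :
    ∑ n ∈ (Finset.Ioc N (2*N)).filter (fun n => n ≡ v [MOD W] ∧
        ∃ p ∈ P, (p:ℝ) ≤ X ∧ ∃ i, p ∣ n + h i), wn h lam n ≤
      ∑ p₀ ∈ QQ P X, ∑ i₀ : Fin k,
        ∑ n ∈ (Finset.Ioc N (2*N)).filter (fun n => n ≡ v [MOD W] ∧ (p₀:ℕ) ∣ n + h i₀),
          wn h lam n := by
  have hwn : ∀ n, 0 ≤ wn h lam n := fun n => by unfold wn; exact sq_nonneg _
  set Q := QQ P X with hQ
  have h1 : ∀ n ∈ (Finset.Ioc N (2*N)).filter (fun n => n ≡ v [MOD W] ∧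
        ∃ p ∈ P, (p:ℝ) ≤ X ∧ ∃ i, p ∣ n + h i), wn h lam n ≤
        ∑ p₀ ∈ Q, ∑ i₀ : Fin k, if (p₀:ℕ) ∣ n + h i₀ then wn h lam n else 0 := by
    intro n hn
    rw [mem_filter] at hn
    obtain ⟨_, _, p, hp, hpX, i, hi⟩ := hn
    have hpQ : (⟨p, hp⟩ : P) ∈ Q := by
      rw [hQ]
      unfold QQ
      rw [mem_filter]
      exact ⟨mem_univ _, hpX⟩
    have h2 : ∀ p₀ ∈ Q, 0 ≤ ∑ i₀ : Fin k, if ((p₀ : P):ℕ) ∣ n + h i₀ then wn h lam n else 0 := by
      intro p₀ _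
      refine Finset.sum_nonneg fun i₀ _ => ?_
      split_ifs
      · exact hwn n
      · exact le_refl _
    refine le_trans ?_ (Finset.single_le_sum h2 hpQ)
    refine le_trans ?_ (Finset.single_le_sum (s := (univ : Finset (Fin k)))
      (f := fun i₀ : Fin k => if (((⟨p, hp⟩ : P) : P):ℕ) ∣ n + h i₀ then wn h lam n else 0)
      (fun i₀ _ => by
        simp only
        split_ifs
        · exact hwn n
        · exact le_refl _) (Finset.mem_univ i))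
    simp only
    rw [if_pos hi]
  refine (Finset.sum_le_sum h1).trans ?_
  have hsub : (Finset.Ioc N (2*N)).filter (fun n => n ≡ v [MOD W] ∧
        ∃ p ∈ P, (p:ℝ) ≤ X ∧ ∃ i, p ∣ n + h i) ⊆
        (Finset.Ioc N (2*N)).filter (fun n => n ≡ v [MOD W]) := by
    intro n hn
    rw [mem_filter] at hn ⊢
    exact ⟨hn.1, hn.2.1⟩
  refine (Finset.sum_le_sum_of_subset_of_nonneg hsub ?_).trans ?_
  · intro n _ _
    refine Finset.sum_nonneg fun p₀ _ => Finset.sum_nonneg fun i₀ _ => ?_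
    split_ifs
    · exact hwn n
    · exact le_refl _
  · rw [Finset.sum_comm]
    refine le_of_eq (Finset.sum_congr rfl fun p₀ _ => ?_)
    rw [Finset.sum_comm]
    refine Finset.sum_congr rfl fun i₀ _ => ?_
    rw [← Finset.sum_filter, Finset.filter_filter]

theorem dens_ge {W : ℕ} (hW : 1 ≤ W) : 1 / (W:ℝ) ≤ dens W := by
  unfold dens
  have h1 : (1:ℝ) ≤ W.totient := by exact_mod_cast Nat.totient_pos.2 hW
  exact div_le_div_of_nonneg_right h1 (Nat.cast_nonneg W)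

theorem dens_le_one {W : ℕ} (hW : 1 ≤ W) : dens W ≤ 1 := by
  unfold dens
  have h0 : (0:ℝ) < W := by exact_mod_cast hW
  rw [div_le_one h0]
  exact_mod_cast Nat.totient_le W

/-- Sum over the primes of `P` up to `X` is at most the sum over all primes up to `X`. -/
theorem sum_Q_le (W R : ℕ) (X : ℝ) (_hX : 0 ≤ X) (f : ℕ → ℝ) (hf : ∀ p, 1 ≤ p → 0 ≤ f p) :
    ∑ p₀ ∈ QQ (Pr W R) X, f p₀ ≤
      ∑ p ∈ (Finset.Icc 1 ⌊X⌋₊).filter Nat.Prime, f p := by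
  have h1 : ∑ p₀ ∈ QQ (Pr W R) X, f p₀
      = ∑ p ∈ (QQ (Pr W R) X).map
        ⟨fun p : Pr W R => (p : ℕ), Subtype.val_injective⟩, f p := by
    rw [Finset.sum_map]
    rfl
  rw [h1]
  refine Finset.sum_le_sum_of_subset_of_nonneg ?_ ?_
  · intro p hp
    rw [Finset.mem_map] at hp
    obtain ⟨q, hq, rfl⟩ := hp
    unfold QQ at hq
    rw [mem_filter] at hq
    have hq2 := q.2
    unfold Pr at hq2
    rw [mem_filter, mem_Icc] at hq2
    simp only [Function.Embedding.coeFn_mk]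
    rw [mem_filter, mem_Icc]
    exact ⟨⟨hq2.1.1, Nat.le_floor hq.2⟩, hq2.2.1⟩
  · intro p hp _
    rw [mem_filter, mem_Icc] at hp
    exact hf p hp.1.1

theorem exp_two_le : Real.exp 2 ≤ 8 := by
  have h11 := Real.exp_one_lt_d9
  have h12 : Real.exp 2 = Real.exp 1 * Real.exp 1 := by
    rw [← Real.exp_add]; norm_num
  rw [h12]
  have h13 := Real.exp_pos 1
  nlinarith

theorem four_le_exp_two : 4 ≤ Real.exp 2 := by
  have h11 := Real.exp_one_gt_d9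
  have h12 : Real.exp 2 = Real.exp 1 * Real.exp 1 := by
    rw [← Real.exp_add]; norm_num
  rw [h12]
  nlinarith

theorem lin1 {K ll lW : ℝ} (h1 : 1 ≤ ll) (h2 : lW ≤ K * ll) : 1 + lW ≤ (K + 1) * ll := by
  nlinarith

theorem lin2 {K ll : ℝ} (h1 : 1 ≤ ll) (h2 : 0 ≤ K) :
    (K + 1) * ll ≤ (2 * (K + 1)) * ll ^ 2 := by
  have h3 : ll ≤ ll ^ 2 := by nlinarith
  have h4 : 0 ≤ ll ^ 2 := sq_nonneg ll
  calc (K + 1) * ll ≤ (K + 1) * ll ^ 2 := mul_le_mul_of_nonneg_left h3 (by linarith)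
    _ ≤ (2 * (K + 1)) * ll ^ 2 := mul_le_mul_of_nonneg_right (by linarith) h4

theorem lin3 {c₁ c₂ x y : ℝ} (h1 : 0 ≤ c₁) (h2 : 0 ≤ c₂) (h3 : 0 ≤ x) (h4 : 0 ≤ y) :
    c₁ * x + c₂ * y + y ≤ (c₁ + c₂ + 1) * (x + y) := by
  nlinarith [mul_nonneg h1 h4, mul_nonneg h2 h3]

theorem pow_identity (a C ℓ : ℝ) (m : ℕ) :
    (a * (2 * ℓ) ^ (m + 1) * (C * ℓ) ^ (m + 1)) ^ 2
      = a ^ 2 * ((2 * C) ^ (2 * (m + 1)) * ℓ ^ (4 * (m + 1))) := by
  have e2 : (2 * C) ^ (2 * (m + 1)) = ((2 * C) ^ (m + 1)) ^ 2 := by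
    rw [← pow_mul, Nat.mul_comm 2 (m + 1)]
  have e3 : ℓ ^ (4 * (m + 1)) = (ℓ ^ (m + 1)) ^ 4 := by
    rw [← pow_mul, Nat.mul_comm 4 (m + 1)]
  rw [e2, e3, mul_pow, mul_pow, mul_pow 2 ℓ, mul_pow C ℓ, mul_pow 2 C]
  ring

theorem frac_identity (N W D : ℝ) (hW : W ≠ 0) (hD : D ≠ 0) (m : ℕ) :
    (1 / D) * (N / W) * (1 / W) ^ (m + 1) = N / (D * W ^ (m + 2)) := by
  rw [one_div_pow]
  field_simp
  ring

theorem pair_identity (N W p C d lp lW c B1 B2 κ : ℝ) (hp : p ≠ 0) (hW : W ≠ 0) :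
    N / (W * p) * (C * d * (lp + 1 + lW) * B1 + 2 * (c * κ) ^ 2 * B2)
      = N / W * ((C * B1 * d) * (lp / p + (1 + lW) * (1 / p))
          + (2 * c ^ 2 * B2) * (κ ^ 2 * (1 / p))) := by
  field_simp
  ring

end NonRoughAux

end Pool.Agent.Lib.MT
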