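import Mathlib

/-!
# A tensor version of the Maynard sieve: definitions

`P` is a finite set of primes, an assignment `r : Asg P k` puts every prime of `P` in one of the
states `none, some 0, ..., some (k-1)`; `some i` means that the prime divides the `i`-th component.
So an assignment is a `k`-tuple of coprime squarefree integers composed of primes of `P`.
-/

open Finset
open scoped Classical

namespace Pool.Agent.Lib.MT

/-- Assignments of states to the primes of `P`. -/
abbrev Asg (P : Finset ℕ) (k : ℕ) := P → Option (Fin k)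

variable {P : Finset ℕ} {k : ℕ}

/-- The set of primes in state `i`. -/
noncomputable def part (r : Asg P k) (i : Fin k) : Finset ℕ :=
  (Finset.univ.filter (fun p : P => r p = some i)).image (fun p => (p : ℕ))

/-- The `i`-th component. -/
noncomputable def dd (r : Asg P k) (i : Fin k) : ℕ := ∏ p ∈ part r i, p

/-- The product of all components. -/
noncomputable def dtot (r : Asg P k) : ℕ := ∏ p : P, if r p = none then 1 else (p : ℕ)

/-- The `i`-th component divides `n + h i` for all `i`. -/
def hits (h : Fin k → ℕ) (n : ℕ) (r : Asg P k) : Prop :=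
  ∀ p : P, ∀ i : Fin k, r p = some i → (p : ℕ) ∣ n + h i

/-- A multiplicative weight. -/
noncomputable def wt (κ : ℕ → ℝ) (r : Asg P k) : ℝ := ∏ p : P, if r p = none then 1 else κ p

/-- The local density kernel. -/
noncomputable def Kq (q : ℝ) (a b : Option (Fin k)) : ℝ :=
  if a = none ∧ b = none then 1 else if a = none ∨ b = none ∨ a = b then 1 / q else 0

/-- The local change of variables. -/
noncomputable def Zq (q : ℝ) (a b : Option (Fin k)) : ℝ :=
  if a = b then 1 else if a = none then 1 / q else 0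

/-- The quadratic form of the sieve, with local densities `1 / q p`. -/
noncomputable def formK (q : ℕ → ℝ) (lam : Asg P k → ℝ) : ℝ :=
  ∑ r, ∑ s, lam r * lam s * ∏ p : P, Kq (q p) (r p) (s p)

/-- The diagonalising variables. -/
noncomputable def zOf (q : ℕ → ℝ) (lam : Asg P k → ℝ) (r : Asg P k) : ℝ :=
  ∑ s, lam s * ∏ p : P, Zq (q p) (r p) (s p)

/-- The local kernel expressing the sieve weights through Maynard's variables `y`. -/
noncomputable def Lq (p : ℝ) (a b : Option (Fin k)) : ℝ :=
  if b = none then (if a = none then 1 else 0)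
  else if a = none then 1 / (p - 1) else if a = b then - (p / (p - 1)) else 0

/-- The sieve weights: `lam s = μ(s) s ∑_{t ⊇ s} y t / φ(t)`. -/
noncomputable def lamOf (y : Asg P k → ℝ) (s : Asg P k) : ℝ :=
  ∑ t, y t * ∏ p : P, Lq (p : ℝ) (s p) (t p)

/-- Restriction to assignments without the state `m`. -/
noncomputable def lamm (m : Fin k) (lam : Asg P k → ℝ) (s : Asg P k) : ℝ :=
  if ∃ p, s p = some m then 0 else lam s

/-- The local kernel for `zOf` of `lamm`. -/
noncomputable def Mq (m : Fin k) (p : ℝ) (a b : Option (Fin k)) : ℝ :=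
  if a = none then
    (if b = none then 1 else if b = some m then 1 / (p - 1) else - (1 / (p - 1) ^ 2))
  else if a = b ∧ a ≠ some m then - (p / (p - 1)) else 0

/-- The weights seen by integers with `p₀ ∣ n + h i₀`. -/
noncomputable def lamp (p₀ : P) (i₀ : Fin k) (lam : Asg P k → ℝ) (s : Asg P k) : ℝ :=
  if s p₀ = none then lam s + lam (Function.update s p₀ (some i₀)) else 0

/-- The weight of an integer. -/
noncomputable def wn (h : Fin k → ℕ) (lam : Asg P k → ℝ) (n : ℕ) : ℝ :=
  (∑ s, if hits h n s then lam s else 0) ^ 2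

/-- The modulus of a pair of assignments. -/
noncomputable def mpair (r s : Asg P k) : ℕ :=
  ∏ p : P, if r p = none ∧ s p = none then 1 else (p : ℕ)

/-- One dimensional sums over squarefree integers composed of primes of `P`. -/
noncomputable def sum1 (P : Finset ℕ) (κ : ℕ → ℝ) (G : ℕ → ℝ) : ℝ :=
  ∑ T ∈ P.powerset, G (∏ p ∈ T, p) * ∏ p ∈ T, κ p

/-- The primes up to `R` not dividing `W`. -/
noncomputable def Pr (W R : ℕ) : Finset ℕ := (Finset.Icc 1 R).filter (fun p => p.Prime ∧ ¬ p ∣ W)

/-- Maynard's variables: a product function cut off at total size `R`. -/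
noncomputable def yOf (g : ℕ → ℝ) (R : ℕ) (r : Asg P k) : ℝ :=
  if dtot r ≤ R then ∏ i, g (dd r i) else 0

/-- Weights of the step function. -/
noncomputable def wst (J j : ℕ) : ℝ := if j < J then (1/2 : ℝ) ^ (j+1) else (1/2 : ℝ) ^ J

/-- The step function: `1` up to `ρ`, `2⁻ʲ` between `ρ ^ 2 ^ (j-1)` and `ρ ^ 2 ^ j`, and `0` beyond
`ρ ^ 2 ^ J`. -/
noncomputable def gst (ρ J : ℕ) (a : ℕ) : ℝ :=
  ∑ j ∈ Finset.range (J+1), wst J j * (if a ≤ ρ ^ (2 ^ j) then 1 else 0)

/-- `1 / φ` on primes. -/
noncomputable def κ₁ (p : ℕ) : ℝ := 1 / ((p:ℝ) - 1)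

/-- `p / φ ^ 2` on primes. -/
noncomputable def κ₂ (p : ℕ) : ℝ := (p:ℝ) / ((p:ℝ) - 1) ^ 2

/-- The density of integers coprime to `W`. -/
noncomputable def dens (W : ℕ) : ℝ := (W.totient : ℝ) / W

lemma wst_nonneg (J j : ℕ) : 0 ≤ wst J j := by
  unfold wst; split_ifs <;> positivity

lemma sum_wst (J : ℕ) : ∑ j ∈ Finset.range (J+1), wst J j = 1 := by
  have h : ∀ J : ℕ, ∑ j ∈ Finset.range J, (1/2 : ℝ) ^ (j+1) = 1 - (1/2:ℝ) ^ J := by
    intro J
    induction J with
    | zero => simp
    | succ J ih => rw [Finset.sum_range_succ, ih]; ring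
  rw [Finset.sum_range_succ]
  have h1 : ∑ j ∈ Finset.range J, wst J j = ∑ j ∈ Finset.range J, (1/2 : ℝ) ^ (j+1) := by
    refine Finset.sum_congr rfl fun j hj => ?_
    simp only [Finset.mem_range] at hj
    simp [wst, hj]
  rw [h1, h]
  simp [wst]

lemma gst_nonneg (ρ J a : ℕ) : 0 ≤ gst ρ J a := by
  unfold gst
  refine Finset.sum_nonneg fun j _ => mul_nonneg (wst_nonneg _ _) ?_
  split_ifs <;> norm_num

lemma gst_le_one (ρ J a : ℕ) : gst ρ J a ≤ 1 := by
  rw [← sum_wst J]
  unfold gst
  refine Finset.sum_le_sum fun j _ => ?_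
  have := wst_nonneg J j
  split_ifs <;> simp [this]

lemma gst_antitone (ρ J : ℕ) : Antitone (gst ρ J) := by
  intro a b hab
  unfold gst
  refine Finset.sum_le_sum fun j _ => mul_le_mul_of_nonneg_left ?_ (wst_nonneg _ _)
  by_cases h : b ≤ ρ ^ (2 ^ j)
  · simp [h, hab.trans h]
  · simp only [h, if_false]
    split_ifs <;> norm_num

lemma gst_eq_zero {ρ J a : ℕ} (hρ : 1 ≤ ρ) (ha : ρ ^ (2 ^ J) < a) : gst ρ J a = 0 := by
  unfold gst
  refine Finset.sum_eq_zero fun j hj => ?_
  simp only [Finset.mem_range] at hj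
  have : ρ ^ (2 ^ j) ≤ ρ ^ (2 ^ J) :=
    Nat.pow_le_pow_right hρ (Nat.pow_le_pow_right (by norm_num) (by omega))
  have h2 : ¬ a ≤ ρ ^ (2 ^ j) := by omega
  simp [h2]

end Pool.Agent.Lib.MT
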