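import Pool.Agent.Lib.BV.TauSum
import Pool.Agent.Lib.MT.Defs
import Pool.Agent.Lib.SW.Defs

/-!
# Auxiliary lemmas for the lower bound of the weighted number of primes
-/

open Finset
open scoped Classical

namespace Pool.Agent.Lib.MT

namespace PrimeSumAux

variable {P : Finset ℕ} {k : ℕ}

lemma mpair_le (hP : ∀ p ∈ P, 1 ≤ p) (r s : Asg P k) : mpair r s ≤ dtot r * dtot s := by
  unfold mpair dtot
  rw [← Finset.prod_mul_distrib]
  refine Finset.prod_le_prod' fun p _ => ?_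
  have hp : 1 ≤ (p:ℕ) := hP p p.2
  by_cases h1 : r p = none <;> by_cases h2 : s p = none <;> simp [h1, h2]
  nlinarith

lemma mpair_pos (hP : ∀ p ∈ P, 1 ≤ p) (r s : Asg P k) : 1 ≤ mpair r s := by
  unfold mpair
  refine Nat.one_le_iff_ne_zero.2 (Finset.prod_ne_zero_iff.2 fun p _ => ?_)
  have hp : 1 ≤ (p:ℕ) := hP p p.2
  split_ifs <;> omega

lemma card_modEq_le (M q a : ℕ) (hq : 1 ≤ q) :
    (((Finset.Icc 1 M).filter (fun n => n ≡ a [MOD q])).card : ℝ) ≤ M / q + 1 := by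
  have h1 : (Finset.Icc 1 M) = Finset.Ioc 0 M := by ext n; simp; omega
  have h2 := Nat.Ioc_filter_modEq_card 0 M (r := q) (by omega) a
  rw [h1]
  have h3 : ((((Finset.Ioc 0 M).filter (fun n => n ≡ a [MOD q])).card : ℤ) : ℝ) =
      ((max (⌊((M:ℚ) - a) / q⌋ - ⌊(((0:ℕ):ℚ) - a) / q⌋) 0 : ℤ) : ℝ) := by
    rw [h2]
  have h4 : (((Finset.Ioc 0 M).filter (fun n => n ≡ a [MOD q])).card : ℝ) =
      ((max (⌊((M:ℚ) - a) / q⌋ - ⌊(((0:ℕ):ℚ) - a) / q⌋) 0 : ℤ) : ℝ) := by
    rw [← h3]; push_cast; rfl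
  rw [h4]
  have hq0 : (0:ℚ) < q := by exact_mod_cast hq
  have h5 : ((max (⌊((M:ℚ) - a) / q⌋ - ⌊(((0:ℕ):ℚ) - a) / q⌋) 0 : ℤ) : ℚ) ≤ (M:ℚ) / q + 1 := by
    push_cast
    apply max_le _ (by positivity)
    have e1 := Int.floor_le (((M:ℚ) - a) / q)
    have e2 := Int.lt_floor_add_one ((((0:ℕ):ℚ) - a) / q)
    have e3 : ((M:ℚ) - a) / q - ((((0:ℕ):ℚ) - a) / q) = (M:ℚ) / q := by
      push_cast
      ring
    push_cast at e2 e3 ⊢
    linarith
  have h6 := (Rat.cast_le (K := ℝ)).2 h5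
  push_cast at h6 ⊢
  exact h6

lemma theta_le (y : ℝ) (q a : ℕ) (hq : 1 ≤ q) (hy : 1 ≤ y) :
    SW.thetaAP y q a ≤ (y / q + 1) * Real.log y := by
  have hq0 : (0:ℝ) < q := by exact_mod_cast hq
  have hl : 0 ≤ Real.log y := Real.log_nonneg hy
  unfold SW.thetaAP
  have h1 : ∀ p ∈ (Finset.Icc 1 ⌊y⌋₊).filter (fun p => p.Prime ∧ p ≡ a [MOD q]),
      Real.log p ≤ Real.log y := by
    intro p hp
    simp only [Finset.mem_filter, Finset.mem_Icc] at hp
    have hp1 : (0:ℝ) < p := by exact_mod_cast hp.1.1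
    exact Real.log_le_log hp1 ((Nat.le_floor_iff (by linarith)).1 hp.1.2)
  refine (Finset.sum_le_sum h1).trans ?_
  rw [Finset.sum_const, nsmul_eq_mul]
  apply mul_le_mul_of_nonneg_right _ hl
  have h2 : (((Finset.Icc 1 ⌊y⌋₊).filter (fun p => p.Prime ∧ p ≡ a [MOD q])).card : ℝ) ≤
      (((Finset.Icc 1 ⌊y⌋₊).filter (fun n => n ≡ a [MOD q])).card : ℝ) := by
    have : ((Finset.Icc 1 ⌊y⌋₊).filter (fun p => p.Prime ∧ p ≡ a [MOD q])).card ≤
      ((Finset.Icc 1 ⌊y⌋₊).filter (fun n => n ≡ a [MOD q])).card := by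
      apply Finset.card_le_card
      intro p hp
      simp only [Finset.mem_filter] at hp ⊢
      exact ⟨hp.1, hp.2.2⟩
    exact_mod_cast this
  refine h2.trans ((card_modEq_le _ q a hq).trans ?_)
  have h3 : ((⌊y⌋₊ : ℕ) : ℝ) ≤ y := Nat.floor_le (by linarith)
  have h4 : ((⌊y⌋₊ : ℕ) : ℝ) / q ≤ y / q := div_le_div_of_nonneg_right h3 hq0.le
  linarith

lemma theta_nonneg (y : ℝ) (q a : ℕ) : 0 ≤ SW.thetaAP y q a := by
  unfold SW.thetaAP
  refine Finset.sum_nonneg fun p hp => Real.log_nonneg ?_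
  simp only [Finset.mem_filter, Finset.mem_Icc] at hp
  exact_mod_cast hp.1.1

/-- The trivial bound for the error term. -/
lemma err_trivial (N : ℕ) (q a : ℕ) (hq : 1 ≤ q) (hqN : q ≤ N) (y : ℝ) (hy1 : (N:ℝ) ≤ y)
    (hy : y ≤ 3 * N) (hL : 2 ≤ Real.log (10 * N)) :
    |SW.thetaAP y q a - y / (q.totient : ℝ)| ≤ (10 * N) * (Real.log (10 * N)) ^ 2 / q := by
  have hq0 : (0:ℝ) < q := by exact_mod_cast hq
  have hq1 : (1:ℝ) ≤ q := by exact_mod_cast hq
  have hqN' : (q:ℝ) ≤ N := by exact_mod_cast hqN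
  have hN1 : (1:ℝ) ≤ N := hq1.trans hqN'
  have hy0 : 1 ≤ y := hN1.trans hy1
  set L := Real.log (10 * N) with hLdef
  have h1 := theta_le y q a hq hy0
  have h2 := theta_nonneg y q a
  have h3 := BV.inv_totient_le q hq
  have hlog1 : Real.log y ≤ L := Real.log_le_log (by linarith) (by linarith)
  have hlog2 : Real.log (q + 2) ≤ L := Real.log_le_log (by linarith) (by linarith)
  have hlog0 : 0 ≤ Real.log y := Real.log_nonneg hy0
  have h4 : y / (q.totient : ℝ) ≤ 9 * N * L / q := by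
    calc y / (q.totient : ℝ) = y * (1 / (q.totient : ℝ)) := by ring
      _ ≤ (3 * N) * (3 * Real.log (q + 2) / q) := by
          apply mul_le_mul hy h3 (by positivity) (by positivity)
      _ = 9 * N * Real.log (q+2) / q := by ring
      _ ≤ 9 * N * L / q := by
          apply div_le_div_of_nonneg_right _ hq0.le
          apply mul_le_mul_of_nonneg_left hlog2 (by positivity)
  have h5 : SW.thetaAP y q a ≤ 4 * N * L / q := by
    refine h1.trans ?_
    have e1 : y / q + 1 ≤ 4 * N / q := by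
      rw [div_add_one hq0.ne']
      apply div_le_div_of_nonneg_right _ hq0.le
      linarith
    calc (y / q + 1) * Real.log y ≤ (4 * N / q) * L :=
          mul_le_mul e1 hlog1 hlog0 (by positivity)
      _ = _ := by ring
  have h6 : 0 ≤ y / (q.totient : ℝ) := by positivity
  have h7 : 13 * N * L / q ≤ (10 * N) * L ^ 2 / q := by
    apply div_le_div_of_nonneg_right _ hq0.le
    have : 13 * (N:ℝ) * L ≤ 10 * N * L * L := by
      have e : 13 * (N:ℝ) * L = (N:ℝ) * L * 13 := by ring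
      have e' : 10 * (N:ℝ) * L * L = (N:ℝ) * L * (10 * L) := by ring
      rw [e, e']
      apply mul_le_mul_of_nonneg_left _ (by positivity)
      linarith
    calc 13 * (N:ℝ) * L ≤ 10 * N * L * L := this
      _ = _ := by ring
  have h8 : 9 * (N:ℝ) * L / q ≤ 13 * N * L / q := by
    apply div_le_div_of_nonneg_right _ hq0.le
    have : 0 ≤ (N:ℝ) * L := by positivity
    nlinarith
  have h9 : 4 * (N:ℝ) * L / q ≤ 13 * N * L / q := by
    apply div_le_div_of_nonneg_right _ hq0.le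
    have : 0 ≤ (N:ℝ) * L := by positivity
    nlinarith
  rw [abs_le]
  constructor <;> linarith

lemma eventually_facts (K : ℕ) (η B : ℝ) (hη : 0 < η) : ∀ᶠ N : ℕ in Filter.atTop,
    1 + K * Real.log (Real.log N) ≤ η * Real.log N ∧
    (Real.log N) ^ K ≤ (N:ℝ) ^ (3/100 : ℝ) ∧ B ≤ Real.log N ∧ B ≤ (N:ℝ) := by
  have t0 : Filter.Tendsto (fun N : ℕ => (N:ℝ)) Filter.atTop Filter.atTop :=
    tendsto_natCast_atTop_atTop
  have t : Filter.Tendsto (fun N : ℕ => Real.log N) Filter.atTop Filter.atTop :=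
    Real.tendsto_log_atTop.comp t0
  have e1 : ∀ᶠ L : ℝ in Filter.atTop, 1 + K * Real.log L ≤ η * L := by
    have hK : (0:ℝ) < (K:ℝ) + 1 := by positivity
    have h := Real.isLittleO_log_id_atTop.def (c := η / (2 * ((K:ℝ) + 1))) (by positivity)
    filter_upwards [h, Filter.eventually_ge_atTop (max 0 (2/η))] with L h1 h2
    have hL0 : 0 ≤ L := (le_max_left _ _).trans h2
    have hL1 : 2 / η ≤ L := (le_max_right _ _).trans h2
    rw [div_le_iff₀ hη] at hL1
    simp only [id, Real.norm_eq_abs] at h1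
    rw [abs_of_nonneg hL0] at h1
    have h3 : Real.log L ≤ η / (2 * ((K:ℝ) + 1)) * L := (le_abs_self _).trans h1
    have h4 : (K:ℝ) * Real.log L ≤ K * (η / (2 * ((K:ℝ) + 1)) * L) :=
      mul_le_mul_of_nonneg_left h3 (Nat.cast_nonneg _)
    have h5 : (K:ℝ) * (η / (2 * ((K:ℝ) + 1)) * L) ≤ η * L / 2 := by
      have : (K:ℝ) * (η / (2 * ((K:ℝ) + 1)) * L) = (K / (K + 1)) * (η * L / 2) := by
        field_simp
      rw [this]
      apply mul_le_of_le_one_left (by positivity)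
      rw [div_le_one hK]
      linarith
    linarith
  have e2 : ∀ᶠ x : ℝ in Filter.atTop, (Real.log x) ^ K ≤ x ^ (3/100 : ℝ) := by
    have h := (isLittleO_log_rpow_rpow_atTop (K:ℝ) (by norm_num : (0:ℝ) < 3/100)).bound
      (c := 1) one_pos
    filter_upwards [h, Filter.eventually_ge_atTop 1] with x hx hx1
    have hl := Real.log_nonneg hx1
    rw [Real.rpow_natCast, Real.norm_eq_abs, Real.norm_eq_abs, abs_of_nonneg (by positivity),
      abs_of_nonneg (by positivity), one_mul] at hx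
    exact hx
  filter_upwards [t.eventually e1, t0.eventually e2, t.eventually (Filter.eventually_ge_atTop B),
    t0.eventually (Filter.eventually_ge_atTop B)] with N h1 h2 h3 h4
  exact ⟨h1, h2, h3, h4⟩

end PrimeSumAux

end Pool.Agent.Lib.MT
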