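import Pool.Agent.Lib.MT.Disjoint
import Pool.Agent.Lib.MT.Perturb

/-!
# Lower bound for the variables of the second sum

PROOF SKETCH. Only t ⊇ r with t = r ∪ a ∪ b (a: new primes in state m, b: new primes in the other
states) contribute, with
prod Mq = wt (-(p/(p-1))) r * prod_{p ∈ a} 1/(p-1) * prod_{p ∈ b} (-1/(p-1)²).
|wt (-(p/(p-1))) r| ≥ 1. Terms b = ∅: as dtot r * X ≤ R and g vanishes beyond X, the cut off is
inactive, so they give G_r * sum over a ⊆ P \ supp r of g(a) κ₁(a) ≥ G_r (A - sum_{p ∈ r} κ₁ p A)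
(sum1_mem_le), G_r = prod_{i≠m} g(dd r i), A = sum1 P κ₁ g. Terms b ≠ ∅: in absolute value at most
sum over a, b ≠ ∅ of G_r g(a) κ₁(a) κ₁(b)² (g antitone, cut off ≤ 1), at most
G_r A (prod_p (1 + k κ₁(p)²) - 1) ≤ G_r A (exp(k ∑ κ₁²) - 1).
-/

open Finset
open scoped Classical

namespace Pool.Agent.Lib.MT

variable {P : Finset ℕ} {k : ℕ}

namespace ZL

theorem part_eq_image (r : Asg P k) (i : Fin k) :
    part r i = (Finset.univ.filter (fun p : P => r p = some i)).image (fun p : P => (p : ℕ)) := by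
  ext x
  simp [part]

/-- The sum over assignments, organised by the set of primes in state `m`. -/
theorem sum_by_state (m : Fin k) (F : Finset P → ℝ) (f : P → Option (Fin k) → ℝ) :
    ∑ t : Asg P k, F (Finset.univ.filter (fun p => t p = some m)) * ∏ p, f p (t p) =
    ∑ a : Finset P, F a * ((∏ p ∈ a, f p (some m)) *
      ∏ p ∈ aᶜ, ∑ c ∈ Finset.univ.erase (some m), f p c) := by
  rw [← Finset.sum_fiberwise Finset.univ
    (fun t : Asg P k => Finset.univ.filter (fun p => t p = some m))]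
  refine Finset.sum_congr rfl fun a _ => ?_
  have hset : Finset.univ.filter
      (fun t : Asg P k => Finset.univ.filter (fun p => t p = some m) = a) =
      Fintype.piFinset (fun p => if p ∈ a then {some m} else Finset.univ.erase (some m)) := by
    ext t
    simp only [mem_filter, mem_univ, true_and, Fintype.mem_piFinset]
    constructor
    · rintro rfl p
      by_cases h : t p = some m <;> simp [h]
    · intro h
      ext p
      simp only [mem_filter, mem_univ, true_and]
      have h2 := h p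
      split_ifs at h2 with hp
      · rw [mem_singleton] at h2
        simp [h2, hp]
      · rw [mem_erase] at h2
        simp [h2.1, hp]
  have h1 : ∑ t ∈ Finset.univ.filter
      (fun t : Asg P k => Finset.univ.filter (fun p => t p = some m) = a),
      F (Finset.univ.filter (fun p => t p = some m)) * ∏ p, f p (t p) =
      F a * ∑ t ∈ Finset.univ.filter
      (fun t : Asg P k => Finset.univ.filter (fun p => t p = some m) = a), ∏ p, f p (t p) := by
    rw [Finset.mul_sum]
    refine Finset.sum_congr rfl fun t ht => ?_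
    rw [(mem_filter.1 ht).2]
  rw [h1, hset, ← Finset.prod_univ_sum]
  congr 1
  rw [← Finset.prod_mul_prod_compl a]
  congr 1
  · refine Finset.prod_congr rfl fun p hp => ?_
    rw [if_pos hp, Finset.sum_singleton]
  · refine Finset.prod_congr rfl fun p hp => ?_
    rw [Finset.mem_compl] at hp
    rw [if_neg hp]

/-- Sums over finsets of the subtype and over the powerset. -/
theorem sum_finset_subtype (F : Finset ℕ → ℝ) :
    ∑ a : Finset P, F (a.image (fun p : P => (p : ℕ))) = ∑ T ∈ P.powerset, F T := by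
  refine Finset.sum_bij' (fun a _ => a.image (fun p : P => (p : ℕ))) (fun T _ => T.subtype (· ∈ P))
    ?_ ?_ ?_ ?_ ?_
  · intro a _
    rw [mem_powerset]
    intro x hx
    obtain ⟨y, _, rfl⟩ := mem_image.1 hx
    exact y.2
  · intro T _
    exact mem_univ _
  · intro a _
    ext x
    simp
  · intro T hT
    rw [mem_powerset] at hT
    ext x
    simp only [mem_image, mem_subtype, Subtype.exists, exists_and_left, exists_prop,
      exists_eq_right_right]
    exact ⟨fun h => h.1, fun h => ⟨h, hT h⟩⟩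
  · intro a _
    rfl

section Main

variable (m : Fin k) (r : Asg P k)

/-- The reduced local factor. -/
noncomputable def Nf (p : P) (c : Option (Fin k)) : ℝ :=
  if r p = none then Mq m (p:ℝ) none c else if c = r p then 1 else 0

/-- The local factor of the main terms. -/
noncomputable def Nz (p : P) (c : Option (Fin k)) : ℝ :=
  if r p = none then (if c = none then 1 else if c = some m then κ₁ p else 0)
  else if c = r p then 1 else 0

/-- The weight on the new primes. -/
noncomputable def κr (n : ℕ) : ℝ :=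
  if n ∈ (Finset.univ.filter (fun p : P => r p ≠ none)).image (fun p : P => (p : ℕ)) then 0
  else κ₁ n

variable {r}

lemma κ₁_pos {p : ℕ} (hp : 2 ≤ p) : 0 < κ₁ p := by
  have h : (2:ℝ) ≤ p := by exact_mod_cast hp
  unfold κ₁
  apply one_div_pos.2
  linarith

lemma Mq_eq (hr : ∀ p, r p ≠ some m) (p : P) (c : Option (Fin k)) :
    Mq m (p:ℝ) (r p) c =
      (if r p = none then 1 else -((p:ℝ) / ((p:ℝ) - 1))) * Nf m r p c := by
  unfold Nf
  by_cases h : r p = none
  · rw [if_pos h, if_pos h, one_mul, h]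
  · rw [if_neg h, if_neg h]
    unfold Mq
    rw [if_neg h]
    by_cases hc : c = r p
    · rw [if_pos hc, if_pos ⟨hc.symm, hr p⟩, mul_one]
    · rw [if_neg hc, if_neg (fun h' => hc h'.1.symm), mul_zero]

lemma Nz_nonneg (hP : ∀ p ∈ P, 2 ≤ p) (p : P) (c : Option (Fin k)) : 0 ≤ Nz m r p c := by
  have := (κ₁_pos (hP p p.2)).le
  unfold Nz
  split_ifs <;> first | exact zero_le_one | exact this | exact le_refl _

/-- Either the factors agree and are nonnegative, or the second vanishes. -/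
lemma Nf_cases (p : P) (c : Option (Fin k)) :
    Nf m r p c = Nz m r p c ∨ Nz m r p c = 0 := by
  unfold Nf Nz Mq κ₁
  by_cases h : r p = none
  · simp only [h, if_true]
    by_cases h1 : c = none
    · simp [h1]
    · by_cases h2 : c = some m
      · simp [h2]
      · simp [h1, h2]
  · simp [h]

lemma prod_Nf_sub (hP : ∀ p ∈ P, 2 ≤ p) (t : Asg P k) :
    |∏ p, Nf m r p (t p) - ∏ p, Nz m r p (t p)| =
      ∏ p, |Nf m r p (t p)| - ∏ p, Nz m r p (t p) := by
  have h0 : ∀ p, 0 ≤ Nz m r p (t p) := fun p => Nz_nonneg m hP p _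
  by_cases h : ∀ p, Nf m r p (t p) = Nz m r p (t p)
  · have h1 : ∏ p, Nf m r p (t p) = ∏ p, Nz m r p (t p) := Finset.prod_congr rfl fun p _ => h p
    have h2 : ∏ p, |Nf m r p (t p)| = ∏ p, Nz m r p (t p) :=
      Finset.prod_congr rfl fun p _ => by rw [h p, abs_of_nonneg (h0 p)]
    rw [h1, h2, sub_self, abs_zero]
  · push Not at h
    obtain ⟨p, hp⟩ := h
    have hz : Nz m r p (t p) = 0 := (Nf_cases m p (t p)).resolve_left hp
    have h1 : ∏ p, Nz m r p (t p) = 0 := Finset.prod_eq_zero (Finset.mem_univ p) hz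
    rw [h1, sub_zero, sub_zero, Finset.abs_prod]

lemma prod_Nz_le (hP : ∀ p ∈ P, 2 ≤ p) (t : Asg P k) :
    ∏ p, Nz m r p (t p) ≤ ∏ p, |Nf m r p (t p)| := by
  have := prod_Nf_sub m (r := r) hP t
  have h2 := abs_nonneg (∏ p, Nf m r p (t p) - ∏ p, Nz m r p (t p))
  linarith

/-- For an extension the parts are larger. -/
lemma part_mono {t : Asg P k} (ht : ∀ p, r p ≠ none → t p = r p) (i : Fin k) :
    part r i ⊆ part t i := by
  intro x hx
  rw [part_eq_image] at hx ⊢
  obtain ⟨p, hp, rfl⟩ := mem_image.1 hx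
  rw [mem_filter] at hp
  refine mem_image.2 ⟨p, ?_, rfl⟩
  rw [mem_filter]
  refine ⟨mem_univ _, ?_⟩
  rw [ht p (by rw [hp.2]; simp), hp.2]

lemma dd_pos (hP : ∀ p ∈ P, 2 ≤ p) (t : Asg P k) (i : Fin k) : 1 ≤ dd t i := by
  unfold dd
  apply Nat.one_le_iff_ne_zero.2
  rw [Finset.prod_ne_zero_iff]
  intro p hp
  have := hP p (part_subset t i hp)
  omega

lemma dd_mono (hP : ∀ p ∈ P, 2 ≤ p) {t : Asg P k} (ht : ∀ p, r p ≠ none → t p = r p)
    (i : Fin k) : dd r i ≤ dd t i :=
  Nat.le_of_dvd (dd_pos hP t i) (Finset.prod_dvd_prod_of_subset _ _ _ (part_mono ht i))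

lemma yOf_le (hP : ∀ p ∈ P, 2 ≤ p) (g : ℕ → ℝ) (hg : ∀ a, 0 ≤ g a) (hga : Antitone g) (R : ℕ)
    {t : Asg P k} (ht : ∀ p, r p ≠ none → t p = r p) :
    yOf g R t ≤ (∏ i ∈ Finset.univ.erase m, g (dd r i)) * g (dd t m) := by
  have h1 : ∏ i, g (dd t i) ≤ (∏ i ∈ Finset.univ.erase m, g (dd r i)) * g (dd t m) := by
    rw [← Finset.prod_erase_mul _ _ (mem_univ m)]
    apply mul_le_mul_of_nonneg_right _ (hg _)
    exact Finset.prod_le_prod (fun i _ => hg _) fun i _ => hga (dd_mono hP ht i)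
  unfold yOf
  split_ifs
  · exact h1
  · exact mul_nonneg (Finset.prod_nonneg fun i _ => hg _) (hg _)

lemma yOf_eq (hP : ∀ p ∈ P, 2 ≤ p) (g : ℕ → ℝ) (X R : ℕ)
    (hgX : ∀ a, X < a → g a = 0) (hr : ∀ p, r p ≠ some m) (hrR : dtot r * X ≤ R)
    {t : Asg P k} (ht : ∀ p, r p ≠ none → t p = r p)
    (ht2 : ∀ p, r p = none → t p = none ∨ t p = some m) :
    yOf g R t = (∏ i ∈ Finset.univ.erase m, g (dd r i)) * g (dd t m) := by
  have hpart : ∀ i, i ≠ m → part t i = part r i := by
    intro i hi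
    apply Finset.Subset.antisymm _ (part_mono ht i)
    intro x hx
    rw [part_eq_image] at hx ⊢
    obtain ⟨p, hp, rfl⟩ := mem_image.1 hx
    rw [mem_filter] at hp
    refine mem_image.2 ⟨p, ?_, rfl⟩
    rw [mem_filter]
    refine ⟨mem_univ _, ?_⟩
    by_cases hn : r p = none
    · rcases ht2 p hn with h | h
      · rw [hp.2] at h; simp at h
      · rw [hp.2] at h
        exact absurd (Option.some_injective _ h) hi
    · rw [← ht p hn, hp.2]
  have hdd : ∀ i, i ≠ m → dd t i = dd r i := fun i hi => by unfold dd; rw [hpart i hi]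
  have hprod : ∏ i, g (dd t i) = (∏ i ∈ Finset.univ.erase m, g (dd r i)) * g (dd t m) := by
    rw [← Finset.prod_erase_mul _ _ (mem_univ m)]
    congr 1
    refine Finset.prod_congr rfl fun i hi => ?_
    rw [hdd i (Finset.ne_of_mem_erase hi)]
  unfold yOf
  rw [hprod]
  split_ifs with hR
  · rfl
  · -- then `dd t m > X`
    have h1 : X < dd t m := by
      by_contra hc
      apply hR
      have h2 : part r m = ∅ := by
        rw [part_eq_image]
        rw [Finset.image_eq_empty, Finset.filter_eq_empty_iff]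
        intro p _
        exact hr p
      have h3 : dtot r = ∏ i ∈ Finset.univ.erase m, dd r i := by
        rw [dtot_eq, ← Finset.prod_erase_mul _ _ (mem_univ m)]
        have : dd r m = 1 := by unfold dd; rw [h2]; rfl
        rw [this, mul_one]
      have h4 : dtot t = (∏ i ∈ Finset.univ.erase m, dd r i) * dd t m := by
        rw [dtot_eq, ← Finset.prod_erase_mul _ _ (mem_univ m)]
        congr 1
        exact Finset.prod_congr rfl fun i hi => hdd i (Finset.ne_of_mem_erase hi)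
      rw [h4, ← h3]
      exact (Nat.mul_le_mul_left _ (not_lt.1 hc)).trans hrR
    rw [hgX _ h1, mul_zero]

lemma ext_of_prod_Nf_ne_zero {t : Asg P k} (h : ∏ p, |Nf m r p (t p)| ≠ 0) :
    ∀ p, r p ≠ none → t p = r p := by
  intro p hp
  by_contra hc
  apply h
  apply Finset.prod_eq_zero (Finset.mem_univ p)
  unfold Nf
  rw [if_neg hp, if_neg hc, abs_zero]

lemma ext_of_prod_Nz_ne_zero {t : Asg P k} (h : ∏ p, Nz m r p (t p) ≠ 0) :
    (∀ p, r p ≠ none → t p = r p) ∧ ∀ p, r p = none → t p = none ∨ t p = some m := by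
  have h' : ∀ p, Nz m r p (t p) ≠ 0 := fun p hp =>
    h (Finset.prod_eq_zero (Finset.mem_univ p) hp)
  constructor
  · intro p hp
    by_contra hc
    apply h' p
    unfold Nz
    rw [if_neg hp, if_neg hc]
  · intro p hp
    by_contra hc
    push Not at hc
    apply h' p
    unfold Nz
    rw [if_pos hp, if_neg hc.1, if_neg hc.2]

/-- The sums over the states other than `m`. -/
lemma sum_Nz (hr : ∀ p, r p ≠ some m) (p : P) :
    ∑ c ∈ Finset.univ.erase (some m), Nz m r p c = 1 := by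
  by_cases h : r p = none
  · have h1 : ∀ c ∈ Finset.univ.erase (some m), Nz m r p c = if c = none then 1 else 0 := by
      intro c hc
      unfold Nz
      rw [if_pos h]
      have := Finset.ne_of_mem_erase hc
      simp [this]
    rw [Finset.sum_congr rfl h1, Finset.sum_ite_eq']
    simp
  · have h1 : ∀ c ∈ Finset.univ.erase (some m), Nz m r p c = if c = r p then 1 else 0 := by
      intro c _
      unfold Nz
      rw [if_neg h]
    rw [Finset.sum_congr rfl h1, Finset.sum_ite_eq']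
    simp [hr p]

lemma sum_Nf (hP : ∀ p ∈ P, 2 ≤ p) (hr : ∀ p, r p ≠ some m) (p : P) :
    ∑ c ∈ Finset.univ.erase (some m), |Nf m r p c| ≤ Real.exp (k * (κ₁ p) ^ 2) := by
  have hexp : 1 ≤ Real.exp (k * (κ₁ p) ^ 2) := Real.one_le_exp (by positivity)
  by_cases h : r p = none
  · have h1 : ∀ c ∈ Finset.univ.erase (some m),
        |Nf m r p c| = if c = none then 1 else (κ₁ p) ^ 2 := by
      intro c hc
      have hc' := Finset.ne_of_mem_erase hc
      unfold Nf Mq
      rw [if_pos h, if_pos rfl]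
      by_cases hn : c = none
      · simp [hn]
      · rw [if_neg hn, if_neg hc', if_neg hn, abs_neg, abs_of_nonneg (by positivity)]
        unfold κ₁
        rw [div_pow, one_pow]
    rw [Finset.sum_congr rfl h1]
    have h2 : (Finset.univ.erase (some m) : Finset (Option (Fin k))) =
        insert none ((Finset.univ.erase m).image some) := by
      ext c
      rcases c with _ | c
      · simp
      · simp
    rw [h2, Finset.sum_insert (by simp), if_pos rfl]
    have h3 : ∑ x ∈ (Finset.univ.erase m).image some,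
        (if x = none then (1:ℝ) else (κ₁ p) ^ 2) ≤ k * (κ₁ p) ^ 2 := by
      rw [Finset.sum_image (fun a _ b _ hab => Option.some_injective _ hab)]
      simp only [reduceCtorEq, if_false, Finset.sum_const, nsmul_eq_mul]
      apply mul_le_mul_of_nonneg_right _ (sq_nonneg _)
      have : (Finset.univ.erase m).card ≤ k := by
        rw [Finset.card_erase_of_mem (mem_univ m)]
        simp
      exact_mod_cast this
    have h4 := Real.add_one_le_exp (k * (κ₁ p) ^ 2)
    linarith
  · have h1 : ∀ c ∈ Finset.univ.erase (some m), |Nf m r p c| = if c = r p then 1 else 0 := by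
      intro c _
      unfold Nf
      rw [if_neg h]
      split_ifs <;> simp
    rw [Finset.sum_congr rfl h1, Finset.sum_ite_eq']
    simp only [mem_erase, ne_eq, hr p, not_false_eq_true, mem_univ, and_self, if_true]
    exact hexp

lemma Nz_some (hr : ∀ p, r p ≠ some m) (p : P) : Nz m r p (some m) = κr r p := by
  unfold Nz κr
  by_cases h : r p = none
  · rw [if_pos h]
    have : ¬ ((p : ℕ) ∈ (Finset.univ.filter (fun p : P => r p ≠ none)).image
        (fun p : P => (p : ℕ))) := by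
      simp [h]
    rw [if_neg this]
    simp
  · rw [if_neg h, if_neg (Ne.symm (hr p))]
    have : ((p : ℕ) ∈ (Finset.univ.filter (fun p : P => r p ≠ none)).image
        (fun p : P => (p : ℕ))) := mem_image.2 ⟨p, mem_filter.2 ⟨mem_univ _, h⟩, rfl⟩
    rw [if_pos this]

lemma abs_Nf_some (hP : ∀ p ∈ P, 2 ≤ p) (hr : ∀ p, r p ≠ some m) (p : P) :
    |Nf m r p (some m)| = κr r p := by
  rw [← Nz_some m hr p]
  unfold Nf Nz
  by_cases h : r p = none
  · have h2 := (κ₁_pos (hP p p.2)).le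
    rw [if_pos h, if_pos h]
    unfold Mq
    have : κ₁ p = 1 / (((p:ℕ):ℝ) - 1) := rfl
    rw [if_pos rfl]
    simp only [reduceCtorEq, if_false, if_true]
    rw [← this, abs_of_nonneg h2]
  · rw [if_neg h, if_neg h]
    split_ifs <;> simp

lemma κr_nonneg (hP : ∀ p ∈ P, 2 ≤ p) (p : ℕ) (hp : p ∈ P) : 0 ≤ κr r p := by
  unfold κr
  split_ifs
  · exact le_refl _
  · exact (κ₁_pos (hP p hp)).le

/-- The main sum. -/
lemma sum_Nz_eq (hr : ∀ p, r p ≠ some m) (g : ℕ → ℝ) :
    ∑ t : Asg P k, g (dd t m) * ∏ p, Nz m r p (t p) = sum1 P (κr r) g := by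
  have h := sum_by_state m (fun a : Finset P => g (∏ p ∈ a.image (fun p : P => (p : ℕ)), p))
    (Nz m r)
  have h1 : ∀ t : Asg P k, g (dd t m) = g (∏ p ∈ (Finset.univ.filter
      (fun p => t p = some m)).image (fun p : P => (p : ℕ)), p) := fun t => by
    rw [dd, part_eq_image]
  simp only [h1]
  rw [h]
  unfold sum1
  rw [← sum_finset_subtype (P := P) (fun T => g (∏ p ∈ T, p) * ∏ p ∈ T, κr r p)]
  refine Finset.sum_congr rfl fun a _ => ?_
  congr 1
  have h2 : ∏ p ∈ aᶜ, ∑ c ∈ Finset.univ.erase (some m), Nz m r p c = 1 :=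
    Finset.prod_eq_one fun p _ => sum_Nz m hr p
  rw [h2, mul_one, Finset.prod_image (fun x _ y _ hxy => Subtype.ext hxy)]
  exact Finset.prod_congr rfl fun p _ => Nz_some m hr p

lemma sum_Nf_le (hP : ∀ p ∈ P, 2 ≤ p) (hr : ∀ p, r p ≠ some m) (g : ℕ → ℝ)
    (hg : ∀ a, 0 ≤ g a) :
    ∑ t : Asg P k, g (dd t m) * ∏ p, |Nf m r p (t p)| ≤
      Real.exp (k * ∑ p ∈ P, (κ₁ p) ^ 2) * sum1 P (κr r) g := by
  have h := sum_by_state m (fun a : Finset P => g (∏ p ∈ a.image (fun p : P => (p : ℕ)), p))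
    (fun p c => |Nf m r p c|)
  have h1 : ∀ t : Asg P k, g (dd t m) = g (∏ p ∈ (Finset.univ.filter
      (fun p => t p = some m)).image (fun p : P => (p : ℕ)), p) := fun t => by
    rw [dd, part_eq_image]
  simp only [h1]
  rw [h]
  unfold sum1
  rw [← sum_finset_subtype (P := P) (fun T => g (∏ p ∈ T, p) * ∏ p ∈ T, κr r p), Finset.mul_sum]
  refine Finset.sum_le_sum fun a _ => ?_
  have h3 : ∏ p ∈ a, |Nf m r p (some m)| = ∏ p ∈ a.image (fun p : P => (p : ℕ)), κr r p := by
    rw [Finset.prod_image (fun x _ y _ hxy => Subtype.ext hxy)]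
    exact Finset.prod_congr rfl fun p _ => abs_Nf_some m hP hr p
  have h4 : ∏ p ∈ aᶜ, ∑ c ∈ Finset.univ.erase (some m), |Nf m r p c| ≤
      Real.exp (k * ∑ p ∈ P, (κ₁ p) ^ 2) := by
    calc ∏ p ∈ aᶜ, ∑ c ∈ Finset.univ.erase (some m), |Nf m r p c|
        ≤ ∏ p ∈ aᶜ, Real.exp (k * (κ₁ p) ^ 2) :=
          Finset.prod_le_prod (fun p _ => Finset.sum_nonneg fun c _ => abs_nonneg _)
            fun p _ => sum_Nf m hP hr p
      _ = Real.exp (∑ p ∈ aᶜ, k * (κ₁ p) ^ 2) := (Real.exp_sum _ _).symm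
      _ ≤ Real.exp (k * ∑ p ∈ P, (κ₁ p) ^ 2) := by
          apply Real.exp_le_exp.2
          rw [← Finset.mul_sum]
          apply mul_le_mul_of_nonneg_left _ (Nat.cast_nonneg _)
          calc ∑ p ∈ aᶜ, (κ₁ (p : ℕ)) ^ 2 ≤ ∑ p : P, (κ₁ (p : ℕ)) ^ 2 :=
                Finset.sum_le_sum_of_subset_of_nonneg (Finset.subset_univ _)
                  fun _ _ _ => sq_nonneg _
            _ = ∑ p ∈ P, (κ₁ p) ^ 2 := Finset.sum_coe_sort P (fun p => (κ₁ p) ^ 2)
  rw [h3]
  have h5 : 0 ≤ ∏ p ∈ a.image (fun p : P => (p : ℕ)), κr r p := by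
    apply Finset.prod_nonneg
    intro p hp
    obtain ⟨q, _, rfl⟩ := mem_image.1 hp
    exact κr_nonneg hP _ q.2
  calc g (∏ p ∈ a.image (fun p : P => (p : ℕ)), p) *
        ((∏ p ∈ a.image (fun p : P => (p : ℕ)), κr r p) *
          ∏ p ∈ aᶜ, ∑ c ∈ Finset.univ.erase (some m), |Nf m r p c|)
      ≤ g (∏ p ∈ a.image (fun p : P => (p : ℕ)), p) *
        ((∏ p ∈ a.image (fun p : P => (p : ℕ)), κr r p) *
          Real.exp (k * ∑ p ∈ P, (κ₁ p) ^ 2)) := by
        apply mul_le_mul_of_nonneg_left _ (hg _)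
        exact mul_le_mul_of_nonneg_left h4 h5
    _ = _ := by ring

lemma sum1_κr_le (hP : ∀ p ∈ P, 2 ≤ p) (g : ℕ → ℝ) (hg : ∀ a, 0 ≤ g a) :
    sum1 P (κr r) g ≤ sum1 P κ₁ g := by
  unfold sum1
  refine Finset.sum_le_sum fun T hT => mul_le_mul_of_nonneg_left ?_ (hg _)
  rw [mem_powerset] at hT
  refine Finset.prod_le_prod (fun p hp => κr_nonneg hP p (hT hp)) fun p hp => ?_
  unfold κr
  split_ifs
  · exact (κ₁_pos (hP p (hT hp))).le
  · exact le_refl _

lemma le_sum1_κr (hP : ∀ p ∈ P, 2 ≤ p) (g : ℕ → ℝ) (hg : ∀ a, 0 ≤ g a) (hga : Antitone g) :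
    sum1 P κ₁ g * (1 - ∑ p : P, if r p = none then 0 else κ₁ p) ≤ sum1 P (κr r) g := by
  set U := (Finset.univ.filter (fun p : P => r p ≠ none)).image (fun p : P => (p : ℕ)) with hU
  have hUP : U ⊆ P := by
    intro x hx
    obtain ⟨p, _, rfl⟩ := mem_image.1 hx
    exact p.2
  have h1 : ∑ p : P, (if r p = none then 0 else κ₁ p) = ∑ p ∈ U, κ₁ p := by
    rw [hU, Finset.sum_image (fun x _ y _ hxy => Subtype.ext hxy), Finset.sum_filter]
    refine Finset.sum_congr rfl fun p _ => ?_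
    by_cases h : r p = none <;> simp [h]
  have h2 : ∀ T ∈ P.powerset, g (∏ p ∈ T, p) * ∏ p ∈ T, κ₁ p ≤
      g (∏ p ∈ T, p) * ∏ p ∈ T, κr r p +
      ∑ p ∈ U, (if p ∈ T then g (∏ p ∈ T, p) * ∏ p ∈ T, κ₁ p else 0) := by
    intro T hT
    rw [mem_powerset] at hT
    have hpos : 0 ≤ g (∏ p ∈ T, p) * ∏ p ∈ T, κ₁ p :=
      mul_nonneg (hg _) (Finset.prod_nonneg fun p hp => (κ₁_pos (hP p (hT hp))).le)
    have hsum : 0 ≤ ∑ p ∈ U, (if p ∈ T then g (∏ p ∈ T, p) * ∏ p ∈ T, κ₁ p else 0) :=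
      Finset.sum_nonneg fun p _ => by split_ifs <;> first | exact hpos | exact le_refl _
    by_cases hTU : ∃ p ∈ U, p ∈ T
    · obtain ⟨p, hpU, hpT⟩ := hTU
      have h3 : g (∏ p ∈ T, p) * ∏ p ∈ T, κ₁ p ≤
          ∑ p ∈ U, (if p ∈ T then g (∏ p ∈ T, p) * ∏ p ∈ T, κ₁ p else 0) := by
        have := Finset.single_le_sum (s := U)
          (f := fun p => if p ∈ T then g (∏ p ∈ T, p) * ∏ p ∈ T, κ₁ p else 0)
          (fun p _ => by
            change 0 ≤ (if p ∈ T then g (∏ p ∈ T, p) * ∏ p ∈ T, κ₁ p else 0)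
            split_ifs <;> first | exact hpos | exact le_refl _) hpU
        simpa [hpT] using this
      have h4 : 0 ≤ g (∏ p ∈ T, p) * ∏ p ∈ T, κr r p :=
        mul_nonneg (hg _) (Finset.prod_nonneg fun p hp => κr_nonneg hP p (hT hp))
      linarith
    · push Not at hTU
      have h3 : ∏ p ∈ T, κr r p = ∏ p ∈ T, κ₁ p := by
        refine Finset.prod_congr rfl fun p hp => ?_
        unfold κr
        rw [if_neg]
        intro h
        exact hTU p h hp
      rw [h3]
      linarith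
  have h3 : sum1 P κ₁ g ≤ sum1 P (κr r) g + ∑ p ∈ U, κ₁ p * sum1 P κ₁ g := by
    calc sum1 P κ₁ g ≤ ∑ T ∈ P.powerset, (g (∏ p ∈ T, p) * ∏ p ∈ T, κr r p +
          ∑ p ∈ U, (if p ∈ T then g (∏ p ∈ T, p) * ∏ p ∈ T, κ₁ p else 0)) :=
          Finset.sum_le_sum h2
      _ = sum1 P (κr r) g + ∑ p ∈ U, ∑ T ∈ P.powerset,
          (if p ∈ T then g (∏ p ∈ T, p) * ∏ p ∈ T, κ₁ p else 0) := by
          rw [Finset.sum_add_distrib, Finset.sum_comm (s := P.powerset)]
          rfl
      _ ≤ sum1 P (κr r) g + ∑ p ∈ U, κ₁ p * sum1 P κ₁ g := by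
          apply add_le_add_right
          refine Finset.sum_le_sum fun p hp => ?_
          rw [← Finset.sum_filter]
          exact sum1_mem_le P (fun p hp => by have := hP p hp; omega) κ₁
            (fun p hp => (κ₁_pos (hP p hp)).le) g hga hg p (hUP hp)
  rw [← Finset.sum_mul] at h3
  rw [h1]
  linarith

end Main

end ZL

open ZL in
theorem z_lower (hP : ∀ p ∈ P, 2 ≤ p) (m : Fin k) (g : ℕ → ℝ) (hg : ∀ a, 0 ≤ g a)
    (hg1 : ∀ a, g a ≤ 1) (hga : Antitone g) (X R : ℕ) (hgX : ∀ a, X < a → g a = 0)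
    (r : Asg P k) (hr : ∀ p, r p ≠ some m) (hrR : dtot r * X ≤ R) :
    (∏ i ∈ Finset.univ.erase m, g (dd r i)) * sum1 P κ₁ g *
      (1 - (∑ p : P, if r p = none then 0 else κ₁ p)
        - (Real.exp (k * ∑ p ∈ P, (κ₁ p) ^ 2) - 1)) ≤
    |∑ t, yOf g R t * ∏ p : P, Mq m (p:ℝ) (r p) (t p)| := by
  set G := ∏ i ∈ Finset.univ.erase m, g (dd r i) with hG
  have hG0 : 0 ≤ G := Finset.prod_nonneg fun i _ => hg _
  set c0 : ℝ := ∏ p : P, (if r p = none then (1:ℝ) else -((p:ℝ) / ((p:ℝ) - 1))) with hc0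
  have hc1 : 1 ≤ |c0| := by
    rw [hc0, Finset.abs_prod]
    have hone : (1:ℝ) = ∏ _p : P, (1:ℝ) := by simp
    rw [hone]
    refine Finset.prod_le_prod (fun _ _ => zero_le_one) fun p _ => ?_
    split_ifs
    · simp
    · have h2 : (2:ℝ) ≤ ((p:ℕ):ℝ) := by exact_mod_cast hP p p.2
      rw [abs_neg, abs_of_nonneg (div_nonneg (by linarith) (by linarith)),
        le_div_iff₀ (by linarith)]
      linarith
  -- factor out the constant
  have hfac : ∑ t, yOf g R t * ∏ p : P, Mq m (p:ℝ) (r p) (t p) =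
      c0 * ∑ t : Asg P k, yOf g R t * ∏ p, Nf m r p (t p) := by
    rw [Finset.mul_sum]
    refine Finset.sum_congr rfl fun t _ => ?_
    rw [hc0, mul_left_comm, ← Finset.prod_mul_distrib]
    congr 1
    exact Finset.prod_congr rfl fun p _ => Mq_eq m hr p (t p)
  rw [hfac, abs_mul]
  -- the main terms
  have hmain : ∑ t : Asg P k, yOf g R t * ∏ p, Nz m r p (t p) = G * sum1 P (κr r) g := by
    rw [← sum_Nz_eq m hr g, Finset.mul_sum]
    refine Finset.sum_congr rfl fun t _ => ?_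
    by_cases h0 : ∏ p, Nz m r p (t p) = 0
    · rw [h0, mul_zero, mul_zero, mul_zero]
    · obtain ⟨h1, h2⟩ := ext_of_prod_Nz_ne_zero m h0
      rw [yOf_eq m hP g X R hgX hr hrR h1 h2, mul_assoc]
  -- the remaining terms
  have hrest : |∑ t : Asg P k, yOf g R t * (∏ p, Nf m r p (t p) - ∏ p, Nz m r p (t p))| ≤
      G * (∑ t : Asg P k, g (dd t m) * ∏ p, |Nf m r p (t p)| - sum1 P (κr r) g) := by
    refine (Finset.abs_sum_le_sum_abs _ _).trans ?_
    rw [← sum_Nz_eq m hr g, ← Finset.sum_sub_distrib, Finset.mul_sum]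
    refine Finset.sum_le_sum fun t _ => ?_
    rw [abs_mul, prod_Nf_sub m hP t, ← mul_sub, ← mul_assoc]
    by_cases h0 : ∏ p, |Nf m r p (t p)| = 0
    · have h1 : ∏ p, Nz m r p (t p) = 0 := by
        apply le_antisymm
        · rw [← h0]; exact prod_Nz_le m hP t
        · exact Finset.prod_nonneg fun p _ => Nz_nonneg m hP p _
      rw [h0, h1, sub_zero, mul_zero, mul_zero]
    · have h1 := ext_of_prod_Nf_ne_zero m h0
      apply mul_le_mul_of_nonneg_right _ (sub_nonneg.2 (prod_Nz_le m hP t))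
      have hy : 0 ≤ yOf g R t := by
        unfold yOf
        split_ifs
        · exact Finset.prod_nonneg fun i _ => hg _
        · exact le_refl _
      rw [abs_of_nonneg hy]
      exact yOf_le m hP g hg hga R h1
  have hsplit : ∑ t : Asg P k, yOf g R t * ∏ p, Nf m r p (t p) =
      ∑ t : Asg P k, yOf g R t * ∏ p, Nz m r p (t p) +
      ∑ t : Asg P k, yOf g R t * (∏ p, Nf m r p (t p) - ∏ p, Nz m r p (t p)) := by
    rw [← Finset.sum_add_distrib]
    refine Finset.sum_congr rfl fun t _ => ?_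
    ring
  have h1 : G * sum1 P (κr r) g - G * ((Real.exp (k * ∑ p ∈ P, (κ₁ p) ^ 2) - 1) *
      sum1 P (κr r) g) ≤ |∑ t : Asg P k, yOf g R t * ∏ p, Nf m r p (t p)| := by
    rw [hsplit, hmain]
    have h2 := abs_le.1 hrest
    have h3 := sum_Nf_le m hP hr g hg
    have h4 : G * (∑ t : Asg P k, g (dd t m) * ∏ p, |Nf m r p (t p)| - sum1 P (κr r) g) ≤
        G * ((Real.exp (k * ∑ p ∈ P, (κ₁ p) ^ 2) - 1) * sum1 P (κr r) g) := by
      apply mul_le_mul_of_nonneg_left _ hG0
      linarith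
    refine le_trans ?_ (le_abs_self _)
    linarith [h2.1]
  have h2 := le_sum1_κr (r := r) hP g hg hga
  have h3 := sum1_κr_le (r := r) hP g hg
  have hE : 0 ≤ Real.exp (k * ∑ p ∈ P, (κ₁ p) ^ 2) - 1 := by
    have : 1 ≤ Real.exp (k * ∑ p ∈ P, (κ₁ p) ^ 2) :=
      Real.one_le_exp (mul_nonneg (Nat.cast_nonneg _) (Finset.sum_nonneg fun _ _ => sq_nonneg _))
    linarith
  calc G * sum1 P κ₁ g * (1 - (∑ p : P, if r p = none then 0 else κ₁ p)
        - (Real.exp (k * ∑ p ∈ P, (κ₁ p) ^ 2) - 1))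
      = G * (sum1 P κ₁ g * (1 - (∑ p : P, if r p = none then 0 else κ₁ p))) -
        G * ((Real.exp (k * ∑ p ∈ P, (κ₁ p) ^ 2) - 1) * sum1 P κ₁ g) := by ring
    _ ≤ G * sum1 P (κr r) g - G * ((Real.exp (k * ∑ p ∈ P, (κ₁ p) ^ 2) - 1) *
        sum1 P (κr r) g) := by
        apply sub_le_sub
        · exact mul_le_mul_of_nonneg_left h2 hG0
        · exact mul_le_mul_of_nonneg_left (mul_le_mul_of_nonneg_left h3 hE) hG0
    _ ≤ |∑ t : Asg P k, yOf g R t * ∏ p, Nf m r p (t p)| := h1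
    _ ≤ |c0| * |∑ t : Asg P k, yOf g R t * ∏ p, Nf m r p (t p)| :=
        le_mul_of_one_le_left (abs_nonneg _) hc1

end Pool.Agent.Lib.MT
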