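import Pool.Agent.Lib.MT.Form
import Pool.Agent.Lib.MT.Transf
import Pool.Agent.Lib.MT.ZLower

/-!
# Lower bound for the second sum
-/

open Finset
open scoped Classical

namespace Pool.Agent.Lib.MT

variable {P : Finset ℕ} {k : ℕ}

namespace STwo

/-- The local factors: `g ^ 2` with weight `κ` off `m`, the empty set at `m`. -/
noncomputable def HH (m : Fin k) (g : ℕ → ℝ) (κ : ℕ → ℝ) (i : Fin k) (T : Finset ℕ) : ℝ :=
  if i = m then (if T = ∅ then 1 else 0) else (g (∏ p ∈ T, p)) ^ 2 * ∏ p ∈ T, κ p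

/-- The square of the product of the values of `g` off `m`. -/
noncomputable def Gr (m : Fin k) (g : ℕ → ℝ) (r : Asg P k) : ℝ :=
  (∏ i ∈ Finset.univ.erase m, g (dd r i)) ^ 2

lemma mem_part_iff_st (r : Asg P k) (i : Fin k) (q : ℕ) :
    q ∈ part r i ↔ ∃ p : P, r p = some i ∧ (p:ℕ) = q := by
  unfold part
  simp [Finset.bind_def, Finset.pure_def]

lemma part_eq_empty_iff (r : Asg P k) (m : Fin k) : part r m = ∅ ↔ ∀ p, r p ≠ some m := by
  rw [Finset.eq_empty_iff_forall_notMem]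
  constructor
  · intro h p hp
    exact h p ((mem_part_iff_st r m p).2 ⟨p, hp, rfl⟩)
  · intro h q hq
    obtain ⟨p, hp, _⟩ := (mem_part_iff_st r m q).1 hq
    exact h p hp

lemma prod_HH (m : Fin k) (g κ : ℕ → ℝ) (r : Asg P k) :
    ∏ i, HH m g κ i (part r i) =
      if (∀ p, r p ≠ some m) then Gr m g r * wt κ r else 0 := by
  rw [← Finset.mul_prod_erase Finset.univ _ (Finset.mem_univ m)]
  by_cases h : ∀ p, r p ≠ some m
  · have h1 : part r m = ∅ := (part_eq_empty_iff r m).2 h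
    rw [if_pos h, wt_eq, ← Finset.mul_prod_erase Finset.univ
      (fun i => ∏ p ∈ part r i, κ p) (Finset.mem_univ m)]
    have h2 : HH m g κ m (part r m) = 1 := by simp [HH, h1]
    have h3 : ∏ p ∈ part r m, κ p = 1 := by simp [h1]
    rw [h2, h3, one_mul, one_mul, Gr, ← Finset.prod_pow, ← Finset.prod_mul_distrib]
    refine Finset.prod_congr rfl fun i hi => ?_
    have hne : i ≠ m := Finset.ne_of_mem_erase hi
    simp [HH, hne, dd]
  · have h1 : part r m ≠ ∅ := fun h' => h ((part_eq_empty_iff r m).1 h')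
    rw [if_neg h]
    simp [HH, h1]

lemma sum_HH_self (m : Fin k) (g κ : ℕ → ℝ) :
    ∑ T ∈ P.powerset, HH m g κ m T = 1 := by
  simp [HH]

lemma sum_HH_ne (m i : Fin k) (hi : i ≠ m) (g κ : ℕ → ℝ) :
    ∑ T ∈ P.powerset, HH m g κ i T = sum1 P κ (fun a => (g a) ^ 2) := by
  simp [HH, hi, sum1]

lemma prod_sum_HH (m : Fin k) (g κ : ℕ → ℝ) :
    ∏ i, ∑ T ∈ P.powerset, HH m g κ i T = (sum1 P κ (fun a => (g a) ^ 2)) ^ (k-1) := by
  rw [← Finset.mul_prod_erase Finset.univ _ (Finset.mem_univ m), sum_HH_self, one_mul]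
  rw [Finset.prod_congr rfl (fun i hi => sum_HH_ne m i (Finset.ne_of_mem_erase hi) g κ)]
  rw [Finset.prod_const, Finset.card_erase_of_mem (Finset.mem_univ m), Finset.card_univ,
    Fintype.card_fin]

lemma prod_one_le (hP : ∀ p ∈ P, 1 ≤ p) {T : Finset ℕ} (hT : T ⊆ P) : 1 ≤ ∏ p ∈ T, p :=
  Finset.one_le_prod' fun p hp => hP p (hT hp)

lemma HH_nonneg (m i : Fin k) (g κ : ℕ → ℝ) (hκ : ∀ p ∈ P, 0 ≤ κ p) {T : Finset ℕ}
    (hT : T ⊆ P) : 0 ≤ HH m g κ i T := by
  unfold HH
  split_ifs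
  · exact zero_le_one
  · exact le_rfl
  · exact mul_nonneg (sq_nonneg _) (Finset.prod_nonneg fun p hp => hκ p (hT hp))

/-- The lower bound for the full sum. -/
lemma lower (hP : ∀ p ∈ P, 1 ≤ p) (m : Fin k) (g : ℕ → ℝ) (hg : ∀ a, 0 ≤ g a)
    (hga : Antitone g) (κ κ' : ℕ → ℝ) (hκ : ∀ p ∈ P, 0 ≤ κ p) (hκ' : ∀ p ∈ P, κ p ≤ κ' p) :
    (1 - (k:ℝ) ^ 2 * ∑ p ∈ P, (κ' p) ^ 2) * (sum1 P κ (fun a => (g a) ^ 2)) ^ (k-1) ≤
      ∑ r : Asg P k, if (∀ p, r p ≠ some m) then Gr m g r * wt κ r else 0 := by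
  have h := le_sum_asg (P := P) (HH m g κ) κ' (fun p hp => (hκ p hp).trans (hκ' p hp))
    (fun i T hT => HH_nonneg m i g κ hκ hT) (by
      intro i T hT p hp hpT
      have hκ'p : 0 ≤ κ' p := (hκ p hp).trans (hκ' p hp)
      by_cases him : i = m
      · have : insert p T ≠ ∅ := Finset.insert_ne_empty _ _
        simp only [HH, him, if_true, this, if_false]
        split_ifs
        · simpa using hκ'p
        · simp
      · simp only [HH, him, if_false]
        rw [Finset.prod_insert hpT, Finset.prod_insert hpT]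
        have h1 : g (p * ∏ q ∈ T, q) ≤ g (∏ q ∈ T, q) :=
          hga (Nat.le_mul_of_pos_left _ (hP p hp))
        have h2 : (g (p * ∏ q ∈ T, q)) ^ 2 ≤ (g (∏ q ∈ T, q)) ^ 2 :=
          pow_le_pow_left₀ (hg _) h1 2
        have h3 : 0 ≤ ∏ q ∈ T, κ q := Finset.prod_nonneg fun q hq => hκ q (hT hq)
        calc (g (p * ∏ q ∈ T, q)) ^ 2 * (κ p * ∏ q ∈ T, κ q)
            ≤ (g (∏ q ∈ T, q)) ^ 2 * (κ' p * ∏ q ∈ T, κ q) :=
              mul_le_mul h2 (mul_le_mul_of_nonneg_right (hκ' p hp) h3)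
                (mul_nonneg (hκ p hp) h3) (sq_nonneg _)
          _ = κ' p * ((g (∏ q ∈ T, q)) ^ 2 * ∏ q ∈ T, κ q) := by ring)
  rw [prod_sum_HH] at h
  refine h.trans (le_of_eq ?_)
  exact Finset.sum_congr rfl fun r _ => prod_HH m g κ r

/-- Upper bounds with an extra factor at one state. -/
lemma upper (m j : Fin k) (hj : j ≠ m) (g : ℕ → ℝ) (κ : ℕ → ℝ)
    (hκ : ∀ p ∈ P, 0 ≤ κ p) (φ : Finset ℕ → ℝ) (hφ : ∀ T ⊆ P, 0 ≤ φ T) :
    ∑ r : Asg P k, (if (∀ p, r p ≠ some m) then Gr m g r * wt κ r else 0) * φ (part r j) ≤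
      (∑ T ∈ P.powerset, (g (∏ p ∈ T, p)) ^ 2 * (∏ p ∈ T, κ p) * φ T) *
        (sum1 P κ (fun a => (g a) ^ 2)) ^ (k-2) := by
  set H' : Fin k → Finset ℕ → ℝ := fun i T => HH m g κ i T * (if i = j then φ T else 1) with hH'
  have h := sum_asg_le (P := P) (k := k) (fun T => ∏ i, H' i (T i)) (by
    intro T hT
    refine Finset.prod_nonneg fun i _ => mul_nonneg (HH_nonneg m i g κ hκ (hT i)) ?_
    split_ifs
    · exact hφ _ (hT i)
    · exact zero_le_one)
  have h1 : ∀ r : Asg P k, ∏ i, H' i (part r i) =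
      (if (∀ p, r p ≠ some m) then Gr m g r * wt κ r else 0) * φ (part r j) := by
    intro r
    rw [← prod_HH m g κ r]
    simp only [hH']
    rw [Finset.prod_mul_distrib, Finset.prod_ite_eq' Finset.univ j (fun i => φ (part r i))]
    simp
  simp only [h1] at h
  refine h.trans (le_of_eq ?_)
  rw [← Finset.prod_univ_sum (fun _ : Fin k => P.powerset) (fun i T => H' i T)]
  rw [← Finset.mul_prod_erase Finset.univ _ (Finset.mem_univ m),
    ← Finset.mul_prod_erase (Finset.univ.erase m) _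
      (Finset.mem_erase.2 ⟨hj, Finset.mem_univ j⟩)]
  have h2 : ∑ T ∈ P.powerset, H' m T = 1 := by
    simp only [hH', if_neg hj.symm, mul_one]
    exact sum_HH_self m g κ
  have h3 : ∑ T ∈ P.powerset, H' j T =
      ∑ T ∈ P.powerset, (g (∏ p ∈ T, p)) ^ 2 * (∏ p ∈ T, κ p) * φ T := by
    refine Finset.sum_congr rfl fun T _ => ?_
    simp [hH', HH, hj]
  have h4 : ∏ i ∈ (Finset.univ.erase m).erase j, ∑ T ∈ P.powerset, H' i T =
      (sum1 P κ (fun a => (g a) ^ 2)) ^ (k-2) := by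
    have : ∀ i ∈ (Finset.univ.erase m).erase j, ∑ T ∈ P.powerset, H' i T =
        sum1 P κ (fun a => (g a) ^ 2) := by
      intro i hi
      have hij : i ≠ j := Finset.ne_of_mem_erase hi
      have him : i ≠ m := Finset.ne_of_mem_erase (Finset.mem_of_mem_erase hi)
      simp only [hH', if_neg hij, mul_one]
      exact sum_HH_ne m i him g κ
    rw [Finset.prod_congr rfl this, Finset.prod_const,
      Finset.card_erase_of_mem (Finset.mem_erase.2 ⟨hj, Finset.mem_univ j⟩),
      Finset.card_erase_of_mem (Finset.mem_univ m), Finset.card_univ, Fintype.card_fin]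
    rfl
  rw [h2, h3, h4, one_mul]

lemma pow_split {B : ℝ} (hk : 2 ≤ k) : B * B ^ (k-2) = B ^ (k-1) := by
  obtain ⟨l, rfl⟩ := Nat.exists_eq_add_of_le hk
  rw [show 2 + l - 2 = l by omega, show 2 + l - 1 = l + 1 by omega]
  ring

end STwo

open STwo

set_option maxHeartbeats 4000000 in
theorem sTwo_lower (hP : ∀ p ∈ P, 2 ≤ p ∧ k + 1 ≤ p) (m : Fin k) (g : ℕ → ℝ)
    (hg : ∀ a, 0 ≤ g a) (hg1 : ∀ a, g a ≤ 1) (hga : Antitone g) (X R : ℕ) (hX : 1 ≤ X)
    (hgX : ∀ a, X < a → g a = 0) (hXR : X < R)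
    (hσ : 100 * (k:ℝ) ^ 2 * ∑ p ∈ P, (κ₁ p) ^ 2 ≤ 1)
    (hB : 0 < sum1 P κ₁ (fun a => (g a) ^ 2))
    (hM : 4 * k * sum1 P κ₁ (fun a => (g a) ^ 2 * Real.log a) ≤
      sum1 P κ₁ (fun a => (g a) ^ 2) * Real.log ((R:ℝ) / X)) :
    (1/4 : ℝ) * (sum1 P κ₁ g) ^ 2 * (sum1 P κ₁ (fun a => (g a) ^ 2)) ^ (k-1) ≤
      formK (fun p => (p:ℝ) - 1) (lamm m (lamOf (yOf g R : Asg P k → ℝ))) := by
  have hk1 : 1 ≤ k := Nat.one_le_iff_ne_zero.2 (fun h => by subst h; exact m.elim0)
  have hk1' : (1:ℝ) ≤ k := by exact_mod_cast hk1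
  have hP2 : ∀ p ∈ P, 2 ≤ p := fun p hp => (hP p hp).1
  have hP1 : ∀ p ∈ P, 1 ≤ p := fun p hp => le_trans (by norm_num) (hP2 p hp)
  have hpk : ∀ p ∈ P, (k:ℝ) ≤ (p:ℝ) - 1 ∧ 0 < (p:ℝ) - 1 := by
    intro p hp
    have h1 : (k:ℝ) + 1 ≤ p := by exact_mod_cast (hP p hp).2
    have h2 : (2:ℝ) ≤ p := by exact_mod_cast (hP p hp).1
    constructor <;> linarith
  set σ : ℝ := ∑ p ∈ P, (κ₁ p) ^ 2 with hσdef
  set A : ℝ := sum1 P κ₁ g with hA
  set B : ℝ := sum1 P κ₁ (fun a => (g a) ^ 2) with hBdef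
  set B1 : ℝ := sum1 P κ₁ (fun a => (g a) ^ 2 * Real.log a) with hB1
  set L : ℝ := Real.log ((R:ℝ) / X) with hL
  set c : ℕ → ℝ := fun p => κ₁ p * (1 - k * κ₁ p) with hc
  have hκ0 : ∀ p ∈ P, 0 ≤ κ₁ p := fun p hp => by
    unfold κ₁; exact div_nonneg zero_le_one (hpk p hp).2.le
  have hκ01 : ∀ p ∈ P, (k:ℝ) * κ₁ p ≤ 1 := by
    intro p hp
    unfold κ₁
    rw [mul_one_div, div_le_one (hpk p hp).2]
    exact (hpk p hp).1
  have hc0 : ∀ p ∈ P, 0 ≤ c p := fun p hp => by
    simp only [hc]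
    exact mul_nonneg (hκ0 p hp) (by linarith [hκ01 p hp])
  have hc1 : ∀ p ∈ P, c p ≤ κ₁ p := fun p hp => by
    simp only [hc]
    have := mul_nonneg (hκ0 p hp) (mul_nonneg (by positivity : (0:ℝ) ≤ k) (hκ0 p hp))
    nlinarith
  have hσ0 : 0 ≤ σ := Finset.sum_nonneg fun p _ => sq_nonneg _
  have hX0 : (0:ℝ) < X := by exact_mod_cast hX
  have hRX : (1:ℝ) < (R:ℝ) / X := by
    rw [one_lt_div hX0]; exact_mod_cast hXR
  have hL0 : 0 < L := Real.log_pos hRX
  have hwc : ∀ r : Asg P k, 0 ≤ wt c r := fun r => by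
    refine Finset.prod_nonneg fun p _ => ?_
    split_ifs
    · exact zero_le_one
    · exact hc0 _ p.2
  have hwκ : ∀ r : Asg P k, 0 ≤ wt κ₁ r := fun r => by
    refine Finset.prod_nonneg fun p _ => ?_
    split_ifs
    · exact zero_le_one
    · exact hκ0 _ p.2
  have hwcκ : ∀ r : Asg P k, wt c r ≤ wt κ₁ r := fun r => by
    refine Finset.prod_le_prod (fun p _ => ?_) (fun p _ => ?_)
    · split_ifs
      · exact zero_le_one
      · exact hc0 _ p.2
    · split_ifs
      · exact le_rfl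
      · exact hc1 _ p.2
  set U : Asg P k → ℝ := fun r => if (∀ p, r p ≠ some m) then Gr m g r * wt c r else 0 with hU
  set V : Asg P k → ℝ := fun r => if (∀ p, r p ≠ some m) then Gr m g r * wt κ₁ r else 0 with hV
  have hGr0 : ∀ r : Asg P k, 0 ≤ Gr m g r := fun r => sq_nonneg _
  have hU0 : ∀ r, 0 ≤ U r := fun r => by
    simp only [hU]; split_ifs
    · exact mul_nonneg (hGr0 r) (hwc r)
    · exact le_rfl
  have hUV : ∀ r, U r ≤ V r := fun r => by
    simp only [hU, hV]; split_ifs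
    · exact mul_le_mul_of_nonneg_left (hwcκ r) (hGr0 r)
    · exact le_rfl
  have hV0 : ∀ r, 0 ≤ V r := fun r => (hU0 r).trans (hUV r)
  set δ : Asg P k → ℝ := fun r => ∑ p : P, if r p = none then 0 else κ₁ p with hδ
  have hδ0 : ∀ r, 0 ≤ δ r := fun r => Finset.sum_nonneg fun p _ => by
    split_ifs
    · exact le_rfl
    · exact hκ0 _ p.2
  set ε : ℝ := Real.exp (k * σ) - 1 with hε
  have hkσ : (k:ℝ) * σ ≤ 1/100 := by
    have h1 : (k:ℝ) * σ ≤ (k:ℝ)^2 * σ := by
      have : (k:ℝ) ≤ (k:ℝ)^2 := by nlinarith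
      exact mul_le_mul_of_nonneg_right this hσ0
    nlinarith
  have hkσ0 : 0 ≤ (k:ℝ) * σ := by positivity
  have hε0 : 0 ≤ ε := by
    have := Real.add_one_le_exp ((k:ℝ) * σ)
    simp only [hε]; linarith
  have hε1 : ε ≤ 2/100 := by
    have h1 := Real.exp_bound_div_one_sub_of_interval hkσ0 (by linarith : (k:ℝ)*σ < 1)
    have h2 : 1 / (1 - (k:ℝ)*σ) ≤ 1 + 2/100 := by
      rw [div_le_iff₀ (by linarith)]; nlinarith
    simp only [hε]; linarith
  -- part (a): the form is at least the diagonal sum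
  have hform : ∑ r : Asg P k, (∑ t, (yOf g R : Asg P k → ℝ) t *
      ∏ p : P, Mq m (p:ℝ) (r p) (t p)) ^ 2 * wt c r ≤
      formK (fun p => (p:ℝ) - 1) (lamm m (lamOf (yOf g R : Asg P k → ℝ))) := by
    have h := le_formK (P := P) (k := k) (fun p => (p:ℝ) - 1) hpk
      (lamm m (lamOf (yOf g R : Asg P k → ℝ)))
    refine le_trans (le_of_eq ?_) h
    have hw : (fun p : ℕ => 1 / ((p:ℝ) - 1) * (1 - k / ((p:ℝ) - 1))) = c := by
      funext p
      simp only [hc, κ₁]
      ring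
    rw [hw]
    refine Finset.sum_congr rfl fun r _ => ?_
    rw [zOf_lamm hP2 m _ r]
  refine le_trans ?_ hform
  have hdd1 : ∀ (r : Asg P k) (i : Fin k), 1 ≤ dd r i := fun r i =>
    prod_one_le hP1 (part_subset r i)
  have hdtot1 : ∀ r : Asg P k, 1 ≤ dtot r := fun r => by
    rw [dtot_eq]; exact Finset.one_le_prod' fun i _ => hdd1 r i
  have hlog0 : ∀ r : Asg P k, 0 ≤ Real.log (dtot r) := fun r =>
    Real.log_nonneg (by exact_mod_cast hdtot1 r)
  have hA0 : 0 ≤ A := by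
    refine Finset.sum_nonneg fun T hT => mul_nonneg (hg _) ?_
    exact Finset.prod_nonneg fun p hp => hκ0 p (Finset.mem_powerset.1 hT hp)
  -- part (b): the pointwise bound
  have hpt : ∀ r : Asg P k, A ^ 2 * ((1 - 2 * ε) * (U r - V r * Real.log (dtot r) / L)
      - 2 * (V r * δ r)) ≤
      (∑ t, (yOf g R : Asg P k → ℝ) t * ∏ p : P, Mq m (p:ℝ) (r p) (t p)) ^ 2 * wt c r := by
    intro r
    have hR0 : 0 ≤ (∑ t, (yOf g R : Asg P k → ℝ) t *
        ∏ p : P, Mq m (p:ℝ) (r p) (t p)) ^ 2 * wt c r := mul_nonneg (sq_nonneg _) (hwc r)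
    have hVδ : 0 ≤ V r * δ r := mul_nonneg (hV0 r) (hδ0 r)
    have hVl : 0 ≤ V r * Real.log (dtot r) / L :=
      div_nonneg (mul_nonneg (hV0 r) (hlog0 r)) hL0.le
    by_cases hok : ∀ p, r p ≠ some m
    · by_cases hdR : dtot r * X ≤ R
      · have hz := z_lower hP2 m g hg hg1 hga X R hgX r hok hdR
        set Z := ∑ t, (yOf g R : Asg P k → ℝ) t * ∏ p : P, Mq m (p:ℝ) (r p) (t p) with hZ
        have hUr : U r = Gr m g r * wt c r := by simp only [hU]; rw [if_pos hok]
        set G := ∏ i ∈ Finset.univ.erase m, g (dd r i) with hG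
        have hG0 : 0 ≤ G := Finset.prod_nonneg fun i _ => hg _
        have hGr : Gr m g r = G ^ 2 := rfl
        change G * A * (1 - δ r - ε) ≤ |Z| at hz
        have h1 : A ^ 2 * G ^ 2 * (1 - 2 * ε - 2 * δ r) ≤ Z ^ 2 := by
          by_cases hneg : 1 - δ r - ε < 0
          · have : A ^ 2 * G ^ 2 * (1 - 2 * ε - 2 * δ r) ≤ 0 := by
              have hnn : 0 ≤ A ^ 2 * G ^ 2 := by positivity
              have : 1 - 2 * ε - 2 * δ r ≤ 0 := by
                have := hδ0 r
                linarith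
              exact mul_nonpos_of_nonneg_of_nonpos hnn this
            exact this.trans (sq_nonneg _)
          · push Not at hneg
            have h2 : (G * A * (1 - δ r - ε)) ^ 2 ≤ |Z| ^ 2 :=
              pow_le_pow_left₀ (mul_nonneg (mul_nonneg hG0 hA0) hneg) hz 2
            rw [sq_abs] at h2
            refine le_trans ?_ h2
            have h3 : 1 - 2 * ε - 2 * δ r ≤ (1 - δ r - ε) ^ 2 := by
              nlinarith [sq_nonneg (δ r + ε)]
            calc A ^ 2 * G ^ 2 * (1 - 2 * ε - 2 * δ r)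
                ≤ A ^ 2 * G ^ 2 * (1 - δ r - ε) ^ 2 :=
                  mul_le_mul_of_nonneg_left h3 (by positivity)
              _ = (G * A * (1 - δ r - ε)) ^ 2 := by ring
        have h4 : A ^ 2 * G ^ 2 * (1 - 2 * ε - 2 * δ r) * wt c r ≤ Z ^ 2 * wt c r :=
          mul_le_mul_of_nonneg_right h1 (hwc r)
        refine le_trans ?_ h4
        have h5 : A ^ 2 * G ^ 2 * (1 - 2 * ε - 2 * δ r) * wt c r =
            A ^ 2 * ((1 - 2 * ε) * U r - 2 * (U r * δ r)) := by
          rw [hUr, hGr]; ring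
        rw [h5]
        refine mul_le_mul_of_nonneg_left ?_ (sq_nonneg _)
        have h6 : U r * δ r ≤ V r * δ r := mul_le_mul_of_nonneg_right (hUV r) (hδ0 r)
        have h7 : 0 ≤ (1 - 2 * ε) * (V r * Real.log (dtot r) / L) :=
          mul_nonneg (by linarith) hVl
        nlinarith
      · push Not at hdR
        have hlt : L < Real.log (dtot r) := by
          have h1 : (R:ℝ) / X < dtot r := by
            rw [div_lt_iff₀ hX0]; exact_mod_cast hdR
          exact Real.log_lt_log (by linarith) h1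
        have h1 : U r ≤ V r * Real.log (dtot r) / L := by
          rw [le_div_iff₀ hL0]
          exact mul_le_mul (hUV r) hlt.le hL0.le (hV0 r)
        refine le_trans ?_ hR0
        refine mul_nonpos_of_nonneg_of_nonpos (sq_nonneg _) ?_
        have h2 : (1 - 2 * ε) * (U r - V r * Real.log (dtot r) / L) ≤ 0 :=
          mul_nonpos_of_nonneg_of_nonpos (by linarith) (by linarith)
        linarith
    · have hVr : V r = 0 := by simp only [hV]; rw [if_neg hok]
      have hUr : U r = 0 := by simp only [hU]; rw [if_neg hok]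
      rw [hVr, hUr]
      simpa using hR0
  have hsum := Finset.sum_le_sum (fun r (_ : r ∈ (Finset.univ : Finset (Asg P k))) => hpt r)
  refine le_trans ?_ hsum
  rw [← Finset.mul_sum]
  -- part (c): the three sums
  have hkσ2 : (k:ℝ)^2 * σ ≤ 1/100 := by linarith
  have hB0 : 0 ≤ B ^ (k-1) := pow_nonneg hB.le _
  have hi : (98/100 : ℝ) * B ^ (k-1) ≤ ∑ r, U r := by
    have h1 := lower (P := P) hP1 m g hg hga c κ₁ hc0 hc1
    have h2 : (1 - (k:ℝ) * σ) * B ≤ sum1 P c (fun a => (g a) ^ 2) :=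
      le_sum1_kappa3 P k hP (fun a => (g a) ^ 2)
        (fun a b hab => pow_le_pow_left₀ (hg _) (hga hab) 2) (fun a => sq_nonneg _)
    have h3 : ((1 - (k:ℝ) * σ) * B) ^ (k-1) ≤ (sum1 P c (fun a => (g a) ^ 2)) ^ (k-1) :=
      pow_le_pow_left₀ (mul_nonneg (by linarith) hB.le) h2 _
    have h4 : (99/100 : ℝ) ≤ (1 - (k:ℝ) * σ) ^ (k-1) := by
      have h5 := one_add_mul_le_pow (a := -((k:ℝ) * σ)) (by linarith) (k-1)
      have h6 : ((k-1 : ℕ) : ℝ) = (k:ℝ) - 1 := by
        rw [Nat.cast_sub hk1]; norm_num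
      rw [h6] at h5
      have h7 : (1:ℝ) + ((k:ℝ) - 1) * -((k:ℝ) * σ) ≥ 99/100 := by nlinarith
      have h8 : (1 + -((k:ℝ) * σ)) = (1 - (k:ℝ) * σ) := by ring
      rw [h8] at h5
      linarith
    have h9 : (99/100 : ℝ) * B ^ (k-1) ≤ (sum1 P c (fun a => (g a) ^ 2)) ^ (k-1) := by
      refine le_trans ?_ h3
      rw [mul_pow]
      exact mul_le_mul_of_nonneg_right h4 hB0
    refine le_trans ?_ h1
    have h10 : (99/100:ℝ) ≤ 1 - (k:ℝ)^2 * ∑ p ∈ P, (κ₁ p)^2 := by
      change (99/100:ℝ) ≤ 1 - (k:ℝ)^2 * σ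
      linarith
    have h11 : 0 ≤ (sum1 P c (fun a => (g a) ^ 2)) ^ (k-1) := le_trans (by positivity) h9
    calc (98/100 : ℝ) * B ^ (k-1) ≤ (99/100 : ℝ) * ((99/100 : ℝ) * B ^ (k-1)) := by nlinarith
      _ ≤ (99/100 : ℝ) * (sum1 P c (fun a => (g a) ^ 2)) ^ (k-1) :=
          mul_le_mul_of_nonneg_left h9 (by norm_num)
      _ ≤ _ := mul_le_mul_of_nonneg_right h10 h11
  have hii : (∑ r, V r * Real.log (dtot r) / L) ≤ (1/4 : ℝ) * B ^ (k-1) := by
    rw [← Finset.sum_div, div_le_iff₀ hL0]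
    have hexp : ∀ r : Asg P k, V r * Real.log (dtot r) =
        ∑ j ∈ Finset.univ.erase m, V r * Real.log ((∏ p ∈ part r j, p : ℕ) : ℝ) := by
      intro r
      by_cases hok : ∀ p, r p ≠ some m
      · rw [← Finset.mul_sum]
        congr 1
        rw [dtot_eq, Nat.cast_prod, Real.log_prod]
        · rw [← Finset.add_sum_erase Finset.univ _ (Finset.mem_univ m)]
          have : dd r m = 1 := by
            unfold dd
            rw [(part_eq_empty_iff r m).2 hok]
            simp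
          rw [this]
          simp [dd]
        · intro i _
          have := hdd1 r i
          positivity
      · have hVr : V r = 0 := by simp only [hV]; rw [if_neg hok]
        simp [hVr]
    rw [Finset.sum_congr rfl (fun r _ => hexp r), Finset.sum_comm]
    have hj : ∀ j ∈ Finset.univ.erase m, ∑ r : Asg P k,
        V r * Real.log ((∏ p ∈ part r j, p : ℕ) : ℝ) ≤ B1 * B ^ (k-2) := by
      intro j hj
      have hne : j ≠ m := Finset.ne_of_mem_erase hj
      have h := upper (P := P) m j hne g κ₁ hκ0 (fun T => Real.log ((∏ p ∈ T, p : ℕ) : ℝ))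
        (fun T hT => Real.log_nonneg (by exact_mod_cast prod_one_le hP1 hT))
      refine h.trans (le_of_eq ?_)
      congr 1
      refine Finset.sum_congr rfl fun T _ => ?_
      ring
    refine (Finset.sum_le_sum hj).trans ?_
    rw [Finset.sum_const, Finset.card_erase_of_mem (Finset.mem_univ m), Finset.card_univ,
      Fintype.card_fin, nsmul_eq_mul]
    by_cases hk2 : 2 ≤ k
    · have h1 : ((k-1 : ℕ) : ℝ) ≤ k := by exact_mod_cast Nat.sub_le k 1
      have hB10 : 0 ≤ B1 := by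
        refine Finset.sum_nonneg fun T hT => mul_nonneg (mul_nonneg (sq_nonneg _) ?_) ?_
        · exact Real.log_nonneg (by
            exact_mod_cast prod_one_le hP1 (Finset.mem_powerset.1 hT))
        · exact Finset.prod_nonneg fun p hp => hκ0 p (Finset.mem_powerset.1 hT hp)
      have hB2 : 0 ≤ B ^ (k-2) := pow_nonneg hB.le _
      have h2 : ((k-1 : ℕ) : ℝ) * (B1 * B ^ (k-2)) ≤ (k * B1) * B ^ (k-2) := by
        have := mul_le_mul_of_nonneg_right h1 (mul_nonneg hB10 hB2)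
        nlinarith
      have h3 : (k * B1) * B ^ (k-2) ≤ (1/4 * (B * L)) * B ^ (k-2) := by
        refine mul_le_mul_of_nonneg_right ?_ hB2
        linarith
      refine h2.trans (h3.trans (le_of_eq ?_))
      rw [← pow_split (B := B) hk2]
      ring
    · have : k = 1 := by omega
      subst this
      simp
      exact hL0.le
  have hiii : ∑ r, V r * δ r ≤ (1/100 : ℝ) * B ^ (k-1) := by
    have hexp : ∀ r : Asg P k, V r * δ r ≤
        ∑ p : P, κ₁ p * ∑ j ∈ Finset.univ.erase m, V r * (if (p:ℕ) ∈ part r j then 1 else 0) := by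
      intro r
      by_cases hok : ∀ p, r p ≠ some m
      · simp only [hδ]
        rw [Finset.mul_sum]
        refine Finset.sum_le_sum fun p _ => ?_
        by_cases hp : r p = none
        · rw [if_pos hp, mul_zero]
          refine mul_nonneg (hκ0 _ p.2) (Finset.sum_nonneg fun j _ => mul_nonneg (hV0 r) ?_)
          split_ifs <;> norm_num
        · rw [if_neg hp]
          obtain ⟨i, hi⟩ := Option.ne_none_iff_exists'.1 hp
          have him : i ≠ m := fun h => hok p (by rw [hi, h])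
          have hmem : (p:ℕ) ∈ part r i := (mem_part_iff_st r i p).2 ⟨p, hi, rfl⟩
          have h1 : V r * 1 ≤ ∑ j ∈ Finset.univ.erase m,
              V r * (if (p:ℕ) ∈ part r j then 1 else 0) := by
            have := Finset.single_le_sum (s := Finset.univ.erase m)
              (f := fun j => V r * (if (p:ℕ) ∈ part r j then (1:ℝ) else 0))
              (fun j _ => mul_nonneg (hV0 r) (by split_ifs <;> norm_num))
              (Finset.mem_erase.2 ⟨him, Finset.mem_univ i⟩)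
            simpa [hmem] using this
          calc V r * κ₁ p = κ₁ p * (V r * 1) := by ring
            _ ≤ _ := mul_le_mul_of_nonneg_left h1 (hκ0 _ p.2)
      · have hVr : V r = 0 := by simp only [hV]; rw [if_neg hok]
        simp [hVr]
    refine (Finset.sum_le_sum fun r _ => hexp r).trans ?_
    rw [Finset.sum_comm]
    have hp : ∀ p : P, ∑ r : Asg P k, κ₁ p * ∑ j ∈ Finset.univ.erase m,
        V r * (if (p:ℕ) ∈ part r j then 1 else 0) ≤ (κ₁ p) ^ 2 * ((k:ℝ) * B ^ (k-1)) := by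
      intro p
      rw [← Finset.mul_sum, Finset.sum_comm, pow_two, mul_assoc]
      refine mul_le_mul_of_nonneg_left ?_ (hκ0 _ p.2)
      have hj : ∀ j ∈ Finset.univ.erase m, ∑ r : Asg P k,
          V r * (if (p:ℕ) ∈ part r j then 1 else 0) ≤ κ₁ p * B ^ (k-1) := by
        intro j hj
        have hne : j ≠ m := Finset.ne_of_mem_erase hj
        have hk2 : 2 ≤ k := by
          by_contra hlt
          have : k = 1 := by omega
          subst this
          exact hne (Subsingleton.elim _ _)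
        have h := upper (P := P) m j hne g κ₁ hκ0 (fun T => if (p:ℕ) ∈ T then 1 else 0)
          (fun T _ => by split_ifs <;> norm_num)
        refine h.trans ?_
        rw [← pow_split (B := B) hk2, ← mul_assoc]
        refine mul_le_mul_of_nonneg_right ?_ (pow_nonneg hB.le _)
        have h5 := sum1_mem_le P hP1 κ₁ hκ0 (fun a => (g a) ^ 2)
          (fun a b hab => pow_le_pow_left₀ (hg _) (hga hab) 2) (fun a => sq_nonneg _) p p.2
        refine le_trans (le_of_eq ?_) h5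
        rw [Finset.sum_filter]
        refine Finset.sum_congr rfl fun T _ => ?_
        split_ifs <;> simp
      refine (Finset.sum_le_sum hj).trans ?_
      rw [Finset.sum_const, Finset.card_erase_of_mem (Finset.mem_univ m), Finset.card_univ,
        Fintype.card_fin, nsmul_eq_mul]
      have h1 : ((k-1 : ℕ) : ℝ) ≤ k := by exact_mod_cast Nat.sub_le k 1
      have h2 : 0 ≤ κ₁ p * B ^ (k-1) := mul_nonneg (hκ0 _ p.2) hB0
      calc ((k-1 : ℕ) : ℝ) * (κ₁ p * B ^ (k-1)) ≤ k * (κ₁ p * B ^ (k-1)) :=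
            mul_le_mul_of_nonneg_right h1 h2
        _ = κ₁ p * (k * B ^ (k-1)) := by ring
    refine (Finset.sum_le_sum fun p _ => hp p).trans ?_
    rw [← Finset.sum_mul]
    have h1 : ∑ p : P, (κ₁ p) ^ 2 = σ := by
      rw [hσdef]
      exact Finset.sum_coe_sort P (fun p => (κ₁ p) ^ 2)
    rw [h1, ← mul_assoc]
    refine mul_le_mul_of_nonneg_right ?_ hB0
    linarith
  -- part (d): conclusion
  have hsplit : ∑ r, ((1 - 2 * ε) * (U r - V r * Real.log (dtot r) / L) - 2 * (V r * δ r)) =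
      (1 - 2 * ε) * (∑ r, U r - ∑ r, V r * Real.log (dtot r) / L) - 2 * ∑ r, V r * δ r := by
    rw [Finset.sum_sub_distrib, ← Finset.mul_sum, ← Finset.mul_sum, Finset.sum_sub_distrib]
  rw [hsplit]
  have hfin : (1/4 : ℝ) * B ^ (k-1) ≤
      (1 - 2 * ε) * (∑ r, U r - ∑ r, V r * Real.log (dtot r) / L) - 2 * ∑ r, V r * δ r := by
    have h1 : (73/100 : ℝ) * B ^ (k-1) ≤ ∑ r, U r - ∑ r, V r * Real.log (dtot r) / L := by
      linarith
    have h2 : (96/100 : ℝ) * ((73/100 : ℝ) * B ^ (k-1)) ≤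
        (1 - 2 * ε) * (∑ r, U r - ∑ r, V r * Real.log (dtot r) / L) :=
      mul_le_mul (by linarith) h1 (by positivity) (by linarith)
    nlinarith
  calc (1/4 : ℝ) * A ^ 2 * B ^ (k-1) = A ^ 2 * ((1/4 : ℝ) * B ^ (k-1)) := by ring
    _ ≤ _ := mul_le_mul_of_nonneg_left hfin (sq_nonneg _)

end Pool.Agent.Lib.MT
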