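import Pool.Agent.Lib.MT.OneDim

/-!
# The one dimensional sums of the step function

PROOF SKETCH. g = gst ρ J = sum_j w_j 1[a ≤ ρ^(2^j)], w_j = wst J j ≥ 0, so
A = sum_j w_j F(ρ^(2^j)) ≥ dens W log ρ sum_j w_j 2^j, and sum_j w_j 2^j = J/2 + 1 (sum1_lower).
B ≥ F(ρ) as g(a) = 1 for a ≤ ρ. Upper bounds: κ₁ ≤ κ₂ and sum1_upper with u' = 1/2:
F(ρ^(2^j)) ≤ C dens W (2^j log ρ + log 2 + 1 + log W) ≤ 3 C dens W 2^j log ρ when 1 + log W ≤ log ρ.
g² ≤ sum over j of 4^(-j) 1[a ≤ ρ^(2^j)] * (something ≤ 4): precisely for ρ^(2^(j-1)) < a ≤ ρ^(2^j)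
g(a) = 2^(-j), so g(a)² ≤ sum_j 4^(-j) 1[a ≤ ρ^(2^j)], whence
B ≤ sum_j 4^(-j) 3 C dens W 2^j log ρ ≤ 6 C dens W log ρ, and g(a)² log a ≤
sum_j 4^(-j) 2^j log ρ 1[a ≤ ρ^(2^j)] (take j minimal with a ≤ ρ^(2^j)), so
B1 ≤ sum_j 4^(-j) 2^j log ρ 3 C dens W 2^j log ρ = 3 C (J+1) dens W (log ρ)².
-/

open Finset
open scoped Classical

namespace Pool.Agent.Lib.MT

section ParamsAux

private lemma sum1_mono {P : Finset ℕ} {κ κ' : ℕ → ℝ} {G G' : ℕ → ℝ} (hP : ∀ p ∈ P, 1 ≤ p)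
    (hκ : ∀ p ∈ P, 0 ≤ κ p) (hκκ : ∀ p ∈ P, κ p ≤ κ' p) (hG : ∀ a, 1 ≤ a → 0 ≤ G' a)
    (hGG : ∀ a, 1 ≤ a → G a ≤ G' a) : sum1 P κ G ≤ sum1 P κ' G' := by
  unfold sum1
  refine Finset.sum_le_sum fun T hT => ?_
  rw [Finset.mem_powerset] at hT
  have h1 : 1 ≤ ∏ p ∈ T, p := Nat.one_le_iff_ne_zero.mpr
    (Finset.prod_ne_zero_iff.mpr fun p hp => by have := hP p (hT hp); omega)
  have h2 : 0 ≤ ∏ p ∈ T, κ p := Finset.prod_nonneg fun p hp => hκ p (hT hp)
  have h3 : ∏ p ∈ T, κ p ≤ ∏ p ∈ T, κ' p :=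
    Finset.prod_le_prod (fun p hp => hκ p (hT hp)) fun p hp => hκκ p (hT hp)
  calc G (∏ p ∈ T, p) * ∏ p ∈ T, κ p ≤ G' (∏ p ∈ T, p) * ∏ p ∈ T, κ p :=
        mul_le_mul_of_nonneg_right (hGG _ h1) h2
    _ ≤ G' (∏ p ∈ T, p) * ∏ p ∈ T, κ' p := mul_le_mul_of_nonneg_left h3 (hG _ h1)

private lemma sum1_sum {ι : Type} (P : Finset ℕ) (κ : ℕ → ℝ) (s : Finset ι) (c : ι → ℝ)
    (G : ι → ℕ → ℝ) :
    sum1 P κ (fun a => ∑ j ∈ s, c j * G j a) = ∑ j ∈ s, c j * sum1 P κ (G j) := by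
  unfold sum1
  simp only [Finset.sum_mul, Finset.mul_sum]
  rw [Finset.sum_comm]
  refine Finset.sum_congr rfl fun j _ => Finset.sum_congr rfl fun T _ => by ring

private lemma sum_wst_range {J j : ℕ} (hj : j ≤ J) :
    ∑ i ∈ Finset.range j, wst J i = 1 - (1/2:ℝ) ^ j := by
  induction j with
  | zero => simp
  | succ j ih =>
    rw [Finset.sum_range_succ, ih (by omega)]
    simp only [wst, if_pos (show j < J by omega)]
    ring

private lemma gst_eq {ρ J a j : ℕ} (hρ : 1 ≤ ρ) (hj : j ≤ J) (ha : a ≤ ρ ^ (2 ^ j))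
    (hlt : ∀ i < j, ρ ^ (2 ^ i) < a) : gst ρ J a = (1/2:ℝ) ^ j := by
  unfold gst
  have h1 : ∀ i ∈ Finset.range (J+1), wst J i * (if a ≤ ρ ^ (2 ^ i) then (1:ℝ) else 0) =
      wst J i - (if i < j then wst J i else 0) := by
    intro i _
    by_cases hi : i < j
    · have := hlt i hi
      rw [if_neg (by omega), if_pos hi]; ring
    · have : ρ ^ (2 ^ j) ≤ ρ ^ (2 ^ i) :=
        Nat.pow_le_pow_right hρ (Nat.pow_le_pow_right (by norm_num) (by omega))
      rw [if_pos (by omega), if_neg hi]; ring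
  rw [Finset.sum_congr rfl h1, Finset.sum_sub_distrib, sum_wst, ← Finset.sum_filter]
  have h2 : (Finset.range (J+1)).filter (fun i => i < j) = Finset.range j := by
    ext i; simp only [Finset.mem_filter, Finset.mem_range]; omega
  rw [h2, sum_wst_range hj]
  ring

private lemma gst_sq_le {ρ J a : ℕ} (hρ : 1 ≤ ρ) (h : ℕ → ℝ) (x : ℝ) (hx : 0 ≤ x)
    (hh : ∀ j, 0 ≤ h j) (hxh : ∀ j, a ≤ ρ ^ (2 ^ j) → x ≤ h j) :
    (gst ρ J a) ^ 2 * x ≤
      ∑ j ∈ Finset.range (J+1), ((1/4:ℝ) ^ j * h j) * (if a ≤ ρ ^ (2 ^ j) then 1 else 0) := by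
  have hnn : ∀ j ∈ Finset.range (J+1),
      0 ≤ ((1/4:ℝ) ^ j * h j) * (if a ≤ ρ ^ (2 ^ j) then (1:ℝ) else 0) := by
    intro j _
    refine mul_nonneg (mul_nonneg (by positivity) (hh j)) ?_
    split_ifs <;> norm_num
  by_cases hex : ∃ j, a ≤ ρ ^ (2 ^ j)
  · obtain ⟨ha, hmin⟩ := And.intro (Nat.find_spec hex) fun i (hi : i < Nat.find hex) =>
      Nat.find_min hex hi
    set j := Nat.find hex
    by_cases hj : j ≤ J
    · rw [gst_eq hρ hj ha fun i hi => not_le.mp (hmin i hi)]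
      refine le_trans ?_ (Finset.single_le_sum hnn (Finset.mem_range.mpr (Nat.lt_succ_of_le hj)))
      rw [if_pos ha, mul_one]
      have : ((1/2:ℝ) ^ j) ^ 2 = (1/4:ℝ) ^ j := by
        rw [← pow_mul, mul_comm, pow_mul]; norm_num
      rw [this]
      exact mul_le_mul_of_nonneg_left (hxh j ha) (by positivity)
    · rw [gst_eq_zero hρ (not_le.mp (hmin J (by omega)))]
      simpa using Finset.sum_nonneg hnn
  · push Not at hex
    rw [gst_eq_zero hρ (hex J)]
    simpa using Finset.sum_nonneg hnn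

private lemma mem_Pr {W R p : ℕ} (hp : p ∈ Pr W R) : 2 ≤ p := by
  unfold Pr at hp
  rw [Finset.mem_filter] at hp
  exact hp.2.1.two_le

private lemma κ₁_nonneg {p : ℕ} (hp : 2 ≤ p) : 0 ≤ κ₁ p := by
  unfold κ₁
  have : (2:ℝ) ≤ p := by exact_mod_cast hp
  exact div_nonneg zero_le_one (by linarith)

private lemma κ₁_le_κ₂ {p : ℕ} (hp : 2 ≤ p) : κ₁ p ≤ κ₂ p := by
  unfold κ₁ κ₂
  have h2 : (2:ℝ) ≤ p := by exact_mod_cast hp
  rw [div_le_div_iff₀ (by linarith) (by nlinarith)]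
  nlinarith

end ParamsAux

theorem params : ∃ C : ℝ, 1 ≤ C ∧ ∀ (W R ρ J : ℕ), 1 ≤ W → 2 ≤ ρ → ρ ^ (2 ^ J) ≤ R →
    1 + Real.log W ≤ Real.log ρ →
    ((J:ℝ) / 2 + 1) * dens W * Real.log ρ ≤ sum1 (Pr W R) κ₁ (gst ρ J) ∧
    dens W * Real.log ρ ≤ sum1 (Pr W R) κ₁ (fun a => (gst ρ J a) ^ 2) ∧
    sum1 (Pr W R) κ₁ (fun a => (gst ρ J a) ^ 2) ≤ C * dens W * Real.log ρ ∧
    sum1 (Pr W R) κ₁ (fun a => (gst ρ J a) ^ 2 * Real.log a) ≤
      C * (J + 1) * dens W * (Real.log ρ) ^ 2 ∧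
    sum1 (Pr W R) κ₁ (fun a => if a ≤ R then 1 else 0) ≤ C * dens W * Real.log R := by
  obtain ⟨C, hC1, hC⟩ := sum1_upper
  refine ⟨6 * C, by linarith, fun W R ρ J hW hρ hR hlog => ?_⟩
  have hρ1 : 1 ≤ ρ := by omega
  have hρR : ρ ≤ R := le_trans (by
    calc ρ = ρ ^ 1 := (pow_one ρ).symm
      _ ≤ ρ ^ (2 ^ J) := Nat.pow_le_pow_right hρ1 Nat.one_le_two_pow) hR
  have hlogW : 0 ≤ Real.log W := Real.log_natCast_nonneg W
  have hlogρ : 1 ≤ Real.log ρ := by linarith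
  have hlog2 : Real.log 2 ≤ Real.log ρ :=
    Real.log_le_log (by norm_num) (by exact_mod_cast hρ)
  have hdens : 0 ≤ dens W := by unfold dens; positivity
  have hP2 : ∀ p ∈ Pr W R, 2 ≤ p := fun p hp => mem_Pr hp
  have hP1 : ∀ p ∈ Pr W R, 1 ≤ p := fun p hp => le_trans (by norm_num) (hP2 p hp)
  have hκ0 : ∀ p ∈ Pr W R, 0 ≤ κ₁ p := fun p hp => κ₁_nonneg (hP2 p hp)
  -- upper bound for F u
  have hF : ∀ u : ℕ, 1 ≤ u → u ≤ R → sum1 (Pr W R) κ₁ (fun a => if a ≤ u then 1 else 0) ≤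
      C * dens W * (Real.log u + Real.log 2 + 1 + Real.log W) := by
    intro u hu huR
    have h := hC W R (1/2) u hW (by norm_num)
      (le_trans (by norm_num) (show (1:ℝ) ≤ u by exact_mod_cast hu))
      (by exact_mod_cast hu) (by exact_mod_cast huR)
    have h2 : Real.log ((u:ℝ) / (1/2)) = Real.log u + Real.log 2 := by
      rw [show (u:ℝ) / (1/2) = u * 2 by ring, Real.log_mul]
      · have : 0 < u := by omega
        positivity
      · norm_num
    rw [h2] at h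
    refine le_trans ?_ h
    refine sum1_mono hP1 hκ0 (fun p hp => κ₁_le_κ₂ (hP2 p hp)) ?_ ?_
    · intro a _; positivity
    · intro a ha
      have ha' : (1:ℝ) ≤ a := by exact_mod_cast ha
      by_cases hau : a ≤ u
      · have hau' : (a:ℝ) ≤ u := by exact_mod_cast hau
        rw [if_pos hau, if_pos ⟨by linarith, hau'⟩]
      · rw [if_neg hau]
        positivity
  have hpowle : ∀ j, j ≤ J → ρ ^ (2 ^ j) ≤ R := fun j hj =>
    le_trans (Nat.pow_le_pow_right hρ1 (Nat.pow_le_pow_right (by norm_num) hj)) hR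
  have hpow1 : ∀ j, 1 ≤ ρ ^ (2 ^ j) := fun j => Nat.one_le_pow _ _ (by omega)
  have hlogpow : ∀ j : ℕ, Real.log ((ρ ^ (2 ^ j) : ℕ) : ℝ) = 2 ^ j * Real.log ρ := by
    intro j; push_cast; rw [Real.log_pow]; push_cast; ring
  have hF2 : ∀ j, j ≤ J → sum1 (Pr W R) κ₁ (fun a => if a ≤ ρ ^ (2 ^ j) then 1 else 0) ≤
      3 * C * dens W * (2 ^ j * Real.log ρ) := by
    intro j hj
    refine (hF _ (hpow1 j) (hpowle j hj)).trans ?_
    rw [hlogpow j]
    have h1 : (1:ℝ) ≤ 2 ^ j := one_le_pow₀ (by norm_num)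
    have h2 : 2 ^ j * Real.log ρ + Real.log 2 + 1 + Real.log W ≤ 3 * (2 ^ j * Real.log ρ) := by
      nlinarith
    calc C * dens W * (2 ^ j * Real.log ρ + Real.log 2 + 1 + Real.log W)
        ≤ C * dens W * (3 * (2 ^ j * Real.log ρ)) :=
          mul_le_mul_of_nonneg_left h2 (mul_nonneg (by linarith) hdens)
      _ = _ := by ring
  have hlowF : ∀ u : ℕ, 1 ≤ u → u ≤ R →
      dens W * Real.log u ≤ sum1 (Pr W R) κ₁ (fun a => if a ≤ u then 1 else 0) :=
    fun u hu huR => sum1_lower W R u hW hu huR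
  refine ⟨?_, ?_, ?_, ?_, ?_⟩
  · -- lower bound for A
    have h1 : sum1 (Pr W R) κ₁ (gst ρ J) = ∑ j ∈ Finset.range (J+1), wst J j *
        sum1 (Pr W R) κ₁ (fun a => if a ≤ ρ ^ (2 ^ j) then 1 else 0) := by
      rw [← sum1_sum]; rfl
    rw [h1]
    have h2 : ∑ j ∈ Finset.range (J+1), wst J j * (2:ℝ) ^ j = (J:ℝ) / 2 + 1 := by
      rw [Finset.sum_range_succ]
      have h3 : ∀ j ∈ Finset.range J, wst J j * (2:ℝ) ^ j = 1/2 := by
        intro j hj
        rw [Finset.mem_range] at hj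
        simp only [wst, if_pos hj]
        rw [pow_succ, mul_assoc, mul_comm (1/2:ℝ) ((2:ℝ)^j), ← mul_assoc, ← mul_pow]
        norm_num
      rw [Finset.sum_congr rfl h3]
      simp only [wst, lt_irrefl, if_false, Finset.sum_const, Finset.card_range, nsmul_eq_mul]
      rw [← mul_pow]
      norm_num
      ring
    rw [← h2, Finset.sum_mul, Finset.sum_mul]
    refine Finset.sum_le_sum fun j hj => ?_
    rw [Finset.mem_range] at hj
    have h4 := hlowF _ (hpow1 j) (hpowle j (by omega))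
    rw [hlogpow j] at h4
    calc wst J j * (2:ℝ) ^ j * dens W * Real.log ρ = wst J j * (dens W * (2 ^ j * Real.log ρ)) := by
          ring
      _ ≤ _ := mul_le_mul_of_nonneg_left h4 (wst_nonneg J j)
  · -- lower bound for B
    refine (hlowF ρ hρ1 hρR).trans ?_
    refine sum1_mono hP1 hκ0 (fun p hp => le_rfl) (fun a _ => by positivity) ?_
    intro a _
    by_cases ha : a ≤ ρ
    · rw [if_pos ha]
      have : gst ρ J a = (1/2:ℝ) ^ 0 := gst_eq hρ1 (Nat.zero_le J) (by simpa using ha)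
        (fun i hi => absurd hi (Nat.not_lt_zero i))
      rw [this]; norm_num
    · rw [if_neg ha]; positivity
  · -- upper bound for B
    have h1 : sum1 (Pr W R) κ₁ (fun a => (gst ρ J a) ^ 2) ≤
        sum1 (Pr W R) κ₁ (fun a => ∑ j ∈ Finset.range (J+1), ((1/4:ℝ) ^ j * 1) *
          (if a ≤ ρ ^ (2 ^ j) then 1 else 0)) := by
      refine sum1_mono hP1 hκ0 (fun p hp => le_rfl) ?_ ?_
      · intro a _
        refine Finset.sum_nonneg fun j _ => ?_
        positivity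
      · intro a _
        have := gst_sq_le (J := J) (a := a) hρ1 (fun _ => 1) 1 zero_le_one
          (fun _ => zero_le_one) (fun _ _ => le_rfl)
        simpa using this
    rw [sum1_sum] at h1
    refine h1.trans ?_
    calc ∑ j ∈ Finset.range (J+1), ((1/4:ℝ) ^ j * 1) *
          sum1 (Pr W R) κ₁ (fun a => if a ≤ ρ ^ (2 ^ j) then 1 else 0)
        ≤ ∑ j ∈ Finset.range (J+1), ((1/4:ℝ) ^ j * 1) * (3 * C * dens W * (2 ^ j * Real.log ρ)) := by
          refine Finset.sum_le_sum fun j hj => ?_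
          rw [Finset.mem_range] at hj
          exact mul_le_mul_of_nonneg_left (hF2 j (by omega)) (by positivity)
      _ = (∑ j ∈ Finset.range (J+1), (1/2:ℝ) ^ j) * (3 * C * dens W * Real.log ρ) := by
          rw [Finset.sum_mul]
          refine Finset.sum_congr rfl fun j _ => ?_
          have : (1/4:ℝ) ^ j * 2 ^ j = (1/2:ℝ) ^ j := by rw [← mul_pow]; norm_num
          rw [← this]; ring
      _ ≤ 2 * (3 * C * dens W * Real.log ρ) := by
          refine mul_le_mul_of_nonneg_right ?_ ?_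
          · have := sum_geometric_two_le (J+1)
            simpa using this
          · have : 0 ≤ C * dens W := mul_nonneg (by linarith) hdens
            nlinarith [mul_nonneg this (by linarith : (0:ℝ) ≤ Real.log ρ)]
      _ = 6 * C * dens W * Real.log ρ := by ring
  · -- upper bound for B1
    have h1 : sum1 (Pr W R) κ₁ (fun a => (gst ρ J a) ^ 2 * Real.log a) ≤
        sum1 (Pr W R) κ₁ (fun a => ∑ j ∈ Finset.range (J+1), ((1/4:ℝ) ^ j * (2 ^ j * Real.log ρ)) *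
          (if a ≤ ρ ^ (2 ^ j) then 1 else 0)) := by
      refine sum1_mono hP1 hκ0 (fun p hp => le_rfl) ?_ ?_
      · intro a _
        refine Finset.sum_nonneg fun j _ => ?_
        have : 0 ≤ Real.log ρ := by linarith
        positivity
      · intro a ha
        refine gst_sq_le (J := J) (a := a) hρ1 (fun j => 2 ^ j * Real.log ρ) (Real.log a)
          (Real.log_natCast_nonneg a) (fun j => ?_) (fun j hj => ?_)
        · have : 0 ≤ Real.log ρ := by linarith
          positivity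
        · rw [← hlogpow j]
          exact Real.log_le_log (by exact_mod_cast ha) (by exact_mod_cast hj)
    rw [sum1_sum] at h1
    refine h1.trans ?_
    calc ∑ j ∈ Finset.range (J+1), ((1/4:ℝ) ^ j * (2 ^ j * Real.log ρ)) *
          sum1 (Pr W R) κ₁ (fun a => if a ≤ ρ ^ (2 ^ j) then 1 else 0)
        ≤ ∑ j ∈ Finset.range (J+1), ((1/4:ℝ) ^ j * (2 ^ j * Real.log ρ)) *
          (3 * C * dens W * (2 ^ j * Real.log ρ)) := by
          refine Finset.sum_le_sum fun j hj => ?_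
          rw [Finset.mem_range] at hj
          have : 0 ≤ Real.log ρ := by linarith
          exact mul_le_mul_of_nonneg_left (hF2 j (by omega)) (by positivity)
      _ = ∑ j ∈ Finset.range (J+1), (3 * C * dens W * (Real.log ρ) ^ 2) := by
          refine Finset.sum_congr rfl fun j _ => ?_
          have : (1/4:ℝ) ^ j * (2 ^ j * 2 ^ j) = 1 := by
            rw [← mul_pow, ← mul_pow]; norm_num
          calc _ = ((1/4:ℝ) ^ j * (2 ^ j * 2 ^ j)) * (3 * C * dens W * (Real.log ρ) ^ 2) := by ring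
            _ = _ := by rw [this, one_mul]
      _ = (J + 1) * (3 * C * dens W * (Real.log ρ) ^ 2) := by
          rw [Finset.sum_const, Finset.card_range, nsmul_eq_mul]; push_cast; ring
      _ ≤ 6 * C * (J + 1) * dens W * (Real.log ρ) ^ 2 := by
          have : 0 ≤ (J + 1 : ℝ) * (C * dens W * (Real.log ρ) ^ 2) := by
            have : 0 ≤ C * dens W := mul_nonneg (by linarith) hdens
            positivity
          nlinarith
  · -- F R
    refine (hF R (by omega) le_rfl).trans ?_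
    have h1 : Real.log ρ ≤ Real.log R :=
      Real.log_le_log (by positivity) (by exact_mod_cast hρR)
    have h2 : Real.log R + Real.log 2 + 1 + Real.log W ≤ 6 * Real.log R := by linarith
    calc C * dens W * (Real.log R + Real.log 2 + 1 + Real.log W)
        ≤ C * dens W * (6 * Real.log R) :=
          mul_le_mul_of_nonneg_left h2 (mul_nonneg (by linarith) hdens)
      _ = _ := by ring

end Pool.Agent.Lib.MT
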