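import Pool.Agent.Lib.MT.UpperAux
import Pool.Agent.Lib.MT.Hits
import Pool.Agent.Lib.MT.LamMax
import Pool.Agent.Lib.MT.Params
import Pool.Agent.Lib.MT.SOneUpper

/-!
# The Selberg upper bound for rough integers in a progression

With `R = ⌊N ^ δ'⌋`, `δ' = min δ (1/100)`, `y = yOf (gst R 0) R` and `lam = lamOf y`, every integer
counted satisfies `wn h lam n = (lam none)²`, and `lam none` is bounded from below by
`1/2 (dens W log u) ^ j`, `u = ⌊N ^ (2a)⌋`, `a = δ' / (4 (j+1))`.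
-/

open Finset
open scoped Classical

namespace Pool.Agent.Lib.MT

open UpperAux in
theorem rough_upper (j : ℕ) : ∃ D : ℕ, ∀ δ : ℝ, 0 < δ → ∃ C : ℝ, 0 < C ∧
    ∀ K : ℕ, ∃ N₀ : ℕ, ∀ N ≥ N₀, ∀ (W v : ℕ), 1 ≤ W →
    (W:ℝ) ≤ (Real.log N) ^ K → (∀ p, p.Prime → p ≤ D → p ∣ W) →
    ∀ h : Fin j → ℕ, (∀ i i', i ≠ i' → ∀ p, p.Prime → h i ≡ h i' [MOD p] → p ∣ W) →
    (((Finset.Ioc N (2*N)).filter (fun n => n ≡ v [MOD W] ∧
        (∀ i, ∀ p : ℕ, p.Prime → p ∣ n + h i → (N:ℝ) ^ δ < p))).card : ℝ) ≤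
      C * ((N:ℝ) / W) / (dens W * Real.log N) ^ j := by
  obtain ⟨C₀, hC₀, hpar⟩ := params
  refine ⟨4 * j ^ 2 + j + 2, fun δ hδ => ?_⟩
  set D : ℕ := 4 * j ^ 2 + j + 2 with hD
  set δ' : ℝ := min δ (1/100) with hδ'
  have hδ'0 : 0 < δ' := lt_min hδ (by norm_num)
  have hδ'1 : δ' ≤ 1/100 := min_le_right _ _
  have hδ'2 : δ' ≤ δ := min_le_left _ _
  set a : ℝ := δ' / (4 * (j+1)) with ha
  have ha0 : 0 < a := by positivity
  set C₁ : ℝ := Real.exp 1 * C₀ with hC₁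
  have hC₁0 : 0 < C₁ := by positivity
  refine ⟨4 * (C₁ ^ j + 1) / a ^ (2*j), by positivity, fun K => ?_⟩
  have hev := (((((ev_log 6 K δ' hδ'0).and (ev_log 2 0 (δ'/2) (by positivity))).and
    (ev_log 2 0 a ha0)).and (ev_log (C₀ ^ j) (2*j) (1/100) (by norm_num))).and
    (ev_log 1 (K * (j+1)) (1/2) (by norm_num))).and (Filter.eventually_ge_atTop 3)
  obtain ⟨N₀, hN₀⟩ := Filter.eventually_atTop.1 hev
  refine ⟨N₀, fun N hN W v hW hWK hWD h hh => ?_⟩
  obtain ⟨⟨⟨⟨⟨hf1, hf2⟩, hf3⟩, hf4⟩, hf5⟩, hN3⟩ := hN₀ N hN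
  set L : ℝ := Real.log N with hL
  have hNR : (3:ℝ) ≤ N := by exact_mod_cast hN3
  have hN0 : (0:ℝ) < N := by linarith
  have hL1 : 1 ≤ L := by
    rw [hL, Real.le_log_iff_exp_le hN0]
    have := Real.exp_one_lt_d9
    linarith
  simp only [pow_zero, mul_one] at hf2 hf3
  -- the level
  set R : ℕ := ⌊(N:ℝ) ^ δ'⌋₊ with hR
  have hRle : (R:ℝ) ≤ (N:ℝ) ^ δ' := Nat.floor_le (by positivity)
  have hsq : (N:ℝ) ^ δ' = (N:ℝ) ^ (δ'/2) * (N:ℝ) ^ (δ'/2) := by
    rw [← Real.rpow_add hN0]; congr 1; ring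
  have hRge' : (N:ℝ) ^ δ' - 1 < R := by
    have := Nat.lt_floor_add_one ((N:ℝ) ^ δ')
    rw [← hR] at this
    linarith
  have hRge2 : (N:ℝ) ^ (δ'/2) ≤ R := (half_of_sq hf2 hsq hRge').1
  have hRhalf : (N:ℝ) ^ δ' ≤ 2 * R := (half_of_sq hf2 hsq hRge').2
  have hR2 : (2:ℝ) ≤ R := le_trans hf2 hRge2
  have hR2' : 2 ≤ R := by exact_mod_cast hR2
  have hR0 : (0:ℝ) < R := by linarith
  have hRN : (R:ℝ) ≤ N := by
    refine le_trans hRle ?_
    calc (N:ℝ) ^ δ' ≤ (N:ℝ) ^ (1:ℝ) :=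
          Real.rpow_le_rpow_of_exponent_le (by linarith) (by linarith)
      _ = N := Real.rpow_one _
  have hlogR : Real.log R ≤ L := Real.log_le_log hR0 hRN
  have hlogR0 : 0 ≤ Real.log R := Real.log_nonneg (by linarith)
  have hRδ : (R:ℝ) ≤ (N:ℝ) ^ δ :=
    le_trans hRle (Real.rpow_le_rpow_of_exponent_le (by linarith) hδ'2)
  have hR100 : (R:ℝ) ≤ (N:ℝ) ^ (1/100 : ℝ) :=
    le_trans hRle (Real.rpow_le_rpow_of_exponent_le (by linarith) hδ'1)
  -- the modulus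
  have hW0 : (0:ℝ) < W := by exact_mod_cast hW
  have hWL : (W:ℝ) ≤ (1 + L) ^ K :=
    le_trans hWK (pow_le_pow_left₀ (by linarith) (by linarith) K)
  have hWR : 1 + Real.log W ≤ Real.log R := by
    have h1 : 3 * (W:ℝ) ≤ R := by linarith
    have h2 : Real.log (3 * (W:ℝ)) ≤ Real.log R := Real.log_le_log (by positivity) h1
    rw [Real.log_mul (by norm_num) hW0.ne'] at h2
    have h3 : (1:ℝ) ≤ Real.log 3 := by
      rw [Real.le_log_iff_exp_le (by norm_num)]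
      have := Real.exp_one_lt_d9
      linarith
    linarith
  have hdens0 : 0 < dens W := by
    unfold dens
    have : 0 < W.totient := Nat.totient_pos.2 hW
    positivity
  have hdens1 : dens W ≤ 1 := by
    unfold dens
    rw [div_le_one hW0]
    exact_mod_cast Nat.totient_le W
  have hdensW : 1 / (W:ℝ) ≤ dens W := by
    unfold dens
    have : (1:ℝ) ≤ W.totient := by exact_mod_cast Nat.totient_pos.2 hW
    gcongr
  set P := Pr W R with hP
  have hPp : ∀ p ∈ P, p.Prime := fun p hp => Pr_prime hp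
  have hPD : ∀ p ∈ P, D < p := by
    intro p hp
    by_contra hc
    exact Pr_not_dvd hp (hWD p (hPp p hp) (by omega))
  have hPD2 : ∀ p ∈ P, 2 ≤ p ∧ j ≤ p := fun p hp => by
    have := hPD p hp
    constructor <;> omega
  -- the small level
  set u : ℕ := ⌊(N:ℝ) ^ (2*a)⌋₊ with hu
  have hule : (u:ℝ) ≤ (N:ℝ) ^ (2*a) := Nat.floor_le (by positivity)
  have hua : (N:ℝ) ^ a ≤ u := by
    have h1 := Nat.lt_floor_add_one ((N:ℝ) ^ (2*a))
    rw [← hu] at h1
    have h2 : (N:ℝ) ^ (2*a) = (N:ℝ) ^ a * (N:ℝ) ^ a := by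
      rw [← Real.rpow_add hN0]; congr 1; ring
    exact (half_of_sq hf3 h2 (by linarith)).1
  have hu1' : (1:ℝ) ≤ u := by linarith
  have hu1 : 1 ≤ u := by exact_mod_cast hu1'
  have hlogu : a * L ≤ Real.log u := by
    rw [hL, ← Real.log_rpow hN0]
    exact Real.log_le_log (by positivity) hua
  have hupow : u ^ (j+1) ≤ R := by
    have : ((u ^ (j+1) : ℕ) : ℝ) ≤ R := by
      push_cast
      calc (u:ℝ) ^ (j+1) ≤ ((N:ℝ) ^ (2*a)) ^ (j+1) := pow_le_pow_left₀ (by positivity) hule _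
        _ = (N:ℝ) ^ (δ'/2) := by
            rw [← Real.rpow_natCast, ← Real.rpow_mul hN0.le]
            congr 1
            rw [ha]
            push_cast
            field_simp
            ring
        _ ≤ R := hRge2
    exact_mod_cast this
  have huj : u ^ j ≤ R := le_trans (Nat.pow_le_pow_right hu1 (Nat.le_succ j)) hupow
  have huR : u ≤ R := by
    refine le_trans ?_ hupow
    exact Nat.le_self_pow (Nat.succ_ne_zero j) u
  -- the weights
  set lam : Asg P j → ℝ := lamOf (yOf (gst R 0) R) with hlam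
  have hlow : (1/2 : ℝ) * (dens W * Real.log u) ^ j ≤ lam (fun _ => none) :=
    lam_none_ge j W R u D hW hu1 huR huj (by omega) hPD
  have hlow2 : (1/2 : ℝ) * (dens W * (a * L)) ^ j ≤ lam (fun _ => none) := by
    refine le_trans ?_ hlow
    gcongr
  have hgle1 : ∀ a, gst R 0 a ≤ 1 := gst_le_one R 0
  have hgnn : ∀ a, 0 ≤ gst R 0 a := gst_nonneg R 0
  obtain ⟨-, -, hp3, -, hp5⟩ := hpar W R R 0 hW hR2' (by simp) hWR
  -- the error term
  have hsumlam : ∑ s, |lam s| ≤ (N:ℝ) ^ (1/4 : ℝ) := by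
    have h1 := sum_abs_lam_le (P := P) (k := j) hPp (gst R 0) hgnn hgle1 R (by omega)
    have h2 : sum1 P κ₁ (fun a => if a ≤ R then 1 else 0) ≤ C₀ * (1 + L) := by
      refine le_trans hp5 ?_
      calc C₀ * dens W * Real.log R ≤ C₀ * 1 * (1 + L) := by
            gcongr
            linarith
        _ = C₀ * (1 + L) := by ring
    have h20 : 0 ≤ sum1 P κ₁ (fun a => if a ≤ R then 1 else 0) := by
      unfold sum1
      refine Finset.sum_nonneg fun T hT => ?_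
      rw [Finset.mem_powerset] at hT
      refine mul_nonneg ?_
        (Finset.prod_nonneg fun p hp => kappa1_nonneg_up (hPp p (hT hp)))
      show (0:ℝ) ≤ if (∏ p ∈ T, p) ≤ R then 1 else 0
      split_ifs <;> norm_num
    calc ∑ s, |lam s| ≤ R * (1 + Real.log R) ^ j *
          (sum1 P κ₁ (fun a => if a ≤ R then 1 else 0)) ^ j := h1
      _ ≤ (N:ℝ) ^ (1/100 : ℝ) * (1 + L) ^ j * (C₀ * (1 + L)) ^ j := by
          refine mul_le_mul (mul_le_mul hR100 ?_ (by positivity) (by positivity)) ?_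
            (by positivity) (by positivity)
          · exact pow_le_pow_left₀ (by linarith) (by linarith) j
          · exact pow_le_pow_left₀ h20 h2 j
      _ = (N:ℝ) ^ (1/100 : ℝ) * (C₀ ^ j * (1 + L) ^ (2*j)) := by
          rw [mul_pow, two_mul, pow_add]; ring
      _ ≤ (N:ℝ) ^ (1/100 : ℝ) * (N:ℝ) ^ (1/100 : ℝ) := by gcongr
      _ = (N:ℝ) ^ (1/50 : ℝ) := by
          rw [← Real.rpow_add hN0]; norm_num
      _ ≤ (N:ℝ) ^ (1/4 : ℝ) :=
          Real.rpow_le_rpow_of_exponent_le (by linarith) (by norm_num)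
  have herr : (∑ s, |lam s|) ^ 2 ≤ (N:ℝ) ^ (1/2 : ℝ) := by
    have h0 : 0 ≤ ∑ s, |lam s| := Finset.sum_nonneg fun _ _ => abs_nonneg _
    calc (∑ s, |lam s|) ^ 2 ≤ ((N:ℝ) ^ (1/4 : ℝ)) ^ 2 := pow_le_pow_left₀ h0 hsumlam 2
      _ = (N:ℝ) ^ (1/2 : ℝ) := by
          rw [← Real.rpow_natCast, ← Real.rpow_mul hN0.le]; norm_num
  -- the main term
  have hmain : formK (fun p => (p:ℝ)) lam ≤ (C₁ * (dens W * L)) ^ j := by
    have h1 := sOne_upper (P := P) (k := j) hPD2 (gst R 0) hgnn R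
    refine le_trans h1 ?_
    have hanti : Antitone (fun a => (gst R 0 a) ^ 2) := by
      intro x y hxy
      exact pow_le_pow_left₀ (hgnn _) (gst_antitone R 0 hxy) 2
    have h2 := sum1_kappa2_le P (fun p hp => (hPD2 p hp).1) (fun a => (gst R 0 a) ^ 2) hanti
      (fun a => by positivity)
    have h3 : Real.exp (∑ p ∈ P, (κ₁ p) ^ 2) ≤ Real.exp 1 := by
      refine Real.exp_le_exp.2 ?_
      refine le_trans (sum_kappa1_sq_le P D (by omega) hPD) ?_
      have : (2:ℝ) ≤ D := by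
        have : 2 ≤ D := by omega
        exact_mod_cast this
      rw [div_le_one (by linarith)]
      exact this
    have h20 : 0 ≤ sum1 P κ₁ (fun a => (gst R 0 a) ^ 2) := by
      unfold sum1
      refine Finset.sum_nonneg fun T hT => ?_
      rw [Finset.mem_powerset] at hT
      exact mul_nonneg (by positivity)
        (Finset.prod_nonneg fun p hp => kappa1_nonneg_up (hPp p (hT hp)))
    have h40 : 0 ≤ sum1 P κ₂ (fun a => (gst R 0 a) ^ 2) := by
      unfold sum1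
      refine Finset.sum_nonneg fun T hT => ?_
      refine mul_nonneg (by positivity) (Finset.prod_nonneg fun p _ => ?_)
      unfold κ₂
      positivity
    refine pow_le_pow_left₀ h40 ?_ j
    calc sum1 P κ₂ (fun a => (gst R 0 a) ^ 2)
        ≤ Real.exp (∑ p ∈ P, (κ₁ p) ^ 2) * sum1 P κ₁ (fun a => (gst R 0 a) ^ 2) := h2
      _ ≤ Real.exp 1 * (C₀ * dens W * Real.log R) := by
          exact mul_le_mul h3 hp3 h20 (Real.exp_pos 1).le
      _ ≤ Real.exp 1 * (C₀ * dens W * L) := by gcongr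
      _ = C₁ * (dens W * L) := by rw [hC₁]; ring
  -- every rough integer has weight `(lam none)²`
  have hwn : ∀ n ∈ (Finset.Ioc N (2*N)).filter (fun n => n ≡ v [MOD W] ∧
      (∀ i, ∀ p : ℕ, p.Prime → p ∣ n + h i → (N:ℝ) ^ δ < p)),
      (lam (fun _ => none)) ^ 2 = wn h lam n := by
    intro n hn
    rw [Finset.mem_filter] at hn
    obtain ⟨-, -, hn2⟩ := hn
    unfold wn
    congr 1
    rw [Finset.sum_eq_single (fun _ => none : Asg P j)]
    · rw [if_pos]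
      intro p i hpi
      exact absurd hpi (by simp)
    · intro s _ hs
      rw [if_neg]
      intro hhit
      apply hs
      funext p
      by_contra hp
      obtain ⟨i, hi⟩ := Option.ne_none_iff_exists'.1 hp
      have h1 := hhit p i hi
      have h2 := hn2 i p (hPp p p.2) h1
      have h3 : ((p:ℕ):ℝ) ≤ R := by exact_mod_cast Pr_le p.2
      linarith
    · intro hc
      exact absurd (Finset.mem_univ _) hc
  set S := (Finset.Ioc N (2*N)).filter (fun n => n ≡ v [MOD W] ∧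
      (∀ i, ∀ p : ℕ, p.Prime → p ∣ n + h i → (N:ℝ) ^ δ < p)) with hS
  have hcount : (S.card : ℝ) * (lam (fun _ => none)) ^ 2 ≤
      ∑ n ∈ (Finset.Ioc N (2*N)).filter (fun n => n ≡ v [MOD W]), wn h lam n := by
    rw [← nsmul_eq_mul, ← Finset.sum_const, Finset.sum_congr rfl hwn]
    refine Finset.sum_le_sum_of_subset_of_nonneg ?_ ?_
    · intro n hn
      rw [hS, Finset.mem_filter] at hn
      rw [Finset.mem_filter]
      exact ⟨hn.1, hn.2.1⟩
    · intro n _ _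
      unfold wn
      exact sq_nonneg _
  have hsum := sum_wn (P := P) (k := j) hPp N W v hW (fun p hp => Pr_not_dvd hp) h
    (fun p hp i i' hne hmod => Pr_not_dvd hp (hh i i' hne p (hPp p hp) hmod)) lam
  have hsum2 := (abs_le.1 hsum).2
  set x : ℝ := dens W * L with hx
  have hx0 : 0 < x := by positivity
  have hNW : 0 < (N:ℝ) / W := by positivity
  clear_value x a C₁
  -- the error is small
  have herr2 : (N:ℝ) ^ (1/2 : ℝ) ≤ (N:ℝ) / W * x ^ j := by
    set Y : ℝ := (1 + L) ^ K with hY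
    have hY1 : 1 ≤ Y := one_le_pow₀ (by linarith)
    have hY0 : 0 < Y := by linarith
    have hxY : 1 / Y ≤ x := by
      have h1 : 1 / Y ≤ 1 / (W:ℝ) := one_div_le_one_div_of_le hW0 hWL
      have h2 : dens W * 1 ≤ dens W * L := mul_le_mul_of_nonneg_left hL1 hdens0.le
      linarith
    have hYj : Y ^ (j+1) ≤ (N:ℝ) ^ (1/2 : ℝ) := by
      rw [hY, ← pow_mul]
      linarith
    have hNN : (N:ℝ) ^ (1/2 : ℝ) * (N:ℝ) ^ (1/2 : ℝ) = N := by
      rw [← Real.rpow_add hN0]; norm_num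
    calc (N:ℝ) ^ (1/2 : ℝ) ≤ (N:ℝ) / Y ^ (j+1) := by
          rw [le_div_iff₀ (by positivity)]
          calc (N:ℝ) ^ (1/2 : ℝ) * Y ^ (j+1) ≤ (N:ℝ) ^ (1/2 : ℝ) * (N:ℝ) ^ (1/2 : ℝ) := by gcongr
            _ = N := hNN
      _ = (N:ℝ) / Y * (1 / Y) ^ j := by
          rw [one_div_pow, div_mul_div_comm, mul_one, pow_succ, mul_comm (Y ^ j) Y]
      _ ≤ (N:ℝ) / W * x ^ j := by gcongr
  have hfin : (S.card : ℝ) * ((1/4 : ℝ) * (a ^ (2*j) * x ^ (2*j))) ≤
      (C₁ ^ j + 1) * ((N:ℝ) / W) * x ^ j := by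
    have h1 : (1/4 : ℝ) * (a ^ (2*j) * x ^ (2*j)) ≤ (lam (fun _ => none)) ^ 2 := by
      have h2 : ((1/2 : ℝ) * (dens W * (a * L)) ^ j) ^ 2 ≤ (lam (fun _ => none)) ^ 2 :=
        pow_le_pow_left₀ (by positivity) hlow2 2
      refine le_trans (le_of_eq ?_) h2
      have h3 : dens W * (a * L) = a * x := by rw [hx]; ring
      have h4 : a ^ (2*j) * x ^ (2*j) = ((a * x) ^ j) ^ 2 := by
        rw [← pow_mul, mul_comm j 2, mul_pow]
      rw [h3, h4, mul_pow (1/2 : ℝ)]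
      norm_num
    calc (S.card : ℝ) * ((1/4 : ℝ) * (a ^ (2*j) * x ^ (2*j)))
        ≤ (S.card : ℝ) * (lam (fun _ => none)) ^ 2 :=
          mul_le_mul_of_nonneg_left h1 (Nat.cast_nonneg _)
      _ ≤ ∑ n ∈ (Finset.Ioc N (2*N)).filter (fun n => n ≡ v [MOD W]), wn h lam n := hcount
      _ ≤ (N:ℝ) / W * formK (fun p => (p:ℝ)) lam + (∑ s, |lam s|) ^ 2 := by linarith
      _ ≤ (N:ℝ) / W * (C₁ * x) ^ j + (N:ℝ) / W * x ^ j := by
          have h4 := mul_le_mul_of_nonneg_left hmain hNW.le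
          linarith
      _ = (C₁ ^ j + 1) * ((N:ℝ) / W) * x ^ j := by rw [mul_pow]; ring
  rw [le_div_iff₀ (by positivity)]
  have ha2 : 0 < a ^ (2*j) := by positivity
  have hxj : 0 < x ^ j := by positivity
  have h5 : (S.card : ℝ) * x ^ j * ((1/4) * a ^ (2*j)) ≤ (C₁ ^ j + 1) * ((N:ℝ) / W) := by
    have h6 : ((S.card : ℝ) * x ^ j * ((1/4) * a ^ (2*j))) * x ^ j ≤
        ((C₁ ^ j + 1) * ((N:ℝ) / W)) * x ^ j := by
      calc ((S.card : ℝ) * x ^ j * ((1/4) * a ^ (2*j))) * x ^ j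
          = (S.card : ℝ) * ((1/4 : ℝ) * (a ^ (2*j) * x ^ (2*j))) := by
            rw [two_mul j, pow_add x]; ring
        _ ≤ (C₁ ^ j + 1) * ((N:ℝ) / W) * x ^ j := hfin
    exact le_of_mul_le_mul_right h6 hxj
  calc (S.card : ℝ) * x ^ j = ((S.card : ℝ) * x ^ j * ((1/4) * a ^ (2*j))) * (4 / a ^ (2*j)) := by
        field_simp
    _ ≤ ((C₁ ^ j + 1) * ((N:ℝ) / W)) * (4 / a ^ (2*j)) := by gcongr
    _ = 4 * (C₁ ^ j + 1) / a ^ (2*j) * ((N:ℝ) / W) := by ring

end Pool.Agent.Lib.MT
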