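import Pool.Agent.Lib.MT.Main
import Pool.Agent.Lib.MT.Upper
import Pool.Agent.Lib.Sieve4.Core

/-!
# Summing Maynard's theorem and the Selberg bound over the classes modulo the primes dividing the
differences

D₀ = floor(log log N), P₀ = primorial D₀ ≤ 4^(D₀) ≤ (log N)^2.

(class_lower). E = primes p > D₀ with h i ≡ h j [MOD p] for some i ≠ j; all of them
divide Δ = prod_{i ≠ j} |h i - h j| ≠ 0, Δ ≤ (log N)^(K k²), so prod E ≤ (log N)^(K k²),
W = P₀ prod E ≤ (log N)^(K k² + 2). Apply maynard (exponent K k² + 2) to every class v mod W with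
v ≡ u mod P₀ and all v + h i coprime to W. Their number is at least prod_{p ∈ E} (p - (k-1)).
Total ≥ c (N/P₀) prod_E (1 - (k-1)/p) / (dens W log N)^k,
dens W = dens P₀ prod_E (1 - 1/p), and 1 - (k-1)/p ≥ (1 - 1/p)^k for p ≥ k². Classes
v are disjoint. (D of maynard is ≤ D₀ for N large, so all p ≤ D divide P₀.)
(class_upper). An n lies in one of the prod E classes v mod W with v ≡ u mod P₀; each contributes
≤ C (N/W)/(dens W log N)^j (rough_upper), total ≤ C (N/P₀) /(dens P₀ log N)^j prod_E (1-1/p)^(-j),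
and the last product is ≤ exp(2j |E|/D₀) ≤ 2 because |E| ≤ log Δ/log D₀ ≤ K j² log log N/log D₀.
-/

open Finset
open scoped Classical

namespace Pool.Agent.Lib.MT

/-- The cut off for the small primes. -/
noncomputable def DN (N : ℕ) : ℕ := ⌊Real.log (Real.log N)⌋₊

/-- The modulus of the small primes. -/
noncomputable def PN (N : ℕ) : ℕ := primorial (DN N)

namespace ClassAux

/-! ### Growth -/

theorem tendsto_logN : Filter.Tendsto (fun N : ℕ => Real.log (N : ℝ)) Filter.atTop Filter.atTop :=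
  Real.tendsto_log_atTop.comp tendsto_natCast_atTop_atTop

theorem tendsto_loglogN :
    Filter.Tendsto (fun N : ℕ => Real.log (Real.log (N : ℝ))) Filter.atTop Filter.atTop :=
  Real.tendsto_log_atTop.comp tendsto_logN

theorem tendsto_DN : Filter.Tendsto DN Filter.atTop Filter.atTop :=
  tendsto_nat_floor_atTop.comp tendsto_loglogN

theorem eventually_pow_le (K : ℕ) : ∀ᶠ N : ℕ in Filter.atTop, (Real.log N) ^ K ≤ (N : ℝ) := by
  have h1 := (Real.isLittleO_pow_log_id_atTop (n := K)).bound (show (0 : ℝ) < 1 by norm_num)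
  have h2 := tendsto_natCast_atTop_atTop (R := ℝ) |>.eventually h1
  filter_upwards [h2] with N hN
  have h3 := hN
  simp only [id, one_mul, Real.norm_eq_abs] at h3
  exact (le_abs_self _).trans (h3.trans (le_of_eq (abs_of_nonneg (Nat.cast_nonneg N))))

theorem PN_le {N : ℕ} (hN : 0 ≤ Real.log (Real.log N)) (hN1 : 1 ≤ Real.log N) :
    (PN N : ℝ) ≤ (Real.log N) ^ 2 := by
  have h1 : (PN N : ℝ) ≤ (4 : ℝ) ^ DN N := by
    have := primorial_le_four_pow (DN N)
    exact_mod_cast this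
  have h2 : (4 : ℝ) ^ DN N ≤ (4 : ℝ) ^ (Real.log (Real.log N)) := by
    rw [← Real.rpow_natCast]
    exact Real.rpow_le_rpow_of_exponent_le (by norm_num) (Nat.floor_le hN)
  have h3 : (4 : ℝ) ^ (Real.log (Real.log N)) ≤ (Real.log N) ^ 2 := by
    have e1 : Real.log 4 ≤ 2 := by
      have : (4 : ℝ) = 2 ^ 2 := by norm_num
      rw [this, Real.log_pow]
      have := Real.log_two_lt_d9
      push_cast
      linarith
    have e2 : (0 : ℝ) < Real.log N := by linarith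
    rw [Real.rpow_def_of_pos (by norm_num)]
    calc Real.exp (Real.log 4 * Real.log (Real.log N))
        ≤ Real.exp (2 * Real.log (Real.log N)) :=
          Real.exp_le_exp.2 (mul_le_mul_of_nonneg_right e1 hN)
      _ = (Real.log N) ^ 2 := by
          rw [mul_comm, ← Real.rpow_def_of_pos e2]
          norm_num
  exact h1.trans (h2.trans h3)

/-! ### Counting classes -/

variable {k : ℕ}

/-- the residue classes modulo `M` in which all `v + h i` are coprime to `M` and which lie over the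
class of `u` modulo `P₀` -/
noncomputable def Vcl (P₀ u : ℕ) (h : Fin k → ℕ) (M : ℕ) : Finset ℕ :=
  (Finset.range M).filter (fun v => v ≡ u [MOD P₀] ∧ ∀ i, Nat.Coprime (v + h i) M)

/-- the allowed classes modulo a prime -/
noncomputable def Acl (h : Fin k → ℕ) (p : ℕ) : Finset ℕ :=
  (Finset.range p).filter (fun a => ∀ i, ¬ p ∣ a + h i)

theorem card_Vcl_mul (P₀ u : ℕ) (h : Fin k → ℕ) (M p : ℕ) (hM : 0 < M) (hp : p.Prime)
    (hpM : Nat.Coprime p M) (hP : P₀ ∣ M) :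
    (Vcl P₀ u h (p * M)).card = (Acl h p).card * (Vcl P₀ u h M).card := by
  have key := Pool.Agent.Lib.Sieve4.sum_range_mul_crt p M hp.pos hM hpM
    (fun a => if ∀ i, ¬ p ∣ a + h i then 1 else 0)
    (fun b => if b ≡ u [MOD P₀] ∧ ∀ i, Nat.Coprime (b + h i) M then 1 else 0)
  rw [Finset.sum_boole, Finset.sum_boole] at key
  have h1 : ∑ n ∈ Finset.range (p * M), ((if ∀ i, ¬ p ∣ n % p + h i then (1 : ℝ) else 0) *
      (if n % M ≡ u [MOD P₀] ∧ ∀ i, Nat.Coprime (n % M + h i) M then (1 : ℝ) else 0)) =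
      ((Vcl P₀ u h (p * M)).card : ℝ) := by
    rw [Vcl, ← Finset.sum_boole]
    refine Finset.sum_congr rfl fun n _ => ?_
    have e1 : (∀ i, ¬ p ∣ n % p + h i) ↔ ∀ i, ¬ p ∣ n + h i := by
      refine forall_congr' fun i => not_congr ?_
      constructor
      · intro hd
        exact ((Nat.ModEq.add_right (h i) (Nat.mod_modEq n p)).dvd_iff dvd_rfl).1 hd
      · intro hd
        exact ((Nat.ModEq.add_right (h i) (Nat.mod_modEq n p)).dvd_iff dvd_rfl).2 hd
    have e2 : (n % M ≡ u [MOD P₀]) ↔ (n ≡ u [MOD P₀]) := by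
      have : n % M ≡ n [MOD P₀] := (Nat.mod_modEq n M).of_dvd hP
      exact ⟨fun h => this.symm.trans h, fun h => this.trans h⟩
    have e3 : ∀ i, Nat.Coprime (n % M + h i) M ↔ Nat.Coprime (n + h i) M := by
      intro i
      have h3 : n % M + h i ≡ n + h i [MOD M] := (Nat.mod_modEq n M).add_right _
      rw [Nat.coprime_iff_gcd_eq_one, Nat.coprime_iff_gcd_eq_one, h3.gcd_eq]
    have e4 : (∀ i, Nat.Coprime (n + h i) (p * M)) ↔
        (∀ i, ¬ p ∣ n + h i) ∧ ∀ i, Nat.Coprime (n + h i) M := by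
      rw [← forall_and]
      refine forall_congr' fun i => ?_
      rw [Nat.coprime_mul_iff_right, Nat.coprime_comm, hp.coprime_iff_not_dvd]
    have e5 : (n ≡ u [MOD P₀] ∧ ∀ i, Nat.Coprime (n + h i) (p * M)) ↔
        ((∀ i, ¬ p ∣ n % p + h i) ∧
          (n % M ≡ u [MOD P₀] ∧ ∀ i, Nat.Coprime (n % M + h i) M)) := by
      rw [e4, e1, e2, forall_congr' e3]
      tauto
    rw [if_congr e5 rfl rfl]
    by_cases hA : ∀ i, ¬ p ∣ n % p + h i
    · by_cases hB : n % M ≡ u [MOD P₀] ∧ ∀ i, Nat.Coprime (n % M + h i) M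
      · rw [if_pos hA, if_pos hB, if_pos ⟨hA, hB⟩, mul_one]
      · have hAB : ¬ ((∀ i, ¬ p ∣ n % p + h i) ∧
          (n % M ≡ u [MOD P₀] ∧ ∀ i, Nat.Coprime (n % M + h i) M)) := fun hc => hB hc.2
        rw [if_neg hB, if_neg hAB, mul_zero]
    · have hAB : ¬ ((∀ i, ¬ p ∣ n % p + h i) ∧
          (n % M ≡ u [MOD P₀] ∧ ∀ i, Nat.Coprime (n % M + h i) M)) := fun hc => hA hc.1
      rw [if_neg hA, if_neg hAB, zero_mul]
  rw [h1] at key
  exact_mod_cast key

theorem card_Acl (h : Fin k → ℕ) (p : ℕ) (hp : p.Prime) (i j : Fin k) (hij : i ≠ j)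
    (hmod : h i ≡ h j [MOD p]) : p ≤ (Acl h p).card + (k - 1) := by
  have h1 : Finset.range p ⊆ Acl h p ∪
      (Finset.univ.erase j).image (fun l : Fin k => (p - h l % p) % p) := by
    intro a ha
    rw [Finset.mem_union]
    by_cases hc : ∀ l, ¬ p ∣ a + h l
    · left; exact Finset.mem_filter.2 ⟨ha, hc⟩
    · right
      push Not at hc
      obtain ⟨l, hl⟩ := hc
      have hap : a < p := Finset.mem_range.1 ha
      -- replace `j` by `i`
      obtain ⟨l', hl', hd⟩ : ∃ l', l' ≠ j ∧ p ∣ a + h l' := by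
        by_cases hlj : l = j
        · subst hlj
          exact ⟨i, hij, ((Nat.ModEq.add_left a hmod).dvd_iff dvd_rfl).2 hl⟩
        · exact ⟨l, hlj, hl⟩
      refine Finset.mem_image.2 ⟨l', Finset.mem_erase.2 ⟨hl', Finset.mem_univ _⟩, ?_⟩
      have hlt := Nat.mod_lt (h l') hp.pos
      have hd' : (a + h l' % p) % p = 0 := by
        have e := Nat.mod_eq_zero_of_dvd hd
        rw [Nat.add_mod] at e
        rw [Nat.add_mod, Nat.mod_mod]
        exact e
      have hd'' : p ∣ a + h l' % p := Nat.dvd_of_mod_eq_zero hd'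
      obtain ⟨q, hq⟩ := hd''
      have hq2 : q < 2 := by
        by_contra hcon
        have : p * 2 ≤ p * q := Nat.mul_le_mul_left p (by omega)
        omega
      interval_cases q
      · have e1 : a = 0 := by omega
        have e2 : h l' % p = 0 := by omega
        simp only [e1, e2, Nat.sub_zero, Nat.mod_self]
      · have e1 : p - h l' % p = a := by omega
        simp only [e1]
        exact Nat.mod_eq_of_lt hap
  have h2 := Finset.card_le_card h1
  rw [Finset.card_range] at h2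
  have h3 : ((Finset.univ.erase j).image (fun l : Fin k => (p - h l % p) % p)).card ≤ k - 1 := by
    refine Finset.card_image_le.trans ?_
    rw [Finset.card_erase_of_mem (Finset.mem_univ _), Finset.card_univ, Fintype.card_fin]
  have h4 := Finset.card_union_le (Acl h p)
    ((Finset.univ.erase j).image (fun l : Fin k => (p - h l % p) % p))
  omega

theorem card_Vcl_base (P₀ u : ℕ) (h : Fin k → ℕ) (hP : 0 < P₀)
    (hu : ∀ i, Nat.Coprime (u + h i) P₀) : 1 ≤ (Vcl P₀ u h P₀).card := by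
  rw [Nat.one_le_iff_ne_zero, ← Nat.pos_iff_ne_zero, Finset.card_pos]
  refine ⟨u % P₀, Finset.mem_filter.2 ⟨Finset.mem_range.2 (Nat.mod_lt _ hP),
    Nat.mod_modEq _ _, fun i => ?_⟩⟩
  have h3 : u % P₀ + h i ≡ u + h i [MOD P₀] := (Nat.mod_modEq u P₀).add_right _
  rw [Nat.coprime_iff_gcd_eq_one, h3.gcd_eq]
  exact hu i

theorem coprime_prod (P₀ : ℕ) (E : Finset ℕ) (hE : ∀ p ∈ E, p.Prime) (q : ℕ) (hq : q.Prime)
    (hqE : q ∉ E) (hqP : ¬ q ∣ P₀) : Nat.Coprime q (P₀ * ∏ p ∈ E, p) := by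
  rw [Nat.coprime_mul_iff_right]
  refine ⟨(hq.coprime_iff_not_dvd).2 hqP, Nat.Coprime.prod_right fun p hp => ?_⟩
  rw [Nat.coprime_primes hq (hE p hp)]
  rintro rfl
  exact hqE hp

theorem card_Vcl (P₀ u : ℕ) (h : Fin k → ℕ) (hP : 0 < P₀)
    (hu : ∀ i, Nat.Coprime (u + h i) P₀) (E : Finset ℕ) (hE : ∀ p ∈ E, p.Prime)
    (hEP : ∀ p ∈ E, ¬ p ∣ P₀) :
    ∏ p ∈ E, (Acl h p).card ≤ (Vcl P₀ u h (P₀ * ∏ p ∈ E, p)).card := by
  induction E using Finset.induction_on with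
  | empty =>
    simp only [Finset.prod_empty, mul_one]
    exact card_Vcl_base P₀ u h hP hu
  | insert q E hq ih =>
    have hE' : ∀ p ∈ E, p.Prime := fun p hp => hE p (Finset.mem_insert_of_mem hp)
    have hEP' : ∀ p ∈ E, ¬ p ∣ P₀ := fun p hp => hEP p (Finset.mem_insert_of_mem hp)
    have hq' := hE q (Finset.mem_insert_self _ _)
    have hco := coprime_prod P₀ E hE' q hq' hq (hEP q (Finset.mem_insert_self _ _))
    have hpos : 0 < P₀ * ∏ p ∈ E, p :=
      Nat.mul_pos hP (Finset.prod_pos fun p hp => (hE' p hp).pos)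
    rw [Finset.prod_insert hq, Finset.prod_insert hq,
      show P₀ * (q * ∏ p ∈ E, p) = q * (P₀ * ∏ p ∈ E, p) by ring,
      card_Vcl_mul P₀ u h _ q hpos hq' hco (Dvd.intro _ rfl)]
    exact Nat.mul_le_mul_left _ (ih hE' hEP')

theorem dens_mul (P₀ : ℕ) (hP : 0 < P₀) (E : Finset ℕ) (hE : ∀ p ∈ E, p.Prime)
    (hEP : ∀ p ∈ E, ¬ p ∣ P₀) :
    dens (P₀ * ∏ p ∈ E, p) = dens P₀ * ∏ p ∈ E, (1 - 1 / (p : ℝ)) := by
  induction E using Finset.induction_on with
  | empty => simp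
  | insert q E hq ih =>
    have hE' : ∀ p ∈ E, p.Prime := fun p hp => hE p (Finset.mem_insert_of_mem hp)
    have hEP' : ∀ p ∈ E, ¬ p ∣ P₀ := fun p hp => hEP p (Finset.mem_insert_of_mem hp)
    have hq' := hE q (Finset.mem_insert_self _ _)
    have hco := coprime_prod P₀ E hE' q hq' hq (hEP q (Finset.mem_insert_self _ _))
    have hpos : 0 < P₀ * ∏ p ∈ E, p :=
      Nat.mul_pos hP (Finset.prod_pos fun p hp => (hE' p hp).pos)
    rw [Finset.prod_insert hq, Finset.prod_insert hq,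
      show P₀ * (q * ∏ p ∈ E, p) = q * (P₀ * ∏ p ∈ E, p) by ring,
      show dens P₀ * ((1 - 1 / (q : ℝ)) * ∏ p ∈ E, (1 - 1 / (p : ℝ))) =
        (1 - 1 / (q : ℝ)) * (dens P₀ * ∏ p ∈ E, (1 - 1 / (p : ℝ))) by ring, ← ih hE' hEP']
    rw [dens, dens, Nat.totient_mul hco, Nat.totient_prime hq']
    have hq0 : (q : ℝ) ≠ 0 := by exact_mod_cast hq'.ne_zero
    have hM0 : ((P₀ * ∏ p ∈ E, p : ℕ) : ℝ) ≠ 0 := by exact_mod_cast hpos.ne'
    rw [Nat.cast_mul, Nat.cast_mul (q : ℕ), Nat.cast_sub hq'.one_lt.le]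
    field_simp
    norm_num

/-! ### The exceptional primes -/

/-- the product of the differences -/
noncomputable def Dlt (h : Fin k → ℕ) : ℕ :=
  ∏ x ∈ (Finset.univ : Finset (Fin k × Fin k)).filter (fun x => x.1 ≠ x.2),
    ((h x.1 : ℤ) - h x.2).natAbs

theorem Dlt_ne {h : Fin k → ℕ} (hinj : Function.Injective h) : Dlt h ≠ 0 := by
  rw [Dlt, Finset.prod_ne_zero_iff]
  intro x hx
  rw [Finset.mem_filter] at hx
  rw [Int.natAbs_ne_zero, sub_ne_zero]
  intro hc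
  exact hx.2 (hinj (by exact_mod_cast hc))

theorem Dlt_le {h : Fin k → ℕ} {B : ℝ} (hB : 1 ≤ B) (hh : ∀ i, (h i : ℝ) ≤ B) :
    (Dlt h : ℝ) ≤ B ^ (k ^ 2) := by
  rw [Dlt, Nat.cast_prod]
  calc ∏ x ∈ (Finset.univ : Finset (Fin k × Fin k)).filter (fun x => x.1 ≠ x.2),
        ((((h x.1 : ℤ) - h x.2).natAbs : ℕ) : ℝ)
      ≤ ∏ _x ∈ (Finset.univ : Finset (Fin k × Fin k)).filter (fun x => x.1 ≠ x.2), B := by
        apply Finset.prod_le_prod
        · intro x _; positivity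
        · intro x _
          rw [Nat.cast_natAbs]
          push_cast
          have h1 := hh x.1
          have h2 := hh x.2
          have h3 : (0 : ℝ) ≤ h x.1 := Nat.cast_nonneg _
          have h4 : (0 : ℝ) ≤ h x.2 := Nat.cast_nonneg _
          exact abs_le.2 ⟨by linarith, by linarith⟩
    _ = B ^ ((Finset.univ : Finset (Fin k × Fin k)).filter (fun x => x.1 ≠ x.2)).card := by
        rw [Finset.prod_const]
    _ ≤ B ^ (k ^ 2) := by
        apply pow_le_pow_right₀ hB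
        refine (Finset.card_filter_le _ _).trans ?_
        rw [Finset.card_univ, Fintype.card_prod, Fintype.card_fin, sq]

theorem dvd_Dlt {h : Fin k → ℕ} {p : ℕ} {i j : Fin k} (hij : i ≠ j)
    (hmod : h i ≡ h j [MOD p]) : p ∣ Dlt h := by
  have h1 : p ∣ ((h j : ℤ) - h i).natAbs := by
    have h2 : ((p : ℤ)) ∣ (h j : ℤ) - h i := (Nat.modEq_iff_dvd).1 hmod
    have h3 := Int.natAbs_dvd_natAbs.2 h2
    simpa using h3
  refine h1.trans (Finset.dvd_prod_of_mem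
    (fun x : Fin k × Fin k => ((h x.1 : ℤ) - h x.2).natAbs) (a := (j, i)) ?_)
  rw [Finset.mem_filter]
  exact ⟨Finset.mem_univ _, hij.symm⟩

theorem of_dvd_Dlt {h : Fin k → ℕ} {p : ℕ} (hp : p.Prime) (hd : p ∣ Dlt h) :
    ∃ i j : Fin k, i ≠ j ∧ h i ≡ h j [MOD p] := by
  obtain ⟨x, hx, hx'⟩ := (hp.prime.dvd_finsetProd_iff _).1 hd
  rw [Finset.mem_filter] at hx
  refine ⟨x.2, x.1, fun hc => hx.2 hc.symm, ?_⟩
  rw [Nat.modEq_iff_dvd]
  exact Int.natCast_dvd.2 hx'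

/-- the exceptional primes -/
noncomputable def Exc (h : Fin k → ℕ) (N : ℕ) : Finset ℕ :=
  (Dlt h).primeFactors.filter (fun p => DN N < p)

theorem Exc_prime (h : Fin k → ℕ) (N : ℕ) : ∀ p ∈ Exc h N, p.Prime := fun _ hp =>
  Nat.prime_of_mem_primeFactors (Finset.mem_filter.1 hp).1

theorem Exc_gt (h : Fin k → ℕ) (N : ℕ) : ∀ p ∈ Exc h N, DN N < p := fun _ hp =>
  (Finset.mem_filter.1 hp).2

theorem Exc_not_dvd (h : Fin k → ℕ) (N : ℕ) : ∀ p ∈ Exc h N, ¬ p ∣ PN N := by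
  intro p hp hd
  have h1 := ((Exc_prime h N p hp).dvd_primorial_iff).1 hd
  have h2 := Exc_gt h N p hp
  omega

theorem prod_Exc_le {h : Fin k → ℕ} (hinj : Function.Injective h) (N : ℕ) :
    ∏ p ∈ Exc h N, p ≤ Dlt h := by
  apply Nat.le_of_dvd (Nat.pos_of_ne_zero (Dlt_ne hinj))
  exact (Finset.prod_dvd_prod_of_subset _ _ _ (Finset.filter_subset _ _)).trans
    (Nat.prod_primeFactors_dvd _)

/-- the modulus -/
noncomputable def WN (h : Fin k → ℕ) (N : ℕ) : ℕ := PN N * ∏ p ∈ Exc h N, p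

theorem PN_pos (N : ℕ) : 0 < PN N := primorial_pos _

theorem Q_pos (h : Fin k → ℕ) (N : ℕ) : 0 < ∏ p ∈ Exc h N, p :=
  Finset.prod_pos fun p hp => (Exc_prime h N p hp).pos

theorem WN_pos (h : Fin k → ℕ) (N : ℕ) : 0 < WN h N := Nat.mul_pos (PN_pos N) (Q_pos h N)

theorem dvd_WN {h : Fin k → ℕ} (hinj : Function.Injective h) (N : ℕ) {i j : Fin k}
    (hij : i ≠ j) {p : ℕ} (hp : p.Prime) (hmod : h i ≡ h j [MOD p]) : p ∣ WN h N := by
  rcases le_or_gt p (DN N) with h1 | h1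
  · exact Dvd.dvd.mul_right ((hp.dvd_primorial_iff).2 h1) _
  · refine Dvd.dvd.mul_left (Finset.dvd_prod_of_mem (fun q => q) ?_) _
    exact Finset.mem_filter.2 ⟨Nat.mem_primeFactors.2 ⟨hp, dvd_Dlt hij hmod, Dlt_ne hinj⟩, h1⟩

theorem WN_le {h : Fin k → ℕ} (hinj : Function.Injective h) {N K : ℕ}
    (hN : 0 ≤ Real.log (Real.log N)) (hN1 : 1 ≤ Real.log N)
    (hh : ∀ i, (h i : ℝ) ≤ (Real.log N) ^ K) :
    (WN h N : ℝ) ≤ (Real.log N) ^ (K * k ^ 2 + 2) := by
  rw [WN, Nat.cast_mul, pow_add, pow_mul, mul_comm]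
  refine mul_le_mul ?_ (PN_le hN hN1) (by positivity) (by positivity)
  refine le_trans ?_ (Dlt_le (one_le_pow₀ hN1) hh)
  exact_mod_cast prod_Exc_le hinj N

theorem dens_pos {W : ℕ} (hW : 0 < W) : 0 < dens W := by
  rw [dens]
  have := Nat.totient_pos.2 hW
  positivity

theorem phi_pos (h : Fin k → ℕ) (N : ℕ) : 0 < ∏ p ∈ Exc h N, (1 - 1 / (p : ℝ)) := by
  apply Finset.prod_pos
  intro p hp
  have h1 : (1 : ℝ) < p := by exact_mod_cast (Exc_prime h N p hp).one_lt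
  have h2 : 1 / (p : ℝ) < 1 := by
    rw [div_lt_one (by linarith)]
    exact h1
  linarith

theorem dens_WN (h : Fin k → ℕ) (N : ℕ) :
    dens (WN h N) = dens (PN N) * ∏ p ∈ Exc h N, (1 - 1 / (p : ℝ)) :=
  dens_mul _ (PN_pos N) _ (Exc_prime h N) (Exc_not_dvd h N)

/-- the local inequality -/
theorem local_ineq (k p : ℕ) (hk : 1 ≤ k) (hp : 0 < p) (hpk : k ^ 2 ≤ p) :
    (p : ℝ) * (1 - 1 / (p : ℝ)) ^ k ≤ (p : ℝ) - ((k : ℝ) - 1) := by
  have hp0 : (0 : ℝ) < p := by exact_mod_cast hp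
  set x : ℝ := 1 / (p : ℝ) with hx
  have hx0 : 0 < x := by positivity
  have hpx : (p : ℝ) * x = 1 := by rw [hx]; field_simp
  have hx1 : x ≤ 1 := by
    rw [hx, div_le_one hp0]
    exact_mod_cast hp
  have hk0 : (1 : ℝ) ≤ k := by exact_mod_cast hk
  have hkx : (k : ℝ) ^ 2 * x ≤ 1 := by
    rw [← hpx]
    exact mul_le_mul_of_nonneg_right (by exact_mod_cast hpk) hx0.le
  have h1 : (1 - x) ^ k * (1 + k * x) ≤ 1 := by
    calc (1 - x) ^ k * (1 + k * x) ≤ (1 - x) ^ k * (1 + x) ^ k :=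
          mul_le_mul_of_nonneg_left (one_add_mul_le_pow (by linarith) k)
            (pow_nonneg (by linarith) k)
      _ = ((1 - x) * (1 + x)) ^ k := (mul_pow _ _ _).symm
      _ ≤ 1 := pow_le_one₀ (mul_nonneg (by linarith) (by linarith)) (by nlinarith)
  have h2 : 1 ≤ (1 - ((k : ℝ) - 1) * x) * (1 + k * x) := by
    have e1 : (k : ℝ) * (k - 1) * x ≤ 1 := by nlinarith [mul_nonneg (by linarith : (0:ℝ) ≤ k) hx0.le]
    have e2 : 0 ≤ x * (1 - (k : ℝ) * (k - 1) * x) := mul_nonneg hx0.le (by linarith)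
    have e3 : (1 - ((k : ℝ) - 1) * x) * (1 + k * x) = 1 + x * (1 - (k : ℝ) * (k - 1) * x) := by
      ring
    linarith
  have h3 : (1 - x) ^ k ≤ 1 - ((k : ℝ) - 1) * x := by
    have h4 : (0 : ℝ) < 1 + k * x := by positivity
    exact le_of_mul_le_mul_right (h1.trans h2) h4
  calc (p : ℝ) * (1 - x) ^ k ≤ p * (1 - ((k : ℝ) - 1) * x) :=
        mul_le_mul_of_nonneg_left h3 hp0.le
    _ = (p : ℝ) - ((k : ℝ) - 1) * (p * x) := by ring
    _ = (p : ℝ) - ((k : ℝ) - 1) := by rw [hpx, mul_one]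

theorem count_lower {h : Fin k → ℕ} (hk : 1 ≤ k) {N u : ℕ}
    (hu : ∀ i, Nat.Coprime (u + h i) (PN N)) (hD : k ^ 2 ≤ DN N) :
    ((∏ p ∈ Exc h N, p : ℕ) : ℝ) * (∏ p ∈ Exc h N, (1 - 1 / (p : ℝ))) ^ k ≤
      ((Vcl (PN N) u h (WN h N)).card : ℝ) := by
  have h1 := card_Vcl (PN N) u h (PN_pos N) hu (Exc h N) (Exc_prime h N) (Exc_not_dvd h N)
  have h2 : ((∏ p ∈ Exc h N, (Acl h p).card : ℕ) : ℝ) ≤
      ((Vcl (PN N) u h (WN h N)).card : ℝ) := by exact_mod_cast h1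
  refine le_trans ?_ h2
  rw [Nat.cast_prod, Nat.cast_prod, ← Finset.prod_pow, ← Finset.prod_mul_distrib]
  apply Finset.prod_le_prod
  · intro p hp
    have h3 : (1 : ℝ) ≤ p := by exact_mod_cast (Exc_prime h N p hp).one_lt.le
    have h4 : 1 / (p : ℝ) ≤ 1 := by
      rw [div_le_one (by linarith)]
      exact h3
    have h5 : (0 : ℝ) ≤ 1 - 1 / (p : ℝ) := by linarith
    positivity
  · intro p hp
    obtain ⟨i, j, hij, hmod⟩ := of_dvd_Dlt (h := h) (Exc_prime h N p hp)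
      (Nat.dvd_of_mem_primeFactors (Finset.mem_filter.1 hp).1)
    have h3 := card_Acl h p (Exc_prime h N p hp) i j hij hmod
    have h4 := local_ineq k p hk (Exc_prime h N p hp).pos (hD.trans (Exc_gt h N p hp).le)
    have h5 : (p : ℝ) ≤ ((Acl h p).card : ℝ) + ((k : ℝ) - 1) := by
      have h6 : ((k - 1 : ℕ) : ℝ) = (k : ℝ) - 1 := by
        rw [Nat.cast_sub hk, Nat.cast_one]
      rw [← h6]
      exact_mod_cast h3
    linarith

/-- the product over the exceptional primes is close to one -/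
theorem one_sub_sum_le_prod (E : Finset ℕ) (f : ℕ → ℝ) (hf : ∀ p ∈ E, 0 ≤ f p ∧ f p ≤ 1) :
    1 - ∑ p ∈ E, f p ≤ ∏ p ∈ E, (1 - f p) := by
  induction E using Finset.induction_on with
  | empty => simp
  | insert q E hq ih =>
    have h1 := ih fun p hp => hf p (Finset.mem_insert_of_mem hp)
    obtain ⟨h2, h3⟩ := hf q (Finset.mem_insert_self _ _)
    rw [Finset.sum_insert hq, Finset.prod_insert hq]
    have h4 : (0 : ℝ) ≤ ∑ p ∈ E, f p :=
      Finset.sum_nonneg fun p hp => (hf p (Finset.mem_insert_of_mem hp)).1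
    have h5 : (1 - f q) * (1 - ∑ p ∈ E, f p) ≤ (1 - f q) * ∏ p ∈ E, (1 - f p) :=
      mul_le_mul_of_nonneg_left h1 (by linarith)
    nlinarith [mul_nonneg h2 h4]

theorem phi_lower {h : Fin k → ℕ} (hinj : Function.Injective h) {N K : ℕ}
    (hN1 : 1 ≤ Real.log N)
    (hh : ∀ i, (h i : ℝ) ≤ (Real.log N) ^ K) (hD : 2 ≤ DN N)
    (hlog : 4 * (K : ℝ) * (k : ℝ) ^ 3 ≤ Real.log (DN N)) :
    1 / 2 ≤ (∏ p ∈ Exc h N, (1 - 1 / (p : ℝ))) ^ k := by
  set D : ℝ := (DN N : ℝ) with hDdef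
  have hD2 : (2 : ℝ) ≤ D := by rw [hDdef]; exact_mod_cast hD
  have hlD : 0 < Real.log D := Real.log_pos (by linarith)
  -- number of exceptional primes
  have h1 : ((Exc h N).card : ℝ) * Real.log D ≤ K * (k : ℝ) ^ 2 * Real.log (Real.log N) := by
    have e1 : D ^ (Exc h N).card ≤ ((∏ p ∈ Exc h N, p : ℕ) : ℝ) := by
      rw [Nat.cast_prod, ← Finset.prod_const]
      apply Finset.prod_le_prod
      · intro p _; linarith
      · intro p hp
        rw [hDdef]
        exact_mod_cast (Exc_gt h N p hp).le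
    have e2 : ((∏ p ∈ Exc h N, p : ℕ) : ℝ) ≤ ((Real.log N) ^ K) ^ (k ^ 2) := by
      refine le_trans ?_ (Dlt_le (one_le_pow₀ hN1) hh)
      exact_mod_cast prod_Exc_le hinj N
    have e3 := Real.log_le_log (by positivity) (e1.trans e2)
    rw [Real.log_pow, Real.log_pow, Real.log_pow] at e3
    push_cast at e3
    linarith
  have h2 : Real.log (Real.log N) ≤ 2 * D := by
    have := Nat.lt_floor_add_one (Real.log (Real.log N))
    have h3 : Real.log (Real.log N) < D + 1 := this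
    linarith
  have h3 : (k : ℝ) * ((Exc h N).card : ℝ) / D ≤ 1 / 2 := by
    rw [div_le_iff₀ (by linarith)]
    have e1 : ((k : ℝ) * ((Exc h N).card : ℝ)) * Real.log D ≤ (1 / 2 * D) * Real.log D := by
      calc ((k : ℝ) * ((Exc h N).card : ℝ)) * Real.log D
          = k * (((Exc h N).card : ℝ) * Real.log D) := by ring
        _ ≤ k * (K * (k : ℝ) ^ 2 * Real.log (Real.log N)) :=
            mul_le_mul_of_nonneg_left h1 (by positivity)
        _ ≤ k * (K * (k : ℝ) ^ 2 * (2 * D)) := by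
            apply mul_le_mul_of_nonneg_left _ (by positivity)
            exact mul_le_mul_of_nonneg_left h2 (by positivity)
        _ = 1 / 2 * D * (4 * K * (k : ℝ) ^ 3) := by ring
        _ ≤ 1 / 2 * D * Real.log D := mul_le_mul_of_nonneg_left hlog (by positivity)
    exact le_of_mul_le_mul_right e1 hlD
  have h4 : ∑ p ∈ Exc h N, 1 / (p : ℝ) ≤ ((Exc h N).card : ℝ) / D := by
    rw [div_eq_mul_one_div, ← nsmul_eq_mul]
    apply Finset.sum_le_card_nsmul
    intro p hp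
    apply one_div_le_one_div_of_le (by linarith)
    rw [hDdef]
    exact_mod_cast (Exc_gt h N p hp).le
  have h5 := one_sub_sum_le_prod (Exc h N) (fun p => 1 / (p : ℝ)) (by
    intro p hp
    have h3 : (1 : ℝ) ≤ p := by exact_mod_cast (Exc_prime h N p hp).one_lt.le
    refine ⟨by positivity, ?_⟩
    rw [div_le_one (by linarith)]
    exact h3)
  set φ := ∏ p ∈ Exc h N, (1 - 1 / (p : ℝ)) with hφ
  have hφ0 : 0 < φ := phi_pos h N
  have h6 : 1 - ((Exc h N).card : ℝ) / D ≤ φ := by linarith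
  have h7 := one_add_mul_le_pow (a := φ - 1) (by linarith) k
  have h8 : 1 + (φ - 1) = φ := by ring
  rw [h8] at h7
  have h9 : (k : ℝ) * (1 - φ) ≤ 1 / 2 := by
    calc (k : ℝ) * (1 - φ) ≤ k * (((Exc h N).card : ℝ) / D) :=
          mul_le_mul_of_nonneg_left (by linarith) (by positivity)
      _ = (k : ℝ) * ((Exc h N).card : ℝ) / D := by ring
      _ ≤ 1 / 2 := h3
  linarith

end ClassAux

open ClassAux

theorem class_lower (r : ℕ) : ∃ (k : ℕ) (c δ : ℝ), r ≤ k ∧ 1 ≤ k ∧ 0 < c ∧ 0 < δ ∧ δ ≤ 1 ∧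
    ∀ K : ℕ, ∃ N₀ : ℕ, ∀ N ≥ N₀, ∀ u : ℕ, ∀ h : Fin k → ℕ, Function.Injective h →
    (∀ i, (h i : ℝ) ≤ (Real.log N) ^ K) → (∀ i, Nat.Coprime (u + h i) (PN N)) →
    c * ((N:ℝ) / PN N) / (dens (PN N) * Real.log N) ^ k ≤
      ((Finset.Ioc N (2*N)).filter (fun n => n ≡ u [MOD PN N] ∧
        (∀ i, ∀ p : ℕ, p.Prime → p ∣ n + h i → (N:ℝ) ^ δ < p) ∧
        r ≤ (Finset.univ.filter (fun i => (n + h i).Prime)).card)).card := by
  obtain ⟨k, D, c, δ, hrk, hk, hc, hδ, hmay⟩ := maynard r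
  refine ⟨k, c, min δ 1, hrk, hk, hc, lt_min hδ one_pos, min_le_right _ _, ?_⟩
  intro K
  obtain ⟨N₁, hN₁⟩ := hmay (K * k ^ 2 + 2)
  have hev : ∀ᶠ N : ℕ in Filter.atTop, N₁ ≤ N ∧ 1 ≤ N ∧ 0 ≤ Real.log (Real.log N) ∧
      1 ≤ Real.log N ∧ max D (k ^ 2) ≤ DN N ∧ (Real.log N) ^ K ≤ (N : ℝ) := by
    filter_upwards [Filter.eventually_ge_atTop N₁, Filter.eventually_ge_atTop 1,
      tendsto_loglogN.eventually_ge_atTop 0, tendsto_logN.eventually_ge_atTop 1,
      tendsto_DN.eventually_ge_atTop (max D (k ^ 2)), eventually_pow_le K] with N a1 a2 a3 a4 a5 a6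
    exact ⟨a1, a2, a3, a4, a5, a6⟩
  obtain ⟨N₀, hN₀⟩ := Filter.eventually_atTop.1 hev
  refine ⟨N₀, fun N hN u h hinj hh hu => ?_⟩
  obtain ⟨hNN₁, hN1, hll, hl1, hDN, hpow⟩ := hN₀ N hN
  have hW := WN_pos h N
  have hDle : D ≤ DN N := (le_max_left _ _).trans hDN
  have hkle : k ^ 2 ≤ DN N := (le_max_right _ _).trans hDN
  set S : ℕ → Finset ℕ := fun v => (Finset.Ioc N (2*N)).filter (fun n => n ≡ v [MOD WN h N] ∧
        (∀ i, ∀ p : ℕ, p.Prime → p ∣ n + h i → (N:ℝ) ^ δ < p) ∧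
        r ≤ (Finset.univ.filter (fun i => (n + h i).Prime)).card) with hS
  have hone : ∀ v ∈ Vcl (PN N) u h (WN h N),
      c * ((N:ℝ) / WN h N) / (dens (WN h N) * Real.log N) ^ k ≤ ((S v).card : ℝ) := by
    intro v hv
    rw [Vcl, Finset.mem_filter] at hv
    refine hN₁ N hNN₁ (WN h N) v hW (WN_le hinj hll hl1 hh) ?_ h ?_ hv.2.2 ?_
    · intro p hp hpD
      exact Dvd.dvd.mul_right ((hp.dvd_primorial_iff).2 (hpD.trans hDle)) _
    · intro i
      have := (hh i).trans hpow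
      exact_mod_cast this
    · intro i j hij p hp hmod
      exact dvd_WN hinj N hij hp hmod
  -- the classes are disjoint
  have hsub : ((Vcl (PN N) u h (WN h N)).biUnion S) ⊆
      (Finset.Ioc N (2*N)).filter (fun n => n ≡ u [MOD PN N] ∧
        (∀ i, ∀ p : ℕ, p.Prime → p ∣ n + h i → (N:ℝ) ^ (min δ 1) < p) ∧
        r ≤ (Finset.univ.filter (fun i => (n + h i).Prime)).card) := by
    intro n hn
    obtain ⟨v, hv, hnv⟩ := Finset.mem_biUnion.1 hn
    rw [Vcl, Finset.mem_filter] at hv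
    rw [hS, Finset.mem_filter] at hnv
    rw [Finset.mem_filter]
    refine ⟨hnv.1, ?_, ?_, hnv.2.2.2⟩
    · exact (hnv.2.1.of_dvd (Dvd.intro _ rfl)).trans hv.2.1
    · intro i p hp hd
      refine lt_of_le_of_lt ?_ (hnv.2.2.1 i p hp hd)
      exact Real.rpow_le_rpow_of_exponent_le (by exact_mod_cast hN1) (min_le_left _ _)
  have hdisj : ∀ v ∈ Vcl (PN N) u h (WN h N), ∀ w ∈ Vcl (PN N) u h (WN h N), v ≠ w →
      Disjoint (S v) (S w) := by
    intro v hv w hw hvw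
    rw [Vcl, Finset.mem_filter, Finset.mem_range] at hv hw
    rw [Finset.disjoint_left]
    intro n hn hn'
    rw [hS, Finset.mem_filter] at hn hn'
    exact hvw (Nat.ModEq.eq_of_lt_of_lt (hn.2.1.symm.trans hn'.2.1) hv.1 hw.1)
  have hcard : ((∑ v ∈ Vcl (PN N) u h (WN h N), (S v).card : ℕ) : ℝ) ≤
      (((Finset.Ioc N (2*N)).filter (fun n => n ≡ u [MOD PN N] ∧
        (∀ i, ∀ p : ℕ, p.Prime → p ∣ n + h i → (N:ℝ) ^ (min δ 1) < p) ∧
        r ≤ (Finset.univ.filter (fun i => (n + h i).Prime)).card)).card : ℝ) := by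
    rw [← Finset.card_biUnion hdisj]
    exact Nat.cast_le.2 (Finset.card_le_card hsub)
  refine le_trans ?_ hcard
  rw [Nat.cast_sum]
  have hsum : ((Vcl (PN N) u h (WN h N)).card : ℝ) *
      (c * ((N:ℝ) / WN h N) / (dens (WN h N) * Real.log N) ^ k) ≤
      ∑ v ∈ Vcl (PN N) u h (WN h N), ((S v).card : ℝ) := by
    rw [← nsmul_eq_mul]
    exact Finset.card_nsmul_le_sum _ _ _ hone
  refine le_trans ?_ hsum
  have hcount := count_lower (h := h) hk hu hkle
  have hdW : 0 < dens (WN h N) := dens_pos hW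
  have hdP : 0 < dens (PN N) := dens_pos (PN_pos N)
  have hφ := phi_pos h N
  have hQ : (0 : ℝ) < ((∏ p ∈ Exc h N, p : ℕ) : ℝ) := by exact_mod_cast Q_pos h N
  have hP : (0 : ℝ) < (PN N : ℝ) := by exact_mod_cast PN_pos N
  have hlpos : 0 < Real.log N := by linarith
  have hNpos : (0 : ℝ) < N := by exact_mod_cast hN1
  refine le_trans (le_of_eq ?_) (mul_le_mul_of_nonneg_right hcount (by
    have : (0 : ℝ) < WN h N := by exact_mod_cast hW
    positivity))
  rw [dens_WN, WN, Nat.cast_mul]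
  generalize ((∏ p ∈ Exc h N, p : ℕ) : ℝ) = Q at *
  generalize (∏ p ∈ Exc h N, (1 - 1 / (p : ℝ))) = φ at *
  rw [mul_right_comm (dens (PN N)) φ, mul_pow (dens (PN N) * Real.log N) φ k]
  field_simp

theorem class_upper (j : ℕ) (δ : ℝ) (hδ : 0 < δ) : ∃ C : ℝ, 0 < C ∧
    ∀ K : ℕ, ∃ N₀ : ℕ, ∀ N ≥ N₀, ∀ u : ℕ, ∀ h : Fin j → ℕ, Function.Injective h →
    (∀ i, (h i : ℝ) ≤ (Real.log N) ^ K) →
    (((Finset.Ioc N (2*N)).filter (fun n => n ≡ u [MOD PN N] ∧
        (∀ i, ∀ p : ℕ, p.Prime → p ∣ n + h i → (N:ℝ) ^ δ < p))).card : ℝ) ≤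
      C * ((N:ℝ) / PN N) / (dens (PN N) * Real.log N) ^ j := by
  obtain ⟨D, hrough⟩ := rough_upper j
  obtain ⟨C, hC, hup⟩ := hrough δ hδ
  refine ⟨2 * C, by positivity, fun K => ?_⟩
  obtain ⟨N₁, hN₁⟩ := hup (K * j ^ 2 + 2)
  have hlogD : Filter.Tendsto (fun N : ℕ => Real.log (DN N : ℝ)) Filter.atTop Filter.atTop :=
    Real.tendsto_log_atTop.comp (tendsto_natCast_atTop_atTop.comp tendsto_DN)
  have hev : ∀ᶠ N : ℕ in Filter.atTop, N₁ ≤ N ∧ 1 ≤ N ∧ 0 ≤ Real.log (Real.log N) ∧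
      1 ≤ Real.log N ∧ max D 2 ≤ DN N ∧ 4 * (K : ℝ) * (j : ℝ) ^ 3 ≤ Real.log (DN N) := by
    filter_upwards [Filter.eventually_ge_atTop N₁, Filter.eventually_ge_atTop 1,
      tendsto_loglogN.eventually_ge_atTop 0, tendsto_logN.eventually_ge_atTop 1,
      tendsto_DN.eventually_ge_atTop (max D 2),
      hlogD.eventually_ge_atTop (4 * (K : ℝ) * (j : ℝ) ^ 3)] with N a1 a2 a3 a4 a5 a6
    exact ⟨a1, a2, a3, a4, a5, a6⟩
  obtain ⟨N₀, hN₀⟩ := Filter.eventually_atTop.1 hev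
  refine ⟨N₀, fun N hN u h hinj hh => ?_⟩
  obtain ⟨hNN₁, hN1, hll, hl1, hDN, hlog⟩ := hN₀ N hN
  have hW := WN_pos h N
  have hDle : D ≤ DN N := (le_max_left _ _).trans hDN
  have hφ2 := phi_lower hinj hl1 hh ((le_max_right _ _).trans hDN) hlog
  set S : ℕ → Finset ℕ := fun v => (Finset.Ioc N (2*N)).filter (fun n => n ≡ v [MOD WN h N] ∧
        (∀ i, ∀ p : ℕ, p.Prime → p ∣ n + h i → (N:ℝ) ^ δ < p)) with hS
  set V : Finset ℕ := (Finset.range (WN h N)).filter (fun v => v ≡ u [MOD PN N]) with hV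
  have hone : ∀ v ∈ V, ((S v).card : ℝ) ≤
      C * ((N:ℝ) / WN h N) / (dens (WN h N) * Real.log N) ^ j := by
    intro v _
    refine hN₁ N hNN₁ (WN h N) v hW (WN_le hinj hll hl1 hh) ?_ h ?_
    · intro p hp hpD
      exact Dvd.dvd.mul_right ((hp.dvd_primorial_iff).2 (hpD.trans hDle)) _
    · intro i i' hij p hp hmod
      exact dvd_WN hinj N hij hp hmod
  have hVcard : V.card ≤ ∏ p ∈ Exc h N, p := by
    rw [← Finset.card_range (∏ p ∈ Exc h N, p)]
    apply Finset.card_le_card_of_injOn (fun v => v / PN N)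
    · intro v hv
      rw [Finset.mem_coe, hV, Finset.mem_filter, Finset.mem_range] at hv
      rw [Finset.mem_coe, Finset.mem_range]
      rw [Nat.div_lt_iff_lt_mul (PN_pos N), mul_comm]
      exact hv.1
    · intro v hv w hw hvw
      rw [Finset.mem_coe, hV, Finset.mem_filter] at hv hw
      have h1 : v % PN N = w % PN N := hv.2.trans hw.2.symm
      have h2 : v / PN N = w / PN N := hvw
      rw [← Nat.div_add_mod v (PN N), ← Nat.div_add_mod w (PN N), h1, h2]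
  have hsub : (Finset.Ioc N (2*N)).filter (fun n => n ≡ u [MOD PN N] ∧
        (∀ i, ∀ p : ℕ, p.Prime → p ∣ n + h i → (N:ℝ) ^ δ < p)) ⊆ V.biUnion S := by
    intro n hn
    rw [Finset.mem_filter] at hn
    refine Finset.mem_biUnion.2 ⟨n % WN h N, ?_, ?_⟩
    · rw [hV, Finset.mem_filter, Finset.mem_range]
      exact ⟨Nat.mod_lt _ hW, ((Nat.mod_modEq n (WN h N)).of_dvd (Dvd.intro _ rfl)).trans hn.2.1⟩
    · rw [hS, Finset.mem_filter]
      exact ⟨hn.1, (Nat.mod_modEq n (WN h N)).symm, hn.2.2⟩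
  have hcard : (((Finset.Ioc N (2*N)).filter (fun n => n ≡ u [MOD PN N] ∧
        (∀ i, ∀ p : ℕ, p.Prime → p ∣ n + h i → (N:ℝ) ^ δ < p))).card : ℝ) ≤
      ((∏ p ∈ Exc h N, p : ℕ) : ℝ) *
        (C * ((N:ℝ) / WN h N) / (dens (WN h N) * Real.log N) ^ j) := by
    have hb : (0 : ℝ) ≤ C * ((N:ℝ) / WN h N) / (dens (WN h N) * Real.log N) ^ j := by
      have := dens_pos hW
      positivity
    calc (((Finset.Ioc N (2*N)).filter (fun n => n ≡ u [MOD PN N] ∧
          (∀ i, ∀ p : ℕ, p.Prime → p ∣ n + h i → (N:ℝ) ^ δ < p))).card : ℝ)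
        ≤ ((V.biUnion S).card : ℝ) := Nat.cast_le.2 (Finset.card_le_card hsub)
      _ ≤ ((∑ v ∈ V, (S v).card : ℕ) : ℝ) := Nat.cast_le.2 Finset.card_biUnion_le
      _ = ∑ v ∈ V, ((S v).card : ℝ) := Nat.cast_sum _ _
      _ ≤ V.card • (C * ((N:ℝ) / WN h N) / (dens (WN h N) * Real.log N) ^ j) :=
          Finset.sum_le_card_nsmul _ _ _ hone
      _ ≤ ((∏ p ∈ Exc h N, p : ℕ) : ℝ) *
            (C * ((N:ℝ) / WN h N) / (dens (WN h N) * Real.log N) ^ j) := by
          rw [nsmul_eq_mul]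
          exact mul_le_mul_of_nonneg_right (Nat.cast_le.2 hVcard) hb
  refine hcard.trans ?_
  have hdP : 0 < dens (PN N) := dens_pos (PN_pos N)
  have hφ := phi_pos h N
  have hQ : (0 : ℝ) < ((∏ p ∈ Exc h N, p : ℕ) : ℝ) := by exact_mod_cast Q_pos h N
  have hP : (0 : ℝ) < (PN N : ℝ) := by exact_mod_cast PN_pos N
  have hlpos : 0 < Real.log N := by linarith
  have hNpos : (0 : ℝ) < N := by exact_mod_cast hN1
  rw [dens_WN, WN, Nat.cast_mul]
  generalize ((∏ p ∈ Exc h N, p : ℕ) : ℝ) = Q at *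
  generalize (∏ p ∈ Exc h N, (1 - 1 / (p : ℝ))) = φ at *
  rw [mul_right_comm (dens (PN N)) φ, mul_pow (dens (PN N) * Real.log N) φ j]
  have e1 : Q * (C * ((N:ℝ) / ((PN N : ℝ) * Q)) / ((dens (PN N) * Real.log N) ^ j * φ ^ j)) =
      (C * ((N:ℝ) / PN N) / (dens (PN N) * Real.log N) ^ j) * (1 / φ ^ j) := by
    field_simp
  have e2 : 2 * C * ((N:ℝ) / PN N) / (dens (PN N) * Real.log N) ^ j =
      (C * ((N:ℝ) / PN N) / (dens (PN N) * Real.log N) ^ j) * 2 := by ring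
  rw [e1, e2]
  apply mul_le_mul_of_nonneg_left _ (by positivity)
  rw [div_le_iff₀ (by positivity)]
  linarith

end Pool.Agent.Lib.MT
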