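import Mathlib

/-!
# From k-tuples to r-tuples: the combinatorial part

`Pm n b`: n + b is prime, `Ro n b`: n + b is rough. X is the expected size of the set I of integers,
q the density of rough values. Double counting, Cauchy-Schwarz and falling factorials.
-/

open Finset
open scoped Classical

namespace Pool.Agent.Lib.MT

/-- Injective tuples of elements of `B`. -/
noncomputable def InjT (k : ℕ) (B : Finset ℕ) : Finset (Fin k → ℕ) :=
  (Fintype.piFinset (fun _ : Fin k => B)).filter Function.Injective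

lemma mem_InjT {k : ℕ} {B : Finset ℕ} {h : Fin k → ℕ} :
    h ∈ InjT k B ↔ (∀ i, h i ∈ B) ∧ Function.Injective h := by
  simp [InjT, Fintype.mem_piFinset]

lemma card_InjT (k : ℕ) (B : Finset ℕ) : (InjT k B).card = B.card.descFactorial k := by
  have h1 : Fintype.card (Fin k ↪ B) = (InjT k B).card := by
    rw [← Finset.card_univ]
    refine Finset.card_bij (fun e _ => fun i => ((e i : B) : ℕ)) ?_ ?_ ?_
    · intro e _
      rw [mem_InjT]
      refine ⟨fun i => (e i).2, fun a b hab => ?_⟩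
      exact e.injective (Subtype.ext hab)
    · intro e _ f _ hef
      ext i
      exact congrFun hef i
    · intro h hh
      rw [mem_InjT] at hh
      refine ⟨⟨fun i => ⟨h i, hh.1 i⟩, fun a b hab => hh.2 (congrArg Subtype.val hab)⟩,
        Finset.mem_univ _, rfl⟩
  rw [← h1, Fintype.card_embedding_eq]
  simp

lemma pow_le_descF {k M : ℕ} (h : k ≤ M) : M ^ k ≤ k ^ k * M.descFactorial k := by
  rw [Nat.descFactorial_eq_prod_range]
  have h1 : k ^ k * ∏ i ∈ Finset.range k, (M - i) = ∏ i ∈ Finset.range k, (k * (M - i)) := by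
    rw [Finset.prod_mul_distrib]; simp
  have h2 : M ^ k = ∏ i ∈ Finset.range k, M := by simp
  rw [h1, h2]
  refine Finset.prod_le_prod' fun i hi => ?_
  simp only [Finset.mem_range] at hi
  obtain ⟨t, rfl⟩ := Nat.exists_eq_add_of_le h
  have h3 : t + 1 ≤ k + t - i := by omega
  calc k + t ≤ k * (t+1) := by nlinarith [show 1 ≤ k by omega]
    _ ≤ _ := Nat.mul_le_mul_left _ h3

lemma sq_descF_le (x j : ℕ) :
    (x.descFactorial j)^2 ≤ (2*j+1)^(2*j) * (x.descFactorial j + x.descFactorial (2*j)) := by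
  have h1 : x.descFactorial j ≤ x ^ j := Nat.descFactorial_le_pow x j
  rcases le_or_gt (2*j) x with h | h
  · have h2 := pow_le_descF h
    calc (x.descFactorial j)^2 ≤ (x^j)^2 := Nat.pow_le_pow_left h1 2
      _ = x^(2*j) := by rw [← pow_mul, mul_comm]
      _ ≤ (2*j)^(2*j) * x.descFactorial (2*j) := h2
      _ ≤ (2*j+1)^(2*j) * (x.descFactorial j + x.descFactorial (2*j)) := by
          refine Nat.mul_le_mul (Nat.pow_le_pow_left (by omega) _) (by omega)
  · have h3 : x.descFactorial j ≤ (2*j+1)^(2*j) := by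
      calc _ ≤ x^j := h1
        _ ≤ (2*j+1)^j := Nat.pow_le_pow_left (by omega) _
        _ ≤ _ := Nat.pow_le_pow_right (by omega) (by omega)
    calc (x.descFactorial j)^2 = x.descFactorial j * x.descFactorial j := sq _
      _ ≤ (2*j+1)^(2*j) * x.descFactorial j := Nat.mul_le_mul_right _ h3
      _ ≤ _ := Nat.mul_le_mul_left _ (by omega)

section
variable {r j : ℕ} (I B : Finset ℕ) (Pm Ro : ℕ → ℕ → Prop)

/-- Number of integers seen by a tuple whose first coordinates are prime. -/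
noncomputable def Fcnt (h : Fin (r+j) → ℕ) : ℕ :=
  (I.filter (fun n => (∀ i, Ro n (h i)) ∧ ∀ i : Fin r, Pm n (h (Fin.castAdd j i)))).card

lemma exists_perm {s : Finset (Fin (r+j))} (hs : r ≤ s.card) :
    ∃ σ : Equiv.Perm (Fin (r+j)), ∀ i : Fin r, σ (Fin.castAdd j i) ∈ s := by
  let e := Finset.orderEmbOfCardLe s hs
  have hinj : Function.Injective (Fin.castAdd j : Fin r → Fin (r+j)) :=
    Fin.castAdd_injective r j
  let e₁ : Fin r ≃ {x // x ∈ Set.range (Fin.castAdd j : Fin r → Fin (r+j))} :=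
    Equiv.ofInjective _ hinj
  let e₂ : Fin r ≃ {x // x ∈ Set.range e} := Equiv.ofInjective _ e.injective
  refine ⟨(e₁.symm.trans e₂).extendSubtype, fun i => ?_⟩
  have h1 : (Fin.castAdd j i) ∈ Set.range (Fin.castAdd j : Fin r → Fin (r+j)) := ⟨i, rfl⟩
  rw [Equiv.extendSubtype_apply_of_mem _ _ h1]
  have h2 : ((e₁.symm.trans e₂) ⟨Fin.castAdd j i, h1⟩ : Fin (r+j)) = e i := by
    have : e₁.symm ⟨Fin.castAdd j i, h1⟩ = i := by
      rw [Equiv.symm_apply_eq]; rfl
    simp only [Equiv.trans_apply, this]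
    rfl
  rw [h2]
  exact Finset.orderEmbOfCardLe_mem s hs i

lemma stepA (h : Fin (r+j) → ℕ) :
    (I.filter (fun n => (∀ i, Ro n (h i)) ∧
        r ≤ (Finset.univ.filter (fun i => Pm n (h i))).card)).card ≤
      ∑ σ : Equiv.Perm (Fin (r+j)), Fcnt I Pm Ro (h ∘ σ) := by
  unfold Fcnt
  refine (Finset.card_le_card ?_).trans Finset.card_biUnion_le
  intro n hn
  simp only [Finset.mem_filter] at hn
  obtain ⟨hnI, hR, hP⟩ := hn
  obtain ⟨σ, hσ⟩ := exists_perm hP
  simp only [Finset.mem_biUnion, Finset.mem_univ, true_and, Finset.mem_filter]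
  refine ⟨σ, hnI, fun i => hR _, fun i => ?_⟩
  have := hσ i
  simp only [Finset.mem_filter, Finset.mem_univ, true_and] at this
  exact this

lemma stepB (σ : Equiv.Perm (Fin (r+j))) :
    ∑ h ∈ InjT (r+j) B, Fcnt I Pm Ro (h ∘ σ) = ∑ h ∈ InjT (r+j) B, Fcnt I Pm Ro h := by
  refine Finset.sum_bij' (fun h _ => h ∘ σ) (fun h _ => h ∘ σ.symm) ?_ ?_ ?_ ?_ ?_
  · intro h hh
    rw [mem_InjT] at hh ⊢
    exact ⟨fun i => hh.1 _, hh.2.comp σ.injective⟩
  · intro h hh
    rw [mem_InjT] at hh ⊢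
    exact ⟨fun i => hh.1 _, hh.2.comp σ.symm.injective⟩
  · intro h _; ext i; simp
  · intro h _; ext i; simp
  · intro h _; rfl

/-- The rough values of `n` outside the tuple `b`. -/
noncomputable def xcnt (b : Fin r → ℕ) (n : ℕ) : ℕ :=
  (B.filter (fun a => a ∉ Set.range b ∧ Ro n a)).card

lemma stepC :
    ∑ h ∈ InjT (r+j) B, Fcnt I Pm Ro h ≤
      ∑ b ∈ InjT r B, ∑ n ∈ I.filter (fun n => ∀ i, Pm n (b i)),
        (xcnt B Ro b n).descFactorial j := by
  have hmaps : ∀ h ∈ InjT (r+j) B, (fun i : Fin r => h (Fin.castAdd j i)) ∈ InjT r B := by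
    intro h hh
    rw [mem_InjT] at hh ⊢
    exact ⟨fun i => hh.1 _, hh.2.comp (Fin.castAdd_injective r j)⟩
  rw [← Finset.sum_fiberwise_of_maps_to hmaps]
  refine Finset.sum_le_sum fun b hb => ?_
  have h1 : ∀ h ∈ (InjT (r+j) B).filter (fun h => (fun i : Fin r => h (Fin.castAdd j i)) = b),
      Fcnt I Pm Ro h = ∑ n ∈ I.filter (fun n => ∀ i, Pm n (b i)),
        if ∀ i, Ro n (h i) then 1 else 0 := by
    intro h hh
    simp only [Finset.mem_filter] at hh
    rw [Fcnt, ← Finset.card_filter, Finset.filter_filter]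
    congr 1
    refine Finset.filter_congr fun n _ => ?_
    constructor
    · rintro ⟨h1, h2⟩
      refine ⟨fun i => ?_, h1⟩
      rw [← hh.2]; exact h2 i
    · rintro ⟨h1, h2⟩
      refine ⟨h2, fun i => ?_⟩
      have := h1 i
      rw [← hh.2] at this
      exact this
  rw [Finset.sum_congr rfl h1, Finset.sum_comm]
  refine Finset.sum_le_sum fun n hn => ?_
  rw [← Finset.card_filter, xcnt, ← card_InjT]
  refine Finset.card_le_card_of_injOn (fun h => fun i : Fin j => h (Fin.natAdd r i)) ?_ ?_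
  · intro h hh
    simp only [Finset.coe_filter, Set.mem_ofPred_eq, Finset.mem_filter] at hh
    obtain ⟨⟨hh1, hh2⟩, hh3⟩ := hh
    rw [mem_InjT] at hh1
    simp only [Finset.mem_coe]
    rw [mem_InjT]
    refine ⟨fun i => ?_, hh1.2.comp (Fin.natAdd_injective j r)⟩
    simp only [Finset.mem_filter]
    refine ⟨hh1.1 _, ?_, hh3 _⟩
    rintro ⟨i', hi'⟩
    rw [← hh2] at hi'
    have := hh1.2 hi'
    have h3 := congrArg Fin.val this
    simp only [Fin.val_castAdd, Fin.val_natAdd] at h3
    have := i'.2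
    omega
  · intro h hh h' hh' heq
    simp only [Finset.coe_filter, Set.mem_ofPred_eq, Finset.mem_filter] at hh hh'
    funext i
    refine Fin.addCases (fun i => ?_) (fun i => ?_) i
    · have e1 := congrFun hh.1.2 i
      have e2 := congrFun hh'.1.2 i
      exact e1.trans e2.symm
    · exact congrFun heq i

lemma stepD {C X q : ℝ} {k : ℕ}
    (hPR : ∀ n b, Pm n b → Ro n b)
    (hU : ∀ j ≤ 2 * k, ∀ h : Fin j → ℕ, Function.Injective h → (∀ i, h i ∈ B) →
      ((I.filter (fun n => ∀ i, Ro n (h i))).card : ℝ) ≤ C * X * q ^ j)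
    (hC : 0 < C) (hX : 0 < X) (hq : 0 < q)
    (b : Fin r → ℕ) (hb : b ∈ InjT r B) (i : ℕ) (hi : r + i ≤ 2 * k) :
    ((∑ n ∈ I.filter (fun n => ∀ i, Pm n (b i)), (xcnt B Ro b n).descFactorial i : ℕ) : ℝ) ≤
      C * X * q ^ r * (B.card * q) ^ i := by
  rw [mem_InjT] at hb
  set B' := B.filter (fun a => a ∉ Set.range b) with hB'
  have h1 : ∀ n, (xcnt B Ro b n).descFactorial i =
      ∑ b' ∈ InjT i B', if ∀ l, Ro n (b' l) then 1 else 0 := by
    intro n
    rw [xcnt, ← card_InjT, ← Finset.card_filter]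
    congr 1
    ext b'
    simp only [mem_InjT, Finset.mem_filter, hB']
    constructor
    · rintro ⟨h1, h2⟩
      exact ⟨⟨fun l => ⟨(h1 l).1, (h1 l).2.1⟩, h2⟩, fun l => (h1 l).2.2⟩
    · rintro ⟨⟨h1, h2⟩, h3⟩
      exact ⟨fun l => ⟨(h1 l).1, (h1 l).2, h3 l⟩, h2⟩
  rw [Finset.sum_congr rfl (fun n _ => h1 n), Finset.sum_comm]
  push_cast
  have h2 : ∀ b' ∈ InjT i B', (∑ n ∈ I.filter (fun n => ∀ i, Pm n (b i)),
      (if ∀ l, Ro n (b' l) then (1:ℝ) else 0)) ≤ C * X * q ^ (r + i) := by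
    intro b' hb'
    rw [mem_InjT] at hb'
    rw [Finset.sum_ite, Finset.sum_const_zero, add_zero, Finset.sum_const, nsmul_eq_mul, mul_one,
      Finset.filter_filter]
    refine le_trans ?_ (hU (r+i) hi (Fin.append b b') ?_ ?_)
    · refine Nat.cast_le.2 (Finset.card_le_card ?_)
      intro n hn
      simp only [Finset.mem_filter] at hn ⊢
      refine ⟨hn.1, fun l => ?_⟩
      refine Fin.addCases (fun l => ?_) (fun l => ?_) l
      · rw [Fin.append_left]; exact hPR _ _ (hn.2.1 l)
      · rw [Fin.append_right]; exact hn.2.2 l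
    · intro x y
      refine Fin.addCases (fun x => ?_) (fun x => ?_) x <;>
      refine Fin.addCases (fun y => ?_) (fun y => ?_) y
      · simp only [Fin.append_left]
        intro h; rw [hb.2 h]
      · simp only [Fin.append_left, Fin.append_right]
        intro h
        have := hb'.1 y
        simp only [hB', Finset.mem_filter] at this
        exact absurd ⟨x, h⟩ this.2
      · simp only [Fin.append_left, Fin.append_right]
        intro h
        have := hb'.1 x
        simp only [hB', Finset.mem_filter] at this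
        exact absurd ⟨y, h.symm⟩ this.2
      · simp only [Fin.append_right]
        intro h; rw [hb'.2 h]
    · intro l
      refine Fin.addCases (fun l => ?_) (fun l => ?_) l
      · rw [Fin.append_left]; exact hb.1 l
      · rw [Fin.append_right]
        have := hb'.1 l
        simp only [hB', Finset.mem_filter] at this
        exact this.1
  calc _ ≤ ∑ b' ∈ InjT i B', C * X * q ^ (r + i) := Finset.sum_le_sum h2
    _ = (InjT i B').card * (C * X * q ^ (r + i)) := by rw [Finset.sum_const, nsmul_eq_mul]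
    _ ≤ (B.card : ℝ) ^ i * (C * X * q ^ (r + i)) := by
        refine mul_le_mul_of_nonneg_right ?_ (by positivity)
        rw [card_InjT]
        have h3 : B'.card.descFactorial i ≤ B.card ^ i :=
          (Nat.descFactorial_le_pow _ _).trans
            (Nat.pow_le_pow_left (Finset.card_le_card (Finset.filter_subset _ _)) _)
        exact_mod_cast h3
    _ = _ := by rw [mul_pow, pow_add]; ring

end

theorem combin (r k : ℕ) (hr : 1 ≤ r) (hrk : r ≤ k) (c C : ℝ) (hc : 0 < c) (hC : 0 < C) :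
    ∃ κ δ : ℝ, 0 < κ ∧ 0 < δ ∧ ∀ (I B : Finset ℕ) (Pm Ro : ℕ → ℕ → Prop) (X q : ℝ), 0 < X →
    0 < q → k ≤ B.card → (∀ n b, Pm n b → Ro n b) →
    (∀ h : Fin k → ℕ, Function.Injective h → (∀ i, h i ∈ B) →
      c * X * q ^ k ≤ ((I.filter (fun n => (∀ i, Ro n (h i)) ∧
        r ≤ (Finset.univ.filter (fun i => Pm n (h i))).card)).card : ℝ)) →
    (∀ j ≤ 2 * k, ∀ h : Fin j → ℕ, Function.Injective h → (∀ i, h i ∈ B) →
      ((I.filter (fun n => ∀ i, Ro n (h i))).card : ℝ) ≤ C * X * q ^ j) →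
    δ * (B.card : ℝ) ^ r ≤
      (((Fintype.piFinset (fun _ : Fin r => B)).filter (fun b => Function.Injective b ∧
        κ * X * q ^ r * (min 1 (B.card * q)) ^ (k - r) ≤
          ((I.filter (fun n => ∀ i, Pm n (b i))).card : ℝ))).card : ℝ) := by
  obtain ⟨j, rfl⟩ := Nat.exists_eq_add_of_le hrk
  have hK : (0:ℝ) < ((r+j : ℕ) : ℝ) := by
    have : 0 < r + j := by omega
    exact_mod_cast this
  set A : ℝ := ((r+j : ℕ) : ℝ)^(r+j) * ((r+j).factorial : ℝ) with hA
  have hApos : 0 < A := by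
    have : (0:ℝ) < ((r+j).factorial : ℝ) := by exact_mod_cast Nat.factorial_pos _
    positivity
  set η : ℝ := c / (2 * A) with hη
  have hηpos : 0 < η := by positivity
  set C' : ℝ := ((2*j+1:ℕ):ℝ)^(2*j) * C with hC'
  have hC'pos : 0 < C' := by positivity
  refine ⟨η^2 / (2*C'), c/(2*A*C), by positivity, by positivity, ?_⟩
  intro I B Pm Ro X q hX hq hB hPR hL hU
  rw [Nat.add_sub_cancel_left]
  set M : ℝ := (B.card : ℝ) with hM
  have hMpos : 0 < M := by
    have : 0 < B.card := by omega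
    rw [hM]; exact_mod_cast this
  set m : ℝ := M * q with hm
  have hmpos : 0 < m := by positivity
  set κ : ℝ := η^2 / (2*C') with hκ
  have hκpos : 0 < κ := by positivity
  -- lower bound for the total
  have hlow : c * X * q ^ (r+j) * ((B.card.descFactorial (r+j) : ℕ) : ℝ) ≤
      (((r+j).factorial : ℕ) : ℝ) * ((∑ h ∈ InjT (r+j) B, Fcnt I Pm Ro h : ℕ) : ℝ) := by
    calc c * X * q ^ (r+j) * ((B.card.descFactorial (r+j) : ℕ) : ℝ)
        = ∑ h ∈ InjT (r+j) B, c * X * q ^ (r+j) := by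
          rw [Finset.sum_const, card_InjT, nsmul_eq_mul]; ring
      _ ≤ ∑ h ∈ InjT (r+j) B, ((I.filter (fun n => (∀ i, Ro n (h i)) ∧
        r ≤ (Finset.univ.filter (fun i => Pm n (h i))).card)).card : ℝ) := by
          refine Finset.sum_le_sum fun h hh => ?_
          rw [mem_InjT] at hh
          exact hL h hh.2 hh.1
      _ ≤ ∑ h ∈ InjT (r+j) B, ((∑ σ : Equiv.Perm (Fin (r+j)), Fcnt I Pm Ro (h ∘ σ) : ℕ) : ℝ) := by
          refine Finset.sum_le_sum fun h hh => ?_
          exact_mod_cast stepA I Pm Ro h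
      _ = ((∑ σ : Equiv.Perm (Fin (r+j)), ∑ h ∈ InjT (r+j) B, Fcnt I Pm Ro (h ∘ σ) : ℕ) : ℝ) := by
          rw [Finset.sum_comm]; push_cast; rfl
      _ = _ := by
          rw [Finset.sum_congr rfl (fun σ _ => stepB I B Pm Ro σ), Finset.sum_const,
            Finset.card_univ, Fintype.card_perm, Fintype.card_fin, smul_eq_mul]
          push_cast; ring
  -- falling factorial
  have hfall : M ^ (r+j) ≤ ((r+j : ℕ) : ℝ)^(r+j) * ((B.card.descFactorial (r+j) : ℕ) : ℝ) := by
    have := pow_le_descF hB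
    rw [hM]; exact_mod_cast this
  -- Y
  let Y : (Fin r → ℕ) → ℝ := fun b => ((∑ n ∈ I.filter (fun n => ∀ i, Pm n (b i)),
        (xcnt B Ro b n).descFactorial j : ℕ) : ℝ)
  have hY0 : ∀ b, 0 ≤ Y b := fun b => Nat.cast_nonneg _
  have hTY : ((∑ h ∈ InjT (r+j) B, Fcnt I Pm Ro h : ℕ) : ℝ) ≤ ∑ b ∈ InjT r B, Y b := by
    have := stepC (j := j) (r := r) I B Pm Ro
    simp only [Y]
    exact_mod_cast this
  have hYup : ∀ b ∈ InjT r B, Y b ≤ C * X * q ^ r * m ^ j := fun b hb =>
    stepD I B Pm Ro hPR hU hC hX hq b hb j (by omega)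
  let P : (Fin r → ℕ) → Prop := fun b => κ * X * q ^ r * (min 1 m) ^ j ≤
          ((I.filter (fun n => ∀ i, Pm n (b i))).card : ℝ)
  have hYsmall : ∀ b ∈ InjT r B, ¬ P b → Y b ≤ η * (X * q ^ r * m ^ j) := by
    intro b hb hPb
    simp only [P, not_le] at hPb
    have hD1 := stepD I B Pm Ro hPR hU hC hX hq b hb j (by omega)
    have hD2 := stepD I B Pm Ro hPR hU hC hX hq b hb (2*j) (by omega)
    have hCS : (Y b) ^ 2 ≤ ((I.filter (fun n => ∀ i, Pm n (b i))).card : ℝ) *
        ∑ n ∈ I.filter (fun n => ∀ i, Pm n (b i)),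
          ((((xcnt B Ro b n).descFactorial j : ℕ) : ℝ)) ^ 2 := by
      simp only [Y]
      push_cast
      exact sq_sum_le_card_mul_sum_sq
    have hS2 : ∑ n ∈ I.filter (fun n => ∀ i, Pm n (b i)),
          ((((xcnt B Ro b n).descFactorial j : ℕ) : ℝ)) ^ 2 ≤
          C' * X * q ^ r * (m ^ j + m ^ (2*j)) := by
      calc _ ≤ ∑ n ∈ I.filter (fun n => ∀ i, Pm n (b i)), ((2*j+1:ℕ):ℝ)^(2*j) *
            ((((xcnt B Ro b n).descFactorial j : ℕ) : ℝ) +
              (((xcnt B Ro b n).descFactorial (2*j) : ℕ) : ℝ)) := by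
            refine Finset.sum_le_sum fun n _ => ?_
            exact_mod_cast sq_descF_le _ _
        _ = ((2*j+1:ℕ):ℝ)^(2*j) * (((∑ n ∈ I.filter (fun n => ∀ i, Pm n (b i)),
            (xcnt B Ro b n).descFactorial j : ℕ) : ℝ) +
            ((∑ n ∈ I.filter (fun n => ∀ i, Pm n (b i)),
            (xcnt B Ro b n).descFactorial (2*j) : ℕ) : ℝ)) := by
            push_cast
            rw [← Finset.mul_sum, Finset.sum_add_distrib]
        _ ≤ ((2*j+1:ℕ):ℝ)^(2*j) * (C * X * q ^ r * m ^ j + C * X * q ^ r * m ^ (2*j)) := by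
            refine mul_le_mul_of_nonneg_left (add_le_add hD1 hD2) (by positivity)
        _ = _ := by rw [hC']; ring
    have hmin : (min 1 m) ^ j * (m ^ j + m ^ (2*j)) ≤ 2 * (m ^ j)^2 := by
      have h0 : 0 ≤ min 1 m := le_min zero_le_one hmpos.le
      have h1 : (min 1 m) ^ j ≤ m ^ j := pow_le_pow_left₀ h0 (min_le_right _ _) _
      have h2 : (min 1 m) ^ j ≤ 1 := pow_le_one₀ h0 (min_le_left _ _)
      have h3 : 0 < m ^ j := by positivity
      have h4 : m ^ (2*j) = (m^j)^2 := by rw [← pow_mul, mul_comm]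
      rw [h4]
      nlinarith [mul_le_mul_of_nonneg_right h1 h3.le, mul_le_mul_of_nonneg_right h2 (sq_nonneg (m^j))]
    have hfin : (Y b)^2 ≤ (η * (X * q ^ r * m ^ j))^2 := by
      calc (Y b)^2 ≤ (κ * X * q ^ r * (min 1 m) ^ j) * (C' * X * q ^ r * (m ^ j + m ^ (2*j))) := by
            refine hCS.trans (mul_le_mul hPb.le hS2 ?_ ?_)
            · exact Finset.sum_nonneg fun n _ => sq_nonneg _
            · have h0 : 0 ≤ min 1 m := le_min zero_le_one hmpos.le
              positivity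
        _ = κ * C' * (X * q ^ r)^2 * ((min 1 m) ^ j * (m ^ j + m ^ (2*j))) := by ring
        _ ≤ κ * C' * (X * q ^ r)^2 * (2 * (m ^ j)^2) := by
            refine mul_le_mul_of_nonneg_left hmin (by positivity)
        _ = (κ * (2 * C')) * ((X * q ^ r)^2 * (m ^ j)^2) := by ring
        _ = η^2 * ((X * q ^ r)^2 * (m ^ j)^2) := by
            rw [hκ, div_mul_cancel₀ _ (by positivity)]
        _ = _ := by ring
    exact (sq_le_sq₀ (hY0 b) (by positivity)).1 hfin
  -- count
  have hgoodset : (Fintype.piFinset (fun _ : Fin r => B)).filter (fun b => Function.Injective b ∧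
        κ * X * q ^ r * (min 1 (M * q)) ^ j ≤
          ((I.filter (fun n => ∀ i, Pm n (b i))).card : ℝ)) = (InjT r B).filter P := by
    ext b
    simp only [InjT, Finset.mem_filter, P, hm]
    tauto
  rw [hgoodset]
  set G : ℝ := (((InjT r B).filter P).card : ℝ) with hG
  have hsumY : ∑ b ∈ InjT r B, Y b ≤ G * (C * X * q ^ r * m ^ j) +
      M ^ r * (η * (X * q ^ r * m ^ j)) := by
    rw [← Finset.sum_filter_add_sum_filter_not (InjT r B) P]
    refine add_le_add ?_ ?_
    · calc _ ≤ ∑ b ∈ (InjT r B).filter P, C * X * q ^ r * m ^ j := by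
            refine Finset.sum_le_sum fun b hb => hYup b (Finset.mem_filter.1 hb).1
        _ = _ := by rw [Finset.sum_const, nsmul_eq_mul]
    · calc _ ≤ ∑ b ∈ (InjT r B).filter (fun b => ¬ P b), η * (X * q ^ r * m ^ j) := by
            refine Finset.sum_le_sum fun b hb => ?_
            rw [Finset.mem_filter] at hb
            exact hYsmall b hb.1 hb.2
        _ = (((InjT r B).filter (fun b => ¬ P b)).card : ℝ) * (η * (X * q ^ r * m ^ j)) := by
            rw [Finset.sum_const, nsmul_eq_mul]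
        _ ≤ _ := by
            refine mul_le_mul_of_nonneg_right ?_ (by positivity)
            have h3 : ((InjT r B).filter (fun b => ¬ P b)).card ≤ B.card ^ r :=
              (Finset.card_le_card (Finset.filter_subset _ _)).trans
                ((card_InjT r B).le.trans (Nat.descFactorial_le_pow _ _))
            rw [hM]; exact_mod_cast h3
  -- combine
  have hcomb : c * (X * q ^ r * m ^ j) * M ^ r ≤
      A * (G * (C * (X * q ^ r * m ^ j)) + M ^ r * (η * (X * q ^ r * m ^ j))) := by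
    calc c * (X * q ^ r * m ^ j) * M ^ r = c * X * q ^ (r+j) * M ^ (r+j) := by
          rw [hm, mul_pow, pow_add, pow_add]; ring
      _ ≤ c * X * q ^ (r+j) * (((r+j : ℕ) : ℝ)^(r+j) * ((B.card.descFactorial (r+j) : ℕ) : ℝ)) := by
          refine mul_le_mul_of_nonneg_left hfall (by positivity)
      _ = ((r+j : ℕ) : ℝ)^(r+j) * (c * X * q ^ (r+j) * ((B.card.descFactorial (r+j) : ℕ) : ℝ)) := by
          ring
      _ ≤ ((r+j : ℕ) : ℝ)^(r+j) * ((((r+j).factorial : ℕ) : ℝ) *
            (G * (C * X * q ^ r * m ^ j) + M ^ r * (η * (X * q ^ r * m ^ j)))) := by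
          refine mul_le_mul_of_nonneg_left (hlow.trans ?_) (by positivity)
          refine mul_le_mul_of_nonneg_left (hTY.trans hsumY) (by positivity)
      _ = _ := by rw [hA]; ring
  set Z : ℝ := X * q ^ r * m ^ j with hZ
  have hZpos : 0 < Z := by positivity
  have h5 : c * M ^ r ≤ A * (G * C + M ^ r * η) := by
    have : Z * (c * M ^ r) ≤ Z * (A * (G * C + M ^ r * η)) := by
      calc Z * (c * M ^ r) = c * Z * M ^ r := by ring
        _ ≤ A * (G * (C * Z) + M ^ r * (η * Z)) := hcomb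
        _ = _ := by ring
    exact le_of_mul_le_mul_left this hZpos
  have h6 : A * η = c / 2 := by
    rw [hη]; field_simp
  have h7 : c / 2 * M ^ r ≤ A * C * G := by
    have e1 : A * (G * C + M ^ r * η) = A * C * G + (A * η) * M ^ r := by ring
    rw [e1, h6] at h5
    linarith
  rw [div_mul_eq_mul_div, div_le_iff₀ (by positivity)]
  nlinarith [h7]

end Pool.Agent.Lib.MT
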