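import Pool.Agent.Lib.MT.ClassLower
import Pool.Agent.Lib.MT.Combin

/-!
# The r-tuples of primes in one class of the small primes

PROOF SKETCH. combin with I = the n ∈ (N, 2N] with n ≡ u [MOD PN N], Pm n b = (N < n ∧ (n + b).Prime),
Ro n b = (∀ p prime, p ∣ n + b → N^δ < p) (a prime n + b > N ≥ N^δ is rough as δ ≤ 1),
X = N/PN N, q = 1/(dens (PN N) log N), c and k from class_lower, C = maximum over j ≤ 2k of the
constants of class_upper j δ.
-/

open Finset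
open scoped Classical

namespace Pool.Agent.Lib.MT

/-- `dens` of a positive number is positive. -/
private lemma dens_pos_of_pos {W : ℕ} (hW : 0 < W) : 0 < dens W := by
  unfold dens
  have : 0 < W.totient := Nat.totient_pos.mpr hW
  positivity

theorem class_main (r : ℕ) (hr : 1 ≤ r) : ∃ (k : ℕ) (κ δ : ℝ), r ≤ k ∧ 0 < κ ∧ 0 < δ ∧
    ∀ K : ℕ, ∃ N₀ : ℕ, ∀ N ≥ N₀, ∀ u : ℕ, ∀ B : Finset ℕ,
    (∀ b ∈ B, (b : ℝ) ≤ (Real.log N) ^ K ∧ Nat.Coprime (u + b) (PN N)) → k ≤ B.card →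
    δ * (B.card : ℝ) ^ r ≤
      (((Fintype.piFinset (fun _ : Fin r => B)).filter (fun b => Function.Injective b ∧
        κ * ((N:ℝ) / PN N) / (dens (PN N) * Real.log N) ^ r *
            (min 1 (B.card / (dens (PN N) * Real.log N))) ^ (k - r) ≤
          (((Finset.Ioc N (2*N)).filter (fun n => n ≡ u [MOD PN N] ∧
            ∀ i, (n + b i).Prime)).card : ℝ))).card : ℝ) := by
  obtain ⟨k, c, δ, hrk, hk, hc, hδ, hδ1, hL⟩ := class_lower r
  have hU : ∀ j : ℕ, ∃ C : ℝ, 0 < C ∧ ∀ K : ℕ, ∃ N₀ : ℕ, ∀ N ≥ N₀, ∀ u : ℕ, ∀ h : Fin j → ℕ,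
      Function.Injective h → (∀ i, (h i : ℝ) ≤ (Real.log N) ^ K) →
      (((Finset.Ioc N (2*N)).filter (fun n => n ≡ u [MOD PN N] ∧
        (∀ i, ∀ p : ℕ, p.Prime → p ∣ n + h i → (N:ℝ) ^ δ < p))).card : ℝ) ≤
      C * ((N:ℝ) / PN N) / (dens (PN N) * Real.log N) ^ j := fun j => class_upper j δ hδ
  choose C hC hCU using hU
  set C' : ℝ := ∑ j ∈ Finset.range (2 * k + 1), C j with hC'
  have hC'pos : 0 < C' := Finset.sum_pos (fun j _ => hC j) ⟨0, by simp⟩
  have hCC' : ∀ j ≤ 2 * k, C j ≤ C' := by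
    intro j hj
    exact Finset.single_le_sum (f := C) (fun i _ => (hC i).le) (by simp; omega)
  obtain ⟨κ, δ', hκ, hδ', hcomb⟩ := combin r k hr hrk c C' hc hC'pos
  refine ⟨k, κ, δ', hrk, hκ, hδ', fun K => ?_⟩
  obtain ⟨N₁, hN₁⟩ := hL K
  have hU2 : ∀ j, ∃ N₀ : ℕ, ∀ N ≥ N₀, ∀ u : ℕ, ∀ h : Fin j → ℕ,
      Function.Injective h → (∀ i, (h i : ℝ) ≤ (Real.log N) ^ K) →
      (((Finset.Ioc N (2*N)).filter (fun n => n ≡ u [MOD PN N] ∧
        (∀ i, ∀ p : ℕ, p.Prime → p ∣ n + h i → (N:ℝ) ^ δ < p))).card : ℝ) ≤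
      C j * ((N:ℝ) / PN N) / (dens (PN N) * Real.log N) ^ j := fun j => hCU j K
  choose N₂ hN₂ using hU2
  set N₃ : ℕ := ∑ j ∈ Finset.range (2 * k + 1), N₂ j with hN₃
  have hNN₃ : ∀ j ≤ 2 * k, N₂ j ≤ N₃ := by
    intro j hj
    exact Finset.single_le_sum (f := N₂) (fun i _ => Nat.zero_le _) (by simp; omega)
  refine ⟨N₁ + N₃ + 3, fun N hN u B hB hkB => ?_⟩
  have hN3 : (3:ℝ) ≤ N := by
    have : 3 ≤ N := by omega
    exact_mod_cast this
  have hlog : 0 < Real.log N := Real.log_pos (by linarith)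
  have hP : 0 < PN N := primorial_pos _
  have hPR : (0:ℝ) < PN N := by exact_mod_cast hP
  have hd : 0 < dens (PN N) := dens_pos_of_pos hP
  have hq : 0 < 1 / (dens (PN N) * Real.log N) := by positivity
  have hX : 0 < (N:ℝ) / PN N := by positivity
  have hNpos : (0:ℝ) < N := by linarith
  have key := hcomb ((Finset.Ioc N (2*N)).filter (fun n => n ≡ u [MOD PN N])) B
    (fun n b => N < n ∧ (n + b).Prime) (fun n b => N < n ∧ ∀ p : ℕ, p.Prime → p ∣ n + b → (N:ℝ) ^ δ < p)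
    ((N:ℝ) / PN N) (1 / (dens (PN N) * Real.log N)) hX hq hkB ?_ ?_ ?_
  · refine key.trans ?_
    refine Nat.cast_le.mpr (Finset.card_le_card ?_)
    · intro b hb
      rw [Finset.mem_filter] at hb ⊢
      refine ⟨hb.1, hb.2.1, ?_⟩
      have h2 := hb.2.2
      have e1 : κ * ((N:ℝ) / PN N) / (dens (PN N) * Real.log N) ^ r *
            (min 1 (B.card / (dens (PN N) * Real.log N))) ^ (k - r) =
          κ * ((N:ℝ) / PN N) * (1 / (dens (PN N) * Real.log N)) ^ r *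
            (min 1 (B.card * (1 / (dens (PN N) * Real.log N)))) ^ (k - r) := by
        rw [one_div, inv_pow, ← div_eq_mul_inv, ← div_eq_mul_inv]
      rw [e1]
      refine h2.trans ?_
      refine Nat.cast_le.mpr (Finset.card_le_card ?_)
      intro n hn
      simp only [Finset.mem_filter] at hn ⊢
      exact ⟨hn.1.1, hn.1.2, fun i => (hn.2 i).2⟩
  · rintro n b ⟨h1, h2⟩
    refine ⟨h1, fun p hp hpn => ?_⟩
    have hpe : p = n + b := (Nat.prime_dvd_prime_iff_eq hp h2).mp hpn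
    have h3 : (N:ℝ) ^ δ ≤ (N:ℝ) ^ (1:ℝ) := Real.rpow_le_rpow_of_exponent_le (by linarith) hδ1
    rw [Real.rpow_one] at h3
    refine lt_of_le_of_lt h3 ?_
    rw [hpe]
    exact_mod_cast (by omega : N < n + b)
  · intro h hinj hmem
    have h1 := hN₁ N (by omega) u h hinj (fun i => (hB _ (hmem i)).1) (fun i => (hB _ (hmem i)).2)
    have e1 : c * ((N:ℝ) / PN N) * (1 / (dens (PN N) * Real.log N)) ^ k =
        c * ((N:ℝ) / PN N) / (dens (PN N) * Real.log N) ^ k := by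
      rw [one_div, inv_pow, ← div_eq_mul_inv]
    rw [e1]
    refine h1.trans ?_
    refine Nat.cast_le.mpr (Finset.card_le_card ?_)
    intro n hn
    simp only [Finset.mem_filter, Finset.mem_Ioc] at hn ⊢
    refine ⟨⟨hn.1, hn.2.1⟩, fun i => ⟨hn.1.1, hn.2.2.1 i⟩, ?_⟩
    refine hn.2.2.2.trans (Finset.card_le_card ?_)
    intro i hi
    simp only [Finset.mem_filter, Finset.mem_univ, true_and] at hi ⊢
    exact ⟨hn.1.1, hi⟩
  · intro j hj h hinj hmem
    have h1 := hN₂ j N (by have := hNN₃ j hj; omega) u h hinj (fun i => (hB _ (hmem i)).1)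
    refine le_trans (Nat.cast_le.mpr (Finset.card_le_card ?_)) (h1.trans ?_)
    · intro n hn
      simp only [Finset.mem_filter] at hn ⊢
      exact ⟨hn.1.1, hn.1.2, fun i => (hn.2 i).2⟩
    have e1 : C' * ((N:ℝ) / PN N) * (1 / (dens (PN N) * Real.log N)) ^ j =
        C' * ((N:ℝ) / PN N) / (dens (PN N) * Real.log N) ^ j := by
      rw [one_div, inv_pow, ← div_eq_mul_inv]
    rw [e1]
    have hC'j := hCC' j hj
    gcongr

end Pool.Agent.Lib.MT
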