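import Mathlib

/-!
# Monotonicity of tensor products of positive semidefinite forms
-/

namespace Pool.Agent.Lib.MT

open scoped MatrixOrder

/-- Gram decomposition of a symmetric positive semidefinite real form. -/
lemma tensor_gram {S : Type} [Fintype S] [DecidableEq S] (D : S → S → ℝ)
    (hs : ∀ a b, D a b = D b a) (hD : ∀ v : S → ℝ, 0 ≤ ∑ a, ∑ b, v a * v b * D a b) :
    ∃ A : S → S → ℝ, ∀ a b, D a b = ∑ c, A c a * A c b := by
  have hM : (Matrix.of D).PosSemidef := by
    refine Matrix.PosSemidef.of_dotProduct_mulVec_nonneg ?_ fun x => ?_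
    · ext a b
      simp [Matrix.conjTranspose_apply, hs b a]
    · have h := hD x
      have : star x ⬝ᵥ (Matrix.of D).mulVec x = ∑ a, ∑ b, x a * x b * D a b := by
        simp only [dotProduct, Matrix.mulVec, Matrix.of_apply, Pi.star_apply, star_trivial]
        refine Finset.sum_congr rfl fun a _ => ?_
        rw [Finset.mul_sum]
        refine Finset.sum_congr rfl fun b _ => ?_
        ring
      rw [this]
      exact h
  obtain ⟨B, hB⟩ := CStarAlgebra.nonneg_iff_eq_star_mul_self.mp hM.nonneg
  refine ⟨fun c a => B c a, fun a b => ?_⟩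
  have h := congrFun (congrFun hB a) b
  simpa [Matrix.mul_apply, Matrix.star_eq_conjTranspose] using h

/-- A tensor product of symmetric positive semidefinite forms is positive semidefinite. -/
lemma tensor_nonneg {ι S : Type} [Fintype ι] [DecidableEq ι] [Fintype S] [DecidableEq S]
    (D : ι → S → S → ℝ) (hs : ∀ i a b, D i a b = D i b a)
    (hD : ∀ i, ∀ v : S → ℝ, 0 ≤ ∑ a, ∑ b, v a * v b * D i a b) (z : (ι → S) → ℝ) :
    0 ≤ ∑ r, ∑ s, z r * z s * ∏ i, D i (r i) (s i) := by
  choose A hA using fun i => tensor_gram (D i) (hs i) (hD i)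
  have key : ∑ r, ∑ s, z r * z s * ∏ i, D i (r i) (s i)
      = ∑ c : ι → S, (∑ r, z r * ∏ i, A i (c i) (r i)) ^ 2 := by
    have h1 : ∀ r s : ι → S, ∏ i, D i (r i) (s i)
        = ∑ c : ι → S, (∏ i, A i (c i) (r i)) * ∏ i, A i (c i) (s i) := by
      intro r s
      simp only [← Finset.prod_mul_distrib]
      rw [← Fintype.piFinset_univ, Finset.sum_prod_piFinset Finset.univ
        (fun i c => A i c (r i) * A i c (s i))]
      exact Finset.prod_congr rfl fun i _ => hA i _ _
    simp only [h1, Finset.mul_sum]
    have h2 : ∀ c : ι → S, (∑ r, z r * ∏ i, A i (c i) (r i)) ^ 2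
        = ∑ r, ∑ s, z r * z s * ((∏ i, A i (c i) (r i)) * ∏ i, A i (c i) (s i)) := by
      intro c
      rw [sq, Finset.sum_mul_sum]
      refine Finset.sum_congr rfl fun r _ => Finset.sum_congr rfl fun s _ => ?_
      ring
    simp only [h2]
    rw [Finset.sum_comm]
    refine Eq.trans ?_ (Finset.sum_comm)
    rw [Finset.sum_comm]
    refine Finset.sum_congr rfl fun r _ => ?_
    rw [Finset.sum_comm]
  rw [key]
  exact Finset.sum_nonneg fun c _ => sq_nonneg _

theorem tensor_mono {ι S : Type} [Fintype ι] [DecidableEq ι] [Fintype S] [DecidableEq S]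
    (D D' : ι → S → S → ℝ) (hs : ∀ i a b, D i a b = D i b a) (hs' : ∀ i a b, D' i a b = D' i b a)
    (hD : ∀ i, ∀ v : S → ℝ, 0 ≤ ∑ a, ∑ b, v a * v b * D i a b)
    (hle : ∀ i, ∀ v : S → ℝ, ∑ a, ∑ b, v a * v b * D i a b ≤ ∑ a, ∑ b, v a * v b * D' i a b)
    (z : (ι → S) → ℝ) :
    ∑ r, ∑ s, z r * z s * ∏ i, D i (r i) (s i) ≤ ∑ r, ∑ s, z r * z s * ∏ i, D' i (r i) (s i) := by
  classical
  have main : ∀ T : Finset ι,
      ∑ r, ∑ s, z r * z s * ∏ i, D i (r i) (s i)
        ≤ ∑ r, ∑ s, z r * z s * ∏ i, (if i ∈ T then D' i (r i) (s i) else D i (r i) (s i)) := by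
    intro T
    induction T using Finset.induction_on with
    | empty => simp
    | insert j T hj ih =>
      refine ih.trans ?_
      have hF := tensor_nonneg (fun i a b => if i = j then D' i a b - D i a b
          else if i ∈ T then D' i a b else D i a b) ?_ ?_ z
      · rw [← sub_nonneg]
        refine hF.trans (le_of_eq ?_)
        rw [← Finset.sum_sub_distrib]
        refine Finset.sum_congr rfl fun r _ => ?_
        rw [← Finset.sum_sub_distrib]
        refine Finset.sum_congr rfl fun s _ => ?_
        rw [← mul_sub]
        congr 1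
        rw [← Finset.mul_prod_erase Finset.univ _ (Finset.mem_univ j),
          ← Finset.mul_prod_erase Finset.univ
            (fun i => if i ∈ insert j T then D' i (r i) (s i) else D i (r i) (s i))
            (Finset.mem_univ j),
          ← Finset.mul_prod_erase Finset.univ
            (fun i => if i ∈ T then D' i (r i) (s i) else D i (r i) (s i))
            (Finset.mem_univ j)]
        have e1 : ∏ i ∈ Finset.univ.erase j, (if i = j then D' i (r i) (s i) - D i (r i) (s i)
              else if i ∈ T then D' i (r i) (s i) else D i (r i) (s i))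
            = ∏ i ∈ Finset.univ.erase j,
              (if i ∈ T then D' i (r i) (s i) else D i (r i) (s i)) := by
          refine Finset.prod_congr rfl fun i hi => ?_
          rw [if_neg (Finset.ne_of_mem_erase hi)]
        have e2 : ∏ i ∈ Finset.univ.erase j,
              (if i ∈ insert j T then D' i (r i) (s i) else D i (r i) (s i))
            = ∏ i ∈ Finset.univ.erase j,
              (if i ∈ T then D' i (r i) (s i) else D i (r i) (s i)) := by
          refine Finset.prod_congr rfl fun i hi => ?_
          simp only [Finset.mem_insert, Finset.ne_of_mem_erase hi, false_or]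
        rw [e1, e2]
        simp only [if_true, Finset.mem_insert_self, hj, if_false]
        ring
      · intro i a b
        rw [hs i a b, hs' i a b]
      · intro i v
        by_cases hij : i = j
        · simp only [hij, if_true]
          have h := hle j v
          have e : ∑ a, ∑ b, v a * v b * (D' j a b - D j a b)
              = ∑ a, ∑ b, v a * v b * D' j a b - ∑ a, ∑ b, v a * v b * D j a b := by
            simp only [mul_sub, Finset.sum_sub_distrib]
          rw [e]
          linarith
        · simp only [hij, if_false]
          by_cases hiT : i ∈ T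
          · simp only [hiT, if_true]
            exact (hD i v).trans (hle i v)
          · simp only [hiT, if_false]
            exact hD i v
  have := main Finset.univ
  simpa using this

end Pool.Agent.Lib.MT
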