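import Pool.Agent.Lib.MT.Defs
import Pool.Agent.Lib.MT.Tensor

/-!
# Diagonalisation of the sieve form, as inequalities

Per prime, `Kq q a b = ∑ c d, Zq q c a * Dd q c d * Zq q d b` where
`Dd none none = 1`, `Dd none (some _) = Dd (some _) none = 0`,
`Dd (some i) (some j) = (if i = j then 1/q else 0) - 1/q^2`. Hence
`formK q lam = ∑ c d, z c * z d * ∏ Dd (c p) (d p)`, `z = zOf q lam`.
`Dd` is positive semidefinite because `(∑ v_i)^2 ≤ k ∑ v_i^2 ≤ q ∑ v_i^2`;
`Dd ≤ diag(1, 1/q, ..., 1/q)` since `(∑ v_i)^2/q^2 ≥ 0`; and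
`Dd ≥ diag(1, (1/q)(1-k/q), ...)` by `(∑ v_i)^2 ≤ k ∑ v_i^2`, and this last one is positive
semidefinite as `k ≤ q`. Apply `tensor_mono` twice; the diagonal forms collapse to a single sum.
-/

open Finset
open scoped Classical

namespace Pool.Agent.Lib.MT

variable {P : Finset ℕ} {k : ℕ}

/-- The middle factor of the local kernel. -/
noncomputable def Dd (q : ℝ) (a b : Option (Fin k)) : ℝ :=
  match a, b with
  | none, none => 1
  | none, some _ => 0
  | some _, none => 0
  | some i, some j => (if i = j then 1 / q else 0) - 1 / q ^ 2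

/-- A diagonal local form. -/
noncomputable def Dg (κ : ℝ) (a b : Option (Fin k)) : ℝ :=
  if a = b then (if a = none then 1 else κ) else 0

theorem Dd_symm (q : ℝ) (a b : Option (Fin k)) : Dd q a b = Dd q b a := by
  rcases a with _ | i <;> rcases b with _ | j <;> simp [Dd, eq_comm]

theorem Dg_symm (κ : ℝ) (a b : Option (Fin k)) : Dg κ a b = Dg κ b a := by
  unfold Dg
  by_cases h : a = b
  · subst h; rfl
  · rw [if_neg h, if_neg (Ne.symm h)]

theorem quad_Dd (q : ℝ) (v : Option (Fin k) → ℝ) :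
    ∑ a, ∑ b, v a * v b * Dd q a b =
      v none ^ 2 + 1 / q * ∑ i, v (some i) ^ 2 - 1 / q ^ 2 * (∑ i, v (some i)) ^ 2 := by
  have h1 : ∀ i : Fin k, ∑ j : Fin k, v (some i) * v (some j) *
      ((if i = j then 1 / q else 0) - 1 / q ^ 2) =
      1 / q * v (some i) ^ 2 - 1 / q ^ 2 * (v (some i) * ∑ j, v (some j)) := by
    intro i
    have : ∀ j : Fin k, v (some i) * v (some j) * ((if i = j then 1 / q else 0) - 1 / q ^ 2) =
        (if i = j then v (some i) * v (some j) * (1 / q) else 0)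
          - 1 / q ^ 2 * v (some i) * v (some j) := by
      intro j
      split_ifs <;> ring
    rw [Finset.sum_congr rfl fun j _ => this j, Finset.sum_sub_distrib, Finset.sum_ite_eq,
      ← Finset.mul_sum]
    simp only [Finset.mem_univ, if_true]
    ring
  rw [Fintype.sum_option, Fintype.sum_option]
  simp only [Fintype.sum_option, Dd, mul_one, mul_zero, Finset.sum_const_zero, add_zero, zero_add]
  rw [Finset.sum_congr rfl fun i _ => h1 i, Finset.sum_sub_distrib, ← Finset.mul_sum,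
    ← Finset.mul_sum, ← Finset.sum_mul]
  ring

theorem quad_Dg (κ : ℝ) (v : Option (Fin k) → ℝ) :
    ∑ a, ∑ b, v a * v b * Dg κ a b = v none ^ 2 + κ * ∑ i, v (some i) ^ 2 := by
  have h1 : ∀ a : Option (Fin k), ∑ b, v a * v b * Dg κ a b =
      v a ^ 2 * (if a = none then 1 else κ) := by
    intro a
    have : ∀ b : Option (Fin k), v a * v b * Dg κ a b =
        if a = b then v a * v b * (if a = none then 1 else κ) else 0 := by
      intro b
      unfold Dg
      split_ifs <;> ring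
    rw [Finset.sum_congr rfl fun b _ => this b, Finset.sum_ite_eq]
    simp only [Finset.mem_univ, if_true]
    ring
  rw [Finset.sum_congr rfl fun a _ => h1 a, Fintype.sum_option, Finset.mul_sum]
  simp [mul_comm]

theorem sq_sum_le (v : Fin k → ℝ) : (∑ i, v i) ^ 2 ≤ k * ∑ i, v i ^ 2 := by
  have := sq_sum_le_card_mul_sum_sq (s := (Finset.univ : Finset (Fin k))) (f := v)
  simpa using this

theorem Kq_eq (q : ℝ) (hq : 0 < q) (a b : Option (Fin k)) :
    Kq q a b = ∑ c, ∑ d, Zq q c a * Dd q c d * Zq q d b := by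
  have hq' := hq.ne'
  rcases a with _ | i <;> rcases b with _ | j
  · simp [Kq, Zq, Dd, Fintype.sum_option]
  · simp only [Fintype.sum_option, Kq, Zq, Dd]
    simp
  · simp only [Fintype.sum_option, Kq, Zq, Dd]
    simp
  · simp only [Fintype.sum_option, Kq, Zq, Dd]
    by_cases hij : i = j
    · subst hij
      simp
      field_simp
      ring
    · simp [hij]
      field_simp
      ring

theorem prod_Kq (q : ℕ → ℝ) (hq : ∀ p ∈ P, 0 < q p) (r s : Asg P k) :
    ∏ p : P, Kq (q p) (r p) (s p) =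
      ∑ c : Asg P k, ∑ d : Asg P k, (∏ p : P, Zq (q p) (c p) (r p)) *
        (∏ p : P, Dd (q p) (c p) (d p)) * ∏ p : P, Zq (q p) (d p) (s p) := by
  have h1 : ∀ p : P, Kq (q p) (r p) (s p) = ∑ c : Option (Fin k), Zq (q p) c (r p) *
      ∑ d : Option (Fin k), Dd (q p) c d * Zq (q p) d (s p) := by
    intro p
    rw [Kq_eq (q p) (hq p p.2)]
    refine Finset.sum_congr rfl fun c _ => ?_
    rw [Finset.mul_sum]
    refine Finset.sum_congr rfl fun d _ => by ring
  rw [Finset.prod_congr rfl fun p _ => h1 p, Finset.prod_univ_sum, Fintype.piFinset_univ]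
  refine Finset.sum_congr rfl fun c _ => ?_
  rw [Finset.prod_mul_distrib, Finset.prod_univ_sum, Fintype.piFinset_univ, Finset.mul_sum]
  refine Finset.sum_congr rfl fun d _ => ?_
  rw [Finset.prod_mul_distrib]
  ring

theorem formK_eq (q : ℕ → ℝ) (hq : ∀ p ∈ P, 0 < q p) (lam : Asg P k → ℝ) :
    formK q lam = ∑ c : Asg P k, ∑ d : Asg P k, zOf q lam c * zOf q lam d *
      ∏ p : P, Dd (q p) (c p) (d p) := by
  unfold formK
  have h1 : ∀ r s : Asg P k, lam r * lam s * ∏ p : P, Kq (q p) (r p) (s p) =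
      ∑ c : Asg P k, ∑ d : Asg P k, (lam r * ∏ p : P, Zq (q p) (c p) (r p)) *
        (lam s * ∏ p : P, Zq (q p) (d p) (s p)) * ∏ p : P, Dd (q p) (c p) (d p) := by
    intro r s
    rw [prod_Kq q hq, Finset.mul_sum]
    refine Finset.sum_congr rfl fun c _ => ?_
    rw [Finset.mul_sum]
    refine Finset.sum_congr rfl fun d _ => by ring
  rw [Finset.sum_congr rfl fun r _ => Finset.sum_congr rfl fun s _ => h1 r s]
  have h2 : ∀ r : Asg P k, ∑ s : Asg P k, ∑ c : Asg P k, ∑ d : Asg P k,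
      (lam r * ∏ p : P, Zq (q p) (c p) (r p)) *
        (lam s * ∏ p : P, Zq (q p) (d p) (s p)) * ∏ p : P, Dd (q p) (c p) (d p) =
      ∑ c : Asg P k, ∑ d : Asg P k, (lam r * ∏ p : P, Zq (q p) (c p) (r p)) *
        zOf q lam d * ∏ p : P, Dd (q p) (c p) (d p) := by
    intro r
    rw [Finset.sum_comm]
    refine Finset.sum_congr rfl fun c _ => ?_
    rw [Finset.sum_comm]
    refine Finset.sum_congr rfl fun d _ => ?_
    unfold zOf
    rw [Finset.mul_sum, Finset.sum_mul]
  rw [Finset.sum_congr rfl fun r _ => h2 r, Finset.sum_comm]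
  refine Finset.sum_congr rfl fun c _ => ?_
  rw [Finset.sum_comm]
  refine Finset.sum_congr rfl fun d _ => ?_
  unfold zOf
  rw [Finset.sum_mul, Finset.sum_mul]

theorem sum_Dg (κ : ℕ → ℝ) (z : Asg P k → ℝ) :
    ∑ c : Asg P k, ∑ d : Asg P k, z c * z d * ∏ p : P, Dg (κ p) (c p) (d p) =
      ∑ r : Asg P k, (z r) ^ 2 * wt κ r := by
  refine Finset.sum_congr rfl fun c _ => ?_
  rw [Finset.sum_eq_single c]
  · have : ∏ p : P, Dg (κ p) (c p) (c p) = wt κ c := by
      unfold wt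
      refine Finset.prod_congr rfl fun p _ => ?_
      simp [Dg]
    rw [this]
    ring
  · intro d _ hd
    obtain ⟨p, hp⟩ := Function.ne_iff.mp hd
    have : ∏ p : P, Dg (κ p) (c p) (d p) = 0 :=
      Finset.prod_eq_zero (Finset.mem_univ p) (by
        unfold Dg
        rw [if_neg (Ne.symm hp)])
    rw [this, mul_zero]
  · intro h
    exact absurd (Finset.mem_univ c) h

theorem formK_le (q : ℕ → ℝ) (hq : ∀ p ∈ P, (k:ℝ) ≤ q p ∧ 0 < q p) (lam : Asg P k → ℝ) :
    formK q lam ≤ ∑ r, (zOf q lam r) ^ 2 * wt (fun p => 1 / q p) r := by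
  rw [formK_eq q (fun p hp => (hq p hp).2), ← sum_Dg]
  refine tensor_mono (ι := P) (S := Option (Fin k)) (fun p => Dd (q p)) (fun p => Dg (1 / q p))
    (fun p a b => Dd_symm _ a b) (fun p a b => Dg_symm _ a b) ?_ ?_ (zOf q lam)
  · intro p v
    obtain ⟨h1, h2⟩ := hq p p.2
    rw [quad_Dd]
    have h3 := sq_sum_le (fun i => v (some i))
    have h4 : 0 ≤ ∑ i, v (some i) ^ 2 := Finset.sum_nonneg fun i _ => sq_nonneg _
    have h5 : (∑ i, v (some i)) ^ 2 ≤ q p * ∑ i, v (some i) ^ 2 :=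
      h3.trans (mul_le_mul_of_nonneg_right h1 h4)
    have h6 : 1 / q p ^ 2 * (∑ i, v (some i)) ^ 2 ≤ 1 / q p * ∑ i, v (some i) ^ 2 := by
      calc 1 / q p ^ 2 * (∑ i, v (some i)) ^ 2 ≤ 1 / q p ^ 2 * (q p * ∑ i, v (some i) ^ 2) :=
            mul_le_mul_of_nonneg_left h5 (by positivity)
        _ = 1 / q p * ∑ i, v (some i) ^ 2 := by field_simp
    nlinarith [sq_nonneg (v none)]
  · intro p v
    obtain ⟨h1, h2⟩ := hq p p.2
    rw [quad_Dd, quad_Dg]
    have : 0 ≤ 1 / q p ^ 2 * (∑ i, v (some i)) ^ 2 := by positivity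
    linarith

theorem le_formK (q : ℕ → ℝ) (hq : ∀ p ∈ P, (k:ℝ) ≤ q p ∧ 0 < q p) (lam : Asg P k → ℝ) :
    ∑ r, (zOf q lam r) ^ 2 * wt (fun p => 1 / q p * (1 - k / q p)) r ≤ formK q lam := by
  rw [formK_eq q (fun p hp => (hq p hp).2), ← sum_Dg (fun p => 1 / q p * (1 - k / q p))]
  refine tensor_mono (ι := P) (S := Option (Fin k)) (fun p => Dg (1 / q p * (1 - k / q p)))
    (fun p => Dd (q p)) (fun p a b => Dg_symm _ a b) (fun p a b => Dd_symm _ a b) ?_ ?_
    (zOf q lam)
  · intro p v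
    obtain ⟨h1, h2⟩ := hq p p.2
    rw [quad_Dg]
    have h4 : 0 ≤ ∑ i, v (some i) ^ 2 := Finset.sum_nonneg fun i _ => sq_nonneg _
    have h5 : (0 : ℝ) ≤ 1 - k / q p := by
      rw [sub_nonneg, div_le_one h2]
      exact h1
    have h6 : 0 ≤ 1 / q p * (1 - k / q p) * ∑ i, v (some i) ^ 2 := by positivity
    nlinarith [sq_nonneg (v none)]
  · intro p v
    obtain ⟨h1, h2⟩ := hq p p.2
    rw [quad_Dd, quad_Dg]
    have h3 := sq_sum_le (fun i => v (some i))
    have h6 : 1 / q p ^ 2 * (∑ i, v (some i)) ^ 2 ≤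
        1 / q p * (k / q p) * ∑ i, v (some i) ^ 2 := by
      calc 1 / q p ^ 2 * (∑ i, v (some i)) ^ 2 ≤ 1 / q p ^ 2 * (k * ∑ i, v (some i) ^ 2) :=
            mul_le_mul_of_nonneg_left h3 (by positivity)
        _ = 1 / q p * (k / q p) * ∑ i, v (some i) ^ 2 := by field_simp
    have h7 : 1 / q p * (1 - k / q p) * ∑ i, v (some i) ^ 2 =
        1 / q p * ∑ i, v (some i) ^ 2 - 1 / q p * (k / q p) * ∑ i, v (some i) ^ 2 := by ring
    rw [h7]
    linarith

end Pool.Agent.Lib.MT
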