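import Pool.Agent.Lib.MT.Weighted
import Pool.Agent.Lib.MT.WeightMax

/-!
# Maynard's theorem, uniform in the shifts, with roughness and the right count

PROOF SKETCH. In weighted, the terms with fewer than r primes are ≤ 0 (X_n - (r-1) ≤ 0, wn ≥ 0), the
others are ≤ k wn ≤ k (2^(2k/δ+k) C (dens W log N)^k)² (wn_le with L = C (dens W log N)^k), so the
number of n with X_n ≥ r is ≥ c (N/W) (dens W log N)^(k-2k) / const. If p is a prime dividing
n + h i and p ≤ N^δ: p does not divide W (n + h i ≡ v + h i is coprime to W), p ≤ N^δ ≤ R so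
p ∈ Pr W R, contradiction: so the roughness holds for all primes.
-/

open Finset
open scoped Classical

namespace Pool.Agent.Lib.MT

theorem maynard (r : ℕ) : ∃ (k D : ℕ) (c δ : ℝ), r ≤ k ∧ 1 ≤ k ∧ 0 < c ∧ 0 < δ ∧
    ∀ K : ℕ, ∃ N₀ : ℕ, ∀ N ≥ N₀, ∀ (W v : ℕ), 1 ≤ W →
    (W:ℝ) ≤ (Real.log N) ^ K → (∀ p, p.Prime → p ≤ D → p ∣ W) →
    ∀ h : Fin k → ℕ, (∀ i, h i ≤ N) → (∀ i, Nat.Coprime (v + h i) W) →
    (∀ i j, i ≠ j → ∀ p, p.Prime → h i ≡ h j [MOD p] → p ∣ W) →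
    c * ((N:ℝ) / W) / (dens W * Real.log N) ^ k ≤
      ((Finset.Ioc N (2*N)).filter (fun n => n ≡ v [MOD W] ∧
        (∀ i, ∀ p : ℕ, p.Prime → p ∣ n + h i → (N:ℝ) ^ δ < p) ∧
        r ≤ (Finset.univ.filter (fun i => (n + h i).Prime)).card)).card := by
  obtain ⟨k, J, D, c, C, δ, hrk, hk, hc, hC, hδ, H⟩ := weighted r
  set E : ℝ := (2:ℝ) ^ (2 * k / δ + k : ℝ) with hE
  have hE0 : 0 < E := by positivity
  have hk1 : (0:ℝ) < (k:ℝ) + 1 := by positivity
  refine ⟨k, D, c / ((k + 1) * (E * C) ^ 2), δ, hrk, hk, by positivity, hδ, ?_⟩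
  intro K
  obtain ⟨N₀, HN⟩ := H K
  refine ⟨max N₀ 4, ?_⟩
  intro N hN W v hW hWN hD h hhN hcop hdiff
  have hN0 : N₀ ≤ N := (le_max_left _ _).trans hN
  have hN4 : 4 ≤ N := (le_max_right _ _).trans hN
  obtain ⟨R, ρ, hR1, hR2, hsum, hlam⟩ := HN N hN0 W v hW hWN hD h hhN hcop hdiff
  set lam : Asg (Pr W R) k → ℝ := lamOf (yOf (gst ρ J) R) with hlamdef
  set T : ℝ := dens W * Real.log N with hT
  have hN4r : (4:ℝ) ≤ N := by exact_mod_cast hN4
  have hdens : 0 < dens W := by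
    unfold dens
    have h1 : 0 < W.totient := Nat.totient_pos.mpr (by omega)
    have h2 : (0:ℝ) < W.totient := by exact_mod_cast h1
    have h3 : (0:ℝ) < W := by exact_mod_cast hW
    positivity
  have hlog : 0 < Real.log N := Real.log_pos (by linarith)
  have hT0 : 0 < T := mul_pos hdens hlog
  set X : ℕ → ℕ := fun n => (Finset.univ.filter (fun i : Fin k => (n + h i).Prime)).card with hX
  set A := (Finset.Ioc N (2*N)).filter (fun n => n ≡ v [MOD W] ∧
        ∀ p ∈ Pr W R, ∀ i, p ∣ n + h i → (N:ℝ) ^ δ < p) with hA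
  set B := A.filter (fun n => r ≤ X n) with hB
  have hXk : ∀ n, X n ≤ k := by
    intro n
    calc X n ≤ (Finset.univ : Finset (Fin k)).card := Finset.card_filter_le _ _
      _ = k := by simp
  -- the bound of the terms
  have hwn : ∀ n ∈ A, wn h lam n ≤ (E * C) ^ 2 * T ^ (2 * k) := by
    intro n hn
    have hn' := Finset.mem_filter.mp hn
    have hn1 := Finset.mem_Ioc.mp hn'.1
    have h1 := wn_le (P := Pr W R) (k := k)
      (fun p hp => (Finset.mem_filter.mp hp).2.1) N hN4 δ hδ h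
      (fun p hp i j hij hmod => (Finset.mem_filter.mp hp).2.2
        (hdiff i j hij p (Finset.mem_filter.mp hp).2.1 hmod)) hhN lam (C * T ^ k) hlam n
      (by omega) hn1.2 hn'.2.2
    refine h1.trans (le_of_eq ?_)
    rw [← hE, pow_mul']
    ring
  have hsumle : ∑ n ∈ A, (((X n : ℕ) : ℝ) - ((r:ℝ) - 1)) * wn h lam n ≤
      (B.card : ℝ) * ((k + 1) * ((E * C) ^ 2 * T ^ (2 * k))) := by
    have hcardsum : (B.card : ℝ) * ((k + 1) * ((E * C) ^ 2 * T ^ (2 * k))) =
        ∑ n ∈ A, if r ≤ X n then ((k:ℝ) + 1) * ((E * C) ^ 2 * T ^ (2 * k)) else 0 := by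
      rw [← Finset.sum_filter, Finset.sum_const, nsmul_eq_mul]
    rw [hcardsum]
    refine Finset.sum_le_sum ?_
    intro n hn
    have hw0 : 0 ≤ wn h lam n := by unfold wn; exact sq_nonneg _
    split_ifs with hr
    · refine mul_le_mul ?_ (hwn n hn) hw0 hk1.le
      have h1 : ((X n : ℕ):ℝ) ≤ k := by exact_mod_cast hXk n
      have h2 : (0:ℝ) ≤ r := Nat.cast_nonneg r
      linarith
    · have h1 : X n + 1 ≤ r := by omega
      have h2 : ((X n : ℕ):ℝ) + 1 ≤ r := by exact_mod_cast h1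
      exact mul_nonpos_of_nonpos_of_nonneg (by linarith) hw0
  have hmain : c * ((N:ℝ) / W) * T ^ k ≤
      (B.card : ℝ) * ((k + 1) * ((E * C) ^ 2 * T ^ (2 * k))) := hsum.trans hsumle
  have hBsub : B ⊆ (Finset.Ioc N (2*N)).filter (fun n => n ≡ v [MOD W] ∧
        (∀ i, ∀ p : ℕ, p.Prime → p ∣ n + h i → (N:ℝ) ^ δ < p) ∧
        r ≤ (Finset.univ.filter (fun i => (n + h i).Prime)).card) := by
    intro n hn
    have hn1 := Finset.mem_filter.mp hn
    have hn2 := Finset.mem_filter.mp hn1.1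
    refine Finset.mem_filter.mpr ⟨hn2.1, hn2.2.1, ?_, hn1.2⟩
    intro i p hp hpd
    by_contra hlt
    push Not at hlt
    have hpR : p ≤ R := by exact_mod_cast hlt.trans hR1
    have hpW : ¬ p ∣ W := by
      intro hpW
      have h1 : n ≡ v [MOD p] := hn2.2.1.of_dvd hpW
      have h2 : n + h i ≡ v + h i [MOD p] := h1.add_right _
      have h3 : p ∣ v + h i := (h2.dvd_iff (dvd_refl p)).mp hpd
      have h4 : p ∣ Nat.gcd (v + h i) W := Nat.dvd_gcd h3 hpW
      rw [Nat.Coprime.gcd_eq_one (hcop i)] at h4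
      exact hp.one_lt.ne' (Nat.dvd_one.mp h4)
    have hpP : p ∈ Pr W R :=
      Finset.mem_filter.mpr ⟨Finset.mem_Icc.mpr ⟨hp.one_lt.le, hpR⟩, hp, hpW⟩
    exact absurd (hn2.2.2 p hpP i hpd) (not_lt.mpr hlt)
  have hcard : (B.card : ℝ) ≤ ((Finset.Ioc N (2*N)).filter (fun n => n ≡ v [MOD W] ∧
        (∀ i, ∀ p : ℕ, p.Prime → p ∣ n + h i → (N:ℝ) ^ δ < p) ∧
        r ≤ (Finset.univ.filter (fun i => (n + h i).Prime)).card)).card := by
    exact_mod_cast Finset.card_le_card hBsub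
  refine le_trans ?_ hcard
  rw [div_le_iff₀ (by positivity), div_mul_eq_mul_div, div_le_iff₀ (by positivity)]
  have hTk : 0 < T ^ k := by positivity
  have h2k : T ^ (2 * k) = T ^ k * T ^ k := by rw [two_mul, pow_add]
  rw [h2k] at hmain
  have h3 : c * ((N:ℝ) / W) * T ^ k ≤
      ((B.card : ℝ) * T ^ k * ((k + 1) * (E * C) ^ 2)) * T ^ k := by
    refine hmain.trans (le_of_eq ?_)
    ring
  exact le_of_mul_le_mul_right h3 hTk

end Pool.Agent.Lib.MT
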