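import Pool.Agent.Lib.MT.Hits
import Pool.Agent.Lib.MT.RoughForm
import Pool.Agent.Lib.MT.Params
import Pool.Agent.Lib.MT.Perturb
import Pool.Agent.Lib.MT.LamMax
import Pool.Agent.Lib.MT.Cheb
import Pool.Agent.Lib.MT.NonRoughAux

/-!
# The weights live on rough integers

PROOF SKETCH. P = Pr W R, lam = lamOf (yOf (gst ρ J) R). Union bound over p₀ ∈ P, p₀ ≤ N^δ and
i₀ < k: sum_wn_dvd and rough_form. All p ∈ P are > D. B'' = sum1 P κ₂ g² ≤ exp(2/D) B ≤ 8 B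
(sum1_kappa2_le, sum_kappa1_sq_le), B ≤ C dens W log ρ (params). The main terms:
(N/W) k B''^(k-1) C dens W sum_{p₀ ≤ N^δ} (log p₀ + 1 + log W)/p₀
≤ (N/W) C' (dens W log ρ)^(k-1) dens W (δ log N + (1 + log W)(1 + log log N)), and
log W ≤ K log log N, log ρ ≥ η log N, so this is ≤ (N/W) C'' (dens W log ρ)^k (δ/η + o(1)).
Second: (N/W) k · 2 k² B''^k sum_{p₀ > D} κ₁(p₀)²/p₀ ≤ (N/W) C' (dens W log ρ)^k / D.
Error: k N^δ (∑|lam|)² ≤ k N^(1/4) (R (1+log R)^k F^k)², F = sum1 P κ₁ (indicator ≤ R) ≤ C log R,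
R ≤ N^(1/100), is at most N^(1/2), and (N/W)(dens W log ρ)^k ≥ N/(log N)^(2K+k+1) or so
(dens W ≥ 1/(1 + log W/log 2) ≥ 1/(log N)).
-/

open Finset
open scoped Classical

namespace Pool.Agent.Lib.MT


open NonRoughAux RoughFormAux

theorem nonrough (k J : ℕ) (hk : 1 ≤ k) : ∃ C : ℝ, 1 ≤ C ∧ ∀ (K D : ℕ) (δ η : ℝ), 0 < δ →
    δ ≤ 1/4 → 0 < η → 1 ≤ D → k ≤ D → ∃ N₀ : ℕ, ∀ N ≥ N₀, ∀ (W v R ρ : ℕ), 1 ≤ W →
    (W:ℝ) ≤ (Real.log N) ^ K → (∀ p, p.Prime → p ≤ D → p ∣ W) →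
    (N:ℝ) ^ η ≤ ρ → ρ ^ (2 ^ J) ≤ R → (R:ℝ) ≤ (N:ℝ) ^ (1/100 : ℝ) →
    ∀ h : Fin k → ℕ, (∀ i j, i ≠ j → ∀ p, p.Prime → h i ≡ h j [MOD p] → p ∣ W) →
    ∑ n ∈ (Finset.Ioc N (2*N)).filter (fun n => n ≡ v [MOD W] ∧
        ∃ p ∈ Pr W R, (p:ℝ) ≤ (N:ℝ) ^ δ ∧ ∃ i, p ∣ n + h i),
      wn h (lamOf (yOf (gst ρ J) R : Asg (Pr W R) k → ℝ)) n ≤
    C * (δ / η + 1 / D) * ((N:ℝ) / W) * (dens W * Real.log ρ) ^ k := by
  obtain ⟨C₁, hC₁1, hC₁⟩ := rough_form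
  obtain ⟨C₂, hC₂1, hC₂⟩ := params
  obtain ⟨C₃, hC₃0, hC₃⟩ := sum_log_div_le
  obtain ⟨C₄, hC₄0, hC₄⟩ := sum_inv_le
  obtain ⟨m, rfl⟩ : ∃ m, k = m + 1 := ⟨k - 1, by omega⟩
  set c₁ : ℝ := ((m + 1 : ℕ) : ℝ) * C₁ * (8 * C₂) ^ m * (C₃ + 1) with hc₁
  set c₂ : ℝ := 4 * ((m + 1 : ℕ) : ℝ) ^ 3 * (8 * C₂) ^ (m + 1) with hc₂
  have hc₁0 : 0 ≤ c₁ := by rw [hc₁]; positivity
  have hc₂0 : 0 ≤ c₂ := by rw [hc₂]; positivity
  refine ⟨c₁ + c₂ + 1, by linarith, fun K D δ η hδ hδ4 hη hD hkD => ?_⟩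
  have hD0 : (0:ℝ) < D := by exact_mod_cast hD
  -- the conditions on `N`
  have hlogT : Filter.Tendsto (fun N : ℕ => Real.log N) Filter.atTop Filter.atTop :=
    Real.tendsto_log_atTop.comp tendsto_natCast_atTop_atTop
  have hloglog : Filter.Tendsto (fun N : ℕ => Real.log (Real.log N)) Filter.atTop Filter.atTop :=
    Real.tendsto_log_atTop.comp hlogT
  have ev1 : ∀ᶠ N : ℕ in Filter.atTop, (Real.log (Real.log N)) ^ 2 ≤
      (min (δ / (2 * (K + 1) * C₄)) (η / (2 * (K + 1)))) * Real.log N := by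
    have hmin : 0 < min (δ / (2 * (K + 1) * C₄)) (η / (2 * (K + 1))) := by
      apply lt_min <;> positivity
    have h1 := (Real.isLittleO_pow_log_id_atTop (n := 2)).bound hmin
    have h2 := hlogT.eventually h1
    filter_upwards [h2, hlogT.eventually_ge_atTop 0] with N hN hN0
    have hN' : ‖(Real.log (Real.log N)) ^ 2‖ ≤
      (min (δ / (2 * (K + 1) * C₄)) (η / (2 * (K + 1)))) * ‖Real.log N‖ := hN
    rw [Real.norm_of_nonneg hN0] at hN'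
    exact (le_abs_self _).trans hN'
  have ev2 := hloglog.eventually_ge_atTop 1
  have ev3 := hlogT.eventually_ge_atTop (max 2 (max (2 / η) (2 / δ)))
  have ev4 := log_pow_le_rpow (((m + 1 : ℕ) : ℝ) * (2 * C₂) ^ (2 * (m + 1))) (23/100)
    (by positivity) (by norm_num) (4 * (m + 1))
  have ev5 := log_pow_le_rpow (D : ℝ) (1/2) (Nat.cast_nonneg D) (by norm_num) (K * (m + 2))
  obtain ⟨N₀, hN₀⟩ := Filter.eventually_atTop.1 (ev1.and (ev2.and (ev3.and (ev4.and (ev5.and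
    (Filter.eventually_ge_atTop 1))))))
  refine ⟨N₀, fun N hN W v R ρ hW hWN hDW hρ hρR hRN h hh => ?_⟩
  obtain ⟨h1, h2, h3, h4, h5, h6⟩ := hN₀ N hN
  set ℓ := Real.log N with hℓ
  set ll := Real.log ℓ with hll
  have hℓ2 : 2 ≤ ℓ := (le_max_left _ _).trans h3
  have hℓη : 2 / η ≤ ℓ := (le_max_left _ _).trans ((le_max_right _ _).trans h3)
  have hℓδ : 2 / δ ≤ ℓ := (le_max_right _ _).trans ((le_max_right _ _).trans h3)
  have hℓ0 : 0 < ℓ := by linarith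
  have hηℓ : 2 ≤ η * ℓ := by
    rw [div_le_iff₀ hη] at hℓη; linarith
  have hδℓ : 2 ≤ δ * ℓ := by
    rw [div_le_iff₀ hδ] at hℓδ; linarith
  have hN0 : (0:ℝ) < N := by exact_mod_cast h6
  have hN1 : (1:ℝ) ≤ N := by exact_mod_cast h6
  have hW0 : (0:ℝ) < W := by exact_mod_cast hW
  have hW1 : (1:ℝ) ≤ W := by exact_mod_cast hW
  have hK0 : (0:ℝ) ≤ K := Nat.cast_nonneg K
  -- the logarithm of `W`
  have hlogW0 : 0 ≤ Real.log W := Real.log_nonneg hW1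
  have hlogW : Real.log W ≤ K * ll := by
    have := Real.log_le_log hW0 hWN
    rwa [Real.log_pow] at this
  have hll1 : 1 ≤ ll := h2
  have h1a : ll ^ 2 ≤ (δ / (2 * (K + 1) * C₄)) * ℓ :=
    h1.trans (mul_le_mul_of_nonneg_right (min_le_left _ _) hℓ0.le)
  have h1b : ll ^ 2 ≤ (η / (2 * (K + 1))) * ℓ :=
    h1.trans (mul_le_mul_of_nonneg_right (min_le_right _ _) hℓ0.le)
  have h1a' : (2 * (K + 1) * C₄) * ll ^ 2 ≤ δ * ℓ := by
    have e : (2 * (K + 1) * C₄) * ((δ / (2 * (K + 1) * C₄)) * ℓ) = δ * ℓ := by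
      have : (2 * ((K:ℝ) + 1) * C₄) ≠ 0 := by positivity
      field_simp
    rw [← e]
    exact mul_le_mul_of_nonneg_left h1a (by positivity)
  have h1b' : (2 * (K + 1)) * ll ^ 2 ≤ η * ℓ := by
    have e : (2 * (K + 1)) * ((η / (2 * (K + 1))) * ℓ) = η * ℓ := by
      have : (2 * ((K:ℝ) + 1)) ≠ 0 := by positivity
      field_simp
    rw [← e]
    exact mul_le_mul_of_nonneg_left h1b (by positivity)
  -- `ρ`
  have hNη0 : 0 < (N:ℝ) ^ η := Real.rpow_pos_of_pos hN0 η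
  have hρ0 : (0:ℝ) < ρ := lt_of_lt_of_le hNη0 hρ
  have hlogρ : η * ℓ ≤ Real.log ρ := by
    have := Real.log_le_log hNη0 hρ
    rwa [Real.log_rpow hN0] at this
  have hρ2 : 2 ≤ ρ := by
    by_contra hcon
    have h7 : ρ ≤ 1 := by omega
    have h8 : Real.log ρ ≤ 0 := by
      have : (ρ:ℝ) ≤ 1 := by exact_mod_cast h7
      exact Real.log_nonpos hρ0.le this
    linarith
  have h1lW : 1 + Real.log W ≤ Real.log ρ := by
    exact (lin1 hll1 hlogW).trans ((lin2 hll1 hK0).trans (h1b'.trans hlogρ))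
  -- primes of `P` are larger than `D`
  have hPD : ∀ p ∈ Pr W R, D < p := by
    intro p hp
    unfold Pr at hp
    rw [mem_filter] at hp
    by_contra hcon
    exact hp.2.2 (hDW p hp.2.1 (by omega))
  have hPprime : ∀ p ∈ Pr W R, p.Prime := by
    intro p hp
    unfold Pr at hp
    exact (mem_filter.1 hp).2.1
  have hPW : ∀ p ∈ Pr W R, ¬ p ∣ W := by
    intro p hp
    unfold Pr at hp
    exact (mem_filter.1 hp).2.2
  have hhP : ∀ p ∈ Pr W R, ∀ i j, i ≠ j → ¬ h i ≡ h j [MOD p] := fun p hp i j hij hmod =>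
    hPW p hp (hh i j hij p (hPprime p hp) hmod)
  set L := dens W * Real.log ρ with hL
  have hdens0 := dens_nonneg W
  have hlogρ0 : 0 < Real.log ρ := by linarith
  have hL0 : 0 ≤ L := mul_nonneg hdens0 hlogρ0.le
  -- the one dimensional sums
  obtain ⟨_, _, hB, _, hF⟩ := hC₂ W R ρ J hW hρ2 hρR h1lW
  set B := sum1 (Pr W R) κ₁ (fun a => (gst ρ J a) ^ 2) with hBdef
  set B2 := sum1 (Pr W R) κ₂ (fun a => (gst ρ J a) ^ 2) with hB2def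
  set F := sum1 (Pr W R) κ₁ (fun a => if a ≤ R then 1 else 0) with hFdef
  have hk1sq := sum_kappa1_sq_le (Pr W R) D hD hPD
  have hg2 : Antitone (fun a => (gst ρ J a) ^ 2) := fun a b hab =>
    pow_le_pow_left₀ (gst_nonneg ρ J b) (gst_antitone ρ J hab) 2
  have hB2 : B2 ≤ 8 * C₂ * L := by
    have h7 := sum1_kappa2_le (Pr W R) (fun p hp => pr_two_le hp) (fun a => (gst ρ J a) ^ 2) hg2
      (fun a => sq_nonneg _)
    have h8 : Real.exp (∑ p ∈ Pr W R, (κ₁ p) ^ 2) ≤ 8 := by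
      have h9 : ∑ p ∈ Pr W R, (κ₁ p) ^ 2 ≤ 2 := by
        refine hk1sq.trans ?_
        rw [div_le_iff₀ hD0]
        have : (1:ℝ) ≤ D := by exact_mod_cast hD
        linarith
      exact (Real.exp_le_exp.2 h9).trans exp_two_le
    have hB0 : 0 ≤ B := by
      rw [hBdef]
      unfold sum1
      exact Finset.sum_nonneg fun T hT => mul_nonneg (sq_nonneg _)
        (Finset.prod_nonneg fun p hp => RoughFormAux.kappa1_nonneg (pr_one_le (Finset.mem_powerset.1 hT hp)))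
    calc B2 ≤ Real.exp (∑ p ∈ Pr W R, (κ₁ p) ^ 2) * B := h7
      _ ≤ 8 * B := mul_le_mul_of_nonneg_right h8 hB0
      _ ≤ 8 * (C₂ * dens W * Real.log ρ) := by linarith
      _ = 8 * C₂ * L := by rw [hL]; ring
  have hB20 : 0 ≤ B2 := by
    rw [hB2def]
    unfold sum1
    exact Finset.sum_nonneg fun T hT => mul_nonneg (sq_nonneg _)
      (Finset.prod_nonneg fun p _ => kappa2_nonneg p)
  have hF0 : 0 ≤ F := by
    rw [hFdef]
    unfold sum1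
    refine Finset.sum_nonneg fun T hT => mul_nonneg ?_
        (Finset.prod_nonneg fun p hp => RoughFormAux.kappa1_nonneg (pr_one_le (Finset.mem_powerset.1 hT hp)))
    simp only
    split_ifs <;> norm_num
  set lam := (lamOf (yOf (gst ρ J) R : Asg (Pr W R) (m + 1) → ℝ)) with hlam
  -- size of `R`
  have hρR1 : 1 ≤ R := by
    have : 1 ≤ ρ ^ (2 ^ J) := Nat.one_le_pow _ _ (by omega)
    omega
  have hR1 : (1:ℝ) ≤ R := by exact_mod_cast hρR1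
  have hR0 : (0:ℝ) < R := by linarith
  have hlogR0 : 0 ≤ Real.log R := Real.log_nonneg hR1
  have hlogR : Real.log R ≤ ℓ := by
    have h7 := Real.log_le_log hR0 hRN
    rw [Real.log_rpow hN0] at h7
    rw [← hℓ] at h7
    linarith
  have hElam : (∑ s, |lam s|) ^ 2 ≤
      ((N:ℝ) ^ (1/100 : ℝ) * (2 * ℓ) ^ (m + 1) * (C₂ * ℓ) ^ (m + 1)) ^ 2 := by
    have h7 := sum_abs_lam_le (k := m + 1) hPprime (gst ρ J) (gst_nonneg ρ J) (gst_le_one ρ J) R hρR1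
    have h8 : 0 ≤ ∑ s, |lam s| := Finset.sum_nonneg fun s _ => abs_nonneg _
    have hF1 : F ≤ C₂ * ℓ := by
      have hd1 := dens_le_one hW
      calc F ≤ C₂ * dens W * Real.log R := hF
        _ ≤ C₂ * 1 * ℓ := by
            apply mul_le_mul (mul_le_mul_of_nonneg_left hd1 (by linarith)) hlogR hlogR0
            linarith
        _ = C₂ * ℓ := by ring
    refine pow_le_pow_left₀ h8 (h7.trans ?_) 2
    refine mul_le_mul (mul_le_mul hRN ?_ (by positivity) (by positivity)) ?_ (by positivity)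
      (by positivity)
    · exact pow_le_pow_left₀ (by linarith) (by linarith) _
    · exact pow_le_pow_left₀ hF0 hF1 _
  -- number of primes
  set X := (N:ℝ) ^ δ with hX
  have hX0 : 0 < X := Real.rpow_pos_of_pos hN0 δ
  have hlogX : Real.log X = δ * ℓ := Real.log_rpow hN0 δ
  have hX4 : 4 ≤ X := by
    have h7 : Real.exp 2 ≤ X := by
      rw [← Real.exp_log hX0, hlogX]
      exact Real.exp_le_exp.2 hδℓ
    exact four_le_exp_two.trans h7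
  have hX3 : 3 ≤ ⌊X⌋₊ := Nat.le_floor (by push_cast; linarith)
  set Q := QQ (Pr W R) X with hQ
  have hfloorX : ((⌊X⌋₊ : ℕ) : ℝ) ≤ X := Nat.floor_le hX0.le
  have hfloor0 : (0:ℝ) < ((⌊X⌋₊ : ℕ) : ℝ) := by
    have : 0 < ⌊X⌋₊ := by omega
    exact_mod_cast this
  have hsum1 : ∑ p₀ ∈ Q, Real.log (p₀:ℕ) / ((p₀:ℕ):ℝ) ≤ C₃ * (δ * ℓ) := by
    have h7 := sum_Q_le W R X hX0.le (fun p => Real.log p / (p:ℝ)) (fun p hp =>
      div_nonneg (Real.log_natCast_nonneg p) (Nat.cast_nonneg p))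
    refine h7.trans ((hC₃ ⌊X⌋₊ (by omega)).trans ?_)
    refine mul_le_mul_of_nonneg_left ?_ hC₃0.le
    rw [← hlogX]
    exact Real.log_le_log hfloor0 hfloorX
  have hsum2 : ∑ p₀ ∈ Q, 1 / ((p₀:ℕ):ℝ) ≤ C₄ * (1 + ll) := by
    have h7 := sum_Q_le W R X hX0.le (fun p => 1 / (p:ℝ)) (fun p hp =>
      div_nonneg zero_le_one (Nat.cast_nonneg p))
    refine h7.trans ((hC₄ ⌊X⌋₊ hX3).trans ?_)
    refine mul_le_mul_of_nonneg_left ?_ hC₄0.le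
    have h8 : 0 < Real.log ((⌊X⌋₊ : ℕ) : ℝ) := Real.log_pos (by
      have : 1 < ⌊X⌋₊ := by omega
      exact_mod_cast this)
    have h9 : Real.log ((⌊X⌋₊ : ℕ) : ℝ) ≤ ℓ := by
      have h10 := Real.log_le_log hfloor0 hfloorX
      rw [hlogX] at h10
      have : δ * ℓ ≤ 1 * ℓ := mul_le_mul_of_nonneg_right (by linarith) hℓ0.le
      linarith
    have h11 := Real.log_le_log h8 h9
    linarith
  have hsum3 : ∑ p₀ ∈ Q, (κ₁ (p₀:ℕ)) ^ 2 ≤ 2 / D := by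
    refine le_trans ?_ hk1sq
    rw [← Finset.sum_coe_sort (Pr W R) (fun p => (κ₁ p) ^ 2)]
    exact Finset.sum_le_sum_of_subset_of_nonneg (Finset.filter_subset _ _)
      fun p _ _ => sq_nonneg _
  have hcardQ : (Q.card : ℝ) ≤ X := by
    have h7 := sum_Q_le W R X hX0.le (fun _ => 1) (fun _ _ => zero_le_one)
    rw [Finset.sum_const, nsmul_eq_mul, mul_one, Finset.sum_const, nsmul_eq_mul, mul_one] at h7
    refine h7.trans ?_
    refine le_trans ?_ hfloorX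
    have h8 := Finset.card_filter_le (Finset.Icc 1 ⌊X⌋₊) Nat.Prime
    rw [Nat.card_Icc, Nat.add_sub_cancel] at h8
    exact_mod_cast h8
  -- the bound for one pair
  set E := (∑ s, |lam s|) ^ 2 with hE
  have hNW : 0 < (N:ℝ) / W := div_pos hN0 hW0
  have hpair : ∀ p₀ ∈ Q, ∀ i₀ : Fin (m + 1),
      ∑ n ∈ (Finset.Ioc N (2*N)).filter (fun n => n ≡ v [MOD W] ∧ ((p₀ : Pr W R):ℕ) ∣ n + h i₀),
          wn h lam n ≤
        (N:ℝ) / W * ((C₁ * (8 * C₂ * L) ^ m * dens W) * (Real.log (p₀:ℕ) / ((p₀:ℕ):ℝ) +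
            (1 + Real.log W) * (1 / ((p₀:ℕ):ℝ)))
          + (2 * ((m + 1 : ℕ) : ℝ) ^ 2 * (8 * C₂ * L) ^ (m + 1)) * (κ₁ (p₀:ℕ)) ^ 2) + E := by
    intro p₀ _ i₀
    have h7 := sum_wn_dvd (k := m + 1) hPprime N W v hW hPW h hhP lam p₀ i₀
    have h8 := hC₁ (m + 1) W R ρ J (by omega) hW (by omega) hρR
      (fun p hp => by have := hPD p hp; omega) p₀ i₀
    have h9 := (abs_le.1 h7).2
    have hp0 : (1:ℝ) ≤ ((p₀:ℕ):ℝ) := by exact_mod_cast pr_one_le p₀.2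
    have hp0' : (0:ℝ) < ((p₀:ℕ):ℝ) := by linarith
    have hlogp : 0 ≤ Real.log ((p₀:ℕ):ℝ) := Real.log_nonneg hp0
    simp only [Nat.add_sub_cancel] at h8
    have hpw1 : B2 ^ m ≤ (8 * C₂ * L) ^ m := pow_le_pow_left₀ hB20 hB2 m
    have hpw2 : B2 ^ (m + 1) ≤ (8 * C₂ * L) ^ (m + 1) := pow_le_pow_left₀ hB20 hB2 (m + 1)
    have h10 : formK (fun p => (p:ℝ)) (lamp p₀ i₀ lam) ≤
        C₁ * dens W * (Real.log (p₀:ℕ) + 1 + Real.log W) * (8 * C₂ * L) ^ m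
        + 2 * (((m + 1 : ℕ) : ℝ) * κ₁ p₀) ^ 2 * (8 * C₂ * L) ^ (m + 1) := by
      refine h8.trans (add_le_add ?_ ?_)
      · exact mul_le_mul_of_nonneg_left hpw1 (by positivity)
      · exact mul_le_mul_of_nonneg_left hpw2 (by positivity)
    have h11 : (N:ℝ) / (W * ((p₀:ℕ):ℝ)) * formK (fun p => (p:ℝ)) (lamp p₀ i₀ lam) ≤
        (N:ℝ) / W * ((C₁ * (8 * C₂ * L) ^ m * dens W) * (Real.log (p₀:ℕ) / ((p₀:ℕ):ℝ) +
            (1 + Real.log W) * (1 / ((p₀:ℕ):ℝ)))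
          + (2 * ((m + 1 : ℕ) : ℝ) ^ 2 * (8 * C₂ * L) ^ (m + 1)) * (κ₁ (p₀:ℕ)) ^ 2) := by
      calc (N:ℝ) / (W * ((p₀:ℕ):ℝ)) * formK (fun p => (p:ℝ)) (lamp p₀ i₀ lam)
          ≤ (N:ℝ) / (W * ((p₀:ℕ):ℝ)) *
            (C₁ * dens W * (Real.log (p₀:ℕ) + 1 + Real.log W) * (8 * C₂ * L) ^ m
              + 2 * (((m + 1 : ℕ) : ℝ) * κ₁ p₀) ^ 2 * (8 * C₂ * L) ^ (m + 1)) :=
            mul_le_mul_of_nonneg_left h10 (by positivity)
        _ = (N:ℝ) / W * ((C₁ * (8 * C₂ * L) ^ m * dens W) * (Real.log (p₀:ℕ) / ((p₀:ℕ):ℝ) +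
            (1 + Real.log W) * (1 / ((p₀:ℕ):ℝ)))
          + (2 * ((m + 1 : ℕ) : ℝ) ^ 2 * (8 * C₂ * L) ^ (m + 1)) *
            ((κ₁ (p₀:ℕ)) ^ 2 * (1 / ((p₀:ℕ):ℝ)))) :=
            pair_identity _ _ _ _ _ _ _ _ _ _ _ hp0'.ne' hW0.ne'
        _ ≤ _ := by
            refine mul_le_mul_of_nonneg_left (add_le_add (le_refl _) ?_) hNW.le
            refine mul_le_mul_of_nonneg_left ?_ (by positivity)
            have : 1 / ((p₀:ℕ):ℝ) ≤ 1 := by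
              rw [div_le_one hp0']; exact hp0
            calc (κ₁ (p₀:ℕ)) ^ 2 * (1 / ((p₀:ℕ):ℝ)) ≤ (κ₁ (p₀:ℕ)) ^ 2 * 1 :=
                  mul_le_mul_of_nonneg_left this (sq_nonneg _)
              _ = _ := mul_one _
    linarith
  refine (union_bound N W v X h lam).trans ?_
  have htotal : ∑ p₀ ∈ Q, ∑ i₀ : Fin (m + 1),
        ∑ n ∈ (Finset.Ioc N (2*N)).filter (fun n => n ≡ v [MOD W] ∧ ((p₀ : Pr W R):ℕ) ∣ n + h i₀),
          wn h lam n ≤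
      ((m + 1 : ℕ) : ℝ) * ((N:ℝ) / W * ((C₁ * (8 * C₂ * L) ^ m * dens W) *
          (∑ p₀ ∈ Q, Real.log (p₀:ℕ) / ((p₀:ℕ):ℝ) +
            (1 + Real.log W) * ∑ p₀ ∈ Q, 1 / ((p₀:ℕ):ℝ))
          + (2 * ((m + 1 : ℕ) : ℝ) ^ 2 * (8 * C₂ * L) ^ (m + 1)) * ∑ p₀ ∈ Q, (κ₁ (p₀:ℕ)) ^ 2)
          + (Q.card : ℝ) * E) := by
    have h7 : ∀ p₀ ∈ Q, ∑ i₀ : Fin (m + 1),
        ∑ n ∈ (Finset.Ioc N (2*N)).filter (fun n => n ≡ v [MOD W] ∧ ((p₀ : Pr W R):ℕ) ∣ n + h i₀),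
          wn h lam n ≤ ((m + 1 : ℕ) : ℝ) *
        ((N:ℝ) / W * ((C₁ * (8 * C₂ * L) ^ m * dens W) * (Real.log (p₀:ℕ) / ((p₀:ℕ):ℝ) +
            (1 + Real.log W) * (1 / ((p₀:ℕ):ℝ)))
          + (2 * ((m + 1 : ℕ) : ℝ) ^ 2 * (8 * C₂ * L) ^ (m + 1)) * (κ₁ (p₀:ℕ)) ^ 2) + E) := by
      intro p₀ hp₀
      refine (Finset.sum_le_sum fun i₀ _ => hpair p₀ hp₀ i₀).trans ?_
      rw [Finset.sum_const, Finset.card_univ, Fintype.card_fin, nsmul_eq_mul]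
    refine (Finset.sum_le_sum h7).trans (le_of_eq ?_)
    rw [← Finset.mul_sum, Finset.sum_add_distrib, Finset.sum_const, nsmul_eq_mul,
      ← Finset.mul_sum, Finset.sum_add_distrib, ← Finset.mul_sum, ← Finset.mul_sum,
      Finset.sum_add_distrib, ← Finset.mul_sum]
  refine htotal.trans ?_
  -- main terms
  have hA : ∑ p₀ ∈ Q, Real.log (p₀:ℕ) / ((p₀:ℕ):ℝ) +
            (1 + Real.log W) * ∑ p₀ ∈ Q, 1 / ((p₀:ℕ):ℝ) ≤ (C₃ + 1) * (δ / η) * Real.log ρ := by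
    have h7 : (1 + Real.log W) * ∑ p₀ ∈ Q, 1 / ((p₀:ℕ):ℝ) ≤ δ * ℓ := by
      calc (1 + Real.log W) * ∑ p₀ ∈ Q, 1 / ((p₀:ℕ):ℝ)
          ≤ ((K + 1) * ll) * (C₄ * (1 + ll)) := by
            apply mul_le_mul _ hsum2
            · exact Finset.sum_nonneg fun p _ => by positivity
            · positivity
            · exact lin1 hll1 hlogW
        _ ≤ ((K + 1) * ll) * (C₄ * (2 * ll)) := by
            apply mul_le_mul_of_nonneg_left _ (by positivity)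
            apply mul_le_mul_of_nonneg_left _ hC₄0.le
            linarith
        _ = (2 * (K + 1) * C₄) * ll ^ 2 := by ring
        _ ≤ δ * ℓ := h1a'
    calc _ ≤ C₃ * (δ * ℓ) + δ * ℓ := add_le_add hsum1 h7
      _ = (C₃ + 1) * (δ / η) * (η * ℓ) := by
          field_simp
      _ ≤ (C₃ + 1) * (δ / η) * Real.log ρ :=
          mul_le_mul_of_nonneg_left hlogρ (by positivity)
  have hA2 : (C₁ * (8 * C₂ * L) ^ m * dens W) *
      (∑ p₀ ∈ Q, Real.log (p₀:ℕ) / ((p₀:ℕ):ℝ) +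
            (1 + Real.log W) * ∑ p₀ ∈ Q, 1 / ((p₀:ℕ):ℝ)) ≤
      C₁ * (8 * C₂) ^ m * (C₃ + 1) * (δ / η) * L ^ (m + 1) := by
    calc _ ≤ (C₁ * (8 * C₂ * L) ^ m * dens W) * ((C₃ + 1) * (δ / η) * Real.log ρ) :=
          mul_le_mul_of_nonneg_left hA (by positivity)
      _ = C₁ * (8 * C₂) ^ m * (C₃ + 1) * (δ / η) * L ^ (m + 1) := by
          rw [mul_pow, pow_succ]
          have e : L ^ m * L = L ^ m * (dens W * Real.log ρ) := by rw [hL]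
          rw [e]
          ring
  have hA3 : (2 * ((m + 1 : ℕ) : ℝ) ^ 2 * (8 * C₂ * L) ^ (m + 1)) * ∑ p₀ ∈ Q, (κ₁ (p₀:ℕ)) ^ 2 ≤
      4 * ((m + 1 : ℕ) : ℝ) ^ 2 * (8 * C₂) ^ (m + 1) * (1 / D) * L ^ (m + 1) := by
    calc _ ≤ (2 * ((m + 1 : ℕ) : ℝ) ^ 2 * (8 * C₂ * L) ^ (m + 1)) * (2 / D) :=
          mul_le_mul_of_nonneg_left hsum3 (by positivity)
      _ = _ := by
          rw [mul_pow]
          ring
  -- error term
  have hErr : ((m + 1 : ℕ) : ℝ) * ((Q.card : ℝ) * E) ≤ (1 / D) * ((N:ℝ) / W) * L ^ (m + 1) := by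
    have h7 : ((m + 1 : ℕ) : ℝ) * ((Q.card : ℝ) * E) ≤ (N:ℝ) ^ (1/2 : ℝ) := by
      have hX14 : X ≤ (N:ℝ) ^ (1/4 : ℝ) := Real.rpow_le_rpow_of_exponent_le hN1 hδ4
      calc ((m + 1 : ℕ) : ℝ) * ((Q.card : ℝ) * E)
          ≤ ((m + 1 : ℕ) : ℝ) * ((N:ℝ) ^ (1/4 : ℝ) *
            ((N:ℝ) ^ (1/100 : ℝ) * (2 * ℓ) ^ (m + 1) * (C₂ * ℓ) ^ (m + 1)) ^ 2) := by
            refine mul_le_mul_of_nonneg_left ?_ (Nat.cast_nonneg _)
            exact mul_le_mul (hcardQ.trans hX14) hElam (sq_nonneg _) (by positivity)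
        _ = ((N:ℝ) ^ (1/4 : ℝ) * ((N:ℝ) ^ (1/100 : ℝ)) ^ 2) *
            ((((m + 1 : ℕ) : ℝ) * (2 * C₂) ^ (2 * (m + 1))) * ℓ ^ (4 * (m + 1))) := by
            rw [pow_identity]
            ring
        _ ≤ ((N:ℝ) ^ (1/4 : ℝ) * ((N:ℝ) ^ (1/100 : ℝ)) ^ 2) * (N:ℝ) ^ (23/100 : ℝ) :=
            mul_le_mul_of_nonneg_left h4 (by positivity)
        _ = (N:ℝ) ^ (1/2 : ℝ) := by
            rw [← Real.rpow_natCast ((N:ℝ) ^ (1/100 : ℝ)) 2, ← Real.rpow_mul hN0.le,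
              ← Real.rpow_add hN0, ← Real.rpow_add hN0]
            norm_num
    have hLlow : 1 / (W:ℝ) ≤ L := by
      have h8 := dens_ge hW
      calc 1 / (W:ℝ) = 1 / (W:ℝ) * 1 := by ring
        _ ≤ dens W * Real.log ρ := mul_le_mul h8 (by linarith) zero_le_one hdens0
    have hLlow2 : (1 / (W:ℝ)) ^ (m + 1) ≤ L ^ (m + 1) :=
      pow_le_pow_left₀ (by positivity) hLlow _
    have h9 : (D:ℝ) * (W:ℝ) ^ (m + 2) ≤ (N:ℝ) ^ (1/2 : ℝ) := by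
      refine le_trans ?_ h5
      rw [pow_mul]
      exact mul_le_mul_of_nonneg_left (pow_le_pow_left₀ hW0.le hWN _) hD0.le
    have h10 : (N:ℝ) ^ (1/2 : ℝ) ≤ (1 / D) * ((N:ℝ) / W) * (1 / (W:ℝ)) ^ (m + 1) := by
      rw [frac_identity N W D hW0.ne' hD0.ne', le_div_iff₀ (by positivity)]
      calc (N:ℝ) ^ (1/2 : ℝ) * (D * (W:ℝ) ^ (m + 2)) ≤ (N:ℝ) ^ (1/2 : ℝ) * (N:ℝ) ^ (1/2 : ℝ) :=
            mul_le_mul_of_nonneg_left h9 (by positivity)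
        _ = N := by
            rw [← Real.rpow_add hN0]; norm_num
    exact h7.trans (h10.trans (mul_le_mul_of_nonneg_left hLlow2 (by positivity)))
  have hLpow : 0 ≤ L ^ (m + 1) := by positivity
  calc ((m + 1 : ℕ) : ℝ) * ((N:ℝ) / W * ((C₁ * (8 * C₂ * L) ^ m * dens W) *
          (∑ p₀ ∈ Q, Real.log (p₀:ℕ) / ((p₀:ℕ):ℝ) +
            (1 + Real.log W) * ∑ p₀ ∈ Q, 1 / ((p₀:ℕ):ℝ))
          + (2 * ((m + 1 : ℕ) : ℝ) ^ 2 * (8 * C₂ * L) ^ (m + 1)) * ∑ p₀ ∈ Q, (κ₁ (p₀:ℕ)) ^ 2)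
          + (Q.card : ℝ) * E)
      = ((m + 1 : ℕ) : ℝ) * ((N:ℝ) / W * ((C₁ * (8 * C₂ * L) ^ m * dens W) *
          (∑ p₀ ∈ Q, Real.log (p₀:ℕ) / ((p₀:ℕ):ℝ) +
            (1 + Real.log W) * ∑ p₀ ∈ Q, 1 / ((p₀:ℕ):ℝ))
          + (2 * ((m + 1 : ℕ) : ℝ) ^ 2 * (8 * C₂ * L) ^ (m + 1)) * ∑ p₀ ∈ Q, (κ₁ (p₀:ℕ)) ^ 2))
          + ((m + 1 : ℕ) : ℝ) * ((Q.card : ℝ) * E) := by ring
    _ ≤ ((m + 1 : ℕ) : ℝ) * ((N:ℝ) / W * (C₁ * (8 * C₂) ^ m * (C₃ + 1) * (δ / η) * L ^ (m + 1)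
          + 4 * ((m + 1 : ℕ) : ℝ) ^ 2 * (8 * C₂) ^ (m + 1) * (1 / D) * L ^ (m + 1)))
          + (1 / D) * ((N:ℝ) / W) * L ^ (m + 1) := by
        refine add_le_add ?_ hErr
        refine mul_le_mul_of_nonneg_left ?_ (Nat.cast_nonneg _)
        exact mul_le_mul_of_nonneg_left (add_le_add hA2 hA3) hNW.le
    _ = (c₁ * (δ / η) + c₂ * (1 / D) + 1 / D) * (((N:ℝ) / W) * L ^ (m + 1)) := by
        rw [hc₁, hc₂]
        ring
    _ ≤ ((c₁ + c₂ + 1) * (δ / η + 1 / D)) * (((N:ℝ) / W) * L ^ (m + 1)) := by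
        refine mul_le_mul_of_nonneg_right ?_ (by positivity)
        exact lin3 hc₁0 hc₂0 (div_pos hδ hη).le (one_div_pos.2 hD0).le
    _ = _ := by ring

end Pool.Agent.Lib.MT
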