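import Pool.Agent.Lib.MT.Defs
import Pool.Agent.Lib.SW.Defs

/-!
# Counting primes hit by two assignments

PROOF SKETCH. If n + h m is prime and larger than all p ∈ P then hits h n s forces s p ≠ some m for
all p, so wn h lam n = wn h (lamm m lam) n there. Expand: for r, s without state m and compatible,
the n ≡ v [MOD W] hit by r and s form one class modulo q = W * mpair r s, and n + h m is in one
reduced class a modulo q (coprime to W by hcop, congruent to h m - h i ≠ 0 modulo p if the state is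
i). The sum of log(n + h m) over the n in (N,2N] of this class with n + h m prime is
thetaAP (2N + h m) q a - thetaAP (N + h m) q a = N/φ(q) + O(2 Err q), and
1/φ(q) = 1/φ(W) * prod of Kq (p-1). Incompatible pairs contribute 0 on both sides.
-/

open Finset
open scoped Classical

namespace Pool.Agent.Lib.MT

variable {P : Finset ℕ} {k : ℕ}

/-- the primes in a state other than `none` in `r` or `s` -/
private noncomputable def DD (r s : Asg P k) : Finset P :=
  Finset.univ.filter (fun p => ¬ (r p = none ∧ s p = none))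

private lemma mpair_eq (r s : Asg P k) : mpair r s = ∏ p ∈ DD r s, (p : ℕ) := by
  unfold mpair DD
  rw [Finset.prod_filter]
  refine Finset.prod_congr rfl fun p _ => ?_
  by_cases h : r p = none ∧ s p = none
  · rw [if_pos h, if_neg (not_not.mpr h)]
  · rw [if_neg h, if_pos h]

private lemma totient_prod_primes (hP : ∀ p ∈ P, p.Prime) (D : Finset P) :
    (((∏ p ∈ D, (p : ℕ)).totient : ℕ) : ℝ) = ∏ p ∈ D, (((p : ℕ) : ℝ) - 1) := by
  induction D using Finset.induction_on with
  | empty => simp
  | insert a t ha ih =>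
    rw [Finset.prod_insert ha, Finset.prod_insert ha, Nat.totient_mul, Nat.cast_mul, ih,
      Nat.totient_prime (hP a a.2)]
    · rw [Nat.cast_sub (hP a a.2).one_lt.le]
      simp
    · apply Nat.Coprime.prod_right
      intro b hb
      rw [Nat.coprime_primes (hP a a.2) (hP b b.2)]
      intro hab
      exact ha (by rwa [Subtype.ext hab])

private lemma coprime_W {W : ℕ} (hP : ∀ p ∈ P, p.Prime) (hPW : ∀ p ∈ P, ¬ p ∣ W)
    (D : Finset P) : W.Coprime (∏ p ∈ D, (p : ℕ)) := by
  apply Nat.Coprime.prod_right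
  intro b _
  exact ((Nat.Prime.coprime_iff_not_dvd (hP b b.2)).mpr (hPW b b.2)).symm

/-- the sum over one residue class is a difference of values of `thetaAP` -/
private lemma sum_class (N q a c t : ℕ) (hac : a = c + t) :
    ∑ n ∈ (Finset.Ioc N (2*N)).filter (fun n => n ≡ c [MOD q] ∧ (n + t).Prime),
      Real.log ((n + t : ℕ) : ℝ) =
    SW.thetaAP ((2 * N + t : ℕ) : ℝ) q a - SW.thetaAP ((N + t : ℕ) : ℝ) q a := by
  unfold SW.thetaAP
  rw [Nat.floor_natCast, Nat.floor_natCast]
  have hsub : (Finset.Icc 1 (N + t)).filter (fun p => p.Prime ∧ p ≡ a [MOD q]) ⊆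
      (Finset.Icc 1 (2 * N + t)).filter (fun p => p.Prime ∧ p ≡ a [MOD q]) := by
    apply Finset.filter_subset_filter
    apply Finset.Icc_subset_Icc_right
    omega
  rw [← Finset.sum_sdiff hsub, add_sub_cancel_right]
  refine Finset.sum_nbij' (fun n => n + t) (fun l => l - t) ?_ ?_ ?_ ?_ ?_
  · intro n hn
    simp only [Finset.mem_filter, Finset.mem_Ioc] at hn
    simp only [Finset.mem_sdiff, Finset.mem_filter, Finset.mem_Icc, not_and]
    obtain ⟨⟨h1, h2⟩, h3, h4⟩ := hn
    have h5 : n + t ≡ a [MOD q] := by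
      rw [hac]
      exact Nat.ModEq.add_right t h3
    exact ⟨⟨⟨by omega, by omega⟩, h4, h5⟩, fun h => by omega⟩
  · intro l hl
    simp only [Finset.mem_sdiff, Finset.mem_filter, Finset.mem_Icc, not_and] at hl
    simp only [Finset.mem_filter, Finset.mem_Ioc]
    obtain ⟨⟨⟨h1, h2⟩, h3, h4⟩, h5⟩ := hl
    have h6 : N + t < l := by
      by_contra hcon
      exact h5 ⟨h1, by omega⟩ h3 h4
    have h7 : l - t + t = l := by omega
    refine ⟨⟨by omega, by omega⟩, ?_, by rwa [h7]⟩
    apply Nat.ModEq.add_right_cancel' t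
    rw [h7, ← hac]
    exact h4
  · intro n _
    simp
  · intro l hl
    simp only [Finset.mem_sdiff, Finset.mem_filter, Finset.mem_Icc, not_and] at hl
    obtain ⟨⟨⟨h1, h2⟩, h3, h4⟩, h5⟩ := hl
    have h6 : N + t < l := by
      by_contra hcon
      exact h5 ⟨h1, by omega⟩ h3 h4
    show l - t + t = l
    omega
  · intro n _
    rfl

private lemma pair_sum (hP : ∀ p ∈ P, p.Prime) (N W v : ℕ) (hN : 1 ≤ N) (hW : 1 ≤ W)
    (hPW : ∀ p ∈ P, ¬ p ∣ W)
    (h : Fin k → ℕ) (hh : ∀ p ∈ P, ∀ i j, i ≠ j → ¬ h i ≡ h j [MOD p]) (m : Fin k)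
    (hm : h m ≤ N) (hcop : Nat.Coprime (v + h m) W) (r s : Asg P k)
    (hr : ∀ p, r p ≠ some m) (hs : ∀ p, s p ≠ some m) (E : ℝ)
    (hE : ∀ a : ℕ, a.Coprime (W * mpair r s) → ∀ y : ℝ, (N:ℝ) ≤ y → y ≤ 3 * N →
      |SW.thetaAP y (W * mpair r s) a - y / ((W * mpair r s).totient : ℝ)| ≤ E) :
    |(∑ n ∈ (Finset.Ioc N (2*N)).filter (fun n => n ≡ v [MOD W] ∧ (n + h m).Prime),
      (if hits h n r ∧ hits h n s then Real.log ((n + h m : ℕ) : ℝ) else 0)) -
      (N:ℝ) / (W.totient : ℝ) * ∏ p : P, Kq (((p : ℕ) : ℝ) - 1) (r p) (s p)| ≤ 2 * E := by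
  have hE0 : 0 ≤ E := by
    have h1 := hE 1 (Nat.coprime_one_left _) N le_rfl (by
      have : (1:ℝ) ≤ N := by exact_mod_cast hN
      linarith)
    exact le_trans (abs_nonneg _) h1
  by_cases hc : ∃ p : P, ∃ i j, r p = some i ∧ s p = some j ∧ i ≠ j
  · obtain ⟨p, i, j, h1, h2, hij⟩ := hc
    have hz1 : ∀ n ∈ (Finset.Ioc N (2*N)).filter (fun n => n ≡ v [MOD W] ∧ (n + h m).Prime),
        (if hits h n r ∧ hits h n s then Real.log ((n + h m : ℕ) : ℝ) else 0) = 0 := by
      intro n _
      rw [if_neg]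
      rintro ⟨hnr, hns⟩
      have e1 := hnr p i h1
      have e2 := hns p j h2
      apply hh p p.2 i j hij
      have e3 : n + h i ≡ n + h j [MOD (p:ℕ)] :=
        ((Nat.modEq_zero_iff_dvd).mpr e1).trans ((Nat.modEq_zero_iff_dvd).mpr e2).symm
      exact Nat.ModEq.add_left_cancel' n e3
    have hz2 : ∏ p : P, Kq (((p : ℕ) : ℝ) - 1) (r p) (s p) = 0 := by
      apply Finset.prod_eq_zero (Finset.mem_univ p)
      rw [h1, h2]
      unfold Kq
      rw [if_neg (by simp), if_neg]
      simp only [reduceCtorEq, Option.some.injEq, false_or]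
      exact hij
    rw [Finset.sum_eq_zero hz1, hz2]
    simp only [mul_zero, sub_zero, abs_zero]
    linarith
  · have hcomp : ∀ p : P, ∀ i j, r p = some i → s p = some j → i = j := by
      intro p i j h1 h2
      by_contra hne
      exact hc ⟨p, i, j, h1, h2, hne⟩
    set D := DD r s with hD
    have hmp : mpair r s = ∏ p ∈ D, (p : ℕ) := mpair_eq r s
    -- the common state
    have hst : ∀ p : P, ∃ i : Fin k, (p ∈ D → i ≠ m) ∧ (∀ j, r p = some j → j = i) ∧
        (∀ j, s p = some j → j = i) ∧ (p ∈ D → (r p = some i ∨ s p = some i)) := by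
      intro p
      by_cases hpD : p ∈ D
      · rcases hrp : r p with _ | i
        · rcases hsp : s p with _ | j
          · rw [hD, DD, Finset.mem_filter] at hpD
            exact absurd ⟨hrp, hsp⟩ hpD.2
          · refine ⟨j, fun _ => ?_, ?_, ?_, fun _ => Or.inr rfl⟩
            · rintro rfl
              exact hs p hsp
            · intro j' h'
              exact absurd h' (by simp)
            · intro j' h'
              exact (Option.some.inj h').symm
        · refine ⟨i, fun _ => ?_, ?_, ?_, fun _ => Or.inl rfl⟩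
          · rintro rfl
            exact hr p hrp
          · intro j' h'
            exact (Option.some.inj h').symm
          · intro j' h'
            exact (hcomp p i j' hrp h').symm
      · have hnone : r p = none ∧ s p = none := by
          by_contra hcon
          apply hpD
          rw [hD, DD, Finset.mem_filter]
          exact ⟨Finset.mem_univ _, hcon⟩
        refine ⟨m, fun h => absurd h hpD, ?_, ?_, fun h => absurd h hpD⟩
        · intro j h'
          rw [hnone.1] at h'
          exact absurd h' (by simp)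
        · intro j h'
          rw [hnone.2] at h'
          exact absurd h' (by simp)
    choose st hst1 hst2 hst3 hst4 using hst
    have hpair : Set.Pairwise (D : Set P) (Function.onFun Nat.Coprime (fun p : P => (p : ℕ))) := by
      intro p _ p' _ hne
      show Nat.Coprime (p : ℕ) (p' : ℕ)
      rw [Nat.coprime_primes (hP p p.2) (hP p' p'.2)]
      exact fun hcon => hne (Subtype.ext hcon)
    obtain ⟨x₀, hx₀⟩ := Nat.chineseRemainderOfFinset (fun p : P => ((p:ℕ) - 1) * h (st p))
      (fun p : P => (p : ℕ)) D (fun p _ => (hP p p.2).ne_zero) hpair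
    have hcopWM : W.Coprime (∏ p ∈ D, (p : ℕ)) := coprime_W hP hPW D
    obtain ⟨c, hc1, hc2⟩ := Nat.chineseRemainder hcopWM v x₀
    have hcp : ∀ p ∈ D, (p : ℕ) ∣ c + h (st p) := by
      intro p hp
      have e1 : c ≡ ((p:ℕ) - 1) * h (st p) [MOD (p:ℕ)] :=
        (hc2.of_dvd (Finset.dvd_prod_of_mem _ hp)).trans (hx₀ p hp)
      have e2 : c + h (st p) ≡ ((p:ℕ) - 1) * h (st p) + h (st p) [MOD (p:ℕ)] :=
        Nat.ModEq.add_right _ e1
      have e3 : ((p:ℕ) - 1) * h (st p) + h (st p) = (p:ℕ) * h (st p) := by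
        have := (hP p p.2).one_lt
        obtain ⟨t, ht⟩ : ∃ t, (p:ℕ) = t + 1 := ⟨(p:ℕ) - 1, by omega⟩
        rw [ht]
        simp only [Nat.add_sub_cancel]
        ring
      rw [e3] at e2
      rw [← Nat.modEq_zero_iff_dvd]
      exact e2.trans ((Nat.modEq_zero_iff_dvd).mpr (dvd_mul_right _ _))
    have hiff : ∀ n, (n ≡ v [MOD W] ∧ hits h n r ∧ hits h n s) ↔
        n ≡ c [MOD (W * mpair r s)] := by
      intro n
      rw [hmp, ← Nat.modEq_and_modEq_iff_modEq_mul hcopWM]
      constructor
      · rintro ⟨h1, h2, h3⟩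
        refine ⟨h1.trans hc1.symm, ?_⟩
        rw [Nat.modEq_iff_dvd, Nat.cast_prod]
        apply Finset.prod_dvd_of_coprime
        · intro p hp p' hp' hne
          show IsCoprime ((p:ℕ) : ℤ) ((p':ℕ) : ℤ)
          rw [Nat.isCoprime_iff_coprime]
          exact hpair hp hp' hne
        · intro p hp
          rw [← Nat.modEq_iff_dvd]
          have e1 : (p : ℕ) ∣ n + h (st p) := by
            rcases hst4 p hp with h4 | h4
            · exact h2 p _ h4
            · exact h3 p _ h4
          have e2 : n + h (st p) ≡ c + h (st p) [MOD (p:ℕ)] :=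
            ((Nat.modEq_zero_iff_dvd).mpr e1).trans
              ((Nat.modEq_zero_iff_dvd).mpr (hcp p hp)).symm
          exact Nat.ModEq.add_right_cancel' _ e2
      · rintro ⟨h1, h2⟩
        have hkey : ∀ p ∈ D, (p : ℕ) ∣ n + h (st p) := by
          intro p hp
          have e1 : n ≡ c [MOD (p:ℕ)] := h2.of_dvd (Finset.dvd_prod_of_mem _ hp)
          have e2 : n + h (st p) ≡ c + h (st p) [MOD (p:ℕ)] := Nat.ModEq.add_right _ e1
          rw [← Nat.modEq_zero_iff_dvd]
          exact e2.trans ((Nat.modEq_zero_iff_dvd).mpr (hcp p hp))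
        refine ⟨h1.trans hc1, ?_, ?_⟩
        · intro p i hi
          have hpD : p ∈ D := by
            rw [hD, DD, Finset.mem_filter]
            exact ⟨Finset.mem_univ _, fun hcon => by rw [hcon.1] at hi; exact absurd hi (by simp)⟩
          rw [hst2 p i hi]
          exact hkey p hpD
        · intro p i hi
          have hpD : p ∈ D := by
            rw [hD, DD, Finset.mem_filter]
            exact ⟨Finset.mem_univ _, fun hcon => by rw [hcon.2] at hi; exact absurd hi (by simp)⟩
          rw [hst3 p i hi]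
          exact hkey p hpD
    have hsum : ∑ n ∈ (Finset.Ioc N (2*N)).filter (fun n => n ≡ v [MOD W] ∧ (n + h m).Prime),
        (if hits h n r ∧ hits h n s then Real.log ((n + h m : ℕ) : ℝ) else 0) =
        ∑ n ∈ (Finset.Ioc N (2*N)).filter
          (fun n => n ≡ c [MOD (W * mpair r s)] ∧ (n + h m).Prime),
          Real.log ((n + h m : ℕ) : ℝ) := by
      rw [← Finset.sum_filter, Finset.filter_filter]
      refine Finset.sum_congr ?_ fun _ _ => rfl
      apply Finset.filter_congr
      intro n _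
      rw [← hiff n]
      tauto
    have hacop : (c + h m).Coprime (W * mpair r s) := by
      rw [Nat.coprime_mul_iff_right]
      constructor
      · have e1 : c + h m ≡ v + h m [MOD W] := Nat.ModEq.add_right _ hc1
        have e2 := e1.gcd_eq
        rw [Nat.coprime_iff_gcd_eq_one, e2]
        exact hcop
      · rw [hmp]
        apply Nat.Coprime.prod_right
        intro p hp
        apply Nat.Coprime.symm
        rw [Nat.Prime.coprime_iff_not_dvd (hP p p.2)]
        intro hdvd
        apply hh p p.2 (st p) m (hst1 p hp)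
        have e3 : c + h (st p) ≡ c + h m [MOD (p:ℕ)] :=
          ((Nat.modEq_zero_iff_dvd).mpr (hcp p hp)).trans ((Nat.modEq_zero_iff_dvd).mpr hdvd).symm
        exact Nat.ModEq.add_left_cancel' c e3
    have hphi : (((W * mpair r s).totient : ℕ) : ℝ) =
        (W.totient : ℝ) * ∏ p ∈ D, (((p : ℕ) : ℝ) - 1) := by
      rw [hmp, Nat.totient_mul hcopWM, Nat.cast_mul, totient_prod_primes hP]
    have hKq : ∏ p : P, Kq (((p : ℕ) : ℝ) - 1) (r p) (s p) =
        (∏ p ∈ D, (((p : ℕ) : ℝ) - 1))⁻¹ := by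
      rw [← Finset.prod_inv_distrib, hD, DD, Finset.prod_filter]
      refine Finset.prod_congr rfl fun p _ => ?_
      by_cases hn : r p = none ∧ s p = none
      · rw [if_neg (not_not.mpr hn), hn.1, hn.2]
        unfold Kq
        simp
      · rw [if_pos hn]
        unfold Kq
        rw [if_neg hn, if_pos, one_div]
        rcases hrp : r p with _ | i
        · exact Or.inl rfl
        · rcases hsp : s p with _ | j
          · exact Or.inr (Or.inl rfl)
          · rw [hcomp p i j hrp hsp]
            exact Or.inr (Or.inr rfl)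
    have hmain : (N:ℝ) / (W.totient : ℝ) * ∏ p : P, Kq (((p : ℕ) : ℝ) - 1) (r p) (s p) =
        ((2 * N + h m : ℕ) : ℝ) / (((W * mpair r s).totient : ℕ) : ℝ) -
        ((N + h m : ℕ) : ℝ) / (((W * mpair r s).totient : ℕ) : ℝ) := by
      rw [hKq, hphi, ← sub_div, ← div_eq_mul_inv, div_div]
      congr 1
      push_cast
      ring
    rw [hsum, sum_class N (W * mpair r s) (c + h m) c (h m) rfl, hmain]
    have hNR : (0:ℝ) ≤ N := Nat.cast_nonneg N
    have hmR : (h m : ℝ) ≤ N := by exact_mod_cast hm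
    have hmR0 : (0:ℝ) ≤ h m := Nat.cast_nonneg _
    have b1 := hE (c + h m) hacop ((2 * N + h m : ℕ) : ℝ) (by push_cast; linarith)
      (by push_cast; linarith)
    have b2 := hE (c + h m) hacop ((N + h m : ℕ) : ℝ) (by push_cast; linarith)
      (by push_cast; linarith)
    rw [abs_le] at b1 b2 ⊢
    constructor
    · linarith [b1.1, b1.2, b2.1, b2.2]
    · linarith [b1.1, b1.2, b2.1, b2.2]

theorem sum_wn_primes (hP : ∀ p ∈ P, p.Prime) (N W v : ℕ) (hN : 1 ≤ N) (hW : 1 ≤ W)
    (hPW : ∀ p ∈ P, ¬ p ∣ W) (hPN : ∀ p ∈ P, p ≤ N)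
    (h : Fin k → ℕ) (hh : ∀ p ∈ P, ∀ i j, i ≠ j → ¬ h i ≡ h j [MOD p]) (m : Fin k)
    (hm : h m ≤ N) (hcop : Nat.Coprime (v + h m) W) (lam : Asg P k → ℝ) (Err : ℕ → ℝ)
    (hErr : ∀ r s, lam r ≠ 0 → lam s ≠ 0 → ∀ a : ℕ, a.Coprime (W * mpair r s) →
      ∀ y : ℝ, (N:ℝ) ≤ y → y ≤ 3 * N →
      |SW.thetaAP y (W * mpair r s) a - y / ((W * mpair r s).totient : ℝ)| ≤
        Err (W * mpair r s)) :
    (N:ℝ) / (W.totient : ℝ) * formK (fun p => (p:ℝ) - 1) (lamm m lam)
      - 2 * ∑ r, ∑ s, |lam r| * |lam s| * Err (W * mpair r s) ≤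
    ∑ n ∈ (Finset.Ioc N (2*N)).filter (fun n => n ≡ v [MOD W] ∧ (n + h m).Prime),
      Real.log ((n + h m : ℕ) : ℝ) * wn h lam n := by
  set S := (Finset.Ioc N (2*N)).filter (fun n => n ≡ v [MOD W] ∧ (n + h m).Prime) with hS
  set mu := lamm m lam with hmu
  -- the weights with state `m` do not matter
  have hwn : ∀ n ∈ S, Real.log ((n + h m : ℕ) : ℝ) * wn h lam n =
      ∑ r, ∑ s, mu r * mu s *
        (if hits h n r ∧ hits h n s then Real.log ((n + h m : ℕ) : ℝ) else 0) := by
    intro n hn
    rw [hS, Finset.mem_filter, Finset.mem_Ioc] at hn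
    obtain ⟨⟨hn1, hn2⟩, hn3, hn4⟩ := hn
    have e1 : ∀ s : Asg P k, (if hits h n s then lam s else 0) =
        (if hits h n s then mu s else 0) := by
      intro s
      by_cases hh1 : hits h n s
      · rw [if_pos hh1, if_pos hh1, hmu, lamm, if_neg]
        rintro ⟨p, hp⟩
        have e2 := hh1 p m hp
        have e3 := hPN p p.2
        rcases (Nat.dvd_prime hn4).mp e2 with e4 | e4
        · exact (hP p p.2).one_lt.ne' e4
        · omega
      · rw [if_neg hh1, if_neg hh1]
    unfold wn
    rw [Finset.sum_congr rfl (fun s _ => e1 s), sq, Finset.sum_mul_sum, Finset.mul_sum]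
    refine Finset.sum_congr rfl fun r _ => ?_
    rw [Finset.mul_sum]
    refine Finset.sum_congr rfl fun s _ => ?_
    by_cases h1 : hits h n r
    · by_cases h2 : hits h n s
      · rw [if_pos h1, if_pos h2, if_pos ⟨h1, h2⟩]
        ring
      · rw [if_neg h2, if_neg (show ¬ (hits h n r ∧ hits h n s) from fun hcon => h2 hcon.2)]
        ring
    · rw [if_neg h1, if_neg (show ¬ (hits h n r ∧ hits h n s) from fun hcon => h1 hcon.1)]
      ring
  have hcomm : ∑ n ∈ S, ∑ r, ∑ s, mu r * mu s *
      (if hits h n r ∧ hits h n s then Real.log ((n + h m : ℕ) : ℝ) else 0) =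
      ∑ r, ∑ n ∈ S, ∑ s, mu r * mu s *
      (if hits h n r ∧ hits h n s then Real.log ((n + h m : ℕ) : ℝ) else 0) := Finset.sum_comm
  rw [Finset.sum_congr rfl hwn, hcomm]
  have hswap : ∀ r : Asg P k, ∑ n ∈ S, ∑ s, mu r * mu s *
      (if hits h n r ∧ hits h n s then Real.log ((n + h m : ℕ) : ℝ) else 0) =
      ∑ s, mu r * mu s * ∑ n ∈ S,
        (if hits h n r ∧ hits h n s then Real.log ((n + h m : ℕ) : ℝ) else 0) := by
    intro r
    rw [Finset.sum_comm]
    refine Finset.sum_congr rfl fun s _ => ?_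
    rw [Finset.mul_sum]
  rw [Finset.sum_congr rfl (fun r _ => hswap r)]
  have hform : (N:ℝ) / (W.totient : ℝ) * formK (fun p => (p:ℝ) - 1) mu =
      ∑ r, ∑ s, mu r * mu s * ((N:ℝ) / (W.totient : ℝ) *
        ∏ p : P, Kq (((p : ℕ) : ℝ) - 1) (r p) (s p)) := by
    unfold formK
    rw [Finset.mul_sum]
    refine Finset.sum_congr rfl fun r _ => ?_
    rw [Finset.mul_sum]
    refine Finset.sum_congr rfl fun s _ => ?_
    ring
  rw [hform, Finset.mul_sum, ← Finset.sum_sub_distrib]
  refine Finset.sum_le_sum fun r _ => ?_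
  rw [Finset.mul_sum, ← Finset.sum_sub_distrib]
  refine Finset.sum_le_sum fun s _ => ?_
  -- one pair
  have hmu_le : ∀ x : Asg P k, |mu x| ≤ |lam x| := by
    intro x
    rw [hmu]
    unfold lamm
    split_ifs
    · simp
    · exact le_rfl
  have hmu_ne : ∀ x : Asg P k, mu x ≠ 0 → lam x ≠ 0 ∧ ∀ p, x p ≠ some m := by
    intro x hx
    rw [hmu] at hx
    unfold lamm at hx
    by_cases hex : ∃ p, x p = some m
    · rw [if_pos hex] at hx
      exact absurd rfl hx
    · rw [if_neg hex] at hx
      exact ⟨hx, fun p hp => hex ⟨p, hp⟩⟩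
  have hErr0 : 0 ≤ |lam r| * |lam s| * Err (W * mpair r s) := by
    by_cases h1 : lam r = 0
    · rw [h1]; simp
    · by_cases h2 : lam s = 0
      · rw [h2]; simp
      · have h3 := hErr r s h1 h2 1 (Nat.coprime_one_left _) N le_rfl (by
          have : (1:ℝ) ≤ N := by exact_mod_cast hN
          linarith)
        have h4 : 0 ≤ Err (W * mpair r s) := le_trans (abs_nonneg _) h3
        positivity
  by_cases h1 : mu r = 0
  · rw [h1]
    simp only [zero_mul]
    linarith
  · by_cases h2 : mu s = 0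
    · rw [h2]
      simp only [mul_zero, zero_mul]
      linarith
    · obtain ⟨h3, h4⟩ := hmu_ne r h1
      obtain ⟨h5, h6⟩ := hmu_ne s h2
      have hps := pair_sum hP N W v hN hW hPW h hh m hm hcop r s h4 h6 (Err (W * mpair r s))
        (fun a ha y hy1 hy2 => hErr r s h3 h5 a ha y hy1 hy2)
      set T := ∑ n ∈ S, (if hits h n r ∧ hits h n s then Real.log ((n + h m : ℕ) : ℝ) else 0)
        with hT
      set K := (N:ℝ) / (W.totient : ℝ) * ∏ p : P, Kq (((p : ℕ) : ℝ) - 1) (r p) (s p) with hK
      have h7 : |mu r * mu s * (T - K)| ≤ |lam r| * |lam s| * (2 * Err (W * mpair r s)) := by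
        rw [abs_mul, abs_mul]
        apply mul_le_mul _ hps (abs_nonneg _) (by positivity)
        exact mul_le_mul (hmu_le r) (hmu_le s) (abs_nonneg _) (abs_nonneg _)
      have h8 := (abs_le.mp h7).1
      have h9 : mu r * mu s * (T - K) = mu r * mu s * T - mu r * mu s * K := by ring
      rw [h9] at h8
      linarith

end Pool.Agent.Lib.MT
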