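import Pool.Agent.Lib.MT.PrimeHits
import Pool.Agent.Lib.MT.STwoLower
import Pool.Agent.Lib.MT.Params
import Pool.Agent.Lib.MT.Perturb
import Pool.Agent.Lib.MT.LamMax
import Pool.Agent.Lib.MT.BVSum
import Pool.Agent.Lib.BV.Main
import Pool.Agent.Lib.MT.PrimeSumAux

/-!
# Lower bound for the weighted number of primes

PROOF SKETCH. sum_wn_primes for each m, with Err from bv_weak at x = 3N (exponent A' of bv_sum with
A = k + 3 + (something), Q = floor((3N)^(1/20)), W R² ≤ Q), replaced by min(E q, 10 N (log N)²/q) where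
the second is the trivial bound |thetaAP y q a - y/φ(q)| ≤ (y/q+1) log y + y/φ(q) (so that the last
hypothesis of bv_sum holds up to rescaling N; or apply bv_sum with N replaced by 10 N). sTwo_lower with
g = gst ρ J, X = ρ^(2^J); its hypothesis hM follows from params and
log(R/X) ≥ 4 k C₁ (J+1) log ρ where C₁ is the constant of params: this is hRJ.
log(n+h m) ≤ log(3N). |lam| ≤ F^k ≤ (C log R)^k ≤ (log N)^(2k) for N large.
-/

open Finset
open scoped Classical

namespace Pool.Agent.Lib.MT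

open PrimeSumAux

theorem prime_sum : ∃ C₁ : ℝ, 1 ≤ C₁ ∧ ∀ (k J K D A : ℕ) (η : ℝ), 1 ≤ k → 0 < η →
    200 * k ^ 2 ≤ D → ∃ N₀ : ℕ, ∀ N ≥ N₀, ∀ (W v R ρ : ℕ), 1 ≤ W →
    (W:ℝ) ≤ (Real.log N) ^ K → (∀ p, p.Prime → p ≤ D → p ∣ W) →
    (N:ℝ) ^ η ≤ ρ → C₁ * k * (J+1) * Real.log ρ + 2 ^ J * Real.log ρ ≤ Real.log R →
    ρ ^ (2 ^ J) < R → (R:ℝ) ≤ (N:ℝ) ^ (1/100 : ℝ) →
    ∀ h : Fin k → ℕ, (∀ i, h i ≤ N) → (∀ i, Nat.Coprime (v + h i) W) →
    (∀ i j, i ≠ j → ∀ p, p.Prime → h i ≡ h j [MOD p] → p ∣ W) → ∀ m : Fin k,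
    (1/4 : ℝ) * ((N:ℝ) / W.totient) * (sum1 (Pr W R) κ₁ (gst ρ J)) ^ 2 *
        (sum1 (Pr W R) κ₁ (fun a => (gst ρ J a) ^ 2)) ^ (k-1) - N / (Real.log N) ^ A ≤
    Real.log (3 * N) *
      ∑ n ∈ (Finset.Ioc N (2*N)).filter (fun n => n ≡ v [MOD W] ∧ (n + h m).Prime),
        wn h (lamOf (yOf (gst ρ J) R : Asg (Pr W R) k → ℝ)) n := by
  obtain ⟨C₀, hC₀, hpar⟩ := params
  refine ⟨4 * C₀, by linarith, ?_⟩
  intro k J K D A η hk hη hD
  obtain ⟨A', Nb, hbv⟩ := bv_sum k (A+1)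
  obtain ⟨C, x₀, hC, hBV⟩ := BV.bv_weak (A'+1)
  obtain ⟨N₀, hN₀⟩ := Filter.eventually_atTop.1
    (eventually_facts K η (max (max 20 C₀) (max (max Nb x₀) (C * 2 ^ A'))) hη)
  refine ⟨N₀, fun N hN W v R ρ hW hWK hWD hρη hRJ hρR hRN h hh1 hcop hdist m => ?_⟩
  obtain ⟨f1, f2, f3, f4⟩ := hN₀ N hN
  set L := Real.log N with hL
  have hL20 : 20 ≤ L := (le_max_left _ _).trans ((le_max_left _ _).trans f3)
  have hLC₀ : C₀ ≤ L := (le_max_right _ _).trans ((le_max_left _ _).trans f3)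
  have hNb : Nb ≤ N := (le_max_left _ _).trans ((le_max_left _ _).trans
    ((le_max_right _ _).trans f4))
  have hNx : x₀ ≤ N := (le_max_right _ _).trans ((le_max_left _ _).trans
    ((le_max_right _ _).trans f4))
  have hLC : C * 2 ^ A' ≤ L := (le_max_right _ _).trans ((le_max_right _ _).trans f3)
  have hN20 : (20:ℝ) ≤ N := (le_max_left _ _).trans ((le_max_left _ _).trans f4)
  have hN0 : (0:ℝ) < N := by linarith
  have hN1 : (1:ℝ) ≤ N := by linarith
  have hNn : 1 ≤ N := by exact_mod_cast hN1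
  clear f3 f4
  -- logarithms
  have hLL : 0 ≤ Real.log L := Real.log_nonneg (by linarith)
  have hηL : 1 ≤ η * L := by
    have : 0 ≤ (K:ℝ) * Real.log L := by positivity
    linarith
  have hρ2' : (2:ℝ) ≤ ρ := by
    refine le_trans ?_ hρη
    have e : (N:ℝ) ^ η = Real.exp (η * L) := by
      rw [Real.rpow_def_of_pos hN0, hL, mul_comm]
    rw [e]
    have := Real.add_one_le_exp (η * L)
    linarith
  have hρ2 : 2 ≤ ρ := by exact_mod_cast hρ2'
  have hρ0 : (0:ℝ) < ρ := by linarith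
  have hlρ : η * L ≤ Real.log ρ := by
    have := Real.log_le_log (by positivity) hρη
    rwa [Real.log_rpow hN0] at this
  have hW0 : (0:ℝ) < W := by exact_mod_cast hW
  have hlW : Real.log W ≤ K * Real.log L := by
    have := Real.log_le_log hW0 hWK
    rwa [Real.log_pow] at this
  have hlog : 1 + Real.log W ≤ Real.log ρ := by linarith
  -- the primes
  have hPp : ∀ p ∈ Pr W R, p.Prime := by
    intro p hp
    simp only [Pr, Finset.mem_filter] at hp
    exact hp.2.1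
  have hPW : ∀ p ∈ Pr W R, ¬ p ∣ W := by
    intro p hp
    simp only [Pr, Finset.mem_filter] at hp
    exact hp.2.2
  have hPR : ∀ p ∈ Pr W R, p ≤ R := by
    intro p hp
    simp only [Pr, Finset.mem_filter, Finset.mem_Icc] at hp
    exact hp.1.2
  have hPD : ∀ p ∈ Pr W R, D < p := by
    intro p hp
    by_contra hc
    exact hPW p hp (hWD p (hPp p hp) (not_lt.1 hc))
  have hk2 : k ≤ k ^ 2 := by nlinarith
  have hP2 : ∀ p ∈ Pr W R, 2 ≤ p ∧ k + 1 ≤ p := by
    intro p hp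
    have h1 := hPD p hp
    constructor <;> omega
  have hP1 : ∀ p ∈ Pr W R, 1 ≤ p := fun p hp => by have := (hP2 p hp).1; omega
  have hD1 : 1 ≤ D := by omega
  have hσ : 100 * (k:ℝ) ^ 2 * ∑ p ∈ Pr W R, (κ₁ p) ^ 2 ≤ 1 := by
    have h1 := sum_kappa1_sq_le (Pr W R) D hD1 hPD
    have hD' : 200 * (k:ℝ) ^ 2 ≤ D := by exact_mod_cast hD
    have hD0 : (0:ℝ) < D := by exact_mod_cast hD1
    calc 100 * (k:ℝ) ^ 2 * ∑ p ∈ Pr W R, (κ₁ p) ^ 2 ≤ 100 * (k:ℝ) ^ 2 * (2 / D) :=
          mul_le_mul_of_nonneg_left h1 (by positivity)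
      _ = 200 * (k:ℝ) ^ 2 / D := by ring
      _ ≤ 1 := by rw [div_le_one hD0]; exact hD'
  have hRN' : (R:ℝ) ≤ N := hRN.trans (by
    calc (N:ℝ) ^ (1/100 : ℝ) ≤ (N:ℝ) ^ (1:ℝ) :=
          Real.rpow_le_rpow_of_exponent_le hN1 (by norm_num)
      _ = N := Real.rpow_one _)
  have hRNn : R ≤ N := by exact_mod_cast hRN'
  have hX1 : 1 ≤ ρ ^ (2 ^ J) := Nat.one_le_pow _ _ (by omega)
  have hR1 : 1 ≤ R := by omega
  have hR0 : (0:ℝ) < R := by exact_mod_cast hR1
  obtain ⟨p1, p2, p3, p4, p5⟩ := hpar W R ρ J hW hρ2 hρR.le hlog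
  have hφ0 : (0:ℝ) < (W.totient : ℝ) := by exact_mod_cast Nat.totient_pos.2 hW
  have hdens0 : 0 < dens W := by unfold dens; positivity
  have hdens1 : dens W ≤ 1 := by
    unfold dens
    rw [div_le_one hW0]
    exact_mod_cast Nat.totient_le W
  have hlρ0 : 0 < Real.log ρ := by linarith
  -- the main term
  have hB : 0 < sum1 (Pr W R) κ₁ (fun a => (gst ρ J a) ^ 2) :=
    lt_of_lt_of_le (by positivity) p2
  have hM : 4 * (k:ℝ) * sum1 (Pr W R) κ₁ (fun a => (gst ρ J a) ^ 2 * Real.log a) ≤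
      sum1 (Pr W R) κ₁ (fun a => (gst ρ J a) ^ 2) *
        Real.log ((R:ℝ) / ((ρ ^ (2 ^ J) : ℕ) : ℝ)) := by
    have e1 : Real.log ((R:ℝ) / ((ρ ^ (2 ^ J) : ℕ) : ℝ)) = Real.log R - 2 ^ J * Real.log ρ := by
      push_cast
      rw [Real.log_div hR0.ne' (by positivity), Real.log_pow]
      push_cast
      ring
    have e2 : 4 * C₀ * k * (J+1) * Real.log ρ ≤ Real.log ((R:ℝ) / ((ρ ^ (2 ^ J) : ℕ) : ℝ)) := by
      rw [e1]; linarith
    calc 4 * (k:ℝ) * sum1 (Pr W R) κ₁ (fun a => (gst ρ J a) ^ 2 * Real.log a)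
        ≤ 4 * (k:ℝ) * (C₀ * (J + 1) * dens W * (Real.log ρ) ^ 2) :=
          mul_le_mul_of_nonneg_left p4 (by positivity)
      _ = (dens W * Real.log ρ) * (4 * C₀ * k * (J+1) * Real.log ρ) := by ring
      _ ≤ _ := mul_le_mul p2 e2 (by positivity) hB.le
  have hform := sTwo_lower hP2 m (gst ρ J) (gst_nonneg ρ J) (gst_le_one ρ J) (gst_antitone ρ J)
    (ρ ^ (2 ^ J)) R hX1 (fun a ha => gst_eq_zero (by omega) ha) hρR hσ hB hM
  -- the error term
  have h10 : (N:ℝ) ≤ 10 * N := by linarith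
  have hL10 : L ≤ Real.log (10 * N) := Real.log_le_log hN0 h10
  obtain ⟨E, hE0, hEs, hEb⟩ := hBV (3 * N) (by linarith)
  set Q := ⌊(3 * (N:ℝ)) ^ (1/20 : ℝ)⌋₊ with hQ
  set Err : ℕ → ℝ := fun q => min (E q) ((10 * N) * (Real.log (10 * N)) ^ 2 / q) with hErr
  have hErr0 : ∀ q, 0 ≤ Err q := fun q => le_min (hE0 q) (by positivity)
  have hWR : W * R ^ 2 ≤ Q := by
    apply Nat.le_floor
    push_cast
    have e1 : (R:ℝ) ^ 2 ≤ ((N:ℝ) ^ (1/100 : ℝ)) ^ 2 := pow_le_pow_left₀ hR0.le hRN 2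
    calc (W:ℝ) * (R:ℝ) ^ 2 ≤ (N:ℝ) ^ (3/100 : ℝ) * ((N:ℝ) ^ (1/100 : ℝ)) ^ 2 :=
          mul_le_mul (hWK.trans f2) e1 (by positivity) (by positivity)
      _ = (N:ℝ) ^ (1/20 : ℝ) := by
          rw [← Real.rpow_natCast, ← Real.rpow_mul hN0.le, ← Real.rpow_add hN0]
          norm_num
      _ ≤ (3 * (N:ℝ)) ^ (1/20 : ℝ) :=
          Real.rpow_le_rpow hN0.le (by linarith) (by norm_num)
  have hQN : (Q:ℝ) ≤ 3 * N := by
    refine (Nat.floor_le (by positivity)).trans ?_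
    calc (3 * (N:ℝ)) ^ (1/20 : ℝ) ≤ (3 * (N:ℝ)) ^ (1:ℝ) :=
          Real.rpow_le_rpow_of_exponent_le (by linarith) (by norm_num)
      _ = 3 * N := Real.rpow_one _
  have hWRN : W * R ^ 2 ≤ N := by
    have e1 : (R:ℝ) ^ 2 ≤ ((N:ℝ) ^ (1/100 : ℝ)) ^ 2 := pow_le_pow_left₀ hR0.le hRN 2
    have : (W:ℝ) * (R:ℝ) ^ 2 ≤ N := by
      calc (W:ℝ) * (R:ℝ) ^ 2 ≤ (N:ℝ) ^ (3/100 : ℝ) * ((N:ℝ) ^ (1/100 : ℝ)) ^ 2 :=
            mul_le_mul (hWK.trans f2) e1 (by positivity) (by positivity)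
        _ = (N:ℝ) ^ (1/20 : ℝ) := by
            rw [← Real.rpow_natCast, ← Real.rpow_mul hN0.le, ← Real.rpow_add hN0]
            norm_num
        _ ≤ (N:ℝ) ^ (1:ℝ) := Real.rpow_le_rpow_of_exponent_le hN1 (by norm_num)
        _ = N := Real.rpow_one _
    exact_mod_cast this
  set lam : Asg (Pr W R) k → ℝ := lamOf (yOf (gst ρ J) R) with hlam
  have hlam0 : ∀ s : Asg (Pr W R) k, R < dtot s → lam s = 0 := fun s hs =>
    lam_eq_zero hPp (gst ρ J) R s hs
  have hpair : ∀ r s : Asg (Pr W R) k, lam r ≠ 0 → lam s ≠ 0 →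
      1 ≤ W * mpair r s ∧ W * mpair r s ≤ W * R ^ 2 := by
    intro r s hr hs
    have e1 : dtot r ≤ R := by
      by_contra hc
      exact hr (hlam0 r (not_le.1 hc))
    have e2 : dtot s ≤ R := by
      by_contra hc
      exact hs (hlam0 s (not_le.1 hc))
    have e3 := mpair_le hP1 r s
    have e4 := mpair_pos hP1 r s
    refine ⟨Nat.one_le_iff_ne_zero.2 (by positivity), ?_⟩
    apply Nat.mul_le_mul_left
    refine e3.trans ?_
    rw [pow_two]
    exact Nat.mul_le_mul e1 e2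
  have hErrb : ∀ r s : Asg (Pr W R) k, lam r ≠ 0 → lam s ≠ 0 → ∀ a : ℕ,
      a.Coprime (W * mpair r s) → ∀ y : ℝ, (N:ℝ) ≤ y → y ≤ 3 * N →
      |SW.thetaAP y (W * mpair r s) a - y / ((W * mpair r s).totient : ℝ)| ≤
        Err (W * mpair r s) := by
    intro r s hr hs a ha y hy1 hy2
    obtain ⟨e1, e2⟩ := hpair r s hr hs
    apply le_min
    · exact hEb _ (Finset.mem_Icc.2 ⟨e1, e2.trans hWR⟩) a ha y (by linarith) hy2
    · exact err_trivial N _ a e1 (e2.trans hWRN) y hy1 hy2 (by linarith)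
  have hsum := sum_wn_primes hPp N W v hNn hW hPW (fun p hp => (hPR p hp).trans hRNn) h
    (fun p hp i j hij hc => hPW p hp (hdist i j hij p (hPp p hp) hc)) m (hh1 m) (hcop m)
    lam Err hErrb
  have hbvs : ∑ r, ∑ s, |lam r| * |lam s| * Err (W * mpair r s) ≤
      (10 * N) / (Real.log (10 * N)) ^ (A+1) := by
    refine hbv (10 * N) (by linarith) W R Q Err hW hR1 hWR (by linarith) hErr0 ?_ ?_
      (Pr W R) (fun p hp => ⟨hPp p hp, hPW p hp⟩) lam ?_ hlam0
    · -- sum of the errors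
      refine (Finset.sum_le_sum fun q _ => min_le_left _ _).trans (hEs.trans ?_)
      set M := Real.log (3 * N) with hMdef
      have hM1 : L ≤ M := Real.log_le_log hN0 (by linarith)
      have hM10 : Real.log (10 * N) ≤ 2 * M := by
        have e1 : 2 * M = Real.log ((3 * N) ^ 2) := by rw [Real.log_pow]; push_cast; ring
        rw [e1]
        apply Real.log_le_log (by positivity)
        nlinarith
      have hM0 : 0 < M := by linarith
      have hl0 : 0 < Real.log (10 * N) := by linarith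
      rw [div_le_div_iff₀ (by positivity) (by positivity)]
      calc C * (3 * N) * (Real.log (10 * N)) ^ A' ≤ C * (3 * N) * (2 * M) ^ A' := by
            apply mul_le_mul_of_nonneg_left _ (by positivity)
            exact pow_le_pow_left₀ hl0.le hM10 _
        _ = 3 * N * M ^ A' * (C * 2 ^ A') := by rw [mul_pow]; ring
        _ ≤ 3 * N * M ^ A' * M := by
            apply mul_le_mul_of_nonneg_left _ (by positivity)
            linarith
        _ ≤ 10 * N * M ^ A' * M := by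
            apply mul_le_mul_of_nonneg_right _ hM0.le
            apply mul_le_mul_of_nonneg_right _ (by positivity)
            linarith
        _ = 10 * N * M ^ (A'+1) := by rw [pow_succ]; ring
    · intro q _
      exact min_le_right _ _
    · intro s
      refine (lam_max hPp (gst ρ J) (gst_nonneg ρ J) (gst_le_one ρ J) R s).trans ?_
      rw [pow_mul]
      have hF0 : 0 ≤ sum1 (Pr W R) κ₁ (fun a => if a ≤ R then 1 else 0) := by
        unfold sum1
        refine Finset.sum_nonneg fun T hT => ?_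
        rw [Finset.mem_powerset] at hT
        apply mul_nonneg
        · dsimp only
          split_ifs <;> norm_num
        · refine Finset.prod_nonneg fun p hp => ?_
          have := (hP2 p (hT hp)).1
          have h2 : (2:ℝ) ≤ p := by exact_mod_cast this
          unfold κ₁
          apply div_nonneg zero_le_one
          linarith
      apply pow_le_pow_left₀ hF0
      refine p5.trans ?_
      have hlR : Real.log R ≤ L := Real.log_le_log hR0 hRN'
      have hlR0 : 0 ≤ Real.log R := Real.log_nonneg (by exact_mod_cast hR1)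
      calc C₀ * dens W * Real.log R ≤ C₀ * 1 * L := by
            apply mul_le_mul _ hlR hlR0 (by linarith)
            apply mul_le_mul_of_nonneg_left hdens1 (by linarith)
        _ ≤ L * L := by nlinarith
        _ ≤ (Real.log (10 * N)) ^ 2 := by nlinarith
  -- conclusion
  have hwn0 : ∀ n, 0 ≤ wn h lam n := fun n => by unfold wn; exact sq_nonneg _
  have hfin : ∑ n ∈ (Finset.Ioc N (2*N)).filter (fun n => n ≡ v [MOD W] ∧ (n + h m).Prime),
      Real.log ((n + h m : ℕ) : ℝ) * wn h lam n ≤ Real.log (3 * N) *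
      ∑ n ∈ (Finset.Ioc N (2*N)).filter (fun n => n ≡ v [MOD W] ∧ (n + h m).Prime),
        wn h lam n := by
    rw [Finset.mul_sum]
    refine Finset.sum_le_sum fun n hn => ?_
    simp only [Finset.mem_filter, Finset.mem_Ioc] at hn
    apply mul_le_mul_of_nonneg_right _ (hwn0 n)
    have e1 : 0 < n + h m := by omega
    have e2 : n + h m ≤ 3 * N := by have := hh1 m; omega
    apply Real.log_le_log (by exact_mod_cast e1)
    exact_mod_cast e2
  have herr : 2 * ∑ r, ∑ s, |lam r| * |lam s| * Err (W * mpair r s) ≤ N / L ^ A := by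
    have e1 : (10 * (N:ℝ)) / (Real.log (10 * N)) ^ (A+1) ≤ N / L ^ A / 2 := by
      have hl0 : 0 < Real.log (10 * N) := by linarith
      have hL0 : 0 < L := by linarith
      rw [div_div, div_le_div_iff₀ (by positivity) (by positivity)]
      have e2 : L ^ (A+1) ≤ (Real.log (10 * N)) ^ (A+1) :=
        pow_le_pow_left₀ (by linarith) hL10 _
      calc 10 * (N:ℝ) * (L ^ A * 2) = N * (L ^ A * 20) := by ring
        _ ≤ N * (L ^ A * L) := by
            apply mul_le_mul_of_nonneg_left _ hN0.le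
            apply mul_le_mul_of_nonneg_left hL20 (by positivity)
        _ = N * L ^ (A+1) := by rw [pow_succ]
        _ ≤ _ := mul_le_mul_of_nonneg_left e2 hN0.le
    linarith
  have hmain : (1/4 : ℝ) * ((N:ℝ) / W.totient) * (sum1 (Pr W R) κ₁ (gst ρ J)) ^ 2 *
        (sum1 (Pr W R) κ₁ (fun a => (gst ρ J a) ^ 2)) ^ (k-1) ≤
      (N:ℝ) / (W.totient : ℝ) * formK (fun p => (p:ℝ) - 1) (lamm m lam) := by
    calc (1/4 : ℝ) * ((N:ℝ) / W.totient) * (sum1 (Pr W R) κ₁ (gst ρ J)) ^ 2 *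
        (sum1 (Pr W R) κ₁ (fun a => (gst ρ J a) ^ 2)) ^ (k-1) =
        ((N:ℝ) / W.totient) * ((1/4 : ℝ) * (sum1 (Pr W R) κ₁ (gst ρ J)) ^ 2 *
        (sum1 (Pr W R) κ₁ (fun a => (gst ρ J a) ^ 2)) ^ (k-1)) := by ring
      _ ≤ _ := mul_le_mul_of_nonneg_left hform (by positivity)
  linarith

end Pool.Agent.Lib.MT
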