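import Pool.Agent.Lib.MT.ClassLower
import Pool.Agent.Lib.HL.MainDefs
import Pool.Agent.Lib.HL.ExtremeAux
import Pool.Agent.Lib.P4a7640.Mertens
import Pool.Agent.Lib.MT.DensPrim
import Pool.Agent.Lib.HL.PntAux

/-!
# The singular series of a tuple in a polylogarithmic window is local at the primes up to log log N

PROOF SKETCH. HL.SS a = ∏' p, loc a p, loc a p = (1 - ν_p/p) (1-1/p)^(-r) (definitions in
Lib/Sieve4/Tuples.lean, Lib/HL/Main.lean; hasProd_SS). The product over p ≤ D₀ is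
s/(dens P₀)^r with s the proportion of u mod P₀ such that all u + b i are coprime to P₀ (Chinese
remainder theorem; dens P₀ = prod (1-1/p)). The product over p > D₀: if p divides no difference,
loc = (1-r/p)(1-1/p)^(-r) ∈ [1 - r²/p², 1] (p ≥ 2r, see loc_le_one, loc bounds in the library); if p
divides some difference, loc ∈ [1 - r²/p², (1-1/p)^(-r)] and there are at most
(K+1) r² log log N/log D₀ such primes, all > D₀. So the product over p > D₀ tends to 1 uniformly,
hence is in [1/2, 2] for N large.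
-/

open Finset
open scoped Classical

namespace Pool.Agent.Lib.MT

/-- The proportion of classes modulo `PN N` in which the whole tuple is coprime to `PN N`. -/
noncomputable def sloc {r : ℕ} (N : ℕ) (b : Fin r → ℕ) : ℝ :=
  (((Finset.range (PN N)).filter (fun u => ∀ i, Nat.Coprime (u + b i) (PN N))).card : ℝ) / PN N

namespace Sing

lemma card_coprime_classes {r : ℕ} (D : ℕ) (b : Fin r → ℕ) :
    (((Finset.range (primorial D)).filter
      (fun u => ∀ i, Nat.Coprime (u + b i) (primorial D))).card : ℝ) =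
      ∏ p ∈ Nat.primesLE D, ((p:ℝ) - Sieve4.nu (fun i => (b i : ℤ)) p) := by
  have hP : ∀ p ∈ Nat.primesLE D, p.Prime := fun p hp => (Nat.mem_primesLE.1 hp).2
  set a : Fin r → ℤ := fun i => (b i : ℤ) with ha
  have e1 : (((Finset.range (primorial D)).filter
      (fun u => ∀ i, Nat.Coprime (u + b i) (primorial D))).card : ℝ) =
      ∑ u ∈ range (∏ p ∈ Nat.primesLE D, p), ∏ p ∈ Nat.primesLE D,
        (if u % p ∈ Sieve4.Om a p then (0:ℝ) else 1) := by
    rw [Finset.card_filter, primorial_eq_prod_primesLE]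
    push_cast
    refine Finset.sum_congr rfl fun u _ => ?_
    by_cases h : ∀ i, Nat.Coprime (u + b i) (∏ p ∈ Nat.primesLE D, p)
    · rw [if_pos h]
      symm
      refine Finset.prod_eq_one fun p hp => ?_
      rw [if_neg]
      rw [Sieve4.mem_Om a p (hP p hp)]
      rintro ⟨i, hi⟩
      have h1 : p ∣ u + b i := by
        have : (p:ℤ) ∣ ((u + b i : ℕ) : ℤ) := by
          push_cast
          exact hi
        exact_mod_cast this
      have h2 := h i
      rw [Nat.coprime_prod_right_iff] at h2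
      have h3 := h2 p hp
      rw [Nat.coprime_comm, Nat.Prime.coprime_iff_not_dvd (hP p hp)] at h3
      exact h3 h1
    · rw [if_neg h]
      rw [not_forall] at h
      obtain ⟨i, hi⟩ := h
      rw [Nat.coprime_prod_right_iff, not_forall] at hi
      obtain ⟨p, hi⟩ := hi
      rw [Classical.not_imp] at hi
      obtain ⟨hp, hpi⟩ := hi
      rw [Nat.coprime_comm, Nat.Prime.coprime_iff_not_dvd (hP p hp), not_not] at hpi
      symm
      refine Finset.prod_eq_zero hp ?_
      rw [if_pos]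
      rw [Sieve4.mem_Om a p (hP p hp)]
      refine ⟨i, ?_⟩
      have : (p:ℤ) ∣ ((u + b i : ℕ) : ℤ) := by exact_mod_cast hpi
      push_cast at this
      exact this
  rw [e1, Sieve4.sum_range_prod_crt (Nat.primesLE D) hP
    (fun p n => if n ∈ Sieve4.Om a p then (0:ℝ) else 1)]
  refine Finset.prod_congr rfl fun p hp => ?_
  have h1 : ∀ n ∈ range p, (if n ∈ Sieve4.Om a p then (0:ℝ) else 1) =
      1 - (if n ∈ Sieve4.Om a p then (1:ℝ) else 0) := by
    intro n _
    split_ifs <;> norm_num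
  rw [Finset.sum_congr rfl h1, Finset.sum_sub_distrib, Finset.sum_const, card_range, nsmul_eq_mul,
    mul_one, ← Finset.sum_filter, Finset.sum_const, nsmul_eq_mul, mul_one]
  congr 2
  rw [← Sieve4.card_Om a p (hP p hp)]
  congr 1
  ext n
  rw [mem_filter]
  exact ⟨fun h => h.2, fun h => ⟨Sieve4.Om_subset a p (hP p hp) h, h⟩⟩

lemma prod_loc_eq {r : ℕ} (D : ℕ) (b : Fin r → ℕ) :
    (((Finset.range (primorial D)).filter
      (fun u => ∀ i, Nat.Coprime (u + b i) (primorial D))).card : ℝ) / (primorial D) /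
      (dens (primorial D)) ^ r =
      ∏ p ∈ Nat.primesLE D, Sieve4.loc (fun i => (b i : ℤ)) p := by
  rw [card_coprime_classes, dens_primorial, primorial_eq_prod_primesLE]
  push_cast
  rw [← Finset.prod_pow, ← Finset.prod_div_distrib, ← Finset.prod_div_distrib]
  refine Finset.prod_congr rfl fun p hp => ?_
  have hp0 : (p:ℝ) ≠ 0 := by
    exact_mod_cast (Nat.mem_primesLE.1 hp).2.ne_zero
  unfold Sieve4.loc
  rw [div_eq_mul_inv _ ((1 - 1 / (p:ℝ)) ^ r), inv_pow]
  congr 1
  field_simp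

/-- Lower bound for the singular series by the partial product. -/
lemma SS_ge_partial {r : ℕ} (a : Fin r → ℤ) (y : ℕ)
    (hy : 1 ≤ y) (hry : r ≤ y) {S : ℝ}
    (hS : HasProd (fun p : Nat.Primes => Sieve4.loc a p) S) :
    (∏ p ∈ Nat.primesLE y, Sieve4.loc a p) * (1 - (r:ℝ) ^ 2 / y) ≤ S := by
  have hA : ∀ p ∈ Nat.primesLE y, p.Prime := fun p hp => (Nat.mem_primesLE.1 hp).2
  set F : Finset Nat.Primes := (Nat.primesLE y).attach.map
    ⟨fun p => ⟨p.1, hA p.1 p.2⟩, by
      intro p q h; exact Subtype.ext (congrArg (fun t : Nat.Primes => (t : ℕ)) h)⟩ with hF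
  have hFprod : ∏ p ∈ F, Sieve4.loc a (p : ℕ) = ∏ p ∈ Nat.primesLE y, Sieve4.loc a p := by
    rw [hF, Finset.prod_map]
    exact Finset.prod_attach (Nat.primesLE y) (fun p => Sieve4.loc a p)
  have hmemF : ∀ p : Nat.Primes, p ∉ F → y < (p:ℕ) := by
    intro p hp
    by_contra hcon
    apply hp
    rw [hF, Finset.mem_map]
    exact ⟨⟨(p:ℕ), Nat.mem_primesLE.2 ⟨by omega, p.2⟩⟩, mem_attach _ _, rfl⟩
  refine ge_of_tendsto hS ?_
  rw [SummationFilter.unconditional_filter, Filter.eventually_atTop]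
  refine ⟨F, fun F' hF' => ?_⟩
  rw [← Finset.prod_sdiff hF', hFprod, mul_comm]
  apply mul_le_mul_of_nonneg_right _ (Finset.prod_nonneg fun p hp => HL.loc_nonneg a (hA p hp))
  have h1 := HL.prod_loc_tail_ge a y hy hry
    ((F' \ F).map ⟨fun p : Nat.Primes => (p : ℕ), Nat.Primes.coe_nat_injective⟩)
    (by
      intro p hp
      rw [Finset.mem_map] at hp
      obtain ⟨q, hq, rfl⟩ := hp
      exact ⟨q.2, hmemF q (Finset.mem_sdiff.mp hq).2⟩)
  rw [Finset.prod_map] at h1
  exact h1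

/-- Translation invariance of the local factors. -/
lemma nu_shift_one {r : ℕ} (b : Fin r → ℕ) (p : ℕ) :
    Sieve4.nu (HL.shift 0 1 (fun i => b i + 1)) p = Sieve4.nu (fun i => (b i : ℤ)) p := by
  unfold Sieve4.nu HL.shift
  have h : (Finset.univ.image (fun i => (((0 + 1 * (b i + 1) : ℕ) : ℤ) : ZMod p))) =
      (Finset.univ.image (fun i => (((b i : ℤ)) : ZMod p))).image (fun x => x + 1) := by
    rw [Finset.image_image]
    refine Finset.image_congr fun i _ => ?_
    simp
  rw [h, Finset.card_image_of_injective]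
  exact add_left_injective 1

lemma loc_shift_one {r : ℕ} (b : Fin r → ℕ) (p : ℕ) :
    Sieve4.loc (HL.shift 0 1 (fun i => b i + 1)) p = Sieve4.loc (fun i => (b i : ℤ)) p := by
  unfold Sieve4.loc
  rw [nu_shift_one]

lemma prod_bad_le {r : ℕ} (y H : ℕ) (hy : 1 ≤ y) (b : Fin r → ℕ) :
    ∏ p ∈ HL.badPrimes b y H, HL.ww (r-1) p
      ≤ Real.exp (2 * r * (HL.badPrimes b y H).card / y) := by
  have hy0 : (0:ℝ) < y := by exact_mod_cast hy
  have h4 : ∀ p ∈ HL.badPrimes b y H, HL.ww (r-1) p ≤ Real.exp (2 * r / y) := by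
    intro p hp
    have hp' := HL.mem_primesIoc.mp (mem_filter.mp hp).1
    refine (HL.ww_le_exp (r-1) hp'.2).trans ?_
    apply Real.exp_le_exp.mpr
    have h5 : (y:ℝ) ≤ p := by exact_mod_cast hp'.1.1.le
    have h6 : ((r - 1 : ℕ) : ℝ) ≤ r := by exact_mod_cast Nat.sub_le r 1
    gcongr
  calc ∏ p ∈ HL.badPrimes b y H, HL.ww (r-1) p ≤ ∏ p ∈ HL.badPrimes b y H, Real.exp (2 * r / y) := by
        apply Finset.prod_le_prod
        · intro p hp
          exact zero_le_one.trans (HL.one_le_ww _ (HL.mem_primesIoc.mp (mem_filter.mp hp).1).2)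
        · exact h4
    _ = Real.exp (2 * r * (HL.badPrimes b y H).card / y) := by
        rw [Finset.prod_const, ← Real.exp_nat_mul]
        congr 1
        ring

lemma SS_le_partial {r : ℕ} (hr : 1 ≤ r) (y H : ℕ) (hy : 1 ≤ y) (b : Fin r → ℕ)
    (hb : Function.Injective b) (hH : ∀ i, b i + 1 ≤ H) {S : ℝ}
    (hS : HasProd (fun p : Nat.Primes => Sieve4.loc (fun i => (b i : ℤ)) p) S) :
    S ≤ (∏ p ∈ Nat.primesLE y, Sieve4.loc (fun i => (b i : ℤ)) p) *
      Real.exp (2 * r * (HL.badPrimes (fun i => b i + 1) y H).card / y) := by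
  have hb' : (fun i => b i + 1) ∈ HL.injTuples r (Icc 1 H) := by
    rw [HL.mem_injTuples]
    refine ⟨fun i => ?_, fun i j h => hb (by simpa using h)⟩
    rw [mem_Icc]
    exact ⟨by omega, hH i⟩
  have hS' : HasProd (fun p : Nat.Primes => Sieve4.loc (HL.shift 0 1 (fun i => b i + 1)) p) S := by
    simp_rw [loc_shift_one]
    exact hS
  have h1 := HL.SS_le hr 0 1 H (by norm_num) (fun i => b i + 1) hb' y hS'
  have h2 : HL.WW (Nat.primesLE y) 0 1 (fun i => b i + 1) =
      ∏ p ∈ Nat.primesLE y, Sieve4.loc (fun i => (b i : ℤ)) p := by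
    unfold HL.WW
    rw [Nat.primeFactors_one, Finset.union_empty]
    exact Finset.prod_congr rfl fun p _ => loc_shift_one b p
  rw [h2] at h1
  refine h1.trans ?_
  apply mul_le_mul_of_nonneg_left (prod_bad_le y H hy _)
  exact Finset.prod_nonneg fun p hp => HL.loc_nonneg _ (Nat.mem_primesLE.1 hp).2

lemma DN_ge (D : ℕ) : ∃ N₀ : ℕ, ∀ N ≥ N₀, D ≤ DN N := by
  have h1 : Filter.Tendsto (fun N : ℕ => Real.log (Real.log (N:ℝ))) Filter.atTop Filter.atTop :=
    Real.tendsto_log_atTop.comp (Real.tendsto_log_atTop.comp tendsto_natCast_atTop_atTop)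
  obtain ⟨N₀, hN₀⟩ := Filter.eventually_atTop.1 (h1.eventually_ge_atTop (D:ℝ))
  exact ⟨N₀, fun N hN => Nat.le_floor (hN₀ N hN)⟩

end Sing

open Sing

theorem singular_approx (r K : ℕ) (hr : 1 ≤ r) : ∃ N₀ : ℕ, ∀ N ≥ N₀, ∀ b : Fin r → ℕ,
    Function.Injective b → (∀ i, (b i : ℝ) ≤ (Real.log N) ^ K) →
    (1/2 : ℝ) * (sloc N b / (dens (PN N)) ^ r) ≤ HL.SS (fun i => (b i : ℤ)) ∧
    HL.SS (fun i => (b i : ℤ)) ≤ 2 * (sloc N b / (dens (PN N)) ^ r) := by
  obtain ⟨N₀, hN₀⟩ := DN_ge (2 * r ^ 2 + ⌈Real.exp (8 * r ^ 3 * (K+1))⌉₊)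
  refine ⟨N₀, fun N hN b hb hbK => ?_⟩
  have hD := hN₀ N hN
  have hD1 : 2 * r ^ 2 ≤ DN N := by omega
  have hr2 : r ≤ r ^ 2 := by nlinarith
  have hry : r ≤ DN N := by omega
  have hy : 1 ≤ DN N := by omega
  have hD2 : Real.exp (8 * r ^ 3 * (K+1)) ≤ DN N := by
    refine (Nat.le_ceil _).trans ?_
    exact_mod_cast (by omega : ⌈Real.exp (8 * r ^ 3 * (K+1))⌉₊ ≤ DN N)
  have hDN0 : (0:ℝ) < DN N := by exact_mod_cast hy
  have hDN1 : (1:ℝ) ≤ DN N := by exact_mod_cast hy
  have hlogD : 8 * (r:ℝ) ^ 3 * (K+1) ≤ Real.log (DN N) := by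
    rwa [Real.le_log_iff_exp_le hDN0]
  have hL1 : (DN N : ℝ) ≤ Real.log (Real.log N) := by
    apply Nat.floor_le
    by_contra hcon
    push Not at hcon
    have : DN N = 0 := Nat.floor_of_nonpos hcon.le
    omega
  have hL2 : Real.log (Real.log N) < DN N + 1 := Nat.lt_floor_add_one _
  have hlogN : 1 ≤ Real.log N := by
    by_contra hcon
    push Not at hcon
    have h0 : 0 ≤ Real.log N := Real.log_natCast_nonneg N
    have := Real.log_nonpos h0 hcon.le
    linarith
  have hinj : Function.Injective (fun i => (b i : ℤ)) := fun i j h => by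
    have h' : (b i : ℤ) = b j := h
    exact hb (by exact_mod_cast h')
  have hS := HL.hasProd_SS _ hinj
  have hkey : sloc N b / (dens (PN N)) ^ r =
      ∏ p ∈ Nat.primesLE (DN N), Sieve4.loc (fun i => (b i : ℤ)) p := prod_loc_eq (DN N) b
  have hnn : 0 ≤ ∏ p ∈ Nat.primesLE (DN N), Sieve4.loc (fun i => (b i : ℤ)) p :=
    Finset.prod_nonneg fun p hp => HL.loc_nonneg _ (Nat.mem_primesLE.1 hp).2
  rw [hkey]
  constructor
  · refine le_trans ?_ (SS_ge_partial _ (DN N) hy hry hS)
    rw [mul_comm]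
    apply mul_le_mul_of_nonneg_left _ hnn
    have h1 : (r:ℝ) ^ 2 / DN N ≤ 1 / 2 := by
      rw [div_le_div_iff₀ hDN0 (by norm_num)]
      have : (2:ℝ) * r ^ 2 ≤ DN N := by exact_mod_cast hD1
      linarith
    linarith
  · set H : ℕ := ⌊(Real.log N) ^ K⌋₊ + 1 with hH
    have hbH : ∀ i, b i + 1 ≤ H := fun i => by
      have := Nat.le_floor (hbK i)
      omega
    refine (SS_le_partial hr (DN N) H hy b hb hbH hS).trans ?_
    rw [mul_comm]
    apply mul_le_mul_of_nonneg_right _ hnn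
    have hb' : (fun i => b i + 1) ∈ HL.injTuples r (Icc 1 H) := by
      rw [HL.mem_injTuples]
      refine ⟨fun i => ?_, fun i j h => hb (by simpa using h)⟩
      rw [mem_Icc]
      exact ⟨by omega, hbH i⟩
    have h1 := HL.card_badPrimes_le (fun i => b i + 1) (DN N) H hy hb'
    have h2 : Real.log H ≤ 2 * (K + 1) * DN N := by
      have h3 : (H:ℝ) ≤ 2 * (Real.log N) ^ K := by
        have h4 : ((⌊(Real.log N) ^ K⌋₊ : ℕ) : ℝ) ≤ (Real.log N) ^ K := Nat.floor_le (by positivity)
        have h5 : 1 ≤ (Real.log N) ^ K := one_le_pow₀ hlogN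
        rw [hH]
        push_cast
        linarith
      have h4 : (0:ℝ) < H := by
        rw [hH]
        positivity
      have h5 : Real.log H ≤ Real.log 2 + K * Real.log (Real.log N) := by
        refine (Real.log_le_log h4 h3).trans ?_
        rw [Real.log_mul (by norm_num) (by positivity), Real.log_pow]
      have h6 : Real.log 2 < 0.7 := by
        have := Real.log_two_lt_d9
        linarith
      have h7 : (K:ℝ) * Real.log (Real.log N) ≤ K * (2 * DN N) := by
        gcongr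
        linarith
      nlinarith
    have hlogDpos : 0 < Real.log (DN N) := lt_of_lt_of_le (by positivity) hlogD
    set B : ℝ := ((HL.badPrimes (fun i => b i + 1) (DN N) H).card : ℝ) with hB
    have hB0 : 0 ≤ B := Nat.cast_nonneg _
    have h3 : B * (8 * (r:ℝ) ^ 3 * (K+1)) ≤ r ^ 2 * (2 * (K + 1) * DN N) := by
      calc B * (8 * (r:ℝ) ^ 3 * (K+1)) ≤ B * Real.log (DN N) := by gcongr
        _ ≤ (r:ℝ) ^ 2 * Real.log H := h1
        _ ≤ _ := by gcongr
    have hr0 : (0:ℝ) < r := by exact_mod_cast hr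
    have h4 : 4 * (r:ℝ) * B ≤ DN N := by
      have h5 : (2 * (r:ℝ) ^ 2 * (K+1)) * (4 * r * B) ≤ (2 * (r:ℝ) ^ 2 * (K+1)) * DN N := by
        calc (2 * (r:ℝ) ^ 2 * (K+1)) * (4 * r * B) = B * (8 * (r:ℝ) ^ 3 * (K+1)) := by ring
          _ ≤ (r:ℝ) ^ 2 * (2 * (K + 1) * DN N) := h3
          _ = _ := by ring
      exact le_of_mul_le_mul_left h5 (by positivity)
    have h5 : 2 * (r:ℝ) * B / DN N ≤ Real.log 2 := by
      have h6 : 2 * (r:ℝ) * B / DN N ≤ 1 / 2 := by
        rw [div_le_div_iff₀ hDN0 (by norm_num)]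
        linarith
      have := Real.log_two_gt_d9
      linarith
    calc Real.exp (2 * r * B / DN N) ≤ Real.exp (Real.log 2) := Real.exp_le_exp.2 h5
      _ = 2 := Real.exp_log (by norm_num)

namespace Sing

end Sing

theorem dens_PN_lower : ∃ c : ℝ, 0 < c ∧ ∃ N₀ : ℕ, ∀ N ≥ N₀,
    c / Real.log (Real.log (Real.log N)) ≤ dens (PN N) ∧
    (PN N : ℝ) ≤ (Real.log N) ^ 2 ∧ 1 ≤ PN N := by
  obtain ⟨N₀, hN₀⟩ := DN_ge 3
  refine ⟨Real.exp (-7), Real.exp_pos _, N₀, fun N hN => ?_⟩
  have hD := hN₀ N hN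
  have hD3 : (3:ℝ) ≤ DN N := by exact_mod_cast hD
  have hL1 : (DN N : ℝ) ≤ Real.log (Real.log N) := by
    apply Nat.floor_le
    by_contra hcon
    push Not at hcon
    have : DN N = 0 := Nat.floor_of_nonpos hcon.le
    omega
  have hlogN : 1 ≤ Real.log N := by
    by_contra hcon
    push Not at hcon
    have h0 : 0 ≤ Real.log N := Real.log_natCast_nonneg N
    have := Real.log_nonpos h0 hcon.le
    linarith
  refine ⟨?_, ?_, primorial_pos _⟩
  · refine le_trans ?_ (dens_primorial_ge (DN N) hD)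
    have h1 : Real.log (DN N) ≤ Real.log (Real.log (Real.log N)) :=
      Real.log_le_log (by linarith) hL1
    have h2 : 0 < Real.log (DN N) := Real.log_pos (by linarith)
    have h3 := Real.exp_pos (-7)
    gcongr
  · have h1 : ((primorial (DN N) : ℕ) : ℝ) ≤ (4:ℝ) ^ (DN N) := by
      exact_mod_cast primorial_le_four_pow (DN N)
    refine le_trans h1 ?_
    have h2 : (4:ℝ) ^ (DN N) = Real.exp (DN N * Real.log 4) := by
      rw [mul_comm, Real.exp_mul, Real.exp_log (by norm_num), Real.rpow_natCast]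
    have h3 : (Real.log N) ^ 2 = Real.exp (2 * Real.log (Real.log N)) := by
      rw [mul_comm, Real.exp_mul, Real.exp_log (by linarith)]
      norm_num
    rw [h2, h3]
    apply Real.exp_le_exp.2
    have h4 : Real.log 4 ≤ 2 := by
      have h5 : Real.log 4 = 2 * Real.log 2 := by
        rw [show (4:ℝ) = 2 ^ 2 by norm_num, Real.log_pow]
        norm_num
      have := Real.log_two_lt_d9
      linarith
    have h5 : 0 ≤ Real.log 4 := Real.log_nonneg (by norm_num)
    nlinarith

end Pool.Agent.Lib.MT
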