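import Pool.Agent.Lib.MT.ClassMain
import Pool.Agent.Lib.MT.Singular

/-!
# A positive S-proportion of the r-tuples of any set of shifts in a polylogarithmic window

V = dens P₀, L = log N, M = B.card ≥ log log N. For u < P₀ let B_u = the b ∈ B with
u + b coprime to P₀, M_u = |B_u|; sum_u M_u = P₀ V M. Call u big if M_u ≥ V M/2. For big u
class_main gives a set G_u of injective r-tuples from B_u, |G_u| ≥ δ M_u^r. For an injective tuple b
from B put U b = {u : b from B_u}, so |U b| = P₀ sloc N b, and U' b = {u big : b ∈ G_u}. The tuples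
with |U' b| ≥ (δ/4) |U b| are good and carry a positive proportion of the mass.
-/

open Finset
open scoped Classical

namespace Pool.Agent.Lib.MT

/-- The number of `n` in `(N, 2N]` such that all `n + b i` are prime. -/
noncomputable def piN {r : ℕ} (N : ℕ) (b : Fin r → ℕ) : ℕ :=
  ((Finset.Ioc N (2*N)).filter (fun n => ∀ i, (n + b i).Prime)).card

/-- The elements of `B` that are coprime to `P` in the class `u`. -/
noncomputable def TTwo.Bu (P : ℕ) (B : Finset ℕ) (u : ℕ) : Finset ℕ :=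
  B.filter (fun b => Nat.Coprime (u + b) P)

/-- The classes in which the tuple is coprime to `P`. -/
noncomputable def TTwo.UU {r : ℕ} (P : ℕ) (b : Fin r → ℕ) : Finset ℕ :=
  (Finset.range P).filter (fun u => ∀ i, Nat.Coprime (u + b i) P)

lemma TTwo.card_coprime (P b : ℕ) :
    ((Finset.range P).filter (fun u => Nat.Coprime (u + b) P)).card = P.totient := by
  rw [← Nat.filter_coprime_Ico_eq_totient P b]
  apply Finset.card_bij (fun u _ => u + b)
  · intro u hu
    rw [mem_filter, mem_range] at hu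
    rw [mem_filter, mem_Ico]
    exact ⟨⟨by omega, by omega⟩, hu.2.symm⟩
  · intro u _ v _ h
    omega
  · intro v hv
    rw [mem_filter, mem_Ico] at hv
    refine ⟨v - b, ?_, by omega⟩
    rw [mem_filter, mem_range]
    have h1 : v - b + b = v := by omega
    exact ⟨by omega, by rw [h1]; exact hv.2.symm⟩

lemma TTwo.sum_card (P : ℕ) (B : Finset ℕ) :
    ∑ u ∈ Finset.range P, ((TTwo.Bu P B u).card : ℝ) = B.card * P.totient := by
  have h1 : ∑ u ∈ Finset.range P, (TTwo.Bu P B u).card =
      ∑ b ∈ B, ((Finset.range P).filter (fun u => Nat.Coprime (u + b) P)).card := by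
    unfold TTwo.Bu
    exact Finset.sum_card_bipartiteAbove_eq_sum_card_bipartiteBelow
      (fun u b => Nat.Coprime (u + b) P)
  have h2 : ∑ b ∈ B, ((Finset.range P).filter (fun u => Nat.Coprime (u + b) P)).card =
      B.card * P.totient := by
    rw [Finset.sum_congr rfl (fun b _ => TTwo.card_coprime P b)]
    simp
  have h3 := h1.trans h2
  exact_mod_cast h3

lemma TTwo.sum_UU {r : ℕ} (P : ℕ) (B : Finset ℕ) :
    ∑ b ∈ (Fintype.piFinset (fun _ : Fin r => B)).filter Function.Injective,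
        (TTwo.UU P b).card =
      ∑ u ∈ Finset.range P,
        ((Fintype.piFinset (fun _ : Fin r => TTwo.Bu P B u)).filter Function.Injective).card := by
  unfold TTwo.UU
  have h := Finset.sum_card_bipartiteAbove_eq_sum_card_bipartiteBelow
    (s := (Fintype.piFinset (fun _ : Fin r => B)).filter Function.Injective)
    (t := Finset.range P) (fun (b : Fin r → ℕ) (u : ℕ) => ∀ i, Nat.Coprime (u + b i) P)
  unfold Finset.bipartiteAbove Finset.bipartiteBelow at h
  rw [h]
  apply Finset.sum_congr rfl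
  intro u _
  congr 1
  ext b
  simp only [mem_filter, Fintype.mem_piFinset, TTwo.Bu]
  constructor
  · rintro ⟨⟨h1, h2⟩, h3⟩
    exact ⟨fun i => ⟨h1 i, h3 i⟩, h2⟩
  · rintro ⟨h1, h2⟩
    exact ⟨⟨fun i => (h1 i).1, h2⟩, fun i => (h1 i).2⟩

/-- The combinatorial core. -/
lemma TTwo.core (r : ℕ) (hr : 1 ≤ r) (P : ℕ) (hP : 0 < P) (B : Finset ℕ) (hB : 0 < B.card)
    (δ : ℝ) (hδ : 0 < δ) (big : Finset ℕ)
    (hbig : big = (Finset.range P).filter
      (fun u => (P.totient : ℝ) / P * B.card / 2 ≤ ((TTwo.Bu P B u).card : ℝ)))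
    (G : ℕ → Finset (Fin r → ℕ))
    (hG : ∀ u ∈ big, G u ⊆ (Fintype.piFinset (fun _ : Fin r => TTwo.Bu P B u)).filter
      Function.Injective)
    (hGc : ∀ u ∈ big, δ * ((TTwo.Bu P B u).card : ℝ) ^ r ≤ ((G u).card : ℝ)) :
    0 < ∑ b ∈ (Fintype.piFinset (fun _ : Fin r => B)).filter Function.Injective,
        ((TTwo.UU P b).card : ℝ) ∧
    (δ/4) * ∑ b ∈ (Fintype.piFinset (fun _ : Fin r => B)).filter Function.Injective,
        ((TTwo.UU P b).card : ℝ) ≤
      ∑ b ∈ ((Fintype.piFinset (fun _ : Fin r => B)).filter Function.Injective).filter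
        (fun b => (δ/4) * ((TTwo.UU P b).card : ℝ) ≤ ((big.filter (fun u => b ∈ G u)).card : ℝ)),
        ((TTwo.UU P b).card : ℝ) := by
  obtain ⟨k, rfl⟩ : ∃ k, r = k + 1 := ⟨r - 1, by omega⟩
  set inj := (Fintype.piFinset (fun _ : Fin (k+1) => B)).filter Function.Injective with hinj
  set V : ℝ := (P.totient : ℝ) / P with hV
  have hPr : (0:ℝ) < P := by exact_mod_cast hP
  have hVpos : 0 < V := by
    have : 0 < P.totient := Nat.totient_pos.2 hP
    rw [hV]; positivity
  have hBr : (0:ℝ) < B.card := by exact_mod_cast hB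
  have hbs : big ⊆ Finset.range P := by rw [hbig]; exact filter_subset _ _
  -- Jensen
  have hJ : (P:ℝ) * (V * B.card) ^ (k+1) ≤ ∑ u ∈ Finset.range P, ((TTwo.Bu P B u).card : ℝ) ^ (k+1) := by
    have h1 := pow_sum_div_card_le_sum_pow (s := Finset.range P)
      (f := fun u => ((TTwo.Bu P B u).card : ℝ)) (fun _ _ => Nat.cast_nonneg _) k
    rw [TTwo.sum_card, Finset.card_range] at h1
    refine le_trans (le_of_eq ?_) h1
    rw [hV, div_mul_eq_mul_div, div_pow, pow_succ (P:ℝ) k, mul_comm (P.totient : ℝ)]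
    field_simp
  -- small classes
  have hsmall : ∑ u ∈ (Finset.range P) \ big, ((TTwo.Bu P B u).card : ℝ) ^ (k+1) ≤
      (1/2) * ∑ u ∈ Finset.range P, ((TTwo.Bu P B u).card : ℝ) ^ (k+1) := by
    have h1 : ∀ u ∈ (Finset.range P) \ big, ((TTwo.Bu P B u).card : ℝ) ^ (k+1) ≤
        (V * B.card / 2) ^ (k+1) := by
      intro u hu
      rw [mem_sdiff, hbig, mem_filter] at hu
      apply pow_le_pow_left₀ (Nat.cast_nonneg _)
      by_contra hcon
      push Not at hcon
      exact hu.2 ⟨hu.1, hcon.le⟩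
    calc ∑ u ∈ (Finset.range P) \ big, ((TTwo.Bu P B u).card : ℝ) ^ (k+1)
        ≤ ∑ u ∈ (Finset.range P) \ big, (V * B.card / 2) ^ (k+1) := Finset.sum_le_sum h1
      _ ≤ ∑ u ∈ Finset.range P, (V * B.card / 2) ^ (k+1) := by
          apply Finset.sum_le_sum_of_subset_of_nonneg sdiff_subset
          intros; positivity
      _ = P * (V * B.card / 2) ^ (k+1) := by simp
      _ = (1/2) ^ (k+1) * (P * (V * B.card) ^ (k+1)) := by rw [div_pow, div_pow]; ring
      _ ≤ (1/2) * (P * (V * B.card) ^ (k+1)) := by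
          apply mul_le_mul_of_nonneg_right _ (by positivity)
          rw [pow_succ]
          have : (1/2:ℝ) ^ k ≤ 1 := pow_le_one₀ (by norm_num) (by norm_num)
          linarith
      _ ≤ _ := by linarith
  have hbigsum : (1/2) * ∑ u ∈ Finset.range P, ((TTwo.Bu P B u).card : ℝ) ^ (k+1) ≤
      ∑ u ∈ big, ((TTwo.Bu P B u).card : ℝ) ^ (k+1) := by
    have h1 := Finset.sum_sdiff (f := fun u => ((TTwo.Bu P B u).card : ℝ) ^ (k+1)) hbs
    linarith
  -- the mass of U
  have hU : ∑ b ∈ inj, ((TTwo.UU P b).card : ℝ) ≤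
      ∑ u ∈ Finset.range P, ((TTwo.Bu P B u).card : ℝ) ^ (k+1) := by
    have h1 := TTwo.sum_UU (r := k+1) P B
    rw [← hinj] at h1
    have h2 : ∑ b ∈ inj, ((TTwo.UU P b).card : ℝ) = ∑ u ∈ Finset.range P,
        (((Fintype.piFinset (fun _ : Fin (k+1) => TTwo.Bu P B u)).filter
          Function.Injective).card : ℝ) := by exact_mod_cast h1
    rw [h2]
    apply Finset.sum_le_sum
    intro u _
    have h3 : ((Fintype.piFinset (fun _ : Fin (k+1) => TTwo.Bu P B u)).filter
          Function.Injective).card ≤ (TTwo.Bu P B u).card ^ (k+1) := by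
      refine (Finset.card_filter_le _ _).trans ?_
      simp
    exact_mod_cast h3
  -- the mass of U'
  have hU' : ∑ b ∈ inj, ((big.filter (fun u => b ∈ G u)).card : ℝ) =
      ∑ u ∈ big, ((G u).card : ℝ) := by
    have h := Finset.sum_card_bipartiteAbove_eq_sum_card_bipartiteBelow
      (s := inj) (t := big) (fun (b : Fin (k+1) → ℕ) (u : ℕ) => b ∈ G u)
    unfold Finset.bipartiteAbove Finset.bipartiteBelow at h
    have h2 : ∑ u ∈ big, (inj.filter (fun b => b ∈ G u)).card = ∑ u ∈ big, (G u).card := by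
      apply Finset.sum_congr rfl
      intro u hu
      congr 1
      ext b
      rw [mem_filter]
      constructor
      · exact fun h => h.2
      · intro hb
        refine ⟨?_, hb⟩
        have := hG u hu hb
        rw [mem_filter, Fintype.mem_piFinset] at this
        rw [hinj, mem_filter, Fintype.mem_piFinset]
        exact ⟨fun i => (mem_filter.1 (this.1 i)).1, this.2⟩
    have h3 := h.trans h2
    exact_mod_cast h3
  have hU'le : ∀ b ∈ inj, ((big.filter (fun u => b ∈ G u)).card : ℝ) ≤ (TTwo.UU P b).card := by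
    intro b _
    have : big.filter (fun u => b ∈ G u) ⊆ TTwo.UU P b := by
      intro u hu
      rw [mem_filter] at hu
      have h1 := hG u hu.1 hu.2
      rw [mem_filter, Fintype.mem_piFinset] at h1
      unfold TTwo.UU
      rw [mem_filter]
      exact ⟨hbs hu.1, fun i => (mem_filter.1 (h1.1 i)).2⟩
    exact_mod_cast Finset.card_le_card this
  have hlow : (δ/2) * ∑ u ∈ Finset.range P, ((TTwo.Bu P B u).card : ℝ) ^ (k+1) ≤
      ∑ b ∈ inj, ((big.filter (fun u => b ∈ G u)).card : ℝ) := by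
    rw [hU']
    calc (δ/2) * ∑ u ∈ Finset.range P, ((TTwo.Bu P B u).card : ℝ) ^ (k+1)
        = δ * ((1/2) * ∑ u ∈ Finset.range P, ((TTwo.Bu P B u).card : ℝ) ^ (k+1)) := by ring
      _ ≤ δ * ∑ u ∈ big, ((TTwo.Bu P B u).card : ℝ) ^ (k+1) :=
          mul_le_mul_of_nonneg_left hbigsum hδ.le
      _ = ∑ u ∈ big, δ * ((TTwo.Bu P B u).card : ℝ) ^ (k+1) := by rw [Finset.mul_sum]
      _ ≤ _ := Finset.sum_le_sum hGc
  have hpos : 0 < (P:ℝ) * (V * B.card) ^ (k+1) := by positivity
  have hUge : ∑ b ∈ inj, ((big.filter (fun u => b ∈ G u)).card : ℝ) ≤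
      ∑ b ∈ inj, ((TTwo.UU P b).card : ℝ) := Finset.sum_le_sum hU'le
  refine ⟨?_, ?_⟩
  · have : 0 < (δ/2) * ∑ u ∈ Finset.range P, ((TTwo.Bu P B u).card : ℝ) ^ (k+1) := by
      have := hpos.trans_le hJ
      positivity
    linarith
  · set good := inj.filter (fun b => (δ/4) * ((TTwo.UU P b).card : ℝ) ≤
      ((big.filter (fun u => b ∈ G u)).card : ℝ)) with hgood
    have h1 := Finset.sum_filter_add_sum_filter_not inj
      (fun b => (δ/4) * ((TTwo.UU P b).card : ℝ) ≤ ((big.filter (fun u => b ∈ G u)).card : ℝ))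
      (fun b => ((big.filter (fun u => b ∈ G u)).card : ℝ))
    rw [← hgood] at h1
    have h2 : ∑ b ∈ good, ((big.filter (fun u => b ∈ G u)).card : ℝ) ≤
        ∑ b ∈ good, ((TTwo.UU P b).card : ℝ) :=
      Finset.sum_le_sum fun b hb => hU'le b (filter_subset _ _ hb)
    have h3 : ∑ b ∈ inj.filter (fun b => ¬ (δ/4) * ((TTwo.UU P b).card : ℝ) ≤
        ((big.filter (fun u => b ∈ G u)).card : ℝ)), ((big.filter (fun u => b ∈ G u)).card : ℝ) ≤
        (δ/4) * ∑ b ∈ inj, ((TTwo.UU P b).card : ℝ) := by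
      calc _ ≤ ∑ b ∈ inj.filter (fun b => ¬ (δ/4) * ((TTwo.UU P b).card : ℝ) ≤
              ((big.filter (fun u => b ∈ G u)).card : ℝ)), (δ/4) * ((TTwo.UU P b).card : ℝ) := by
            apply Finset.sum_le_sum
            intro b hb
            rw [mem_filter] at hb
            exact (not_le.1 hb.2).le
        _ ≤ ∑ b ∈ inj, (δ/4) * ((TTwo.UU P b).card : ℝ) := by
            apply Finset.sum_le_sum_of_subset_of_nonneg (filter_subset _ _)
            intros; positivity
        _ = _ := by rw [Finset.mul_sum]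
    have h4 : (δ/2) * ∑ b ∈ inj, ((TTwo.UU P b).card : ℝ) ≤
        (δ/2) * ∑ u ∈ Finset.range P, ((TTwo.Bu P B u).card : ℝ) ^ (k+1) :=
      mul_le_mul_of_nonneg_left hU (by positivity)
    linarith

/-- The classes give disjoint contributions. -/
lemma TTwo.sum_classes_le {r : ℕ} (N P : ℕ) (b : Fin r → ℕ) (s : Finset ℕ)
    (hs : s ⊆ Finset.range P) :
    ∑ u ∈ s, ((Finset.Ioc N (2*N)).filter (fun n => n ≡ u [MOD P] ∧
      ∀ i, (n + b i).Prime)).card ≤ piN N b := by
  unfold piN
  rw [← Finset.card_biUnion]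
  · apply Finset.card_le_card
    intro n hn
    rw [mem_biUnion] at hn
    obtain ⟨u, _, hu⟩ := hn
    rw [mem_filter] at hu ⊢
    exact ⟨hu.1, hu.2.2⟩
  · intro u hu v hv huv
    rw [Function.onFun, Finset.disjoint_left]
    intro n hn hn'
    rw [mem_filter] at hn hn'
    have h1 : u ≡ v [MOD P] := hn.2.1.symm.trans hn'.2.1
    have hu' := mem_range.1 (hs hu)
    have hv' := mem_range.1 (hs hv)
    exact huv (Nat.ModEq.eq_of_lt_of_lt h1 hu' hv')

lemma TTwo.eventually_large (c A : ℝ) (hc : 0 < c) : ∃ N₀ : ℕ, ∀ N ≥ N₀,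
    1 ≤ Real.log N ∧ 1 ≤ Real.log (Real.log N) ∧
    A ≤ c / Real.log (Real.log (Real.log N)) * Real.log (Real.log N) ∧
    0 < Real.log (Real.log (Real.log N)) := by
  have h0 : Filter.Tendsto (fun N : ℕ => Real.log N) Filter.atTop Filter.atTop :=
    Real.tendsto_log_atTop.comp tendsto_natCast_atTop_atTop
  have h1 : Filter.Tendsto (fun N : ℕ => Real.log (Real.log N)) Filter.atTop Filter.atTop :=
    Real.tendsto_log_atTop.comp h0
  have h2 : Filter.Tendsto (fun N : ℕ => Real.log (Real.log (Real.log N))) Filter.atTop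
    Filter.atTop := Real.tendsto_log_atTop.comp h1
  have h3 : Filter.Tendsto (fun x : ℝ => Real.log x / x) Filter.atTop (nhds 0) := by
    have := Real.isLittleO_log_id_atTop.tendsto_div_nhds_zero
    simpa using this
  have h4 : Filter.Tendsto (fun N : ℕ => Real.log (Real.log (Real.log N)) /
      Real.log (Real.log N)) Filter.atTop (nhds 0) := h3.comp h1
  have hA : 0 < c / (|A| + 1) := by positivity
  have h5 := (h4.eventually (gt_mem_nhds hA)).and ((h0.eventually_ge_atTop 1).and
    ((h1.eventually_ge_atTop 1).and (h2.eventually_gt_atTop 0)))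
  obtain ⟨N₀, hN₀⟩ := Filter.eventually_atTop.1 h5
  refine ⟨N₀, fun N hN => ?_⟩
  obtain ⟨e1, e2, e3, e4⟩ := hN₀ N hN
  refine ⟨e2, e3, ?_, e4⟩
  have e5 : Real.log (Real.log (Real.log N)) * (|A| + 1) < c * Real.log (Real.log N) := by
    rw [div_lt_div_iff₀ (by linarith) (by positivity)] at e1
    exact e1
  rw [div_mul_eq_mul_div, le_div_iff₀ e4]
  have e6 : A * Real.log (Real.log (Real.log N)) ≤
      (|A| + 1) * Real.log (Real.log (Real.log N)) :=
    mul_le_mul_of_nonneg_right (by linarith [le_abs_self A]) e4.le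
  linarith

theorem t_two (r : ℕ) (hr : 1 ≤ r) : ∃ (k : ℕ) (c δ : ℝ), 0 < c ∧ 0 < δ ∧
    ∀ K : ℕ, ∃ N₀ : ℕ, ∀ N ≥ N₀, ∀ B : Finset ℕ, (∀ b ∈ B, (b : ℝ) ≤ (Real.log N) ^ K) →
    Real.log (Real.log N) ≤ B.card →
    0 < ∑ b ∈ (Fintype.piFinset (fun _ : Fin r => B)).filter Function.Injective,
        HL.SS (fun i => (b i : ℤ)) ∧
    δ * ∑ b ∈ (Fintype.piFinset (fun _ : Fin r => B)).filter Function.Injective,
        HL.SS (fun i => (b i : ℤ)) ≤
      ∑ b ∈ ((Fintype.piFinset (fun _ : Fin r => B)).filter Function.Injective).filter (fun b =>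
        c * HL.SS (fun i => (b i : ℤ)) * ((N:ℝ) / (Real.log N) ^ r) *
          (min 1 (B.card / Real.log N)) ^ k ≤ (piN N b : ℝ)),
        HL.SS (fun i => (b i : ℤ)) := by
  obtain ⟨k, κ, δ, hrk, hκ, hδ, hcm⟩ := class_main r hr
  obtain ⟨c₀, hc₀, N₃, hN₃⟩ := dens_PN_lower
  refine ⟨k, δ * κ / 8 * (1/2) ^ (k - r), δ / 16, by positivity, by positivity, ?_⟩
  intro K
  obtain ⟨N₁, hN₁⟩ := hcm K
  obtain ⟨N₂, hN₂⟩ := singular_approx r K hr
  obtain ⟨N₄, hN₄⟩ := TTwo.eventually_large c₀ (2 * k) hc₀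
  refine ⟨max (max N₁ N₂) (max N₃ N₄), ?_⟩
  intro N hN B hB hBc
  have hNN₁ : N ≥ N₁ := le_trans (le_trans (le_max_left _ _) (le_max_left _ _)) hN
  have hNN₂ : N ≥ N₂ := le_trans (le_trans (le_max_right _ _) (le_max_left _ _)) hN
  have hNN₃ : N ≥ N₃ := le_trans (le_trans (le_max_left _ _) (le_max_right _ _)) hN
  have hNN₄ : N ≥ N₄ := le_trans (le_trans (le_max_right _ _) (le_max_right _ _)) hN
  obtain ⟨hd1, -, hP1⟩ := hN₃ N hNN₃
  obtain ⟨hL1, hLL1, hA, hLLL⟩ := hN₄ N hNN₄
  have hsing := hN₂ N hNN₂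
  have hclass := hN₁ N hNN₁
  set P := PN N with hPdef
  set V : ℝ := dens P with hVdef
  set L : ℝ := Real.log N with hLdef
  have hP0 : 0 < P := hP1
  have hPr : (0:ℝ) < P := by exact_mod_cast hP0
  have hVpos : 0 < V := lt_of_lt_of_le (by positivity) hd1
  have hLpos : 0 < L := by linarith
  have hMpos : (0:ℝ) < B.card := by linarith
  have hBpos : 0 < B.card := by exact_mod_cast hMpos
  have hVdens : V = (P.totient : ℝ) / P := rfl
  set inj := (Fintype.piFinset (fun _ : Fin r => B)).filter Function.Injective with hinj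
  set big := (Finset.range P).filter
      (fun u => (P.totient : ℝ) / P * B.card / 2 ≤ ((TTwo.Bu P B u).card : ℝ)) with hbig
  set G : ℕ → Finset (Fin r → ℕ) := fun u =>
    (Fintype.piFinset (fun _ : Fin r => TTwo.Bu P B u)).filter (fun b => Function.Injective b ∧
        κ * ((N:ℝ) / P) / (V * L) ^ r *
            (min 1 ((TTwo.Bu P B u).card / (V * L))) ^ (k - r) ≤
          (((Finset.Ioc N (2*N)).filter (fun n => n ≡ u [MOD P] ∧
            ∀ i, (n + b i).Prime)).card : ℝ)) with hGdef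
  have hkbig : ∀ u ∈ big, k ≤ (TTwo.Bu P B u).card := by
    intro u hu
    rw [hbig, mem_filter] at hu
    have h1 : V * B.card / 2 ≤ ((TTwo.Bu P B u).card : ℝ) := hu.2
    have h2 : c₀ / Real.log (Real.log L) * Real.log L ≤ V * B.card :=
      mul_le_mul hd1 hBc (by linarith) hVpos.le
    have h3 : (k:ℝ) ≤ ((TTwo.Bu P B u).card : ℝ) := by linarith
    exact_mod_cast h3
  have hG : ∀ u ∈ big, G u ⊆ (Fintype.piFinset (fun _ : Fin r => TTwo.Bu P B u)).filter
      Function.Injective := by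
    intro u _ b hb
    rw [hGdef] at hb
    simp only [mem_filter] at hb ⊢
    exact ⟨hb.1, hb.2.1⟩
  have hGc : ∀ u ∈ big, δ * ((TTwo.Bu P B u).card : ℝ) ^ r ≤ ((G u).card : ℝ) := by
    intro u hu
    exact hclass u (TTwo.Bu P B u) (fun b hb => by
      unfold TTwo.Bu at hb
      rw [mem_filter] at hb
      exact ⟨hB b hb.1, hb.2⟩) (hkbig u hu)
  obtain ⟨hpos, hmass⟩ := TTwo.core r hr P hP0 B hBpos δ hδ big hbig G hG hGc
  rw [← hinj] at hpos hmass
  -- singular series
  have hsl : ∀ b : Fin r → ℕ, sloc N b = ((TTwo.UU P b).card : ℝ) / P := fun b => rfl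
  have hVr : 0 < V ^ r := by positivity
  set q : ℝ := 1 / (P * V ^ r) with hq
  have hqpos : 0 < q := by positivity
  have hS : ∀ b ∈ inj, (1/2) * (q * (TTwo.UU P b).card) ≤ HL.SS (fun i => (b i : ℤ)) ∧
      HL.SS (fun i => (b i : ℤ)) ≤ 2 * (q * (TTwo.UU P b).card) := by
    intro b hb
    rw [hinj, mem_filter, Fintype.mem_piFinset] at hb
    have h1 := hsing b hb.2 (fun i => hB _ (hb.1 i))
    rw [hsl b] at h1
    have h2 : ((TTwo.UU P b).card : ℝ) / P / V ^ r = q * (TTwo.UU P b).card := by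
      rw [hq]; field_simp
    rw [h2] at h1
    exact h1
  refine ⟨?_, ?_⟩
  · have h1 : (1/2) * q * ∑ b ∈ inj, ((TTwo.UU P b).card : ℝ) ≤
        ∑ b ∈ inj, HL.SS (fun i => (b i : ℤ)) := by
      rw [Finset.mul_sum]
      apply Finset.sum_le_sum
      intro b hb
      have := (hS b hb).1
      linarith
    have h2 : 0 < (1/2) * q * ∑ b ∈ inj, ((TTwo.UU P b).card : ℝ) :=
      mul_pos (by linarith) hpos
    exact h2.trans_le h1
  · have hgoodsub : inj.filter (fun b => (δ/4) * ((TTwo.UU P b).card : ℝ) ≤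
        ((big.filter (fun u => b ∈ G u)).card : ℝ)) ⊆
        inj.filter (fun b => δ * κ / 8 * (1/2) ^ (k - r) * HL.SS (fun i => (b i : ℤ)) *
          ((N:ℝ) / L ^ r) * (min 1 (B.card / L)) ^ k ≤ (piN N b : ℝ)) := by
      intro b hb
      rw [mem_filter] at hb ⊢
      refine ⟨hb.1, ?_⟩
      have hSb := (hS b hb.1).2
      have hN0 : (0:ℝ) ≤ N := Nat.cast_nonneg _
      set m : ℝ := min 1 (B.card / L) with hm
      have hm0 : 0 ≤ m := le_min zero_le_one (by positivity)
      have hm1 : m ≤ 1 := min_le_left _ _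
      -- lower bound on each class
      have hcl : ∀ u ∈ big.filter (fun u => b ∈ G u),
          κ * ((N:ℝ) / P) / (V * L) ^ r * ((1/2) * m) ^ (k - r) ≤
          (((Finset.Ioc N (2*N)).filter (fun n => n ≡ u [MOD P] ∧
            ∀ i, (n + b i).Prime)).card : ℝ) := by
        intro u hu
        rw [mem_filter] at hu
        have h1 : b ∈ G u := hu.2
        rw [hGdef] at h1
        simp only [mem_filter] at h1
        refine le_trans ?_ h1.2.2
        apply mul_le_mul_of_nonneg_left _ (by positivity)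
        apply pow_le_pow_left₀ (by positivity)
        have h2 : V * B.card / 2 ≤ ((TTwo.Bu P B u).card : ℝ) := by
          have h3 := hu.1
          rw [hbig, mem_filter] at h3
          exact h3.2
        apply le_min
        · linarith
        · have h4 : (1/2) * m ≤ (1/2) * (B.card / L) :=
            mul_le_mul_of_nonneg_left (min_le_right _ _) (by norm_num)
          refine h4.trans ?_
          rw [le_div_iff₀ (by positivity)]
          have h5 : (1/2) * (B.card / L) * (V * L) = V * B.card / 2 := by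
            field_simp
          rw [h5]; exact h2
      have hsum : ((big.filter (fun u => b ∈ G u)).card : ℝ) *
          (κ * ((N:ℝ) / P) / (V * L) ^ r * ((1/2) * m) ^ (k - r)) ≤ (piN N b : ℝ) := by
        have h1 := TTwo.sum_classes_le N P b (big.filter (fun u => b ∈ G u))
          ((filter_subset _ _).trans (by rw [hbig]; exact filter_subset _ _))
        have h2 : ∑ u ∈ big.filter (fun u => b ∈ G u),
            (((Finset.Ioc N (2*N)).filter (fun n => n ≡ u [MOD P] ∧
              ∀ i, (n + b i).Prime)).card : ℝ) ≤ (piN N b : ℝ) := by exact_mod_cast h1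
        refine le_trans ?_ h2
        rw [← nsmul_eq_mul]
        exact Finset.card_nsmul_le_sum _ _ _ hcl
      refine le_trans ?_ hsum
      have hW : 0 ≤ κ * ((N:ℝ) / P) / (V * L) ^ r * ((1/2) * m) ^ (k - r) := by positivity
      have h6 : (δ/4) * ((TTwo.UU P b).card : ℝ) *
          (κ * ((N:ℝ) / P) / (V * L) ^ r * ((1/2) * m) ^ (k - r)) ≤
          ((big.filter (fun u => b ∈ G u)).card : ℝ) *
          (κ * ((N:ℝ) / P) / (V * L) ^ r * ((1/2) * m) ^ (k - r)) :=
        mul_le_mul_of_nonneg_right hb.2 hW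
      refine le_trans ?_ h6
      have h7 : m ^ k ≤ m ^ (k - r) := pow_le_pow_of_le_one hm0 hm1 (Nat.sub_le _ _)
      have h8 : (δ/4) * ((TTwo.UU P b).card : ℝ) *
          (κ * ((N:ℝ) / P) / (V * L) ^ r * ((1/2) * m) ^ (k - r)) =
          δ * κ / 8 * (1/2) ^ (k - r) * (2 * (q * (TTwo.UU P b).card)) *
          ((N:ℝ) / L ^ r) * m ^ (k - r) := by
        rw [hq, mul_pow, mul_pow]
        field_simp
        ring
      rw [h8]
      have h9 : 0 ≤ δ * κ / 8 * (1/2:ℝ) ^ (k - r) := by positivity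
      have h10 : 0 ≤ (N:ℝ) / L ^ r := by positivity
      have h11 : 0 ≤ 2 * (q * ((TTwo.UU P b).card : ℝ)) := by positivity
      gcongr
    have hterm : ∀ b ∈ inj, 0 ≤ HL.SS (fun i => (b i : ℤ)) := by
      intro b hb
      refine le_trans ?_ (hS b hb).1
      positivity
    calc δ / 16 * ∑ b ∈ inj, HL.SS (fun i => (b i : ℤ))
        ≤ δ / 16 * ∑ b ∈ inj, 2 * (q * (TTwo.UU P b).card) := by
          apply mul_le_mul_of_nonneg_left _ (by positivity)
          exact Finset.sum_le_sum fun b hb => (hS b hb).2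
      _ = (1/2) * q * ((δ/4) * ∑ b ∈ inj, ((TTwo.UU P b).card : ℝ)) := by
          rw [← Finset.mul_sum, ← Finset.mul_sum]; ring
      _ ≤ (1/2) * q * ∑ b ∈ inj.filter (fun b => (δ/4) * ((TTwo.UU P b).card : ℝ) ≤
            ((big.filter (fun u => b ∈ G u)).card : ℝ)), ((TTwo.UU P b).card : ℝ) :=
          mul_le_mul_of_nonneg_left hmass (by positivity)
      _ ≤ ∑ b ∈ inj.filter (fun b => (δ/4) * ((TTwo.UU P b).card : ℝ) ≤
            ((big.filter (fun u => b ∈ G u)).card : ℝ)), HL.SS (fun i => (b i : ℤ)) := by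
          rw [Finset.mul_sum]
          apply Finset.sum_le_sum
          intro b hb
          have := (hS b (filter_subset _ _ hb)).1
          linarith
      _ ≤ _ := by
          apply Finset.sum_le_sum_of_subset_of_nonneg hgoodsub
          intro b hb _
          exact hterm b (filter_subset _ _ hb)

end Pool.Agent.Lib.MT
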