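import Pool.Agent.Lib.MT.Hits
import Pool.Agent.Lib.MT.SOneUpper
import Pool.Agent.Lib.MT.NonRough
import Pool.Agent.Lib.MT.PrimeSum
import Pool.Agent.Lib.MT.WeightedAux

/-!
# The weighted inequality

PROOF SKETCH. c₁ = natural number above the constants of params and prime_sum. Choose J with
J + 1 ≥ 48000 c₁² (r+1), k = 2^J, S = c₁ k (J+1) + k + 1, ρ = floor(N^(1/(100 S))),
R = ρ^S, η = 1/(200 S), D large and δ small in terms of C(nonrough), k, J. P = Pr W R,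
B = sum1 P κ₁ g², A = sum1 P κ₁ g, ℓ = log ρ, F = dens W, M = (N/W) B^k.
(1) S1 = sum over n ≡ v of wn ≤ (N/W) B''^k + (∑|lam|)² ≤ 2 M + M (sum_wn, sOne_upper,
sum1_kappa2_le: B'' ≤ exp(2/D) B).
(2) sum over n of wn X_n, X_n = number of i with n + h i prime, is ≥ (1/log 3N) [ k/4 (N/φ(W)) A²
B^(k-1) - k N/(log N)^A' ] ≥ 4 (r+1) M - M.
(3) nonrough: (k+1) times it ≤ M.
So sum over rough n of (X_n - (r-1)) wn ≥ sum wn X_n - (k+1) sum_{nonrough} wn - r S1 ≥ M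
≥ c (N/W) (F log N)^k.
Here rough means: no p ∈ P with p ≤ N^δ divides some n + h i. The last clause: |lam| ≤
(sum1 P κ₁ 1[≤R])^k ≤ (C F log R)^k.
-/

open Finset
open scoped Classical

namespace Pool.Agent.Lib.MT


open Wtd in
theorem weighted (r : ℕ) : ∃ (k J D : ℕ) (c C δ : ℝ), r ≤ k ∧ 1 ≤ k ∧ 0 < c ∧ 0 < C ∧ 0 < δ ∧
    ∀ K : ℕ, ∃ N₀ : ℕ, ∀ N ≥ N₀, ∀ (W v : ℕ), 1 ≤ W →
    (W:ℝ) ≤ (Real.log N) ^ K → (∀ p, p.Prime → p ≤ D → p ∣ W) →
    ∀ h : Fin k → ℕ, (∀ i, h i ≤ N) → (∀ i, Nat.Coprime (v + h i) W) →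
    (∀ i j, i ≠ j → ∀ p, p.Prime → h i ≡ h j [MOD p] → p ∣ W) →
    ∃ R ρ : ℕ, (N:ℝ) ^ δ ≤ R ∧ R ≤ N ∧
    c * ((N:ℝ) / W) * (dens W * Real.log N) ^ k ≤
      ∑ n ∈ (Finset.Ioc N (2*N)).filter (fun n => n ≡ v [MOD W] ∧
        ∀ p ∈ Pr W R, ∀ i, p ∣ n + h i → (N:ℝ) ^ δ < p),
      (((Finset.univ.filter (fun i => (n + h i).Prime)).card : ℝ) - ((r:ℝ) - 1)) *
        wn h (lamOf (yOf (gst ρ J) R : Asg (Pr W R) k → ℝ)) n ∧
    ∀ s, |lamOf (yOf (gst ρ J) R : Asg (Pr W R) k → ℝ) s| ≤ C * (dens W * Real.log N) ^ k := by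
  obtain ⟨Cp, hCp1, hparams⟩ := params
  obtain ⟨Cq, hCq1, hprime⟩ := prime_sum
  obtain ⟨c1, hc1⟩ : ∃ c1 : ℕ, max Cp Cq ≤ c1 := exists_nat_ge _
  have hCpc : Cp ≤ c1 := (le_max_left _ _).trans hc1
  have hCqc : Cq ≤ c1 := (le_max_right _ _).trans hc1
  have hc1R : (1:ℝ) ≤ c1 := hCp1.trans hCpc
  have hc1pos : 1 ≤ c1 := by exact_mod_cast hc1R
  obtain ⟨J, hJ1, hrJ⟩ : ∃ J : ℕ, 48000 * c1 ^ 2 * (r + 1) ≤ J + 1 ∧ r ≤ J := by
    refine ⟨48000 * c1 ^ 2 * (r + 1), by omega, ?_⟩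
    have : 1 ≤ c1 ^ 2 := Nat.one_le_pow _ _ hc1pos
    nlinarith
  obtain ⟨k, hkJ⟩ : ∃ k : ℕ, k = 2 ^ J := ⟨_, rfl⟩
  have hk1 : 1 ≤ k := by rw [hkJ]; exact Nat.one_le_two_pow
  have hrk : r ≤ k := by
    rw [hkJ]
    exact hrJ.trans (Nat.lt_two_pow_self).le
  obtain ⟨Cn, hCn1, hnon⟩ := nonrough k J hk1
  obtain ⟨S, hS⟩ : ∃ S : ℕ, S = c1 * k * (J+1) + k + 1 := ⟨_, rfl⟩
  have hS1 : 1 ≤ S := by omega
  have hSR : (S:ℝ) ≤ 3 * c1 * k * (J+1) := by
    have h1 : k ≤ c1 * k * (J+1) := by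
      calc k = 1 * k * 1 := by ring
        _ ≤ c1 * k * (J+1) := Nat.mul_le_mul (Nat.mul_le_mul hc1pos le_rfl) (by omega)
    have h2 : S ≤ 3 * c1 * k * (J+1) := by
      have : 3 * c1 * k * (J+1) = 3 * (c1 * k * (J+1)) := by ring
      rw [this, hS]
      omega
    exact_mod_cast h2
  have hSpos : (0:ℝ) < S := by exact_mod_cast hS1
  obtain ⟨η, hη⟩ : ∃ η : ℝ, η = 1 / (200 * S) := ⟨_, rfl⟩
  have hηpos : 0 < η := by rw [hη]; positivity
  have hη200 : η ≤ 1 / 200 := by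
    rw [hη]
    apply div_le_div_of_nonneg_left (by norm_num) (by norm_num)
    have : (1:ℝ) ≤ S := by exact_mod_cast hS1
    linarith
  have hkpos : (0:ℝ) < k := by exact_mod_cast hk1
  have hCnk : (1:ℝ) ≤ 2 * (k+1) * Cn := by nlinarith
  obtain ⟨δ, hδ⟩ : ∃ δ : ℝ, δ = η / (2 * (k+1) * Cn) := ⟨_, rfl⟩
  have hδpos : 0 < δ := by rw [hδ]; positivity
  have hδη : δ ≤ η := by
    rw [hδ]
    exact div_le_self hηpos.le hCnk
  have hδ4 : δ ≤ 1/4 := by linarith
  obtain ⟨D, hD⟩ : ∃ D : ℕ, D = ⌈2 * (k+1) * Cn⌉₊ + 200 * k^2 := ⟨_, rfl⟩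
  have hDCn : 2 * (k+1) * Cn ≤ D := by
    have h1 := Nat.le_ceil (2 * (k+1) * Cn)
    have h2 : ((⌈2 * (k+1) * Cn⌉₊ : ℕ) : ℝ) ≤ D := by
      rw [hD]; push_cast
      have : (0:ℝ) ≤ 200 * (k:ℝ)^2 := by positivity
      linarith
    linarith
  have hDk : 200 * k ^ 2 ≤ D := by rw [hD]; omega
  have hkk : k ≤ k ^ 2 := by nlinarith
  have hkD : k ≤ D := by omega
  have hD1 : 1 ≤ D := by omega
  have hDpos : (0:ℝ) < D := by exact_mod_cast hD1
  have hnr : (k+1) * (Cn * (δ / η + 1 / D)) ≤ 1 := by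
    have e1 : δ / η = 1 / (2 * (k+1) * Cn) := by
      rw [hδ]; field_simp
    have e2 : (1:ℝ) / D ≤ 1 / (2 * (k+1) * Cn) :=
      div_le_div_of_nonneg_left (by norm_num) (by linarith) hDCn
    have hCnpos : 0 < Cn := by linarith
    calc (k+1) * (Cn * (δ / η + 1 / D))
        ≤ (k+1) * (Cn * (1 / (2 * (k+1) * Cn) + 1 / (2 * (k+1) * Cn))) := by
          apply mul_le_mul_of_nonneg_left _ (by positivity)
          apply mul_le_mul_of_nonneg_left _ hCnpos.le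
          linarith
      _ = 1 := by field_simp; ring
  refine ⟨k, J, D, η ^ k, Cp ^ k, δ, hrk, hk1, by positivity, by positivity, hδpos, fun K => ?_⟩
  obtain ⟨N1, hN1⟩ := hprime k J K D (K * (k+1)) η hk1 hηpos hDk
  obtain ⟨N2, hN2⟩ := hnon K D δ η hδpos hδ4 hηpos hD1 hkD
  -- eventual conditions
  have hev : ∀ᶠ N : ℕ in Filter.atTop, N1 ≤ N ∧ N2 ≤ N ∧ 81 ≤ N ∧ (2:ℝ) ≤ (N:ℝ) ^ η ∧
      Real.exp 1 * (Real.log N) ^ K ≤ (N:ℝ) ^ η ∧ (k:ℝ) ≤ Real.log N ∧ 1 ≤ Real.log N ∧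
      (2 * Cp) ^ (2 * k) * (Real.log N) ^ (4 * k + K * (k+1)) ≤ (N:ℝ) ^ (49/50 : ℝ) := by
    filter_upwards [Filter.eventually_ge_atTop N1, Filter.eventually_ge_atTop N2,
      Filter.eventually_ge_atTop 81, rpow_large 2 η hηpos, log_pow_small K (Real.exp 1) η hηpos,
      log_large k, log_large 1, log_pow_small (4 * k + K * (k+1)) ((2 * Cp) ^ (2 * k)) (49/50)
        (by norm_num)] with N h1 h2 h3 h4 h5 h6 h7 h8
    exact ⟨h1, h2, h3, h4, h5, h6, h7, h8⟩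
  obtain ⟨N₀, hN₀⟩ := Filter.eventually_atTop.1 hev
  refine ⟨N₀, fun N hN W v hW hWK hWD h hhN hcop hdist => ?_⟩
  obtain ⟨hNN1, hNN2, hN81, hN2η, hNK, hNk, hL1, hNE⟩ := hN₀ N hN
  have hNpos : (0:ℝ) < N := by
    have : (81:ℝ) ≤ N := by exact_mod_cast hN81
    linarith
  have hN1' : (1:ℝ) ≤ N := by
    have : (81:ℝ) ≤ N := by exact_mod_cast hN81
    linarith
  set L := Real.log N with hL
  have hLpos : 0 < L := by linarith
  have hWpos : (0:ℝ) < W := by exact_mod_cast hW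
  -- choice of ρ and R
  obtain ⟨ρ, hρ⟩ : ∃ ρ : ℕ, ρ = ⌊(N:ℝ) ^ (1 / (100 * (S:ℝ)))⌋₊ := ⟨_, rfl⟩
  obtain ⟨R, hR⟩ : ∃ R : ℕ, R = ρ ^ S := ⟨_, rfl⟩
  have hsq : (N:ℝ) ^ (1 / (100 * (S:ℝ))) = (N:ℝ) ^ η * (N:ℝ) ^ η := by
    rw [← Real.rpow_add hNpos]
    congr 1
    rw [hη]; field_simp; norm_num
  have hρη : (N:ℝ) ^ η ≤ ρ := by
    have h1 : (N:ℝ) ^ (1 / (100 * (S:ℝ))) < ρ + 1 := by
      rw [hρ]; exact Nat.lt_floor_add_one _
    rw [hsq] at h1
    nlinarith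
  have hρ2R : (2:ℝ) ≤ ρ := hN2η.trans hρη
  have hρ2 : 2 ≤ ρ := by exact_mod_cast hρ2R
  have hρle : (ρ:ℝ) ≤ (N:ℝ) ^ (1 / (100 * (S:ℝ))) := by
    rw [hρ]; exact Nat.floor_le (by positivity)
  have hR100 : (R:ℝ) ≤ (N:ℝ) ^ (1/100 : ℝ) := by
    rw [hR]; push_cast
    calc (ρ:ℝ) ^ S ≤ ((N:ℝ) ^ (1 / (100 * (S:ℝ)))) ^ S :=
          pow_le_pow_left₀ (by positivity) hρle S
      _ = (N:ℝ) ^ (1/100 : ℝ) := by
          rw [← Real.rpow_natCast, ← Real.rpow_mul hNpos.le]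
          congr 1
          field_simp
  have hRN : (R:ℝ) ≤ N := by
    refine hR100.trans ?_
    calc (N:ℝ) ^ (1/100 : ℝ) ≤ (N:ℝ) ^ (1:ℝ) :=
          Real.rpow_le_rpow_of_exponent_le hN1' (by norm_num)
      _ = N := Real.rpow_one _
  have hρR : ρ ≤ R := by
    rw [hR]
    exact Nat.le_self_pow (by omega) ρ
  have hR2 : 2 ≤ R := hρ2.trans hρR
  have hRR : (2:ℝ) ≤ R := by exact_mod_cast hR2
  have hδR : (N:ℝ) ^ δ ≤ R := by
    calc (N:ℝ) ^ δ ≤ (N:ℝ) ^ η := Real.rpow_le_rpow_of_exponent_le hN1' hδη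
      _ ≤ ρ := hρη
      _ ≤ R := by exact_mod_cast hρR
  set ℓ := Real.log ρ with hℓ
  have hℓη : η * L ≤ ℓ := by
    have := Real.log_le_log (by positivity) hρη
    rwa [Real.log_rpow hNpos] at this
  have hlogR : Real.log R = S * ℓ := by
    rw [hR]; push_cast; rw [Real.log_pow]
  have hρW : 1 + Real.log W ≤ ℓ := by
    have h1 : Real.exp 1 * W ≤ ρ :=
      (mul_le_mul_of_nonneg_left hWK (Real.exp_pos 1).le).trans (hNK.trans hρη)
    have h2 := Real.log_le_log (by positivity) h1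
    rwa [Real.log_mul (Real.exp_pos 1).ne' hWpos.ne', Real.log_exp] at h2
  have hlW : 0 ≤ Real.log W := Real.log_natCast_nonneg W
  have hℓ1 : 1 ≤ ℓ := by linarith
  have hSk : 2 ^ J < S := by
    rw [← hkJ, hS]
    have : 0 ≤ c1 * k * (J+1) := Nat.zero_le _
    omega
  have hρJR : ρ ^ (2 ^ J) < R := by
    rw [hR]
    exact Nat.pow_lt_pow_right (by omega) hSk
  have hRJ : Cq * k * (J+1) * ℓ + 2 ^ J * ℓ ≤ Real.log R := by
    rw [hlogR, ← add_mul]
    apply mul_le_mul_of_nonneg_right _ (by linarith)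
    have h1 : ((2:ℝ) ^ J) = k := by rw [hkJ]; push_cast; rfl
    have h2 : (S:ℝ) = c1 * k * (J+1) + k + 1 := by rw [hS]; push_cast; ring
    rw [h1, h2]
    have h3 : Cq * k * (J+1) ≤ c1 * k * (J+1) := by gcongr
    linarith
  -- abbreviations
  set F := dens W with hF
  have hFge : 1 / (W:ℝ) ≤ F := dens_ge hW
  have hFle : F ≤ 1 := dens_le hW
  have hFpos : 0 < F := lt_of_lt_of_le (by positivity) hFge
  set g := gst ρ J with hg
  set P := Pr W R with hP
  set A := sum1 P κ₁ g with hA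
  set B := sum1 P κ₁ (fun a => (g a) ^ 2) with hB
  set lam : Asg P k → ℝ := lamOf (yOf g R) with hlam
  obtain ⟨hpA, hpB1, hpB2, _, hpR⟩ := hparams W R ρ J hW hρ2 hρJR.le hρW
  -- properties of P
  have hPprime : ∀ p ∈ P, p.Prime := fun p hp => (mem_Pr hp).1
  have hPW : ∀ p ∈ P, ¬ p ∣ W := fun p hp => (mem_Pr hp).2
  have hPD : ∀ p ∈ P, D < p := by
    intro p hp
    by_contra hc
    exact hPW p hp (hWD p (hPprime p hp) (not_lt.1 hc))
  have hPdist : ∀ p ∈ P, ∀ i j, i ≠ j → ¬ h i ≡ h j [MOD p] := fun p hp i j hij hc =>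
    hPW p hp (hdist i j hij p (hPprime p hp) hc)
  have hFℓ : 1 / L ^ K ≤ F * ℓ := by
    calc 1 / L ^ K ≤ 1 / (W:ℝ) := div_le_div_of_nonneg_left zero_le_one hWpos hWK
      _ ≤ F := hFge
      _ ≤ F * ℓ := le_mul_of_one_le_right hFpos.le hℓ1
  have hFℓpos : 0 < F * ℓ := by positivity
  have hBpos : 0 < B := lt_of_lt_of_le hFℓpos hpB1
  set NW := (N:ℝ) / W with hNW
  have hNWpos : 0 < NW := by positivity
  have hNWge : N / L ^ K ≤ NW := by
    rw [hNW]
    exact div_le_div_of_nonneg_left hNpos.le hWpos hWK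
  -- M
  set M := NW * B ^ k with hM
  have hM0 : NW * (F * ℓ) ^ k ≤ M :=
    mul_le_mul_of_nonneg_left (pow_le_pow_left₀ hFℓpos.le hpB1 k) hNWpos.le
  have hMge : N / L ^ (K * (k+1)) ≤ M := by
    refine le_trans ?_ hM0
    calc N / L ^ (K * (k+1)) = (N / L ^ K) * (1 / L ^ K) ^ k := by
          rw [div_pow, one_pow, ← pow_mul, mul_add, mul_one, pow_add]
          field_simp
      _ ≤ NW * (F * ℓ) ^ k := by
          apply mul_le_mul hNWge _ (by positivity) hNWpos.le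
          exact pow_le_pow_left₀ (by positivity) hFℓ k
  have hMpos : 0 < M := by positivity
  -- the size of the weights
  have hg0 : ∀ a, 0 ≤ g a := fun a => gst_nonneg ρ J a
  have hg1 : ∀ a, g a ≤ 1 := fun a => gst_le_one ρ J a
  have hga : Antitone g := gst_antitone ρ J
  have hgsq : Antitone (fun a => (g a) ^ 2) := fun a b hab =>
    pow_le_pow_left₀ (hg0 _) (hga hab) 2
  have hlogRL : Real.log R ≤ L := Real.log_le_log (by linarith) hRN
  have hlogR0 : 0 ≤ Real.log R := Real.log_nonneg (by linarith)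
  have hsumR0 : 0 ≤ sum1 P κ₁ (fun a => if a ≤ R then (1:ℝ) else 0) := by
    apply sum1_nonneg
    · intro p hp
      have h2 : (2:ℝ) ≤ p := by exact_mod_cast (hPprime p hp).two_le
      unfold κ₁
      apply div_nonneg zero_le_one
      linarith
    · intro a
      split_ifs <;> norm_num
  have hE1 : (∑ s, |lam s|) ^ 2 ≤ M := by
    have h1 := sum_abs_lam_le (k := k) hPprime g hg0 hg1 R (by omega)
    have h2 : ∑ s, |lam s| ≤ (N:ℝ) ^ (1/100 : ℝ) * ((2 * Cp) ^ k * L ^ (2 * k)) := by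
      refine h1.trans ?_
      have e1 : (1 + Real.log R) ^ k ≤ (2 * L) ^ k :=
        pow_le_pow_left₀ (by linarith) (by linarith) k
      have e2 : (sum1 P κ₁ (fun a => if a ≤ R then (1:ℝ) else 0)) ^ k ≤ (Cp * L) ^ k := by
        apply pow_le_pow_left₀ hsumR0
        refine hpR.trans ?_
        calc Cp * F * Real.log R ≤ Cp * 1 * L := by
              apply mul_le_mul _ hlogRL hlogR0 (by linarith)
              exact mul_le_mul_of_nonneg_left hFle (by linarith)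
          _ = Cp * L := by ring
      calc (R:ℝ) * (1 + Real.log R) ^ k * (sum1 P κ₁ (fun a => if a ≤ R then (1:ℝ) else 0)) ^ k
          ≤ (N:ℝ) ^ (1/100 : ℝ) * (2 * L) ^ k * (Cp * L) ^ k := by
            apply mul_le_mul _ e2 (pow_nonneg hsumR0 k) (by positivity)
            exact mul_le_mul hR100 e1 (pow_nonneg (by linarith) k) (by positivity)
        _ = (N:ℝ) ^ (1/100 : ℝ) * ((2 * Cp) ^ k * L ^ (2 * k)) := by
            rw [mul_pow, mul_pow, mul_pow, two_mul, pow_add]; ring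
    have h3 : (∑ s, |lam s|) ^ 2 ≤
        ((N:ℝ) ^ (1/100 : ℝ) * ((2 * Cp) ^ k * L ^ (2 * k))) ^ 2 :=
      pow_le_pow_left₀ (Finset.sum_nonneg fun _ _ => abs_nonneg _) h2 2
    refine h3.trans (le_trans ?_ hMge)
    rw [le_div_iff₀ (by positivity)]
    have e3 : ((N:ℝ) ^ (1/100 : ℝ)) ^ 2 * (N:ℝ) ^ (49/50 : ℝ) = N := by
      rw [← Real.rpow_natCast, ← Real.rpow_mul hNpos.le, ← Real.rpow_add hNpos]
      norm_num
    calc ((N:ℝ) ^ (1/100 : ℝ) * ((2 * Cp) ^ k * L ^ (2 * k))) ^ 2 * L ^ (K * (k+1))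
        = ((N:ℝ) ^ (1/100 : ℝ)) ^ 2 * ((2 * Cp) ^ (2 * k) * L ^ (4 * k + K * (k+1))) := by
          rw [mul_pow, mul_pow, ← pow_mul, ← pow_mul, pow_add L (4 * k)]
          rw [show k * 2 = 2 * k by ring, show 2 * k * 2 = 4 * k by ring]
          ring
      _ ≤ ((N:ℝ) ^ (1/100 : ℝ)) ^ 2 * (N:ℝ) ^ (49/50 : ℝ) :=
          mul_le_mul_of_nonneg_left hNE (by positivity)
      _ = N := e3
  -- first sum
  have hwn0 : ∀ n, 0 ≤ wn h lam n := fun n => by unfold wn; exact sq_nonneg _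
  set base := (Finset.Ioc N (2*N)).filter (fun n => n ≡ v [MOD W]) with hbase
  have hS1 : ∑ n ∈ base, wn h lam n ≤ 3 * M := by
    have h1 : ∑ n ∈ base, wn h lam n - NW * formK (fun p => (p:ℝ)) lam ≤
        (∑ s, |lam s|) ^ 2 := (abs_le.1 (sum_wn hPprime N W v hW hPW h hPdist lam)).2
    have h2 := sOne_upper (P := P) (k := k)
      (fun p hp => ⟨(hPprime p hp).two_le, hkD.trans (hPD p hp).le⟩) g hg0 R
    have h3 := sum1_kappa2_le P (fun p hp => (hPprime p hp).two_le) (fun a => (g a) ^ 2) hgsq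
      (fun a => sq_nonneg _)
    have h4 := sum_kappa1_sq_le P D hD1 hPD
    have h5 : sum1 P κ₂ (fun a => (g a) ^ 2) ≤ Real.exp (2 / D) * B :=
      h3.trans (mul_le_mul_of_nonneg_right (Real.exp_le_exp.2 h4) hBpos.le)
    have h6 : 0 ≤ sum1 P κ₂ (fun a => (g a) ^ 2) :=
      sum1_nonneg (fun p _ => κ₂_nonneg p) fun a => sq_nonneg _
    have h7 : (sum1 P κ₂ (fun a => (g a) ^ 2)) ^ k ≤ 2 * B ^ k := by
      calc (sum1 P κ₂ (fun a => (g a) ^ 2)) ^ k ≤ (Real.exp (2 / D) * B) ^ k :=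
            pow_le_pow_left₀ h6 h5 k
        _ = Real.exp (k * (2 / D)) * B ^ k := by rw [mul_pow, ← Real.exp_nat_mul]
        _ ≤ 2 * B ^ k := by
            apply mul_le_mul_of_nonneg_right _ (by positivity)
            refine le_trans (Real.exp_le_exp.2 ?_)
              (Real.exp_log (show (0:ℝ) < 2 by norm_num)).le
            have e1 : (k:ℝ) * (2 / D) ≤ 1 / 100 := by
              rw [mul_div_assoc', div_le_div_iff₀ hDpos (by norm_num)]
              have e2 : 200 * k ≤ D := le_trans (Nat.mul_le_mul_left _ hkk) hDk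
              have e3 : (200:ℝ) * k ≤ D := by exact_mod_cast e2
              linarith
            have := Real.log_two_gt_d9
            linarith
    have h8 : NW * formK (fun p => (p:ℝ)) lam ≤ NW * (2 * B ^ k) :=
      mul_le_mul_of_nonneg_left (h2.trans h7) hNWpos.le
    have h9 : NW * (2 * B ^ k) = 2 * M := by rw [hM]; ring
    linarith
  -- the nonrough part
  have hNR : (k + 1) * ∑ n ∈ (Finset.Ioc N (2*N)).filter (fun n => n ≡ v [MOD W] ∧
        ∃ p ∈ P, (p:ℝ) ≤ (N:ℝ) ^ δ ∧ ∃ i, p ∣ n + h i), wn h lam n ≤ M := by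
    have h1 := hN2 N hNN2 W v R ρ hW hWK hWD hρη hρJR.le hR100 h hdist
    have h2 : (k + 1) * ∑ n ∈ (Finset.Ioc N (2*N)).filter (fun n => n ≡ v [MOD W] ∧
        ∃ p ∈ P, (p:ℝ) ≤ (N:ℝ) ^ δ ∧ ∃ i, p ∣ n + h i), wn h lam n ≤
        (k + 1) * (Cn * (δ / η + 1 / D) * NW * (F * ℓ) ^ k) :=
      mul_le_mul_of_nonneg_left h1 (by positivity)
    refine h2.trans (le_trans ?_ hM0)
    calc (k + 1) * (Cn * (δ / η + 1 / D) * NW * (F * ℓ) ^ k)
        = ((k + 1) * (Cn * (δ / η + 1 / D))) * (NW * (F * ℓ) ^ k) := by ring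
      _ ≤ 1 * (NW * (F * ℓ) ^ k) := mul_le_mul_of_nonneg_right hnr (by positivity)
      _ = _ := one_mul _
  -- the prime part
  have hT : 4 * ((r:ℝ) + 1) * M - M ≤
      ∑ n ∈ base, ((Finset.univ.filter (fun i => (n + h i).Prime)).card : ℝ) * wn h lam n := by
    set T := ∑ n ∈ base, ((Finset.univ.filter (fun i => (n + h i).Prime)).card : ℝ) *
      wn h lam n with hTdef
    have hTm : T = ∑ m : Fin k, ∑ n ∈ (Finset.Ioc N (2*N)).filter
        (fun n => n ≡ v [MOD W] ∧ (n + h m).Prime), wn h lam n := by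
      have e1 : ∀ m : Fin k, ∑ n ∈ (Finset.Ioc N (2*N)).filter
          (fun n => n ≡ v [MOD W] ∧ (n + h m).Prime), wn h lam n =
          ∑ n ∈ base, if (n + h m).Prime then wn h lam n else 0 := by
        intro m
        rw [hbase, ← Finset.sum_filter, Finset.filter_filter]
      simp only [e1]
      rw [Finset.sum_comm, hTdef]
      refine Finset.sum_congr rfl fun n _ => ?_
      rw [← Finset.sum_filter, Finset.sum_const, nsmul_eq_mul]
    have hmk : ∀ m : Fin k, (1/4 : ℝ) * ((N:ℝ) / W.totient) * A ^ 2 * B ^ (k-1) -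
        N / L ^ (K * (k+1)) ≤ Real.log (3 * N) * ∑ n ∈ (Finset.Ioc N (2*N)).filter
        (fun n => n ≡ v [MOD W] ∧ (n + h m).Prime), wn h lam n := fun m =>
      hN1 N hNN1 W v R ρ hW hWK hWD hρη hRJ hρJR hR100 h hhN hcop hdist m
    have hsum : (k:ℝ) * ((1/4 : ℝ) * (NW / F) * A ^ 2 * B ^ (k-1) - N / L ^ (K * (k+1))) ≤
        Real.log (3 * N) * T := by
      have e1 : (N:ℝ) / W.totient = NW / F := by
        rw [hNW, hF, dens]
        have : (0:ℝ) < W.totient := by exact_mod_cast Nat.totient_pos.2 hW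
        field_simp
      rw [hTm, Finset.mul_sum]
      have e2 := Finset.sum_le_sum fun (m : Fin k) (_ : m ∈ Finset.univ) => hmk m
      rw [Finset.sum_const, Finset.card_univ, Fintype.card_fin, nsmul_eq_mul, e1] at e2
      exact e2
    have hL3 : Real.log (3 * N) ≤ 5/4 * L := by
      rw [Real.log_mul (by norm_num) hNpos.ne']
      have h81 : Real.log 81 ≤ L := Real.log_le_log (by norm_num) (by exact_mod_cast hN81)
      have h3 : Real.log 81 = 4 * Real.log 3 := by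
        rw [show (81:ℝ) = 3 ^ 4 by norm_num, Real.log_pow]; norm_num
      linarith
    have hL3pos : 0 < Real.log (3 * N) := Real.log_pos (by linarith)
    have hL3k : (k:ℝ) ≤ Real.log (3 * N) :=
      hNk.trans (Real.log_le_log hNpos (by linarith))
    obtain ⟨k', hk'⟩ : ∃ k', k = k' + 1 := ⟨k - 1, by omega⟩
    have hkk' : k - 1 = k' := by omega
    have hMk : M = NW * B ^ (k' + 1) := by rw [hM, ← hk']
    rw [hkk'] at hsum
    rw [hMk]
    apply prime_part (A := A) (Cp := Cp) (J := (J:ℝ)) (L3 := Real.log (3 * N))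
      (k := (k:ℝ)) (E := N / L ^ (K * (k+1))) hFpos (by linarith) hNWpos (by linarith)
      (Nat.cast_nonneg J) hkpos hL3pos hpA hBpos.le hpB2 _ hsum
    · rw [← hMk]
      exact mul_le_mul hL3k hMge (by positivity) hL3pos.le
    · -- the key numerical inequality
      have hJ1R : 48000 * (c1:ℝ) ^ 2 * ((r:ℝ) + 1) ≤ (J:ℝ) + 1 := by exact_mod_cast hJ1
      have hJpos : (0:ℝ) < (J:ℝ) + 1 := by positivity
      have e1 : L / (200 * S) ≤ ℓ := by
        refine le_trans (le_of_eq ?_) hℓη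
        rw [hη]; ring
      have e2 : L / (200 * (3 * c1 * k * (J+1))) ≤ ℓ := by
        refine le_trans ?_ e1
        apply div_le_div_of_nonneg_left hLpos.le (by positivity)
        linarith
      have e3 : ((J:ℝ)+1) ^ 2 / 4 ≤ ((J:ℝ) / 2 + 1) ^ 2 := by
        have e4 : ((J:ℝ) / 2 + 1) ^ 2 - ((J:ℝ)+1) ^ 2 / 4 = (J:ℝ) / 2 + 3 / 4 := by ring
        have e5 : (0:ℝ) ≤ (J:ℝ) := Nat.cast_nonneg J
        linarith only [e4, e5]
      calc 16 * ((r:ℝ) + 1) * Cp * Real.log (3 * N)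
          ≤ 16 * ((r:ℝ) + 1) * c1 * (5/4 * L) := by
            apply mul_le_mul _ hL3 hL3pos.le (by positivity)
            exact mul_le_mul_of_nonneg_left hCpc (by positivity)
        _ = (48000 * (c1:ℝ) ^ 2 * ((r:ℝ) + 1)) * (L / (2400 * c1)) := by
            field_simp; ring
        _ ≤ ((J:ℝ) + 1) * (L / (2400 * c1)) :=
            mul_le_mul_of_nonneg_right hJ1R (by positivity)
        _ = (k * (((J:ℝ)+1) ^ 2 / 4)) * (L / (200 * (3 * c1 * k * (J+1)))) := by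
            field_simp; ring
        _ ≤ (k * ((J:ℝ) / 2 + 1) ^ 2) * ℓ := by
            apply mul_le_mul _ e2 (by positivity) (by positivity)
            exact mul_le_mul_of_nonneg_left e3 hkpos.le
  refine ⟨R, ρ, hδR, by exact_mod_cast hRN, ?_, ?_⟩
  · -- assembly
    set good := (Finset.Ioc N (2*N)).filter (fun n => n ≡ v [MOD W] ∧
        ∀ p ∈ P, ∀ i, p ∣ n + h i → (N:ℝ) ^ δ < p) with hgood
    set bad := (Finset.Ioc N (2*N)).filter (fun n => n ≡ v [MOD W] ∧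
        ∃ p ∈ P, (p:ℝ) ≤ (N:ℝ) ^ δ ∧ ∃ i, p ∣ n + h i) with hbad
    set X : ℕ → ℝ := fun n => ((Finset.univ.filter (fun i => (n + h i).Prime)).card : ℝ) with hX
    have hXk : ∀ n, X n ≤ k := by
      intro n
      have : (Finset.univ.filter (fun i : Fin k => (n + h i).Prime)).card ≤ k := by
        calc _ ≤ (Finset.univ : Finset (Fin k)).card := Finset.card_filter_le _ _
          _ = k := by simp
      rw [hX]
      exact Nat.cast_le.2 this
    have hr0 : (0:ℝ) ≤ r := Nat.cast_nonneg r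
    have hgoodbase : good = base.filter (fun n => ∀ p ∈ P, ∀ i, p ∣ n + h i → (N:ℝ) ^ δ < p) := by
      rw [hgood, hbase, Finset.filter_filter]
    have hbadbase : bad =
        base.filter (fun n => ¬ ∀ p ∈ P, ∀ i, p ∣ n + h i → (N:ℝ) ^ δ < p) := by
      rw [hbad, hbase, Finset.filter_filter]
      apply Finset.filter_congr
      intro n _
      apply and_congr_right
      intro _
      push Not
      constructor
      · rintro ⟨p, hp, hpN, i, hi⟩
        exact ⟨p, hp, i, hi, hpN⟩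
      · rintro ⟨p, hp, i, hi, hpN⟩
        exact ⟨p, hp, hpN, i, hi⟩
    have hsplit : ∑ n ∈ good, (X n - ((r:ℝ) - 1)) * wn h lam n +
        ∑ n ∈ bad, (X n - ((r:ℝ) - 1)) * wn h lam n =
        ∑ n ∈ base, (X n - ((r:ℝ) - 1)) * wn h lam n := by
      rw [hgoodbase, hbadbase, Finset.sum_filter_add_sum_filter_not]
    have hbadle : ∑ n ∈ bad, (X n - ((r:ℝ) - 1)) * wn h lam n ≤
        (k + 1) * ∑ n ∈ bad, wn h lam n := by
      rw [Finset.mul_sum]
      refine Finset.sum_le_sum fun n _ => mul_le_mul_of_nonneg_right ?_ (hwn0 n)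
      have := hXk n
      linarith
    have hbasege : ∑ n ∈ base, X n * wn h lam n - r * ∑ n ∈ base, wn h lam n ≤
        ∑ n ∈ base, (X n - ((r:ℝ) - 1)) * wn h lam n := by
      rw [Finset.mul_sum, ← Finset.sum_sub_distrib]
      refine Finset.sum_le_sum fun n _ => ?_
      have e1 := hwn0 n
      have e2 : (X n - ((r:ℝ) - 1)) * wn h lam n - (X n * wn h lam n - r * wn h lam n) =
          wn h lam n := by ring
      linarith only [e1, e2]
    have hrS : (r:ℝ) * ∑ n ∈ base, wn h lam n ≤ r * (3 * M) :=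
      mul_le_mul_of_nonneg_left hS1 hr0
    have hfinal : M ≤ ∑ n ∈ good, (X n - ((r:ℝ) - 1)) * wn h lam n := by
      have e1 : 0 ≤ (r:ℝ) * M := by positivity
      linarith
    refine le_trans ?_ hfinal
    refine le_trans ?_ hM0
    calc η ^ k * NW * (F * L) ^ k = NW * (F * (η * L)) ^ k := by
          rw [mul_pow, mul_pow, mul_pow]; ring
      _ ≤ NW * (F * ℓ) ^ k := by
          apply mul_le_mul_of_nonneg_left _ hNWpos.le
          apply pow_le_pow_left₀ (by positivity)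
          exact mul_le_mul_of_nonneg_left hℓη hFpos.le
  · intro s
    refine (lam_max hPprime g hg0 hg1 R s).trans ?_
    rw [← mul_pow]
    apply pow_le_pow_left₀ hsumR0
    refine hpR.trans ?_
    rw [mul_assoc]
    apply mul_le_mul_of_nonneg_left _ (by linarith)
    exact mul_le_mul_of_nonneg_left hlogRL hFpos.le

end Pool.Agent.Lib.MT
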